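import Pool.Agent.P.MP_064970_gt.I.SX

open scoped Manifold ContDiff
open MeasureTheory Set Filter Topology Metric
open scoped RealInnerProductSpace ENNReal ComplexConjugate Real

noncomputable section

namespace MW

universe u

theorem area0_of (hRLINE : S_RLINE) (hAREA00 : S_AREA00) : S_AREA0 := by
  classical
  intro M
  refine ⟨fun g hg => ?_, hRLINE M⟩
  obtain ⟨h1, h2⟩ := hAREA00 M g hg
  have hae : (fun y : ℂ => ∑' t : ℝ, if pt y t ∈ M.S ∧ M.N (pt y t) 2 ≠ 0 then g (pt y t) else 0)
      =ᵐ[volume] fun y : ℂ => ∑' t : ℝ, if pt y t ∈ M.S then g (pt y t) else 0 := by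
    filter_upwards [hRLINE M] with y hy
    refine tsum_congr fun t => ?_
    by_cases h : pt y t ∈ M.S
    · simp [h, hy t h]
    · simp [h]
  refine ⟨?_, ?_⟩
  · convert h1.aemeasurable.congr hae
  · rw [h2]
    convert lintegral_congr_ae hae

end MW
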