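import Pool.Agent.P.MP_064970_gt.I.SX

open scoped Manifold ContDiff
open MeasureTheory Set Filter Topology Metric
open scoped RealInnerProductSpace ENNReal ComplexConjugate Real

noncomputable section

namespace MW

universe u

/-- The sum of `g` over the points of `P` on the vertical line over `y`. -/
def AREA00_G (P : Set E) (g : E → ℝ≥0∞) (y : ℂ) : ℝ≥0∞ := ∑' t : ℝ, P.indicator g (pt y t)

theorem AREA00_G_mem {P : Set E} (hP : InjOn pr P) (g : E → ℝ≥0∞) {x : E} (hx : x ∈ P) :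
    AREA00_G P g (pr x) = g x := by
  unfold AREA00_G
  rw [tsum_eq_single (x 2)]
  · rw [pt_pr, indicator_of_mem hx]
  · intro t ht
    refine indicator_of_notMem (fun h => ht ?_) g
    have e : pt (pr x) t = x := hP h hx (pr_pt _ _)
    rw [← e, pt_two]

theorem AREA00_G_not {P : Set E} (g : E → ℝ≥0∞) {y : ℂ} (hy : y ∉ pr '' P) :
    AREA00_G P g y = 0 := by
  unfold AREA00_G
  have : ∀ t : ℝ, P.indicator g (pt y t) = 0 := fun t =>
    indicator_of_notMem (fun h => hy ⟨_, h, pr_pt _ _⟩) g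
  simp [this]

theorem AREA00_G_meas {P : Set E} (hm : MeasurableSet P) (hP : InjOn pr P) {g : E → ℝ≥0∞}
    (hg : Measurable g) : Measurable (AREA00_G P g) := by
  have he : MeasurableEmbedding (P.domRestrict pr) :=
    continuous_pr.continuousOn.measurableEmbedding hm hP
  have e : AREA00_G P g = Function.extend (P.domRestrict pr) (fun p : P => g p) fun _ => 0 := by
    funext y
    by_cases hy : y ∈ pr '' P
    · obtain ⟨x, hx, rfl⟩ := hy
      rw [AREA00_G_mem hP g hx]
      exact (he.injective.extend_apply (fun p : P => g p) (fun _ => 0) ⟨x, hx⟩).symm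
    · rw [AREA00_G_not g hy, Function.extend_apply']
      rintro ⟨⟨x, hx⟩, rfl⟩
      exact hy ⟨x, hx, rfl⟩
  rw [e]
  exact he.measurable_extend (hg.comp measurable_subtype_coe) measurable_const

theorem AREA00_det (M : Surf) {c : Chart} (hc : c.Fits M.S M.N M.μ) {z : ℂ}
    (hz : z ∈ ball (0 : ℂ) c.r) :
    |(prL.comp (c.DX z)).det| = |M.N (c.X z) 2| * c.jac z := by
  have h := c.abs_det_prA hz (LinearIsometryEquiv.refl ℝ E) (M.N_unit _ (hc.emb.mem hz))
    (hc.inner_Xu hz) (hc.inner_Xv hz) prL (fun x => rfl)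
  rw [h]
  have : ⟪M.N (c.X z), (LinearIsometryEquiv.refl ℝ E) e3⟫ = M.N (c.X z) 2 := inner_e3 _
  rw [this]

theorem AREA00_wmeas (M : Surf) {g : E → ℝ≥0∞} (hg : Measurable g) :
    Measurable fun x => g x * ENNReal.ofReal |M.N x 2| := by
  have h2 : Measurable fun x => M.N x 2 :=
    (EuclideanSpace.proj (2 : Fin 3) : E →L[ℝ] ℝ).continuous.measurable.comp M.N_meas
  exact hg.mul h2.abs.ennreal_ofReal

/-- The identity for a measurable piece of a chart on which the projection is injective. -/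
theorem AREA00_piece (M : Surf) {c : Chart} (hc : c.Fits M.S M.N M.μ)
    (hinj : InjOn (fun z => pr (c.X z)) (ball 0 c.r)) {g : E → ℝ≥0∞} (hg : Measurable g)
    {P : Set E} (hm : MeasurableSet P) (hP : P ⊆ c.X '' ball 0 c.r) :
    Measurable (AREA00_G P g) ∧
      ∫⁻ x in P, g x * ENNReal.ofReal |M.N x 2| ∂M.μ = ∫⁻ y, AREA00_G P g y := by
  classical
  have hPi : InjOn pr P := by
    intro x hx y hy e
    obtain ⟨z, hz, rfl⟩ := hP hx
    obtain ⟨w, hw, rfl⟩ := hP hy
    rw [hinj hz hw e]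
  have hG := AREA00_G_meas hm hPi hg
  refine ⟨hG, ?_⟩
  set B : Set ℂ := ball (0 : ℂ) c.r ∩ c.X ⁻¹' P with hB
  have hBs : B ⊆ ball 0 c.r := inter_subset_left
  have hBm : MeasurableSet B := by
    have hX : Measurable ((ball (0 : ℂ) c.r).piecewise c.X fun _ => 0) :=
      c.continuousOn_X.measurable_piecewise continuousOn_const measurableSet_ball
    have e : B = ball (0 : ℂ) c.r ∩ ((ball (0 : ℂ) c.r).piecewise c.X fun _ => 0) ⁻¹' P := by
      ext z
      constructor
      · rintro ⟨h1, h2⟩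
        exact ⟨h1, by rw [mem_preimage, piecewise_eq_of_mem _ _ _ h1]; exact h2⟩
      · rintro ⟨h1, h2⟩
        rw [mem_preimage, piecewise_eq_of_mem _ _ _ h1] at h2
        exact ⟨h1, h2⟩
    rw [e]
    exact measurableSet_ball.inter (hX hm)
  have hPB : c.X '' B = P := by
    apply Subset.antisymm
    · rintro _ ⟨z, hz, rfl⟩
      exact hz.2
    · intro x hx
      obtain ⟨z, hz, rfl⟩ := hP hx
      exact ⟨z, ⟨hz, hx⟩, rfl⟩
  have h1 : ∫⁻ x in P, g x * ENNReal.ofReal |M.N x 2| ∂M.μ =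
      ∫⁻ z in B, g (c.X z) * ENNReal.ofReal |M.N (c.X z) 2| * ENNReal.ofReal (c.jac z) := by
    rw [← hPB]
    exact hc.lintegral hBm hBs (AREA00_wmeas M hg)
  have h2 : ∫⁻ y in (fun z => pr (c.X z)) '' B, AREA00_G P g y =
      ∫⁻ z in B, ENNReal.ofReal |(prL.comp (c.DX z)).det| * AREA00_G P g (pr (c.X z)) :=
    lintegral_image_eq_lintegral_abs_det_fderiv_mul volume hBm
      (fun z hz => (prL.hasFDerivAt.comp z (c.hasFDerivAt_X (hBs hz))).hasFDerivWithinAt)
      (hinj.mono hBs) _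
  have h3 : ∫⁻ y in (fun z => pr (c.X z)) '' B, AREA00_G P g y = ∫⁻ y, AREA00_G P g y := by
    refine setLIntegral_eq_of_support_subset fun y hy => ?_
    by_contra hn
    refine hy (AREA00_G_not g ?_)
    rintro ⟨x, hx, rfl⟩
    rw [← hPB] at hx
    obtain ⟨z, hz, rfl⟩ := hx
    exact hn ⟨z, hz, rfl⟩
  rw [h1, ← h3, h2]
  refine setLIntegral_congr_fun hBm fun z hz => ?_
  simp only
  rw [AREA00_det M hc (hBs hz), AREA00_G_mem hPi g hz.2, ENNReal.ofReal_mul (abs_nonneg _)]
  ring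

/-- Near a point with a normal that is not horizontal the projection is injective. -/
theorem AREA00_local (M : Surf) {p : E} (hp : p ∈ M.S) (hN : M.N p 2 ≠ 0) :
    ∃ c : Chart, c.X 0 = p ∧ c.Fits M.S M.N M.μ ∧ InjOn (fun z => pr (c.X z)) (ball 0 c.r) := by
  obtain ⟨c, hc0, hc⟩ := M.chart p hp
  have h0 : (0 : ℂ) ∈ ball (0 : ℂ) c.r := mem_ball_self c.r_pos
  have hdet : (prL.comp (c.DX 0)).det ≠ 0 := by
    rw [← abs_ne_zero, AREA00_det M hc h0, hc0]
    exact mul_ne_zero (abs_ne_zero.2 hN) (c.jac_pos h0).ne'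
  have hs : HasStrictFDerivAt c.X (c.DX 0) 0 := by
    have h := (c.analyticOnNhd_X 0 h0).hasStrictFDerivAt
    rwa [(c.hasFDerivAt_X h0).fderiv] at h
  have hs' : HasStrictFDerivAt (fun z => pr (c.X z))
      (((prL.comp (c.DX 0)).toContinuousLinearEquivOfDetNeZero hdet : ℂ ≃L[ℝ] ℂ) : ℂ →L[ℝ] ℂ) 0 := by
    rw [ContinuousLinearMap.coe_toContinuousLinearEquivOfDetNeZero]
    exact prL.hasStrictFDerivAt.comp 0 hs
  have hl := hs'.eventually_left_inverse
  obtain ⟨ρ, hρ, hb⟩ := Metric.eventually_nhds_iff_ball.1 hl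
  refine ⟨c.shrink (min ρ c.r) (lt_min hρ c.r_pos) (min_le_right _ _), hc0,
    hc.shrink _ _ _, ?_⟩
  intro z hz w hw e
  have hz' := hb z (ball_subset_ball (min_le_left _ _) hz)
  have hw' := hb w (ball_subset_ball (min_le_left _ _) hw)
  have e' : pr (c.X z) = pr (c.X w) := e
  rw [← hz', ← hw', e']

/-- A countable cover of the part of the surface with a normal that is not horizontal. -/
theorem AREA00_cover (M : Surf) {g : E → ℝ≥0∞} (hg : Measurable g) :
    ∃ V : ℕ → Set E, (∀ n, MeasurableSet (V n)) ∧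
      (∀ n P, MeasurableSet P → P ⊆ V n → Measurable (AREA00_G P g) ∧
        ∫⁻ x in P, g x * ENNReal.ofReal |M.N x 2| ∂M.μ = ∫⁻ y, AREA00_G P g y) ∧
      {x | x ∈ M.S ∧ M.N x 2 ≠ 0} ⊆ ⋃ n, V n := by
  have hch : ∀ p : E, ∃ V : Set E, MeasurableSet V ∧
      (∀ P, MeasurableSet P → P ⊆ V → Measurable (AREA00_G P g) ∧
        ∫⁻ x in P, g x * ENNReal.ofReal |M.N x 2| ∂M.μ = ∫⁻ y, AREA00_G P g y) ∧
      (p ∈ {x | x ∈ M.S ∧ M.N x 2 ≠ 0} → V ∈ 𝓝[{x | x ∈ M.S ∧ M.N x 2 ≠ 0}] p) := by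
    intro p
    by_cases hp : p ∈ {x | x ∈ M.S ∧ M.N x 2 ≠ 0}
    · obtain ⟨c, hc0, hc, hinj⟩ := AREA00_local M hp.1 hp.2
      refine ⟨c.X '' ball 0 c.r, hc.emb.measurableSet_image measurableSet_ball subset_rfl,
        fun P hm hP => AREA00_piece M hc hinj hg hm hP, fun _ => ?_⟩
      obtain ⟨U, hU, hUe⟩ := hc.opn (ball 0 c.r) isOpen_ball subset_rfl
      have hpU : p ∈ U := by
        have : p ∈ c.X '' ball (0 : ℂ) c.r := ⟨0, mem_ball_self c.r_pos, hc0⟩
        rw [hUe] at this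
        exact this.2
      rw [hUe]
      exact nhdsWithin_mono p (fun x hx => hx.1) (inter_mem_nhdsWithin _ (hU.mem_nhds hpU))
    · refine ⟨∅, MeasurableSet.empty, fun P _ hP => ?_, fun h => absurd h hp⟩
      have e : P = ∅ := subset_empty_iff.1 hP
      have e' : AREA00_G P g = fun _ => 0 := by
        funext y
        exact AREA00_G_not g (by rw [e]; simp)
      rw [e', e]
      exact ⟨measurable_const, by simp⟩
  choose V hVm hVg hVn using hch
  obtain ⟨t, -, htc, hcov⟩ := TopologicalSpace.countable_cover_nhdsWithin hVn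
  obtain ⟨e, he⟩ := (htc.insert 0).exists_eq_range (insert_nonempty _ _)
  refine ⟨fun n => V (e n), fun n => hVm _, fun n => hVg _, fun x hx => ?_⟩
  obtain ⟨p, hp⟩ := mem_iUnion.1 (hcov hx)
  obtain ⟨hpt, hxp⟩ := mem_iUnion.1 hp
  have hp' : p ∈ range e := he ▸ mem_insert_of_mem _ hpt
  obtain ⟨n, rfl⟩ := hp'
  exact mem_iUnion.2 ⟨n, hxp⟩

theorem area00_of : S_AREA00 := by
  classical
  intro M g hg
  obtain ⟨V, hVm, hVg, hcov⟩ := AREA00_cover M hg
  set T : Set E := {x | x ∈ M.S ∧ M.N x 2 ≠ 0} with hT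
  have h2 : Measurable fun x => M.N x 2 :=
    (EuclideanSpace.proj (2 : Fin 3) : E →L[ℝ] ℝ).continuous.measurable.comp M.N_meas
  have hTm : MeasurableSet T :=
    M.measurableSet_S.inter (h2 (measurableSet_singleton 0).compl)
  set P : ℕ → Set E := fun n => T ∩ disjointed V n with hPd
  have hPm : ∀ n, MeasurableSet (P n) := fun n => hTm.inter (MeasurableSet.disjointed hVm n)
  have hPs : ∀ n, P n ⊆ V n := fun n => inter_subset_right.trans (disjointed_subset V n)
  have hPj : Pairwise (Function.onFun Disjoint P) := fun m n hmn =>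
    (disjoint_disjointed V hmn).mono inter_subset_right inter_subset_right
  have hPU : ⋃ n, P n = T := by
    rw [hPd, ← inter_iUnion, iUnion_disjointed]
    exact inter_eq_left.2 hcov
  have hind : ∀ x, (if x ∈ M.S ∧ M.N x 2 ≠ 0 then g x else 0) = ∑' n, (P n).indicator g x := by
    intro x
    by_cases hx : x ∈ M.S ∧ M.N x 2 ≠ 0
    · rw [if_pos hx]
      have hx' : x ∈ ⋃ n, P n := by rw [hPU]; exact hx
      obtain ⟨n, hn⟩ := mem_iUnion.1 hx'
      rw [tsum_eq_single n, indicator_of_mem hn]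
      intro m hm
      exact indicator_of_notMem (fun h => disjoint_left.1 (hPj hm) h hn) g
    · rw [if_neg hx]
      have : ∀ n, (P n).indicator g x = 0 := fun n =>
        indicator_of_notMem (fun h => hx h.1) g
      simp [this]
  have hfun : (fun y : ℂ =>
      ∑' t : ℝ, if pt y t ∈ M.S ∧ M.N (pt y t) 2 ≠ 0 then g (pt y t) else 0) =
      fun y => ∑' n, AREA00_G (P n) g y := by
    funext y
    simp only [hind, AREA00_G]
    exact ENNReal.tsum_comm
  have hGm : ∀ n, Measurable (AREA00_G (P n) g) := fun n => (hVg n _ (hPm n) (hPs n)).1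
  rw [hfun]
  refine ⟨Measurable.tsum hGm, ?_⟩
  rw [lintegral_tsum fun n => (hGm n).aemeasurable]
  have h1 : ∫⁻ x, g x * ENNReal.ofReal |M.N x 2| ∂M.μ =
      ∫⁻ x in T, g x * ENNReal.ofReal |M.N x 2| ∂M.μ := by
    rw [← lintegral_indicator hTm]
    refine lintegral_congr_ae ?_
    filter_upwards [M.ae_mem] with x hx
    by_cases h : M.N x 2 = 0
    · rw [indicator_of_notMem (fun hx' => hx'.2 h), h]
      simp
    · rw [indicator_of_mem (show x ∈ T from ⟨hx, h⟩)]
  rw [h1, ← hPU, lintegral_iUnion hPm hPj]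
  exact tsum_congr fun n => (hVg n _ (hPm n) (hPs n)).2

end MW
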