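import Pool.Agent.P.MP_064970_gt.I.SX

open scoped Manifold ContDiff
open MeasureTheory Set Filter Topology Metric
open scoped RealInnerProductSpace ENNReal ComplexConjugate Real

noncomputable section

namespace MW

universe u

theorem AREALE_meas {α β : Type*} [TopologicalSpace α] [MeasurableSpace α] [OpensMeasurableSpace α]
    [TopologicalSpace β] [MeasurableSpace β] [BorelSpace β] {s : Set α} (hs : MeasurableSet s)
    {g : α → β} (hg : ContinuousOn g s) {P : Set β} (hP : MeasurableSet P) :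
    MeasurableSet (s ∩ g ⁻¹' P) := by
  have h := (MeasurableEmbedding.subtype_coe hs).measurableSet_image.2
    (hg.domRestrict.measurable hP)
  have e : Subtype.val '' (s.domRestrict g ⁻¹' P) = s ∩ g ⁻¹' P := by
    ext x
    exact ⟨fun ⟨y, hy, hx⟩ => hx ▸ ⟨y.2, hy⟩, fun hx => ⟨⟨x, hx.1⟩, hx.2, rfl⟩⟩
  rwa [e] at h

theorem AREALE_gram (F : E2 → E) (z : ℂ) :
    gramC (F ∘ Complex.orthonormalBasisOneI.repr) z
      = areaEl F (Complex.orthonormalBasisOneI.repr z) := by
  have h := (Complex.orthonormalBasisOneI.repr.toContinuousLinearEquiv).comp_right_fderiv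
    (f := F) (x := z)
  have h1 : Complex.orthonormalBasisOneI.repr 1 = EuclideanSpace.single 0 1 := by
    ext i
    fin_cases i <;> simp
  have h2 : Complex.orthonormalBasisOneI.repr Complex.I = EuclideanSpace.single 1 1 := by
    ext i
    fin_cases i <;> simp
  have h3 : ∀ w, fderiv ℝ (F ∘ Complex.orthonormalBasisOneI.repr) z w =
      fderiv ℝ F (Complex.orthonormalBasisOneI.repr z) (Complex.orthonormalBasisOneI.repr w) :=
    fun w => congrArg (fun L : ℂ →L[ℝ] E => L w) h
  rw [gramC, h3, h3, h1, h2, areaEl, gram, gram, gram, real_inner_self_eq_norm_sq,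
    real_inner_self_eq_norm_sq, d1, d1]

theorem AREALE_piece (hCOMPAT : S_COMPAT) {M : Type u} [TopologicalSpace M] [ChartedSpace E2 M]
    [IsManifold (𝓡 2) ∞ M] [MeasurableSpace M] [BorelSpace M] {f : M → E}
    (hf : ContMDiff (𝓡 2) (𝓡 3) ∞ f) {m : Measure M} (c : PChart f)
    (hm : ∀ A : Set ℂ, MeasurableSet A → A ⊆ ball 0 c.r →
      m (c.ψ '' A) = ∫⁻ z in A, ENNReal.ofReal (c.jac z)) (p : M) {P : Set M}
    (hP : MeasurableSet P) (h1 : P ⊆ (chartAt E2 p).source) (h2 : P ⊆ c.ψ.target) :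
    m P = ∫⁻ u in (chartAt E2 p).target ∩ (chartAt E2 p).symm ⁻¹' P,
      ENNReal.ofReal (areaEl (loc f p) u) := by
  have hF : DifferentiableOn ℝ (loc f p) (chartAt E2 p).target :=
    (contMDiffOn_iff_contDiffOn.1 (hf.comp_contMDiffOn contMDiffOn_chart_symm)).differentiableOn
      (by simp)
  obtain ⟨ι, hι⟩ : ∃ ι : ℂ ≃ₗᵢ[ℝ] E2, ι = Complex.orthonormalBasisOneI.repr := ⟨_, rfl⟩
  have hloc : ∀ v, loc f p v = f ((chartAt E2 p).symm v) := fun v => rfl
  have hg : ∀ z, gramC (loc f p ∘ ι) z = areaEl (loc f p) (ι z) := fun z => hι ▸ AREALE_gram _ z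
  generalize chartAt E2 p = e at *
  have hsrc : ∀ y ∈ c.ψ.target, c.ψ.symm y ∈ ball (0 : ℂ) c.r := fun y hy =>
    c.src ▸ c.ψ.map_target hy
  obtain ⟨-, -, key⟩ := hCOMPAT c.toChart (loc f p ∘ ι) (fun z => c.ψ.symm (e.symm (ι z)))
    (ι ⁻¹' (e.target ∩ e.symm ⁻¹' c.ψ.target))
    ((e.continuousOn_symm.isOpen_inter_preimage e.open_target c.ψ.open_target).preimage
      ι.continuous)
    (c.ψ.continuousOn_symm.comp (e.continuousOn_symm.comp ι.continuous.continuousOn
      fun z hz => hz.1) fun z hz => hz.2)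
    (fun z hz => hsrc _ hz.2)
    (fun z hz => by rw [← c.eq _ (hsrc _ hz.2), c.ψ.right_inv hz.2, Function.comp_apply, hloc])
    (hF.comp ι.toContinuousLinearEquiv.differentiable.differentiableOn fun z hz => hz.1)
  have hA : MeasurableSet (e.target ∩ e.symm ⁻¹' P) :=
    AREALE_meas e.open_target.measurableSet e.continuousOn_symm hP
  have h3 := key (fun z hz z' hz' h => ι.injective (e.symm.injOn hz.1 hz'.1
    (c.ψ.symm.injOn hz.2 hz'.2 h))) (ι ⁻¹' (e.target ∩ e.symm ⁻¹' P))
    (ι.continuous.measurable hA) fun z hz => ⟨hz.1, h2 hz.2⟩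
  have h4 : (fun z => c.ψ.symm (e.symm (ι z))) '' (ι ⁻¹' (e.target ∩ e.symm ⁻¹' P)) =
      ball 0 c.r ∩ c.ψ ⁻¹' P := by
    ext w
    constructor
    · rintro ⟨z, hz, rfl⟩
      refine ⟨hsrc _ (h2 hz.2), ?_⟩
      rw [mem_preimage, c.ψ.right_inv (h2 hz.2)]
      exact hz.2
    · rintro ⟨hw, hwP⟩
      refine ⟨ι.symm (e (c.ψ w)), ?_, ?_⟩
      · rw [mem_preimage, ι.apply_symm_apply]
        refine ⟨e.map_source (h1 hwP), ?_⟩
        rw [mem_preimage, e.left_inv (h1 hwP)]
        exact hwP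
      · beta_reduce
        rw [ι.apply_symm_apply, e.left_inv (h1 hwP), c.ψ.left_inv (c.src ▸ hw)]
  have h5 : c.ψ '' (ball 0 c.r ∩ c.ψ ⁻¹' P) = P := by
    refine Subset.antisymm (image_subset_iff.2 inter_subset_right) fun y hy => ?_
    refine ⟨c.ψ.symm y, ⟨hsrc _ (h2 hy), ?_⟩, c.ψ.right_inv (h2 hy)⟩
    rw [mem_preimage, c.ψ.right_inv (h2 hy)]
    exact hy
  have h6 := hm _ (AREALE_meas measurableSet_ball (c.src ▸ c.ψ.continuousOn) hP) inter_subset_left
  rw [h5, ← h4, h3] at h6
  rw [h6, ← ι.measurePreserving.setLIntegral_comp_preimage_emb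
    ι.toHomeomorph.measurableEmbedding]
  simp only [hg]

/- Hint. Countably many points p_n with open sets O_n = (chartAt p_n).source cap psi_n.target covering M,
P_n = U cap disjointed O_n (measurable). A_n = chart p_n '' P_n is measurable, in the target,
chart.symm '' A_n = P_n. COMPAT with Y = loc f p_n o iota, g = psi_n.symm o chart.symm o iota on
the open set iota preimage (chart '' O_n): m P_n = int over g '' B_n of jac = int over B_n of
gramC Y = int over A_n of areaEl (iota = Complex.orthonormalBasisOneI.repr is measure preserving;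
gramC (F o iota) z = areaEl F (iota z)). m U <= tsum m P_n = sup of finite sums
(ENNReal.tsum_eq_iSup_nat, Finset.sum_range), each <= area by le_iSup_of_le. -/
theorem areale_of (hCOMPAT : S_COMPAT) : S_AREALE.{u} := by
  intro M _ _ _ _ _ _ f hf hc m hm U hU
  rcases U.eq_empty_or_nonempty with rfl | ⟨p₀, -⟩
  · rw [measure_empty]
    exact zero_le
  choose c hc using hc
  have hc' : ∀ p, p ∈ (c p).ψ.target := fun p => by
    have h := (c p).ψ.map_source (x := 0) ((c p).src ▸ mem_ball_self (c p).r_pos)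
    rwa [hc p] at h
  obtain ⟨s, hs, hcov⟩ := TopologicalSpace.countable_cover_nhds
    (f := fun p : M => (chartAt E2 p).source ∩ (c p).ψ.target) fun p =>
      inter_mem (chart_source_mem_nhds E2 p) ((c p).ψ.open_target.mem_nhds (hc' p))
  have hne : s.Nonempty := by
    obtain ⟨p, hp, -⟩ := mem_iUnion₂.1 (hcov ▸ mem_univ p₀ :
      p₀ ∈ ⋃ p ∈ s, (chartAt E2 p).source ∩ (c p).ψ.target)
    exact ⟨p, hp⟩
  obtain ⟨p, rfl⟩ := hs.exists_eq_range hne
  rw [biUnion_range] at hcov
  obtain ⟨O, hO⟩ : ∃ O : ℕ → Set M, O = fun n => (chartAt E2 (p n)).source ∩ (c (p n)).ψ.target :=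
    ⟨_, rfl⟩
  have hOm : ∀ n, MeasurableSet (O n) := fun n => by
    rw [hO]
    exact ((chartAt E2 (p n)).open_source.inter (c (p n)).ψ.open_target).measurableSet
  have hP : ∀ n, MeasurableSet (U ∩ disjointed O n) := fun n =>
    hU.measurableSet.inter (MeasurableSet.disjointed hOm n)
  have hsub : ∀ n, U ∩ disjointed O n ⊆ (chartAt E2 (p n)).source ∩ (c (p n)).ψ.target := fun n =>
    (inter_subset_right.trans (disjointed_subset O n)).trans (by rw [hO])
  have him : ∀ n, (chartAt E2 (p n)).symm '' ((chartAt E2 (p n)).target ∩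
      (chartAt E2 (p n)).symm ⁻¹' (U ∩ disjointed O n)) ⊆ U ∩ disjointed O n := fun n =>
    image_subset_iff.2 inter_subset_right
  have h1 : U = ⋃ n, U ∩ disjointed O n := by
    rw [← inter_iUnion, iUnion_disjointed, hO, hcov, inter_univ]
  refine (le_of_eq_of_le (congrArg m h1) (measure_iUnion_le _)).trans ?_
  rw [ENNReal.tsum_eq_iSup_nat]
  refine iSup_le fun n => ?_
  rw [Finset.sum_range]
  refine le_iSup_of_le n (le_iSup_of_le (fun i => p i) (le_iSup_of_le (fun i =>
    (chartAt E2 (p i)).target ∩ (chartAt E2 (p i)).symm ⁻¹' (U ∩ disjointed O i))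
    (le_iSup_of_le (fun i => ⟨?_, inter_subset_left, (him i).trans inter_subset_left⟩)
    (le_iSup_of_le (fun i j hij => ?_) (le_of_eq (Finset.sum_congr rfl fun i _ => ?_))))))
  · exact AREALE_meas (chartAt E2 (p i)).open_target.measurableSet
      (chartAt E2 (p i)).continuousOn_symm (hP i)
  · exact (disjoint_disjointed O fun h => hij (Fin.ext h)).mono
      ((him i).trans inter_subset_right) ((him j).trans inter_subset_right)
  · exact AREALE_piece hCOMPAT hf (c (p i)) (hm _) (p i) (hP i)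
      ((hsub i).trans inter_subset_left) ((hsub i).trans inter_subset_right)

end MW
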