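import Pool.Agent.P.MP_064970_gt.I.SX

open scoped Manifold ContDiff
open MeasureTheory Set Filter Topology Metric
open scoped RealInnerProductSpace ENNReal ComplexConjugate Real

noncomputable section

namespace MW

universe u

/-- A regular vertical line meets the surface in finitely many points of bounded height. -/
theorem AREAR_fin {M : Surf} (hM : M.Mem) {y : ℂ}
    (hy : ∀ t : ℝ, pt y t ∈ M.S → M.N (pt y t) 2 ≠ 0) (R : ℝ) :
    {t : ℝ | pt y t ∈ M.S ∧ |t| ≤ R}.Finite := by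
  have h1 : ∀ t : ℝ, pt y 0 + t • e3 = pt y t := fun t => by rw [pt_add_smul_e3, zero_add]
  have h2 := M.basic_finite (a := pt y 0) (v := e3) (p := -R) (q := R)
    (fun t _ => hM.sub univ (mem_univ _))
    (fun t _ ht => by
      rw [h1] at ht ⊢
      rw [e3_inner]
      exact hy t ht)
  refine h2.subset fun t ht => ⟨abs_le.1 ht.2, ?_⟩
  rw [h1]
  exact ht.1

theorem AREAR_supp {g : E → ℝ} {R : ℝ} (h0 : ∀ x, R ≤ ‖x‖ → g x = 0) {y : ℂ} {t : ℝ}
    (ht : g (pt y t) ≠ 0) : |t| ≤ R := by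
  have h1 : ‖pt y t‖ < R := lt_of_not_ge fun h => ht (h0 _ h)
  have h2 := abs_two_le (pt y t)
  rw [pt_two] at h2
  exact h2.trans h1.le

/-- The finite sum over the points on a line. -/
theorem AREAR_sum {M : Surf} {g : E → ℝ} {R : ℝ} (h0 : ∀ x, R ≤ ‖x‖ → g x = 0) {y : ℂ}
    (hf : {t : ℝ | pt y t ∈ M.S ∧ |t| ≤ R}.Finite) :
    ∑ᶠ t ∈ {t : ℝ | pt y t ∈ M.S}, g (pt y t) = ∑ t ∈ hf.toFinset, g (pt y t) := by
  refine finsum_mem_eq_sum_of_inter_support_eq (fun t => g (pt y t)) ?_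
  ext t
  simp only [mem_inter_iff, mem_ofPred_eq, Function.mem_support, Finite.coe_toFinset]
  exact ⟨fun h => ⟨⟨h.1, AREAR_supp h0 h.2⟩, h.2⟩, fun h => ⟨h.1.1, h.2⟩⟩

open Classical in
theorem AREAR_tsum {M : Surf} {g : E → ℝ} {R : ℝ} (hg : ∀ x, 0 ≤ g x)
    (h0 : ∀ x, R ≤ ‖x‖ → g x = 0) {y : ℂ} (hf : {t : ℝ | pt y t ∈ M.S ∧ |t| ≤ R}.Finite) :
    (∑' t : ℝ, if pt y t ∈ M.S then ENNReal.ofReal (g (pt y t)) else 0)
      = ENNReal.ofReal (∑ t ∈ hf.toFinset, g (pt y t)) := by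
  rw [tsum_eq_sum (s := hf.toFinset), ENNReal.ofReal_sum_of_nonneg fun t _ => hg _]
  · refine Finset.sum_congr rfl fun t ht => ?_
    rw [Finite.mem_toFinset] at ht
    rw [if_pos ht.1]
  · intro t ht
    rw [Finite.mem_toFinset] at ht
    split_ifs with h
    · have : g (pt y t) = 0 := by
        by_contra hne
        exact ht ⟨h, AREAR_supp h0 hne⟩
      rw [this, ENNReal.ofReal_zero]
    · rfl

theorem AREAR_int {M : Surf} (hM : M.Mem) {g : E → ℝ} {R C : ℝ} (hg : Measurable g)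
    (hC : ∀ x, |g x| ≤ C) (h0 : ∀ x, R ≤ ‖x‖ → g x = 0) :
    Integrable (fun x => g x * |M.N x 2|) M.μ := by
  have hN : Measurable fun x => M.N x 2 :=
    (EuclideanSpace.proj (2 : Fin 3) : E →L[ℝ] ℝ).continuous.measurable.comp M.N_meas
  refine hM.bd.integrable (A := ball 0 R) isBounded_ball (hg.mul hN.abs) (C := C)
    (fun x hx => ?_) fun x _ hx => ?_
  · have h1 := abs_two_le (M.N x)
    rw [M.N_unit x hx] at h1
    rw [abs_mul, abs_abs]
    exact (mul_le_of_le_one_right (abs_nonneg _) h1).trans (hC x)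
  · rw [mem_ball_zero_iff, not_lt] at hx
    rw [h0 x hx, zero_mul]

/-- The formula for nonnegative functions. -/
theorem AREAR_pos (hAREA0 : S_AREA0) {M : Surf} (hM : M.Mem) {g : E → ℝ} {R C : ℝ}
    (hg : Measurable g) (hpos : ∀ x, 0 ≤ g x) (hC : ∀ x, |g x| ≤ C)
    (h0 : ∀ x, R ≤ ‖x‖ → g x = 0) :
    Integrable (fun y : ℂ => ∑ᶠ t ∈ {t : ℝ | pt y t ∈ M.S}, g (pt y t)) ∧
    ∫ x, g x * |M.N x 2| ∂M.μ = ∫ y : ℂ, ∑ᶠ t ∈ {t : ℝ | pt y t ∈ M.S}, g (pt y t) := by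
  classical
  obtain ⟨h1, hreg⟩ := hAREA0 M
  obtain ⟨hm, he⟩ := h1 (fun x => ENNReal.ofReal (g x)) hg.ennreal_ofReal
  have hint := AREAR_int hM hg hC h0
  have hnn : ∀ x, 0 ≤ g x * |M.N x 2| := fun x => mul_nonneg (hpos x) (abs_nonneg _)
  have h2 : ∫⁻ x, ENNReal.ofReal (g x) * ENNReal.ofReal |M.N x 2| ∂M.μ
      = ENNReal.ofReal (∫ x, g x * |M.N x 2| ∂M.μ) := by
    rw [ofReal_integral_eq_lintegral_ofReal hint (Eventually.of_forall hnn)]
    exact lintegral_congr fun x => (ENNReal.ofReal_mul (hpos x)).symm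
  rw [h2] at he
  set Φ : ℂ → ℝ≥0∞ := fun y => ∑' t : ℝ,
    @ite _ (pt y t ∈ M.S) (Classical.propDecidable _) (ENNReal.ofReal (g (pt y t))) 0 with hΦ
  have h3 : ∀ᵐ y : ℂ, Φ y < ⊤ ∧
      (Φ y).toReal = ∑ᶠ t ∈ {t : ℝ | pt y t ∈ M.S}, g (pt y t) := by
    refine hreg.mono fun y hy => ?_
    have hf := AREAR_fin hM hy R
    have h4 : Φ y = ENNReal.ofReal (∑ t ∈ hf.toFinset, g (pt y t)) := AREAR_tsum hpos h0 hf
    rw [h4, AREAR_sum h0 hf, ENNReal.toReal_ofReal (Finset.sum_nonneg fun t _ => hpos _)]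
    exact ⟨ENNReal.ofReal_lt_top, rfl⟩
  have h5 : (fun y => (Φ y).toReal) =ᵐ[volume]
      fun y : ℂ => ∑ᶠ t ∈ {t : ℝ | pt y t ∈ M.S}, g (pt y t) := h3.mono fun y hy => hy.2
  have h6 : ∫⁻ y, Φ y ≠ ⊤ := by
    rw [← he]
    exact ENNReal.ofReal_ne_top
  refine ⟨(integrable_toReal_of_lintegral_ne_top hm h6).congr h5, ?_⟩
  rw [← integral_congr_ae h5, integral_toReal hm (h3.mono fun y hy => hy.1), ← he,
    ENNReal.toReal_ofReal (integral_nonneg hnn)]

/- Hint. Regular lines meet S in finitely many points with |t| <= R (compact and isolated: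
Surf.basic_finite in B/Basic.lean, or Surf.par). Split g = g+ - g-; for g >= 0 apply AREA0 to
ofReal g: the left side is finite (bounded, support in ball 0 R, Bd.lt_top); on a regular line the
tsum is ofReal of the finsum (finite support: tsum_eq_finsum, finsum_mem_eq_sum,
ENNReal.ofReal_sum_of_nonneg); integrable_toReal_of_lintegral_ne_top,
integral_eq_lintegral_of_nonneg_ae. -/
theorem arear_of (hAREA0 : S_AREA0) : S_AREAR := by
  intro M hM g R C hg hC h0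
  have hfin : ∀ᵐ y : ℂ, {t : ℝ | pt y t ∈ M.S ∧ |t| ≤ R}.Finite :=
    (hAREA0 M).2.mono fun y hy => AREAR_fin hM hy R
  have hp0 : ∀ x, R ≤ ‖x‖ → max (g x) 0 = 0 := fun x hx => by rw [h0 x hx, max_self]
  have hn0 : ∀ x, R ≤ ‖x‖ → max (-g x) 0 = 0 := fun x hx => by rw [h0 x hx, neg_zero, max_self]
  have hpC : ∀ x, |max (g x) 0| ≤ C := fun x => by
    rw [abs_of_nonneg (le_max_right _ _)]
    exact max_le ((le_abs_self _).trans (hC x)) ((abs_nonneg _).trans (hC x))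
  have hnC : ∀ x, |max (-g x) 0| ≤ C := fun x => by
    rw [abs_of_nonneg (le_max_right _ _)]
    exact max_le ((neg_le_abs _).trans (hC x)) ((abs_nonneg _).trans (hC x))
  have hpm : Measurable fun x => max (g x) 0 := hg.max measurable_const
  have hnm : Measurable fun x => max (-g x) 0 := hg.neg.max measurable_const
  obtain ⟨hp1, hp2⟩ := AREAR_pos hAREA0 hM hpm (fun x => le_max_right _ _) hpC hp0
  obtain ⟨hn1, hn2⟩ := AREAR_pos hAREA0 hM hnm (fun x => le_max_right _ _) hnC hn0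
  have hsplit : ∀ x, max (g x) 0 - max (-g x) 0 = g x := fun x => max_zero_sub_max_neg_zero_eq_self _
  have hae : (fun y : ℂ => (∑ᶠ t ∈ {t : ℝ | pt y t ∈ M.S}, max (g (pt y t)) 0)
        - ∑ᶠ t ∈ {t : ℝ | pt y t ∈ M.S}, max (-g (pt y t)) 0) =ᵐ[volume]
      fun y : ℂ => ∑ᶠ t ∈ {t : ℝ | pt y t ∈ M.S}, g (pt y t) := by
    refine hfin.mono fun y hf => ?_
    simp only
    rw [AREAR_sum hp0 hf, AREAR_sum hn0 hf, AREAR_sum h0 hf, ← Finset.sum_sub_distrib]
    exact Finset.sum_congr rfl fun t _ => hsplit _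
  refine ⟨hfin, (hp1.sub hn1).congr hae, ?_⟩
  rw [← integral_congr_ae hae, integral_sub hp1 hn1, ← hp2, ← hn2,
    ← integral_sub (AREAR_int hM hpm hpC hp0) (AREAR_int hM hnm hnC hn0)]
  refine integral_congr_ae (Eventually.of_forall fun x => ?_)
  simp only
  rw [← sub_mul, hsplit]

end MW
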