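import Pool.Agent.P.MP_064970_gt.I.SX

open scoped Manifold ContDiff
open MeasureTheory Set Filter Topology Metric
open scoped RealInnerProductSpace ENNReal ComplexConjugate Real

noncomputable section

namespace MW

universe u

theorem BILIP_Xu {c : Chart} (h : c.BiLip) {z : ℂ} (hz : z ∈ ball (0 : ℂ) c.r) :
    1 / 2 ≤ ‖c.Xu z‖ ∧ ‖c.Xu z‖ ≤ 2 := by
  have h1 : HasDerivAt (fun t : ℝ => z + (t : ℂ)) 1 0 := by
    simpa using (Complex.ofRealCLM.hasDerivAt (x := (0 : ℝ))).const_add z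
  have h2 : HasFDerivAt c.X (c.DX z) (z + ((0 : ℝ) : ℂ)) := by
    simpa using c.hasFDerivAt_X hz
  have h3 := h2.comp_hasDerivAt (0 : ℝ) h1
  rw [c.DX_one, hasDerivAt_iff_tendsto_slope_zero] at h3
  have h4 : ∀ᶠ t : ℝ in 𝓝 0, z + (t : ℂ) ∈ ball (0 : ℂ) c.r := by
    refine h1.continuousAt.eventually (isOpen_ball.mem_nhds ?_)
    simpa using hz
  have h5 : ∀ᶠ t : ℝ in 𝓝[≠] 0,
      1 / 2 ≤ ‖t⁻¹ • ((c.X ∘ fun t : ℝ => z + (t : ℂ)) (0 + t) -
        (c.X ∘ fun t : ℝ => z + (t : ℂ)) 0)‖ ∧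
      ‖t⁻¹ • ((c.X ∘ fun t : ℝ => z + (t : ℂ)) (0 + t) -
        (c.X ∘ fun t : ℝ => z + (t : ℂ)) 0)‖ ≤ 2 := by
    filter_upwards [self_mem_nhdsWithin, nhdsWithin_le_nhds h4] with t ht0 ht
    have ht1 : 0 < |t| := abs_pos.2 ht0
    have h6 := h _ ht z hz
    simp only [add_sub_cancel_left, Complex.norm_real, Real.norm_eq_abs] at h6
    simp only [Function.comp_apply, zero_add, Complex.ofReal_zero, add_zero, norm_smul, norm_inv,
      Real.norm_eq_abs]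
    rw [inv_mul_eq_div, le_div_iff₀ ht1, div_le_iff₀ ht1]
    constructor <;> linarith [h6.1, h6.2]
  exact ⟨ge_of_tendsto h3.norm (h5.mono fun t ht => ht.1),
    le_of_tendsto h3.norm (h5.mono fun t ht => ht.2)⟩

theorem BILIP_jac {c : Chart} (h : c.BiLip) {z : ℂ} (hz : z ∈ ball (0 : ℂ) c.r) :
    1 / 4 ≤ c.jac z ∧ c.jac z ≤ 4 ∧ ∀ i, ‖deriv (c.Φ i) z‖ ≤ 3 := by
  obtain ⟨h1, h2⟩ := BILIP_Xu h hz
  have h3 := c.norm_Xu_sq hz
  have h4 : c.jac z ≤ 4 := by nlinarith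
  refine ⟨by nlinarith, h4, fun i => ?_⟩
  have h5 : ‖deriv (c.Φ i) z‖ ^ 2 ≤ ∑ j, ‖deriv (c.Φ j) z‖ ^ 2 :=
    Finset.single_le_sum (f := fun j => ‖deriv (c.Φ j) z‖ ^ 2) (fun j _ => sq_nonneg _)
      (Finset.mem_univ i)
  have h6 : c.jac z = (∑ j, ‖deriv (c.Φ j) z‖ ^ 2) / 2 := rfl
  exact (abs_le_of_sq_le_sq' (by linarith) (by norm_num)).2

theorem BILIP_dd {c : Chart} (h : c.BiLip) (i : Fin 3) {z : ℂ} (hz : z ∈ ball (0 : ℂ) (c.r / 2)) :
    ‖deriv (deriv (c.Φ i)) z‖ ≤ 12 / c.r := by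
  have hr := c.r_pos
  have hsub : closedBall z (c.r / 4) ⊆ ball (0 : ℂ) c.r := by
    intro w hw
    have h1 := mem_ball_zero_iff.1 hz
    have h2 := mem_closedBall_iff_norm.1 hw
    have h3 : ‖w‖ ≤ ‖w - z‖ + ‖z‖ := by simpa using norm_add_le (w - z) z
    exact mem_ball_zero_iff.2 (by linarith)
  have hd : DifferentiableOn ℂ (deriv (c.Φ i)) (ball 0 c.r) := (c.hol i).deriv isOpen_ball
  have h1 := Complex.norm_deriv_le_of_forall_mem_sphere_norm_le (c := z) (R := c.r / 4) (C := 3)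
    (f := deriv (c.Φ i)) (by positivity) (hd.diffContOnCl_ball hsub)
    fun w hw => (BILIP_jac h (hsub (sphere_subset_closedBall hw))).2.2 i
  refine h1.trans (le_of_eq ?_)
  field_simp
  norm_num

theorem BILIP_lip {c : Chart} (h : c.BiLip) (i : Fin 3) {z w : ℂ}
    (hz : z ∈ ball (0 : ℂ) (c.r / 2)) (hw : w ∈ ball (0 : ℂ) (c.r / 2)) :
    ‖deriv (c.Φ i) z - deriv (c.Φ i) w‖ ≤ 12 / c.r * ‖z - w‖ := by
  have hr := c.r_pos
  have hd : DifferentiableOn ℂ (deriv (c.Φ i)) (ball 0 c.r) := (c.hol i).deriv isOpen_ball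
  exact (convex_ball (0 : ℂ) (c.r / 2)).norm_image_sub_le_of_norm_deriv_le
    (fun x hx => hd.differentiableAt
      (isOpen_ball.mem_nhds (ball_subset_ball (by linarith) hx)))
    (fun x hx => BILIP_dd h i hx) hw hz

theorem BILIP_norm {v : E} {a : ℝ} (ha : 0 ≤ a) (h : ∀ i, |v i| ≤ a) : ‖v‖ ≤ 2 * a := by
  have h0 := norm_sq_E v
  have h1 : ∀ i, v i ^ 2 ≤ a ^ 2 := fun i => by
    rw [← sq_abs]
    exact pow_le_pow_left₀ (abs_nonneg _) (h i) 2
  refine (abs_le_of_sq_le_sq' ?_ (by positivity)).2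
  nlinarith [h1 0, h1 1, h1 2, sq_nonneg a]

/- Hint. |DX z w|^2 = jac |w|^2 and the Lipschitz bounds pass to the derivative (limit of difference
quotients, HasFDerivAt.lim or HasFDerivAt.le_of_lip' for the upper bound and isLittleO for the
lower one). |phi_i|^2 <= 2 jac <= 8. Cauchy estimate
Complex.norm_deriv_le_of_forall_mem_sphere_norm_le with radius r/4 gives |phi_i'| <= 12/r on ball
0 (r/2); Convex.norm_image_sub_le_of_norm_deriv_le; sum three squares (norm_sq_E). -/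
theorem bilip_of : S_BILIP := by
  intro c h
  refine ⟨fun z hz => BILIP_jac h hz, fun z hz w hw => ?_⟩
  have hr := c.r_pos
  have ha : 0 ≤ 12 / c.r * ‖z - w‖ := by positivity
  have hb : 2 * (12 / c.r * ‖z - w‖) ≤ 100 * ‖z - w‖ / c.r := by
    have e1 : 2 * (12 / c.r * ‖z - w‖) = 24 * (‖z - w‖ / c.r) := by ring
    have e2 : 100 * ‖z - w‖ / c.r = 100 * (‖z - w‖ / c.r) := by ring
    have e3 : 0 ≤ ‖z - w‖ / c.r := by positivity
    linarith
  refine ⟨(BILIP_norm ha fun i => ?_).trans hb, (BILIP_norm ha fun i => ?_).trans hb⟩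
  · refine le_trans (le_of_eq ?_) ((Complex.abs_re_le_norm _).trans (BILIP_lip h i hz hw))
    simp [Chart.Xu]
  · refine le_trans (le_of_eq ?_) ((Complex.abs_im_le_norm _).trans (BILIP_lip h i hz hw))
    have e : (c.Xv z - c.Xv w) i = -((deriv (c.Φ i) z - deriv (c.Φ i) w).im) := by
      simp [Chart.Xv]
      ring
    rw [e, abs_neg]

end MW
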