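import Pool.Agent.P.MP_064970_gt.I.SX

open scoped Manifold ContDiff
open MeasureTheory Set Filter Topology Metric
open scoped RealInnerProductSpace ENNReal ComplexConjugate Real

noncomputable section

namespace MW

universe u

theorem BOXE_mem {c : Chart} {z0 : ℂ} {v : E} {ε : ℝ} {U : Set E} {om : E → ℂ} {τ : E → ℝ}
    (B : Box c z0 v ε U om τ) {z : ℂ} (hz : z ∈ ball z0 ε) : c.X z ∈ U ∧ τ (c.X z) = 0 := by
  have h := B.right z hz 0 (by simpa using B.pos)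
  simp only [zero_smul, add_zero] at h
  exact ⟨h.1, h.2.2⟩

theorem BOXE_conn {c : Chart} {z0 : ℂ} {v : E} {ε : ℝ} {U : Set E} {om : E → ℂ} {τ : E → ℝ}
    (B : Box c z0 v ε U om τ) {J : Set ℝ} (hJ : IsPreconnected (J ∩ Ioo (-ε) ε)) :
    IsPreconnected {x | x ∈ U ∧ τ x ∈ J} := by
  have heq : {x | x ∈ U ∧ τ x ∈ J}
      = (fun q : ℂ × ℝ => c.X q.1 + q.2 • v) '' (ball z0 ε ×ˢ (J ∩ Ioo (-ε) ε)) := by
    ext x
    constructor
    · rintro ⟨hx, hJx⟩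
      obtain ⟨h1, h2, h3⟩ := B.left x hx
      exact ⟨(om x, τ x), ⟨h1, hJx, abs_lt.1 h2⟩, h3⟩
    · rintro ⟨⟨z, t⟩, ⟨hz, ht1, ht2⟩, rfl⟩
      obtain ⟨h1, _, h3⟩ := B.right z hz t (abs_lt.2 ht2)
      exact ⟨h1, by rw [h3]; exact ht1⟩
  rw [heq]
  refine ((convex_ball z0 ε).isPreconnected.prod hJ).image _ ?_
  refine ContinuousOn.add ?_ (by fun_prop)
  exact c.continuousOn_X.comp continuousOn_fst fun q hq => B.sub hq.1

theorem BOXE_deriv {c : Chart} {z0 : ℂ} {v : E} {ε : ℝ} {U : Set E} {om : E → ℂ} {τ : E → ℝ}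
    (B : Box c z0 v ε U om τ) {z : ℂ} (hz : z ∈ ball z0 ε) {m : E} (hm : ‖m‖ = 1)
    (hu : ⟪m, c.Xu z⟫ = 0) (hv : ⟪m, c.Xv z⟫ = 0) :
    ⟪v, m⟫ ≠ 0 ∧ ∀ w : E, fderiv ℝ τ (c.X z) w = ⟪w, m⟫ / ⟪v, m⟫ := by
  have hzr : z ∈ ball (0 : ℂ) c.r := B.sub hz
  have hτ : HasFDerivAt τ (fderiv ℝ τ (c.X z)) (c.X z) :=
    (B.an_τ _ (BOXE_mem B hz).1).differentiableAt.hasFDerivAt
  set L := fderiv ℝ τ (c.X z) with hL
  have h1 : HasFDerivAt (fun w => τ (c.X w)) (L.comp (c.DX z)) z :=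
    hτ.comp z (c.hasFDerivAt_X hzr)
  have h2 : HasFDerivAt (fun w => τ (c.X w)) (0 : ℂ →L[ℝ] ℝ) z := by
    refine (hasFDerivAt_const (0 : ℝ) z).congr_of_eventuallyEq ?_
    filter_upwards [isOpen_ball.mem_nhds hz] with w hw
    exact (BOXE_mem B hw).2
  have h3 : L.comp (c.DX z) = 0 := h1.unique h2
  have hLu : L (c.Xu z) = 0 := by
    rw [← c.DX_one]
    exact DFunLike.congr_fun h3 1
  have hLv : L (c.Xv z) = 0 := by
    rw [← c.DX_I]
    exact DFunLike.congr_fun h3 Complex.I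
  have h4 : HasDerivAt (fun t : ℝ => c.X z + t • v) v 0 := by
    simpa using ((hasDerivAt_id (0 : ℝ)).smul_const v).const_add (c.X z)
  have h5 : HasDerivAt (fun t : ℝ => τ (c.X z + t • v)) (L v) 0 := by
    have hτ' : HasFDerivAt τ L (c.X z + (0 : ℝ) • v) := by simpa using hτ
    exact hτ'.comp_hasDerivAt (0 : ℝ) h4
  have h6 : HasDerivAt (fun t : ℝ => τ (c.X z + t • v)) 1 0 := by
    refine (hasDerivAt_id (0 : ℝ)).congr_of_eventuallyEq ?_
    filter_upwards [Ioo_mem_nhds (neg_lt_zero.2 B.pos) B.pos] with t ht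
    exact (B.right z hz t (abs_lt.2 ht)).2.2
  have h7 : L v = 1 := h5.unique h6
  have h8 : ∀ w : E, L w = ⟪w, m⟫ * L m := by
    intro w
    conv_lhs => rw [c.frame hzr hm hu hv w]
    simp [hLu, hLv]
  have h9 : ⟪v, m⟫ * L m = 1 := by rw [← h8, h7]
  have h10 : ⟪v, m⟫ ≠ 0 := left_ne_zero_of_mul_eq_one h9
  refine ⟨h10, fun w => ?_⟩
  rw [h8 w, eq_div_iff h10, mul_assoc, mul_comm (L m), h9, mul_one]

/- Hint. Take a box B1 (eps1, U1, om1, tau1) from BOX, an open U0 with X '' ball 0 eps1 = S cap U0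
(Emb.opn), then a box with eps <= eps1 inside G cap U0 cap U1. If x in S cap U then x = X z with z
in ball eps1 and x = X (om x) + tau x v; B1.right applied to both gives tau x = 0. The halves are
images of ball x Ioo under a continuous map (IsPreconnected.image). Derivative: tau (X w + t v) =
t near (z,0), so L = fderiv tau (X z) has L (DX z w) = 0 and L v = 1; Chart.frame writes every w
and v in the frame Xu, Xv, m: L w = <w,m> L m and 1 = <v,m> L m. -/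
theorem boxe_of (hBOX : S_BOX) : S_BOXE := by
  intro S c hc v n hu hv hvn G hG
  have h0 : (0 : ℂ) ∈ ball (0 : ℂ) c.r := mem_ball_self c.r_pos
  obtain ⟨ε₁, U₁, om₁, τ₁, B₁, -⟩ := (hBOX c 0 h0 v n hu hv hvn univ univ_mem).exists
  obtain ⟨U₀, hU₀, hS⟩ := hc.opn (ball 0 ε₁) isOpen_ball B₁.sub
  have hX0 : c.X 0 ∈ U₀ := by
    have : c.X 0 ∈ S ∩ U₀ := hS ▸ mem_image_of_mem _ (mem_ball_self B₁.pos)
    exact this.2
  have hG' : G ∩ U₀ ∈ 𝓝 (c.X 0) := inter_mem hG (hU₀.mem_nhds hX0)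
  have hev : ∀ᶠ ε in 𝓝[>] (0 : ℝ), ε ≤ ε₁ :=
    nhdsWithin_le_nhds (eventually_le_nhds B₁.pos)
  obtain ⟨ε, ⟨U, om, τ, B, hU⟩, hε⟩ := ((hBOX c 0 h0 v n hu hv hvn _ hG').and hev).exists
  refine ⟨ε, U, om, τ, B, (BOXE_mem B (mem_ball_self B.pos)).1, fun x hx => (hU hx).1, ?_, ?_, ?_,
    fun z hz m hm h1 h2 => BOXE_deriv B hz hm h1 h2⟩
  · intro x hx
    obtain ⟨h1, h2, h3⟩ := B.left x hx
    constructor
    · intro hxS
      have h4 : x ∈ c.X '' ball 0 ε₁ := hS ▸ ⟨hxS, (hU hx).2⟩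
      obtain ⟨z, hz, hzx⟩ := h4
      have h5 := (BOXE_mem B₁ hz).2
      have h6 := (B₁.right (om x) (ball_subset_ball hε h1) (τ x) (h2.trans_le hε)).2.2
      rw [h3] at h6
      rw [hzx] at h5
      rw [← h6, h5]
    · intro hτ
      rw [hτ, zero_smul, add_zero] at h3
      rw [← h3]
      exact hc.mem (B.sub h1)
  · exact BOXE_conn B (J := Ioi 0) (((convex_Ioi 0).inter (convex_Ioo _ _)).isPreconnected)
  · exact BOXE_conn B (J := Iio 0) (((convex_Iio 0).inter (convex_Ioo _ _)).isPreconnected)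

end MW
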