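import Pool.Agent.P.MP_064970_gt.I.SX

open scoped Manifold ContDiff
open MeasureTheory Set Filter Topology Metric
open scoped RealInnerProductSpace ENNReal ComplexConjugate Real

noncomputable section

namespace MW

universe u

theorem CE_term {n u u' : E} {J D : ℝ} (hn : ‖n‖ = 1) (h0 : ⟪n, u'⟫ = 0) (hD : ‖u' - u‖ ≤ D)
    (hu : ‖u‖ ^ 2 = J) (h1 : 1 / 4 ≤ J) (h2 : J ≤ 4) : ‖(⟪n, u⟫ / J) • u‖ ≤ 8 * D := by
  have hJ : 0 < J := by linarith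
  have hD0 : 0 ≤ D := (norm_nonneg _).trans hD
  have a1 : |⟪n, u⟫| ≤ D := by
    have e1 : ⟪n, u' - u⟫ = -⟪n, u⟫ := by rw [inner_sub_right, h0, zero_sub]
    have a2 := abs_real_inner_le_norm n (u' - u)
    rw [e1, abs_neg, hn, one_mul] at a2
    exact a2.trans hD
  have a3 : ‖u‖ ≤ 2 := by nlinarith [norm_nonneg u]
  have a4 : |⟪n, u⟫| / J ≤ 4 * D := by
    rw [div_le_iff₀ hJ]
    nlinarith
  rw [norm_smul, Real.norm_eq_abs, abs_div, abs_of_pos hJ]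
  calc |⟪n, u⟫| / J * ‖u‖ ≤ 4 * D * 2 := mul_le_mul a4 a3 (norm_nonneg _) (by positivity)
    _ = 8 * D := by ring

/- Hint. c = c1/4 (or smaller): x = X z, y = X w with |z|, |w| <= 2 c rho < c.r/2 and |z - w| <= 2|x - y|.
<N x, Xu w> = <N x, Xu w - Xu z> is O(|z-w|/r); Chart.frame at w with n = N y gives wedge (N x) (N
y) <= C |z - w|/r (jac >= 1/4); <N x, N y> >= 0 by Reg; norm_sub_le_wedge. -/
theorem ce_of (hQCH : S_QCH) (hBILIP : S_BILIP) : S_CE := by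
  obtain ⟨c₀, c₁, h1, h2, h3, H⟩ := hQCH
  have h0 : 0 < c₀ := h1.trans_le h2
  refine ⟨c₁ / 4, 6400 / c₀, by positivity, by linarith, by positivity,
    fun M p ρ hp hρ hO hR x hx y hy => ?_⟩
  obtain ⟨c, hr, hΦ, hfit, hbl, hcov⟩ := H M p ρ hp hρ hO hR
  obtain ⟨hJ, hL⟩ := hBILIP c hbl
  have hX0 : c.X 0 = p := by
    ext i
    change (c.Φ i 0).re = p i
    rw [hΦ i, Complex.ofReal_re]
  have hpos : 0 < c₁ * ρ := mul_pos h1 hρ
  have hsub : ball p (c₁ / 4 * ρ) ⊆ ball p (c₁ * ρ) := ball_subset_ball (by linarith)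
  have hsub' : ball p (c₁ / 4 * ρ) ⊆ ball p ρ := ball_subset_ball (by nlinarith)
  have key : ∀ x ∈ M.S ∩ ball p (c₁ / 4 * ρ), ∃ z ∈ ball (0 : ℂ) c.r,
      z ∈ ball (0 : ℂ) (c.r / 2) ∧ c.X z = x := by
    intro x hx
    obtain ⟨z, hz, hzx⟩ := hcov ⟨hx.1, hsub hx.2⟩
    refine ⟨z, hz, ?_, hzx⟩
    have a1 := (hbl z hz 0 (mem_ball_self c.r_pos)).1
    have a2 := mem_ball_iff_norm.1 hx.2
    rw [sub_zero, hX0, hzx] at a1
    rw [mem_ball_zero_iff, hr]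
    nlinarith
  obtain ⟨z, hz, hz', rfl⟩ := key x hx
  obtain ⟨w, hw, hw', rfl⟩ := key y hy
  have hn := M.N_unit _ hx.1
  have hm := M.N_unit _ hy.1
  have hin : 0 ≤ ⟪M.N (c.X z), M.N (c.X w)⟫ := by
    have a1 := hR _ ⟨hx.1, hsub' hx.2⟩ _ ⟨hy.1, hsub' hy.2⟩
    have a2 := Coord_norm_sub_sq hn hm
    nlinarith [norm_nonneg (M.N (c.X z) - M.N (c.X w))]
  have hfr := c.frame hw hm (hfit.inner_Xu hw) (hfit.inner_Xv hw) (M.N (c.X z))
  have t1 := CE_term hn (hfit.inner_Xu hz) (hL z hz' w hw').1 (c.norm_Xu_sq hw) (hJ w hw).1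
    (hJ w hw).2.1
  have t2 := CE_term hn (hfit.inner_Xv hz) (hL z hz' w hw').2 (c.norm_Xv_sq hw) (hJ w hw).1
    (hJ w hw).2.1
  have hwedge : wedge (M.N (c.X z)) (M.N (c.X w)) ≤ 16 * (100 * ‖z - w‖ / c.r) := by
    rw [wedge, sub_eq_of_eq_add hfr]
    linarith [norm_add_le ((⟪M.N (c.X z), c.Xu w⟫ / c.jac w) • c.Xu w)
      ((⟪M.N (c.X z), c.Xv w⟫ / c.jac w) • c.Xv w)]
  have a1 := norm_sub_le_wedge hn hm hin
  have a2 := (hbl z hz w hw).1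
  have a3 : 100 * ‖z - w‖ / c.r ≤ 200 * ‖c.X z - c.X w‖ / c.r :=
    div_le_div_of_nonneg_right (by linarith) c.r_pos.le
  have a4 : 6400 / c₀ * ‖c.X z - c.X w‖ / ρ = 32 * (200 * ‖c.X z - c.X w‖ / c.r) := by
    rw [hr]
    field_simp
    ring
  rw [a4]
  linarith

end MW
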