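import Pool.Agent.P.MP_064970_gt.I.SX

open scoped Manifold ContDiff
open MeasureTheory Set Filter Topology Metric
open scoped RealInnerProductSpace ENNReal ComplexConjugate Real

noncomputable section

namespace MW

universe u

theorem COMPAT_det (L : ℂ →L[ℝ] ℂ) :
    L.det = (L 1).re * (L Complex.I).im - (L 1).im * (L Complex.I).re := by
  rw [ContinuousLinearMap.det, ← LinearMap.det_toMatrix Complex.basisOneI, Matrix.det_fin_two]
  simp [LinearMap.toMatrix_apply]
  ring

theorem COMPAT_cr (c : Chart) (z a b : ℂ) :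
    cr (c.DX z a) (c.DX z b) = (a.re * b.im - a.im * b.re) • cr (c.Xu z) (c.Xv z) := by
  rw [c.DX_apply, c.DX_apply]
  apply E_ext <;> simp <;> ring

theorem COMPAT_diff (hBOX : S_BOX) {c : Chart} {Y : ℂ → E} {g : ℂ → ℂ} {D : Set ℂ} (hD : IsOpen D)
    (hg : ContinuousOn g D) (hm : MapsTo g D (ball 0 c.r)) (he : ∀ z ∈ D, c.X (g z) = Y z)
    (hY : DifferentiableOn ℝ Y D) {z : ℂ} (hz : z ∈ D) : DifferentiableAt ℝ g z := by
  obtain ⟨n, -, hn⟩ := c.exists_normal
  obtain ⟨h1, h2, h3⟩ := hn _ (hm hz)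
  obtain ⟨ε, U, om, τ, hB, -⟩ := (hBOX c (g z) (hm hz) (n (g z)) (n (g z)) h2 h3
    (by rw [real_inner_self_eq_norm_sq, h1]; norm_num) univ univ_mem).exists
  have key : ∀ w ∈ D, g w ∈ ball (g z) ε → Y w ∈ U ∧ om (Y w) = g w := fun w hw hb => by
    have := hB.right _ hb 0 (by simpa using hB.pos)
    rw [zero_smul, add_zero, he w hw] at this
    exact ⟨this.1, this.2.1⟩
  have h4 : DifferentiableAt ℝ (fun w => om (Y w)) z :=
    (hB.an_om _ (key z hz (mem_ball_self hB.pos)).1).differentiableAt.comp z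
      (hY.differentiableAt (hD.mem_nhds hz))
  refine h4.congr_of_eventuallyEq ?_
  filter_upwards [hD.mem_nhds hz,
    (hg.continuousAt (hD.mem_nhds hz)).eventually (ball_mem_nhds _ hB.pos)] with w hw hb
  exact (key w hw hb).2.symm

/- Hint. At z0 in D use BOX at g z0 with v = n = the normal of Chart.exists_normal: for z near z0, g z is
in ball (g z0) eps (continuity), so g z = om (X (g z)) = om (Y z) (Box.right with t = 0); so g is
differentiable at z0. Chain rule gives fderiv Y. cr (DX a) (DX b) = (a.re b.im - a.im b.re) cr Xu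
Xv, so gramC Y z = |det (fderiv g z)| * jac (g z) (gramC_eq, Chart.norm_cr; det of a real linear
map of C through Complex.basisOneI and Matrix.det_fin_two). Finish with
lintegral_image_eq_lintegral_abs_det_fderiv_mul. -/
theorem compat_of (hBOX : S_BOX) : S_COMPAT := by
  intro c Y g D hD hg hm he hY
  have hd : ∀ z ∈ D, DifferentiableAt ℝ g z := fun z hz => COMPAT_diff hBOX hD hg hm he hY hz
  have hf : ∀ z ∈ D, fderiv ℝ Y z = (c.DX (g z)).comp (fderiv ℝ g z) := fun z hz => by
    have h1 := (c.hasFDerivAt_X (hm hz)).comp z (hd z hz).hasFDerivAt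
    refine (h1.congr_of_eventuallyEq ?_).fderiv
    filter_upwards [hD.mem_nhds hz] with w hw
    exact (he w hw).symm
  refine ⟨fun z hz => (hd z hz).differentiableWithinAt, hf, fun hi B hB hBD => ?_⟩
  rw [lintegral_image_eq_lintegral_abs_det_fderiv_mul volume hB
    (fun z hz => (hd z (hBD hz)).hasFDerivAt.hasFDerivWithinAt) (hi.mono hBD)]
  refine setLIntegral_congr_fun hB fun z hz => ?_
  have hz' := hBD hz
  beta_reduce
  rw [gramC_eq, hf z hz', ContinuousLinearMap.comp_apply, ContinuousLinearMap.comp_apply,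
    COMPAT_cr, norm_smul, c.norm_cr (hm hz'), ← COMPAT_det, Real.norm_eq_abs,
    ENNReal.ofReal_mul (abs_nonneg _)]

end MW
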