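import Pool.Agent.P.MP_064970_gt.I.SX

open scoped Manifold ContDiff
open MeasureTheory Set Filter Topology Metric
open scoped RealInnerProductSpace ENNReal ComplexConjugate Real

noncomputable section

namespace MW

universe u

/-- Coordinates in the plane spanned by `a1`, `a2`, as a complex number. -/
def CONF_P (a1 a2 : E) : E →L[ℝ] ℂ :=
  Complex.ofRealCLM.comp (innerSL ℝ a1) + Complex.I • Complex.ofRealCLM.comp (innerSL ℝ a2)

lemma CONF_P_apply (a1 a2 x : E) :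
    CONF_P a1 a2 x = ((⟪a1, x⟫ : ℝ) : ℂ) + Complex.I * ((⟪a2, x⟫ : ℝ) : ℂ) := by
  simp [CONF_P]

lemma CONF_P_re (a1 a2 x : E) : (CONF_P a1 a2 x).re = ⟪a1, x⟫ := by
  rw [CONF_P_apply]; simp

lemma CONF_P_im (a1 a2 x : E) : (CONF_P a1 a2 x).im = ⟪a2, x⟫ := by
  rw [CONF_P_apply]; simp

/-- The embedding of the complex line as the plane spanned by `a1`, `a2`. -/
def CONF_i (a1 a2 : E) : ℂ →L[ℝ] E :=
  Complex.reCLM.smulRight a1 + Complex.imCLM.smulRight a2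

lemma CONF_i_apply (a1 a2 : E) (w : ℂ) : CONF_i a1 a2 w = w.re • a1 + w.im • a2 := by
  simp [CONF_i]

lemma CONF_gram (d a b : E) : ⟪d, cr a b⟫ ^ 2 =
    ⟪d, d⟫ * ⟪a, a⟫ * ⟪b, b⟫ + 2 * ⟪a, d⟫ * ⟪a, b⟫ * ⟪b, d⟫ - ⟪d, d⟫ * ⟪a, b⟫ ^ 2
      - ⟪a, a⟫ * ⟪b, d⟫ ^ 2 - ⟪b, b⟫ * ⟪a, d⟫ ^ 2 := by
  simp only [inner_eq, cr_0, cr_1, cr_2]; ring

section frame

variable {a1 a2 : E} (h1 : ‖a1‖ = 1) (h2 : ‖a2‖ = 1) (h12 : ⟪a1, a2⟫ = 0)
include h1 h2 h12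

lemma CONF_parseval (d : E) : ‖d‖ ^ 2 = ‖CONF_P a1 a2 d‖ ^ 2 + ⟪d, cr a1 a2⟫ ^ 2 := by
  have e1 : ⟪a1, a1⟫ = 1 := by rw [real_inner_self_eq_norm_sq, h1]; norm_num
  have e2 : ⟪a2, a2⟫ = 1 := by rw [real_inner_self_eq_norm_sq, h2]; norm_num
  rw [CONF_gram, e1, e2, h12, real_inner_self_eq_norm_sq, Complex.sq_norm, Complex.normSq_apply,
    CONF_P_re, CONF_P_im]
  ring

lemma CONF_P_le (d : E) : ‖CONF_P a1 a2 d‖ ≤ ‖d‖ := by
  refine (abs_le_of_sq_le_sq' ?_ (norm_nonneg _)).2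
  rw [CONF_parseval h1 h2 h12 d]
  nlinarith [sq_nonneg ⟪d, cr a1 a2⟫]

lemma CONF_P_i (w : ℂ) : CONF_P a1 a2 (CONF_i a1 a2 w) = w := by
  have e1 : ⟪a1, a1⟫ = 1 := by rw [real_inner_self_eq_norm_sq, h1]; norm_num
  have e2 : ⟪a2, a2⟫ = 1 := by rw [real_inner_self_eq_norm_sq, h2]; norm_num
  have e3 : ⟪a2, a1⟫ = 0 := by rw [real_inner_comm, h12]
  apply Complex.ext
  · rw [CONF_P_re, CONF_i_apply, inner_add_right, inner_smul_right, inner_smul_right, e1, h12]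
    ring
  · rw [CONF_P_im, CONF_i_apply, inner_add_right, inner_smul_right, inner_smul_right, e2, e3]
    ring

lemma CONF_norm_i (w : ℂ) : ‖CONF_i a1 a2 w‖ = ‖w‖ := by
  have h := CONF_parseval h1 h2 h12 (CONF_i a1 a2 w)
  have h0 : ⟪CONF_i a1 a2 w, cr a1 a2⟫ = 0 := by
    rw [CONF_i_apply, inner_add_left, inner_smul_left, inner_smul_left, inner_cr_left,
      inner_cr_right]
    simp
  rw [CONF_P_i h1 h2 h12, h0] at h
  exact (pow_left_inj₀ (norm_nonneg _) (norm_nonneg _) two_ne_zero).1 (by rw [h]; ring)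

lemma CONF_P_cr (d : E) : CONF_P a1 a2 (cr (cr a1 a2) d) = Complex.I * CONF_P a1 a2 d := by
  have e1 : ⟪a1, a1⟫ = 1 := by rw [real_inner_self_eq_norm_sq, h1]; norm_num
  have e2 : ⟪a2, a2⟫ = 1 := by rw [real_inner_self_eq_norm_sq, h2]; norm_num
  have e3 : ⟪a2, a1⟫ = 0 := by rw [real_inner_comm, h12]
  rw [cr_cr']
  apply Complex.ext
  · rw [CONF_P_re, inner_sub_right, inner_smul_right, inner_smul_right, e1, h12]
    simp [CONF_P_im]
  · rw [CONF_P_im, inner_sub_right, inner_smul_right, inner_smul_right, e2, e3]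
    simp [CONF_P_re]

end frame

/-- The linear map that gives the differential of the conformal parameter. -/
def CONF_T (a1 a2 n : E) : E →L[ℝ] ℂ :=
  (1 / 2 : ℂ) • (CONF_P a1 a2 - Complex.I • (CONF_P a1 a2).comp (crL n))

lemma CONF_T_apply (a1 a2 n x : E) :
    CONF_T a1 a2 n x = (1 / 2 : ℂ) * (CONF_P a1 a2 x - Complex.I * CONF_P a1 a2 (cr n x)) := by
  simp [CONF_T]

lemma CONF_T_sub {a1 a2 n : E} (h1 : ‖a1‖ = 1) (h2 : ‖a2‖ = 1) (h12 : ⟪a1, a2⟫ = 0)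
    (hn : ‖n - cr a1 a2‖ ≤ 1 / 8) (x : E) :
    ‖CONF_T a1 a2 n x - CONF_P a1 a2 x‖ ≤ ‖x‖ / 16 := by
  have e : cr n x = cr (n - cr a1 a2) x + cr (cr a1 a2) x := by
    apply E_ext <;> simp <;> ring
  have e2 : CONF_T a1 a2 n x - CONF_P a1 a2 x
      = -(1 / 2 : ℂ) * Complex.I * CONF_P a1 a2 (cr (n - cr a1 a2) x) := by
    rw [CONF_T_apply, e, map_add, CONF_P_cr h1 h2 h12]
    linear_combination (-(1 / 2 : ℂ) * CONF_P a1 a2 x) * Complex.I_mul_I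
  rw [e2, norm_mul, norm_mul, Complex.norm_I, norm_neg]
  have h3 := CONF_P_le h1 h2 h12 (cr (n - cr a1 a2) x)
  have h4 := norm_cr_le (n - cr a1 a2) x
  have h5 : ‖(1 / 2 : ℂ)‖ = 1 / 2 := by simp
  rw [h5]
  nlinarith [norm_nonneg x, norm_nonneg (n - cr a1 a2)]

lemma CONF_cr_cr {n x : E} (hn : ‖n‖ = 1) (hx : ⟪n, x⟫ = 0) : cr n (cr n x) = -x := by
  rw [cr_cr, hx, real_inner_self_eq_norm_sq, hn]; simp

lemma CONF_T_cr (a1 a2 : E) {n x : E} (hn : ‖n‖ = 1) (hx : ⟪n, x⟫ = 0) :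
    CONF_T a1 a2 n (cr n x) = Complex.I * CONF_T a1 a2 n x := by
  rw [CONF_T_apply, CONF_T_apply, CONF_cr_cr hn hx, map_neg]
  linear_combination (1 / 2 * CONF_P a1 a2 (cr n x)) * Complex.I_mul_I

lemma CONF_T_inj {a1 a2 n : E} (h1 : ‖a1‖ = 1) (h2 : ‖a2‖ = 1) (h12 : ⟪a1, a2⟫ = 0)
    (hn : ‖n - cr a1 a2‖ ≤ 1 / 8) {d : E} (hd : ⟪n, d⟫ = 0) (h0 : CONF_T a1 a2 n d = 0) :
    d = 0 := by
  have h3 := CONF_T_sub h1 h2 h12 hn d
  rw [h0, zero_sub, norm_neg] at h3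
  have h4 := CONF_parseval h1 h2 h12 d
  have h5 : |⟪d, cr a1 a2⟫| ≤ ‖d‖ / 8 := by
    have e : ⟪d, cr a1 a2⟫ = -⟪d, n - cr a1 a2⟫ := by
      rw [inner_sub_right, real_inner_comm, real_inner_comm n d, hd]
      simp [real_inner_comm]
    rw [e, abs_neg]
    have := abs_real_inner_le_norm d (n - cr a1 a2)
    nlinarith [norm_nonneg d]
  have h6 : ⟪d, cr a1 a2⟫ ^ 2 ≤ (‖d‖ / 8) ^ 2 := by
    rw [← sq_abs]; exact pow_le_pow_left₀ (abs_nonneg _) h5 2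
  have h7 : ‖CONF_P a1 a2 d‖ ^ 2 ≤ (‖d‖ / 16) ^ 2 := pow_le_pow_left₀ (norm_nonneg _) h3 2
  have h8 : ‖d‖ ^ 2 ≤ 0 := by nlinarith
  have h9 : ‖d‖ = 0 := by nlinarith [norm_nonneg d]
  exact norm_eq_zero.1 h9

lemma CONF_TD {a1 a2 n : E} (h1 : ‖a1‖ = 1) (h2 : ‖a2‖ = 1) (h12 : ⟪a1, a2⟫ = 0)
    (hn : ‖n - cr a1 a2‖ ≤ 1 / 8) (D : ℂ →L[ℝ] E)
    (hD : ∀ w : ℂ, ‖D w - (w.re • a1 + w.im • a2)‖ ≤ ‖w‖ / 8) (w : ℂ) :
    ‖CONF_T a1 a2 n (D w) - w‖ ≤ 1 / 4 * ‖w‖ := by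
  have h3 := CONF_T_sub h1 h2 h12 hn (D w)
  have h4 := hD w
  rw [← CONF_i_apply] at h4
  have h5 : ‖D w‖ ≤ 9 / 8 * ‖w‖ := by
    have := norm_sub_norm_le (D w) (CONF_i a1 a2 w)
    rw [CONF_norm_i h1 h2 h12] at this
    linarith
  have h6 : ‖CONF_P a1 a2 (D w) - w‖ ≤ ‖w‖ / 8 := by
    have := CONF_P_le h1 h2 h12 (D w - CONF_i a1 a2 w)
    rw [map_sub, CONF_P_i h1 h2 h12] at this
    linarith
  have h7 := norm_sub_le_norm_sub_add_norm_sub (CONF_T a1 a2 n (D w)) (CONF_P a1 a2 (D w)) w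
  nlinarith [norm_nonneg w]

lemma CONF_equiv (A : ℂ →L[ℝ] ℂ) (h : ∀ w, ‖A w - w‖ ≤ 1 / 4 * ‖w‖) :
    ∃ B : ℂ ≃L[ℝ] ℂ, (B : ℂ →L[ℝ] ℂ) = A := by
  have hinj : Function.Injective (A : ℂ →ₗ[ℝ] ℂ) := by
    rw [← LinearMap.ker_eq_bot, LinearMap.ker_eq_bot']
    intro w hw
    have h1 := h w
    have hw' : A w = 0 := hw
    rw [hw', zero_sub, norm_neg] at h1
    have : ‖w‖ = 0 := by nlinarith [norm_nonneg w]
    exact norm_eq_zero.1 this
  have hbij : Function.Bijective (A : ℂ →ₗ[ℝ] ℂ) :=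
    ⟨hinj, LinearMap.injective_iff_surjective.1 hinj⟩
  refine ⟨(LinearEquiv.ofBijective (A : ℂ →ₗ[ℝ] ℂ) hbij).toContinuousLinearEquiv, ?_⟩
  ext1 w
  rfl

/-- A local inverse of a map whose derivative is close to the identity. -/
lemma CONF_inverse (ξ : ℂ → ℂ) (A : ℂ → ℂ →L[ℝ] ℂ) (y0 : ℂ) (ρ : ℝ) (hρ : 0 < ρ) (h0 : ξ y0 = 0)
    (hξ : ∀ y ∈ ball y0 ρ, HasFDerivAt ξ (A y) y)
    (hA : ∀ y ∈ ball y0 ρ, ∀ w, ‖A y w - w‖ ≤ 1 / 4 * ‖w‖) :
    ∃ g : OpenPartialHomeomorph ℂ ℂ, g.source = ball 0 (ρ / 2) ∧ g.target ⊆ ball y0 ρ ∧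
      g 0 = y0 ∧ ball y0 (ρ / 4) ⊆ g.target ∧ (∀ z ∈ ball (0 : ℂ) (ρ / 2), ξ (g z) = z) ∧
      (∀ z ∈ ball (0 : ℂ) (ρ / 2), ∀ w ∈ ball (0 : ℂ) (ρ / 2),
        ‖z - w - (g z - g w)‖ ≤ 1 / 4 * ‖g z - g w‖) ∧
      ∀ z ∈ ball (0 : ℂ) (ρ / 2), ∃ B : ℂ →L[ℝ] ℂ, HasFDerivAt g B z ∧
        ∀ w, A (g z) (B w) = w := by
  have hap0 : ∀ x ∈ ball y0 ρ, ∀ y ∈ ball y0 ρ, ‖ξ x - ξ y - (x - y)‖ ≤ 1 / 4 * ‖x - y‖ := by
    intro x hx y hy
    have := (convex_ball y0 ρ).norm_image_sub_le_of_norm_hasFDerivWithin_le'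
      (φ := ContinuousLinearMap.id ℝ ℂ) (C := 1 / 4)
      (fun z hz => (hξ z hz).hasFDerivWithinAt)
      (fun z hz => ContinuousLinearMap.opNorm_le_bound _ (by norm_num) fun w => by
        simpa using hA z hz w) hy hx
    simpa using this
  have hap : ApproximatesLinearOn ξ
      ((ContinuousLinearEquiv.refl ℝ ℂ : ℂ ≃L[ℝ] ℂ) : ℂ →L[ℝ] ℂ) (ball y0 ρ) (1 / 4) := by
    intro x hx y hy
    simpa using hap0 x hx y hy
  have hN : ‖(((ContinuousLinearEquiv.refl ℝ ℂ).symm : ℂ ≃L[ℝ] ℂ) : ℂ →L[ℝ] ℂ)‖₊ = 1 := by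
    rw [ContinuousLinearEquiv.refl_symm, ContinuousLinearEquiv.coe_refl]
    exact ContinuousLinearMap.nnnorm_id
  have hc : Subsingleton ℂ ∨ (1 / 4 : NNReal) <
      ‖(((ContinuousLinearEquiv.refl ℝ ℂ).symm : ℂ ≃L[ℝ] ℂ) : ℂ →L[ℝ] ℂ)‖₊⁻¹ := by
    right; rw [hN]; norm_num
  set P := hap.toOpenPartialHomeomorph ξ (ball y0 ρ) hc isOpen_ball with hP
  have hPc : (P : ℂ → ℂ) = ξ := rfl
  have hPs : P.source = ball y0 ρ := rfl
  have hPt : ball (0 : ℂ) (ρ / 2) ⊆ P.target := by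
    have := hap.closedBall_subset_target hc isOpen_ball (b := y0) (ε := 2 * ρ / 3)
      (by positivity) (closedBall_subset_ball (by linarith))
    rw [hN, h0] at this
    refine Subset.trans (ball_subset_closedBall.trans (closedBall_subset_closedBall ?_)) this
    push_cast
    linarith
  have hy0 : y0 ∈ ball y0 ρ := mem_ball_self hρ
  refine ⟨P.symm.restrOpen (ball 0 (ρ / 2)) isOpen_ball, ?_, ?_, ?_, ?_, ?_, ?_, ?_⟩
  · rw [OpenPartialHomeomorph.restrOpen_source, OpenPartialHomeomorph.symm_source]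
    exact inter_eq_right.2 hPt
  · intro y hy
    exact hy.1
  · change P.symm 0 = y0
    rw [← h0, ← hPc]
    exact P.left_inv hy0
  · intro y hy
    have hy' : y ∈ ball y0 ρ := ball_subset_ball (by linarith) hy
    refine ⟨hy', ?_⟩
    change ξ y ∈ ball (0 : ℂ) (ρ / 2)
    have h1 := hap0 y hy' y0 hy0
    rw [h0, sub_zero] at h1
    have h2 := norm_sub_norm_le (ξ y) (y - y0)
    rw [mem_ball, dist_eq_norm] at hy
    rw [mem_ball_zero_iff]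
    linarith
  · intro z hz
    exact P.right_inv (hPt hz)
  · intro z hz w hw
    have h1 := hap0 _ (P.map_target (hPt hz)) _ (P.map_target (hPt hw))
    have e1 : ξ (P.symm z) = z := P.right_inv (hPt hz)
    have e2 : ξ (P.symm w) = w := P.right_inv (hPt hw)
    rw [e1, e2] at h1
    exact h1
  · intro z hz
    have hgz : P.symm z ∈ ball y0 ρ := P.map_target (hPt hz)
    obtain ⟨B, hB⟩ := CONF_equiv (A (P.symm z)) (hA _ hgz)
    have h1 : HasFDerivAt P (B : ℂ →L[ℝ] ℂ) (P.symm z) := by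
      rw [hB]; exact hξ _ hgz
    refine ⟨(B.symm : ℂ →L[ℝ] ℂ), P.hasFDerivAt_symm (hPt hz) h1, fun w => ?_⟩
    change A (P.symm z) (B.symm w) = w
    rw [← hB]
    exact B.apply_symm_apply w

/-- The complex derivative of `Y_i - i Z_i`. -/
lemma CONF_hasDerivAt {X W : ℂ → E} {D : ℂ →L[ℝ] E} {n x : E} {z : ℂ} (hn : ‖n‖ = 1)
    (hx : ⟪n, x⟫ = 0) (hX : HasFDerivAt X D z) (hW : HasFDerivAt W ((crL n).comp D) z)
    (h1 : D 1 = x) (hI : D Complex.I = cr n x) (b : E) (i : Fin 3) :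
    HasDerivAt (fun z => ((X z i : ℝ) : ℂ) - Complex.I * ((W z i - b i : ℝ) : ℂ))
      (((x i : ℝ) : ℂ) - Complex.I * ((cr n x i : ℝ) : ℂ)) z := by
  let pj : E →L[ℝ] ℂ := Complex.ofRealCLM.comp (EuclideanSpace.proj i)
  have hpj : ∀ v : E, pj v = ((v i : ℝ) : ℂ) := fun v => rfl
  have h2 : HasFDerivAt (fun z => pj (X z) - Complex.I • pj (W z - b))
      (pj.comp D - Complex.I • pj.comp ((crL n).comp D)) z :=
    (pj.hasFDerivAt.comp z hX).sub ((pj.hasFDerivAt.comp z (hW.sub_const b)).const_smul Complex.I)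
  rw [hasDerivAt_iff_hasFDerivAt]
  refine hasFDerivAt_of_restrictScalars ℝ h2 ?_
  have hD : ∀ w : ℂ, D w = w.re • x + w.im • cr n x := by
    intro w
    have e : w = w.re • (1 : ℂ) + w.im • Complex.I := by
      apply Complex.ext <;> simp
    conv_lhs => rw [e]
    rw [map_add, map_smul, map_smul, h1, hI]
  ext1 w
  have e3 : cr n (D w) = w.re • cr n x - w.im • x := by
    rw [hD, ← crL_apply, map_add, map_smul, map_smul, crL_apply, crL_apply, CONF_cr_cr hn hx]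
    simp [sub_eq_add_neg]
  simp only [ContinuousLinearMap.coe_restrictScalars', ContinuousLinearMap.toSpanSingleton_apply,
    sub_apply, smul_apply, ContinuousLinearMap.comp_apply,
    crL_apply, hpj, e3, smul_eq_mul]
  rw [hD]
  apply Complex.ext <;> simp <;> ring

lemma CONF_null {n x : E} (hn : ‖n‖ = 1) (hx : ⟪n, x⟫ = 0) :
    ∑ i, (((x i : ℝ) : ℂ) - Complex.I * ((cr n x i : ℝ) : ℂ)) ^ 2 = 0 := by
  have h1 := norm_sq_cr n x
  rw [hn, hx, norm_sq_E, norm_sq_E] at h1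
  have h2 := inner_cr_right n x
  rw [inner_eq] at h2
  rw [Fin.sum_univ_three]
  generalize cr n x = c at h1 h2
  apply Complex.ext
  · simp [pow_two]; nlinarith
  · simp [pow_two]; nlinarith

theorem conf_of : S_CONF := by
  intro Y Z n y0 ρ a1 a2 hρ h1 h2 h12 hY hZ hn
  have hYd : ∀ y ∈ ball y0 ρ, HasFDerivAt Y (fderiv ℝ Y y) y := fun y hy =>
    (hY.differentiableAt (isOpen_ball.mem_nhds hy)).hasFDerivAt
  let ξ : ℂ → ℂ := fun y =>
    (1 / 2 : ℂ) • (CONF_P a1 a2 (Y y - Y y0) - Complex.I • CONF_P a1 a2 (Z y - Z y0))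
  have hξ : ∀ y ∈ ball y0 ρ,
      HasFDerivAt ξ ((CONF_T a1 a2 (n y)).comp (fderiv ℝ Y y)) y := by
    intro y hy
    have h := (((CONF_P a1 a2).hasFDerivAt.comp y ((hYd y hy).sub_const (Y y0))).sub
      (((CONF_P a1 a2).hasFDerivAt.comp y ((hZ y hy).sub_const (Z y0))).const_smul
        Complex.I)).const_smul (1 / 2 : ℂ)
    have e : (CONF_T a1 a2 (n y)).comp (fderiv ℝ Y y) = (1 / 2 : ℂ) •
        ((CONF_P a1 a2).comp (fderiv ℝ Y y) -
          Complex.I • (CONF_P a1 a2).comp ((crL (n y)).comp (fderiv ℝ Y y))) := by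
      ext1 w
      simp [CONF_T_apply]
    rw [e]
    exact h
  obtain ⟨g, hgs, hgt, hg0, hgb, -, hgl, hgd⟩ := CONF_inverse ξ
    (fun y => (CONF_T a1 a2 (n y)).comp (fderiv ℝ Y y)) y0 ρ hρ (by simp [ξ]) hξ
    (fun y hy w => CONF_TD h1 h2 h12 (hn y hy).2.1 _ (fun w => ((hn y hy).2.2 w).2) w)
  have hmem : ∀ z ∈ ball (0 : ℂ) (ρ / 2), g z ∈ ball y0 ρ := fun z hz =>
    hgt (g.map_source (hgs ▸ hz))
  have key : ∀ z ∈ ball (0 : ℂ) (ρ / 2), ∃ x : E, x ≠ 0 ∧ ⟪n (g z), x⟫ = 0 ∧ ∀ i,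
      HasDerivAt (fun z => ((Y (g z) i : ℝ) : ℂ) - Complex.I * ((Z (g z) i - Z y0 i : ℝ) : ℂ))
        (((x i : ℝ) : ℂ) - Complex.I * ((cr (n (g z)) x i : ℝ) : ℂ)) z := by
    intro z hz
    obtain ⟨B, hB, hAB⟩ := hgd z hz
    have hy := hmem z hz
    obtain ⟨hn1, hn2, hn3⟩ := hn _ hy
    have hT : ∀ w, CONF_T a1 a2 (n (g z)) (fderiv ℝ Y (g z) (B w)) = w := hAB
    refine ⟨fderiv ℝ Y (g z) (B 1), fun h => ?_, (hn3 _).1, fun i => ?_⟩
    · have := hT 1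
      rw [h, map_zero] at this
      exact zero_ne_one this
    · refine CONF_hasDerivAt (X := fun z => Y (g z)) (W := fun z => Z (g z))
        (D := (fderiv ℝ Y (g z)).comp B) hn1 (hn3 _).1 ((hYd _ hy).comp z hB)
        ((hZ _ hy).comp z hB) rfl ?_ (Z y0) i
      have h0 : fderiv ℝ Y (g z) (B Complex.I) - cr (n (g z)) (fderiv ℝ Y (g z) (B 1)) = 0 := by
        refine CONF_T_inj h1 h2 h12 hn2 ?_ ?_
        · rw [inner_sub_right, (hn3 _).1, inner_cr_left, sub_zero]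
        · rw [map_sub, CONF_T_cr a1 a2 hn1 (hn3 _).1, hT, hT, mul_one, sub_self]
      exact sub_eq_zero.1 h0
  let c : Chart :=
    { r := ρ / 2
      Φ := fun i z => ((Y (g z) i : ℝ) : ℂ) - Complex.I * ((Z (g z) i - Z y0 i : ℝ) : ℂ)
      r_pos := by positivity
      hol := fun i z hz => by
        obtain ⟨x, -, -, h⟩ := key z hz
        exact (h i).differentiableAt.differentiableWithinAt
      null := fun z hz => by
        obtain ⟨x, -, hx, h⟩ := key z hz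
        simp only [fun i => (h i).deriv]
        exact CONF_null (hn _ (hmem z hz)).1 hx
      ne := fun z hz => by
        obtain ⟨x, hx0, -, h⟩ := key z hz
        by_contra hcon
        apply hx0
        ext i
        have h3 : deriv (fun z => ((Y (g z) i : ℝ) : ℂ)
            - Complex.I * ((Z (g z) i - Z y0 i : ℝ) : ℂ)) z = 0 := by
          by_contra h4
          exact hcon ⟨i, h4⟩
        rw [(h i).deriv] at h3
        simpa using congrArg Complex.re h3 }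
  have hX : ∀ z, c.X z = Y (g z) := by
    intro z
    ext i
    simp [c, Chart.X]
  refine ⟨c, g, rfl, hgs, hgt, hg0, ?_, fun i => ?_, fun z _ => hX z, hgb⟩
  · intro z hz w hw
    rw [hX, hX]
    have e1 := hgl z hz w hw
    have e2 := (convex_ball y0 ρ).norm_image_sub_le_of_norm_hasFDerivWithin_le'
      (φ := CONF_i a1 a2) (C := 1 / 8)
      (fun y hy => (hYd y hy).hasFDerivWithinAt)
      (fun y hy => ContinuousLinearMap.opNorm_le_bound _ (by norm_num) fun v => by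
        have := ((hn y hy).2.2 v).2
        rw [sub_apply, CONF_i_apply]
        linarith) (hmem w hw) (hmem z hz)
    have e3 := abs_norm_sub_norm_le (Y (g z) - Y (g w)) (CONF_i a1 a2 (g z - g w))
    rw [CONF_norm_i h1 h2 h12] at e3
    have e4 := abs_norm_sub_norm_le (z - w) (g z - g w)
    have e5 := abs_le.1 (e3.trans e2)
    have e6 := abs_le.1 (e4.trans e1)
    constructor <;> nlinarith [norm_nonneg (g z - g w), e5.1, e5.2, e6.1, e6.2]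
  · simp [c, hg0]

end MW
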