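import Pool.Agent.P.MP_064970_gt.I.SX

open scoped Manifold ContDiff
open MeasureTheory Set Filter Topology Metric
open scoped RealInnerProductSpace ENNReal ComplexConjugate Real

noncomputable section

namespace MW

universe u

/-- An oriented orthonormal frame in the range of an injective map. -/
theorem CONF0_frame {A : ℂ →L[ℝ] E} (hA : Function.Injective A) {m : E} (hm : ‖m‖ = 1)
    (ho : ∀ w, ⟪m, A w⟫ = 0) :
    ∃ u v : ℂ, ‖A u‖ = 1 ∧ ‖A v‖ = 1 ∧ ⟪A u, A v⟫ = 0 ∧ cr (A u) (A v) = m := by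
  have hne : ∀ w : ℂ, w ≠ 0 → ‖A w‖ ≠ 0 := fun w hw h =>
    hw (hA ((norm_eq_zero.1 h).trans (map_zero A).symm))
  have hun : ∀ w : ℂ, w ≠ 0 → ‖A (‖A w‖⁻¹ • w)‖ = 1 := fun w hw => by
    rw [map_smul, norm_smul, norm_inv, norm_norm, inv_mul_cancel₀ (hne w hw)]
  obtain ⟨u, hu⟩ : ∃ u : ℂ, u = ‖A 1‖⁻¹ • (1 : ℂ) := ⟨_, rfl⟩
  have hu1 : ‖A u‖ = 1 := hu ▸ hun 1 one_ne_zero
  obtain ⟨v₀, hv₀⟩ : ∃ v : ℂ, v = Complex.I - ⟪A u, A Complex.I⟫ • u := ⟨_, rfl⟩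
  have hv0 : v₀ ≠ 0 := by
    intro h
    have := congrArg Complex.im h
    rw [hv₀, hu] at this
    simp at this
  have hv1 : ⟪A u, A v₀⟫ = 0 := by
    rw [hv₀, map_sub, map_smul, inner_sub_right, real_inner_smul_right,
      real_inner_self_eq_norm_sq, hu1]
    ring
  obtain ⟨v, hv⟩ : ∃ v : ℂ, v = ‖A v₀‖⁻¹ • v₀ := ⟨_, rfl⟩
  have hv2 : ‖A v‖ = 1 := hv ▸ hun v₀ hv0
  have hv3 : ⟪A u, A v⟫ = 0 := by rw [hv, map_smul, real_inner_smul_right, hv1, mul_zero]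
  have hc : ‖cr (A u) (A v)‖ ^ 2 = 1 := by
    rw [norm_sq_cr, hu1, hv2, hv3]
    norm_num
  have h1 := smul_eq_of_orth (ho u) (ho v)
  rw [hc, one_smul] at h1
  have h2 : ⟪m, cr (A u) (A v)⟫ ^ 2 = 1 := by
    have := congrArg (fun x => ‖x‖ ^ 2) h1
    simp only [norm_smul, mul_pow, hc, hm, Real.norm_eq_abs, sq_abs] at this
    linarith
  rcases sq_eq_one_iff.1 h2 with h3 | h3
  · rw [h3, one_smul] at h1
    exact ⟨u, v, hu1, hv2, hv3, h1.symm⟩
  · rw [h3, neg_one_smul] at h1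
    refine ⟨u, -v, hu1, by rw [map_neg, norm_neg, hv2],
      by rw [map_neg, inner_neg_right, hv3, neg_zero], ?_⟩
    rw [map_neg, ← crL_apply, map_neg, crL_apply, ← h1]

/-- The linear change of parameters. -/
theorem CONF0_lin {A : ℂ →L[ℝ] E} {u v : ℂ} (hu : ‖A u‖ = 1) (hv : ‖A v‖ = 1)
    (huv : ⟪A u, A v⟫ = 0) :
    ∃ L : ℂ ≃L[ℝ] ℂ, ∀ w, A (L w) = w.re • A u + w.im • A v := by
  let L₀ : ℂ →L[ℝ] ℂ := Complex.reCLM.smulRight u + Complex.imCLM.smulRight v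
  have hL : ∀ w, A (L₀ w) = w.re • A u + w.im • A v := fun w => by
    simp only [L₀, ContinuousLinearMap.add_apply, ContinuousLinearMap.smulRight_apply,
      Complex.reCLM_apply, Complex.imCLM_apply, map_add, map_smul]
  have hinj : Function.Injective (L₀ : ℂ →ₗ[ℝ] ℂ) := by
    rw [injective_iff_map_eq_zero]
    intro w hw
    have h0 : L₀ w = 0 := hw
    have h1 := hL w
    rw [h0, map_zero] at h1
    have h2 := congrArg (fun x => ⟪A u, x⟫) h1
    have h3 := congrArg (fun x => ⟪A v, x⟫) h1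
    simp only [inner_zero_right, inner_add_right, real_inner_smul_right,
      real_inner_self_eq_norm_sq, hu, hv, huv, real_inner_comm (A u) (A v)] at h2 h3
    apply Complex.ext
    · simp only [Complex.zero_re]
      linarith
    · simp only [Complex.zero_im]
      linarith
  exact ⟨(LinearEquiv.ofInjectiveEndo _ hinj).toContinuousLinearEquiv, hL⟩

/- Hint. MINC on a ball about y0 in D gives n, Z. b1 = DY 1, b2 = DY I at y0; a1 = b1/|b1|, a2 = cr (n y0)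
a1 (then cr a1 a2 = n y0 by cr_cr); a2 is in the range of DY y0 (range = orthogonal complement of
n y0 by finrank, or explicit Gram-Schmidt), so there is a linear equivalence L of C with DY y0 (L
w) = w.re a1 + w.im a2. Apply CONF to Y o T, Z o T, n o T, T w = y0 + L w, centre 0, rho small
(continuity of fderiv Y and n). g = g' trans T. -/
theorem conf0_of (hMINC : S_MINC) (hCONF : S_CONF) : S_CONF0 := by
  intro Y D y0 hD hy0 hY hinj hmin
  obtain ⟨r, hr, hB⟩ := Metric.isOpen_iff.1 hD y0 hy0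
  obtain ⟨n, Z, hn, hZ⟩ := hMINC Y (ball y0 r) isOpen_ball (convex_ball y0 r) (hY.mono hB)
    (fun z hz => hinj z (hB hz)) (fun z hz => hmin z (hB hz))
  have h0 := mem_ball_self (x := y0) hr
  obtain ⟨u, v, hu, hv, huv, hcr⟩ := CONF0_frame (hinj y0 hy0) (hZ y0 h0).1 (hZ y0 h0).2.1
  obtain ⟨L, hL⟩ := CONF0_lin hu hv huv
  let T : ℂ ≃ₜ ℂ := L.toHomeomorph.trans (Homeomorph.addLeft y0)
  have hT : ∀ w, T w = y0 + L w := fun _ => rfl
  have hT0 : T 0 = y0 := by rw [hT, map_zero, add_zero]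
  have hTd : ∀ w, HasFDerivAt T (L : ℂ →L[ℝ] ℂ) w := fun w =>
    (L : ℂ →L[ℝ] ℂ).hasFDerivAt.const_add y0
  have hTt : Tendsto T (𝓝 0) (𝓝 y0) := hT0 ▸ T.continuous.tendsto 0
  have hYd : ∀ z ∈ D, DifferentiableAt ℝ Y z := fun z hz =>
    (hY.differentiableOn (by norm_num)).differentiableAt (hD.mem_nhds hz)
  have hfc : ContinuousAt (fun z => (fderiv ℝ Y z).comp (L : ℂ →L[ℝ] ℂ)) y0 :=
    ((hY.continuousOn_fderiv_of_isOpen hD (by norm_num)).continuousAt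
      (hD.mem_nhds hy0)).clm_comp continuousAt_const
  have hnc : ContinuousAt n y0 := hn.continuousAt (isOpen_ball.mem_nhds h0)
  have hev : ∀ᶠ z in 𝓝 y0, z ∈ ball y0 r ∧ dist (n z) (n y0) < 1 / 8 ∧
      dist ((fderiv ℝ Y z).comp (L : ℂ →L[ℝ] ℂ)) ((fderiv ℝ Y y0).comp (L : ℂ →L[ℝ] ℂ)) < 1 / 8 :=
    (isOpen_ball.eventually_mem h0).and ((Metric.tendsto_nhds.1 hnc _ (by norm_num)).and
      (Metric.tendsto_nhds.1 hfc _ (by norm_num)))
  obtain ⟨ρ, hρ, hb⟩ := Metric.eventually_nhds_iff_ball.1 (hTt.eventually hev)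
  have hYT : ∀ w ∈ ball (0 : ℂ) ρ,
      HasFDerivAt (Y ∘ T) ((fderiv ℝ Y (T w)).comp (L : ℂ →L[ℝ] ℂ)) w := fun w hw =>
    (hYd _ (hB (hb w hw).1)).hasFDerivAt.comp w (hTd w)
  obtain ⟨c, g, hcr', hs, ht, hg0, -, -, hX, -⟩ := hCONF (Y ∘ T) (Z ∘ T) (n ∘ T) 0 ρ _ _ hρ hu hv
    huv (fun w hw => (hYT w hw).differentiableAt.differentiableWithinAt)
    (fun w hw => by
      rw [(hYT w hw).fderiv]
      exact (hZ _ (hb w hw).1).2.2.comp w (hTd w))
    (fun w hw => by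
      obtain ⟨k1, k2, k3⟩ := hb w hw
      rw [(hYT w hw).fderiv, hcr]
      rw [dist_eq_norm] at k2 k3
      refine ⟨(hZ _ k1).1, k2.le, fun w' => ⟨(hZ _ k1).2.1 _, ?_⟩⟩
      rw [← hL]
      have := ((fderiv ℝ Y (T w)).comp (L : ℂ →L[ℝ] ℂ)
        - (fderiv ℝ Y y0).comp (L : ℂ →L[ℝ] ℂ)).le_opNorm w'
      refine this.trans ?_
      have k4 := mul_le_mul_of_nonneg_right k3.le (norm_nonneg w')
      linarith)
  refine ⟨c, g.transHomeomorph T, by rw [hcr', ← hs]; rfl, ?_, ?_, ?_⟩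
  · intro z hz
    have h1 : T.symm z ∈ g.target := hz
    have h2 := hB (hb _ (ht h1)).1
    rwa [T.apply_symm_apply] at h2
  · show T (g 0) = y0
    rw [hg0, hT0]
  · intro z hz
    rw [hcr'] at hz
    exact hX z hz

end MW
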