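import Pool.Agent.P.MP_064970_gt.I.SX

open scoped Manifold ContDiff
open MeasureTheory Set Filter Topology Metric
open scoped RealInnerProductSpace ENNReal ComplexConjugate Real

noncomputable section

namespace MW

universe u

theorem CONJ_poinc {om : ℂ → ℂ →L[ℝ] E} {D : Set ℂ} (hD : IsOpen D) (hc : Convex ℝ D)
    (h : ∀ y₀ ∈ D, ∃ Z : ℂ → E, AnalyticAt ℝ Z y₀ ∧ om =ᶠ[𝓝 y₀] fderiv ℝ Z) :
    ∃ Z : ℂ → E, ∀ y ∈ D, HasFDerivAt Z (om y) y := by
  refine hc.exists_forall_hasFDerivAt_of_fderiv_symmetric hD (fun y hy => ?_) fun y hy v w => ?_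
  · obtain ⟨Z, hZ, he⟩ := h y hy
    exact (hZ.fderiv.differentiableAt.congr_of_eventuallyEq he).differentiableWithinAt
  · obtain ⟨Z, hZ, he⟩ := h y hy
    rw [he.fderiv_eq]
    exact hZ.contDiffAt.isSymmSndFDerivAt_of_omega v w

/-- The conjugate chart. -/
def CONJ_rot (c : Chart) : Chart where
  r := c.r
  Φ := fun i z => Complex.I * c.Φ i z
  r_pos := c.r_pos
  hol := fun i => (c.hol i).const_mul _
  null := fun z hz => by
    simp only [deriv_const_mul_field, mul_pow]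
    rw [← Finset.mul_sum, c.null z hz, mul_zero]
  ne := fun z hz => by
    obtain ⟨i, hi⟩ := c.ne z hz
    exact ⟨i, by rw [deriv_const_mul_field]; exact mul_ne_zero Complex.I_ne_zero hi⟩

theorem CONJ_Xu (c : Chart) (z : ℂ) : (CONJ_rot c).Xu z = c.Xv z := by
  ext i
  simp [Chart.Xu, Chart.Xv, CONJ_rot]

theorem CONJ_Xv (c : Chart) (z : ℂ) : (CONJ_rot c).Xv z = -c.Xu z := by
  ext i
  simp [Chart.Xu, Chart.Xv, CONJ_rot]

theorem CONJ_inner (n u v : E) : ⟪cr n u, v⟫ = ChartAPI_det u v n := by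
  rw [inner_eq, ChartAPI_det]
  simp only [cr_0, cr_1, cr_2]
  ring

theorem CONJ_cr {M : Surf} {c : Chart} (hf : c.Fits M.S M.N M.μ) {z : ℂ}
    (hz : z ∈ ball (0 : ℂ) c.r) : cr (M.N (c.X z)) (c.Xu z) =
      (ChartAPI_det (c.Xu z) (c.Xv z) (M.N (c.X z)) / c.jac z) • c.Xv z := by
  have h := c.frame hz (M.N_unit _ (hf.emb.mem hz)) (hf.inner_Xu hz) (hf.inner_Xv hz)
    (cr (M.N (c.X z)) (c.Xu z))
  have h1 : ⟪cr (M.N (c.X z)) (c.Xu z), c.Xu z⟫ = 0 := by
    rw [real_inner_comm, inner_cr_right]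
  have h2 : ⟪cr (M.N (c.X z)) (c.Xu z), M.N (c.X z)⟫ = 0 := by
    rw [real_inner_comm, inner_cr_left]
  rw [h1, h2, CONJ_inner, zero_div, zero_smul, zero_smul, zero_add, add_zero] at h
  exact h

theorem CONJ_sign {M : Surf} {c : Chart} (hf : c.Fits M.S M.N M.μ) : ∃ s : ℝ, s * s = 1 ∧
    ∀ z ∈ ball (0 : ℂ) c.r, cr (M.N (c.X z)) (c.Xu z) = s • c.Xv z := by
  have hN : ContinuousOn (fun z => M.N (c.X z)) (ball 0 c.r) :=
    M.N_cont.comp c.continuousOn_X fun w hw => hf.emb.mem hw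
  have hp : ∀ {f : ℂ → E}, ContinuousOn f (ball 0 c.r) → ∀ i,
      ContinuousOn (fun z => f z i) (ball 0 c.r) := fun hf i =>
    (EuclideanSpace.proj i : E →L[ℝ] ℝ).continuous.comp_continuousOn hf
  have hu := hp c.analyticOnNhd_Xu.continuousOn
  have hv := hp c.analyticOnNhd_Xv.continuousOn
  have hn := hp hN
  have hD : ContinuousOn (fun z => ChartAPI_det (c.Xu z) (c.Xv z) (M.N (c.X z))) (ball 0 c.r) :=
    (((((hu 1).mul (hv 2)).sub ((hu 2).mul (hv 1))).mul (hn 0)).add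
      ((((hu 2).mul (hv 0)).sub ((hu 0).mul (hv 2))).mul (hn 1))).add
      ((((hu 0).mul (hv 1)).sub ((hu 1).mul (hv 0))).mul (hn 2))
  have h := (convex_ball (0 : ℂ) c.r).isPreconnected.eq_or_eq_neg_of_sq_eq hD c.continuousOn_jac
    (fun z hz => ChartAPI_det_sq (c.norm_Xu_sq hz) (c.norm_Xv_sq hz) (c.inner_Xu_Xv hz)
      (M.N_unit _ (hf.emb.mem hz)) (hf.inner_Xu hz) (hf.inner_Xv hz))
    fun hz => (c.jac_pos hz).ne'
  rcases h with h | h
  · refine ⟨1, one_mul 1, fun z hz => ?_⟩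
    have h1 : ChartAPI_det (c.Xu z) (c.Xv z) (M.N (c.X z)) = c.jac z := h hz
    rw [CONJ_cr hf hz, h1, div_self (c.jac_pos hz).ne']
  · refine ⟨-1, by norm_num, fun z hz => ?_⟩
    have h1 : ChartAPI_det (c.Xu z) (c.Xv z) (M.N (c.X z)) = -c.jac z := h hz
    rw [CONJ_cr hf hz, h1, neg_div, div_self (c.jac_pos hz).ne']

theorem CONJ_DX {M : Surf} {c : Chart} (hf : c.Fits M.S M.N M.μ) : ∃ s : ℝ,
    ∀ z ∈ ball (0 : ℂ) c.r, (crL (M.N (c.X z))).comp (c.DX z) = s • (CONJ_rot c).DX z := by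
  obtain ⟨s, hs, h⟩ := CONJ_sign hf
  refine ⟨s, fun z hz => ContinuousLinearMap.ext fun w => ?_⟩
  have h1 : crL (M.N (c.X z)) (c.Xu z) = s • c.Xv z := h z hz
  have h2 : c.Xv z = s • crL (M.N (c.X z)) (c.Xu z) := by rw [h1, smul_smul, hs, one_smul]
  have h3 : crL (M.N (c.X z)) (c.Xv z) = -(s • c.Xu z) := by
    rw [h2, map_smul, crL_apply, crL_apply, cr_cr, hf.inner_Xu hz, real_inner_self_eq_norm_sq,
      M.N_unit _ (hf.emb.mem hz)]
    simp
  rw [ContinuousLinearMap.comp_apply, smul_apply, Chart.DX_apply,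
    Chart.DX_apply, map_add, map_smul, map_smul, h1, h3, CONJ_Xu, CONJ_Xv]
  module

/- Hint. Convex.exists_forall_hasFDerivAt_of_fderiv_symmetric: it suffices that near every y0 in D the form
is the derivative of an analytic map Zloc (then it is differentiable, and fderiv of fderiv is
symmetric: ContDiffAt.isSymmSndFDerivAt). LOCS at Y y0 with v = N: near y0, Y y = X (g y), g = om
o Y analytic. For the chart: cr (N (X z)) Xu = s Xv and cr (N (X z)) Xv = -s Xu with s = 1 or -1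
locally constant (N (X z) = s cr Xu Xv / jac by normal_eq_or, continuity; cr_cr'). The map I z =
(Im Phi_i z)_i has derivative w -> w.im Xu - w.re Xv, so cr N (DX w) = -s DI w and Zloc = -s I o
g. -/
theorem conj_of (hLOCS : S_LOCS) : S_CONJ := by
  intro M Y D hD hc hY hm
  refine CONJ_poinc hD hc fun y₀ hy₀ => ?_
  have hp := hm hy₀
  obtain ⟨c, ε, U, om, τ, -, hf, hb, hpU, -, -, hS, -⟩ := hLOCS M (Y y₀) hp (M.N (Y y₀))
    (by rw [real_inner_self_eq_norm_sq, M.N_unit _ hp]; norm_num) univ univ_mem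
  obtain ⟨s, hs⟩ := CONJ_DX hf
  have h1 : ∀ᶠ y in 𝓝 y₀, y ∈ D ∧ Y y ∈ U :=
    (hD.eventually_mem hy₀).and ((hY y₀ hy₀).continuousAt.eventually (hb.opn.mem_nhds hpU))
  have h2 : ∀ᶠ y in 𝓝 y₀, Y y = c.X (om (Y y)) := by
    filter_upwards [h1] with y hy
    have h3 := (hb.left _ hy.2).2.2
    rw [(hS _ hy.2).1.1 (hm hy.1), zero_smul, add_zero] at h3
    exact h3.symm
  have h3 : ∀ y, y ∈ D ∧ Y y ∈ U → AnalyticAt ℝ (fun y => om (Y y)) y ∧
      om (Y y) ∈ ball (0 : ℂ) c.r := fun y hy =>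
    ⟨(hb.an_om _ hy.2).comp (hY y hy.1), hb.sub (hb.left _ hy.2).1⟩
  refine ⟨fun y => s • (CONJ_rot c).X (om (Y y)), ?_, ?_⟩
  · obtain ⟨h4, h5⟩ := h3 y₀ ⟨hy₀, hpU⟩
    exact (((CONJ_rot c).analyticOnNhd_X _ h5).comp (f := fun y => om (Y y)) h4).const_smul
      (c := s)
  · filter_upwards [h1, h2.eventually_nhds] with y hy he
    obtain ⟨h4, h5⟩ := h3 y hy
    have h6 := h4.differentiableAt.hasFDerivAt
    have h7 : HasFDerivAt Y ((c.DX (om (Y y))).comp (fderiv ℝ (fun y => om (Y y)) y)) y :=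
      ((c.hasFDerivAt_X h5).comp (f := fun y => om (Y y)) y h6).congr_of_eventuallyEq he
    have h8 := (((CONJ_rot c).hasFDerivAt_X h5).comp (f := fun y => om (Y y)) y h6).const_smul s
    have h9 : fderiv ℝ (fun y => s • (CONJ_rot c).X (om (Y y))) y = _ := h8.fderiv
    rw [h9, h7.fderiv, ← ContinuousLinearMap.comp_assoc, ← ContinuousLinearMap.smul_comp,
      ← hs _ h5, ← he.self_of_nhds]

end MW
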