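import Pool.Agent.P.MP_064970_gt.I.SX

open scoped Manifold ContDiff
open MeasureTheory Set Filter Topology Metric
open scoped RealInnerProductSpace ENNReal ComplexConjugate Real

noncomputable section

namespace MW

universe u

theorem const_of : S_CONST := by
  intro U _ M hM
  refine ⟨fun xk x hk hx _ => ?_, fun K _ h => Eventually.of_forall fun _ => h,
    fun K _ h => Eventually.of_forall fun _ => h, fun F K _ _ _ _ => tendsto_const_nhds⟩
  have hxS : x ∈ M.S := hM.isClosed.mem_of_tendsto hx hk
  exact ⟨hxS, (M.N_cont x hxS).tendsto.comp (tendsto_nhdsWithin_iff.2 ⟨hx, hk⟩)⟩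

end MW
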