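import Pool.Agent.P.MP_064970_gt.I.SX

open scoped Manifold ContDiff
open MeasureTheory Set Filter Topology Metric
open scoped RealInnerProductSpace ENNReal ComplexConjugate Real

noncomputable section

namespace MW

universe u

section

variable {U : Ultrafilter ℕ} {Mk : ℕ → Surf} {M : Surf}

theorem CONV_swap {F : Filter ℕ} (h : Conv F Mk M) : Conv F (fun k => (Mk k).swap) M.swap where
  pts := fun xk x h1 h2 h3 => ⟨(h.pts xk x h1 h2 h3).1, (h.pts xk x h1 h2 h3).2.neg⟩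
  inW := h.inW'
  inW' := h.inW
  meas := fun G K hG hK hO h0 => h.meas (fun q => G (q.1, -q.2)) K (hG.comp (by fun_prop)) hK hO
    fun x n hx => h0 x (-n) hx

theorem CONV_unif (h : Conv (U : Filter ℕ) Mk M) {K : Set E} (hK : IsCompact K) (hO : K ⊆ M.O)
    {ε : ℝ} (hε : 0 < ε) : ∀ᶠ k in (U : Filter ℕ),
    ∀ x ∈ (Mk k).S ∩ K, ∃ y ∈ M.S, ‖x - y‖ < ε ∧ ‖(Mk k).N x - M.N y‖ < ε := by
  by_contra hn
  rw [← Ultrafilter.eventually_not] at hn
  have h1 : ∀ k, ∃ z : E, (¬ ∀ x ∈ (Mk k).S ∩ K, ∃ y ∈ M.S,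
      ‖x - y‖ < ε ∧ ‖(Mk k).N x - M.N y‖ < ε) → z ∈ (Mk k).S ∩ K ∧
      ¬ ∃ y ∈ M.S, ‖z - y‖ < ε ∧ ‖(Mk k).N z - M.N y‖ < ε := fun k => by
    by_cases hk : ∀ x ∈ (Mk k).S ∩ K, ∃ y ∈ M.S, ‖x - y‖ < ε ∧ ‖(Mk k).N x - M.N y‖ < ε
    · exact ⟨0, fun h2 => absurd hk h2⟩
    · obtain ⟨z, hz⟩ := not_forall.1 hk
      exact ⟨z, fun _ => Classical.not_imp.1 hz⟩
  choose z hz using h1
  have h2 := hn.mono hz
  obtain ⟨x, hx, hl⟩ := hK.ultrafilter_le_nhds' (U.map z) (h2.mono fun k hk => hk.1.2)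
  have hl' : Tendsto z U (𝓝 x) := hl
  obtain ⟨hS, hN⟩ := h.pts z x (h2.mono fun k hk => hk.1.1) hl' (hO hx)
  obtain ⟨k, hk1, hk2, hk3⟩ := (h2.and ((Metric.tendsto_nhds.1 hl' ε hε).and
    (Metric.tendsto_nhds.1 hN ε hε))).exists
  rw [dist_eq_norm] at hk2 hk3
  exact hk1.2 ⟨x, hS, hk2, hk3⟩

theorem CONV_near {F : Filter ℕ} (hm : ∀ k, (Mk k).Mem) (h : Conv F Mk M) {x : E} (hx : x ∈ M.S)
    {ε : ℝ} (hε : 0 < ε) : ∀ᶠ k in F, ∃ y ∈ (Mk k).S, dist x y < ε := by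
  have hu := M.N_unit x hx
  have h1 := M.side x hx (M.N x) (by rw [real_inner_self_eq_norm_sq, hu]; norm_num)
  obtain ⟨t, ⟨h2, h3⟩, h4⟩ := (h1.and (Ioo_mem_nhdsGT hε)).exists
  have hn : ‖t • M.N x‖ < ε := by
    rw [norm_smul, hu, mul_one, Real.norm_eq_abs, abs_of_pos h4.1]
    exact h4.2
  filter_upwards [h.inW _ isCompact_singleton (singleton_subset_iff.2 h3),
    h.inW' _ isCompact_singleton (singleton_subset_iff.2 h2)] with k k1 k2
  obtain ⟨y, hy, hS⟩ := (Mk k).exists_cross ((hm k).sub _) (k1 rfl) (k2 rfl)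
  refine ⟨y, hS, mem_ball'.1 ((convex_ball x ε).segment_subset ?_ ?_ hy)⟩
  · rwa [mem_ball, dist_eq_norm, sub_sub_cancel_left, norm_neg]
  · rwa [mem_ball, dist_eq_norm, add_sub_cancel_left]

theorem CONV_seq {F : Filter ℕ} (hm : ∀ k, (Mk k).Mem) (h : Conv F Mk M) {x : E} (hx : x ∈ M.S) :
    ∃ xk : ℕ → E, (∀ᶠ k in F, xk k ∈ (Mk k).S) ∧ Tendsto xk F (𝓝 x) ∧
      Tendsto (fun k => (Mk k).N (xk k)) F (𝓝 (M.N x)) := by
  have h1 : ∀ k, ∃ z : E, (Mk k).S.Nonempty →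
      z ∈ (Mk k).S ∧ infDist x (Mk k).S = dist x z := fun k => by
    by_cases hk : (Mk k).S.Nonempty
    · obtain ⟨z, hz⟩ := (hm k).isClosed.exists_infDist_eq_dist hk x
      exact ⟨z, fun _ => hz⟩
    · exact ⟨0, fun h2 => absurd h2 hk⟩
  choose z hz using h1
  have h2 : ∀ᶠ k in F, z k ∈ (Mk k).S :=
    (CONV_near hm h hx one_pos).mono fun k ⟨y, hy, _⟩ => (hz k ⟨y, hy⟩).1
  have h3 : Tendsto z F (𝓝 x) := Metric.tendsto_nhds.2 fun ε hε =>
    (CONV_near hm h hx hε).mono fun k ⟨y, hy, hd⟩ => by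
      rw [dist_comm, ← (hz k ⟨y, hy⟩).2]
      exact (infDist_le_dist_of_mem hy).trans_lt hd
  exact ⟨z, h2, h3, (h.pts z x h2 h3 (M.S_subset hx)).2⟩

theorem CONV_theta {F : Filter ℕ} (h : Conv F Mk M) (p : E) {r : ℝ} (hr : 0 < r)
    (hO : closedBall p r ⊆ M.O) : Tendsto (fun k => (Mk k).Θ p r) F (𝓝 (M.Θ p r)) := by
  refine (h.meas (fun q => lam (‖q.1 - p‖ ^ 2 / r ^ 2)) _
    ((dens_continuous_lam p r).comp continuous_fst) (isCompact_closedBall p r) hO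
    fun x _ hx => dens_lam_zero hr ?_).div_const _
  rw [mem_closedBall, dist_eq_norm, not_le] at hx
  exact hx.le

theorem CONV_reg {F : Filter ℕ} [F.NeBot] (hm : ∀ k, (Mk k).Mem) (h : Conv F Mk M) {p : E} {r : ℝ}
    (hr : ∀ᶠ k in F, (Mk k).Reg p r) : M.Reg p r := by
  intro x hx y hy
  obtain ⟨xk, x1, x2, x3⟩ := CONV_seq hm h hx.1
  obtain ⟨yk, y1, y2, y3⟩ := CONV_seq hm h hy.1
  refine le_of_tendsto (x3.sub y3).norm ?_
  filter_upwards [hr, x1, y1, x2 (isOpen_ball.mem_nhds hx.2), y2 (isOpen_ball.mem_nhds hy.2)]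
    with k k1 k2 k3 k4 k5
  exact k1 _ ⟨k2, k4⟩ _ ⟨k3, k5⟩

theorem CONV_not {F : Filter ℕ} [F.NeBot] (h : Conv F Mk M) {x : E}
    (hx : ∀ᶠ k in F, x ∈ (Mk k).W) : x ∉ M.W' := fun h1 => by
  obtain ⟨k, k1, k2⟩ :=
    (hx.and (h.inW' _ isCompact_singleton (singleton_subset_iff.2 h1))).exists
  exact disjoint_left.1 (Mk k).disj k1 (k2 rfl)

theorem CONV_open {F : Filter ℕ} [F.NeBot] (h : Conv F Mk M) {G : Set E} (hG : IsOpen G)
    (hO : G ⊆ M.O) (hx : ∀ x ∈ G, ∀ᶠ k in F, x ∈ (Mk k).W) : G ⊆ M.W := by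
  intro x hxG
  rcases M.mem_cases (hO hxG) with h1 | h1 | h1
  · exact h1
  · exact absurd h1 (CONV_not h (hx x hxG))
  · have h2 := M.side x h1 (M.N x)
      (by rw [real_inner_self_eq_norm_sq, M.N_unit x h1]; norm_num)
    have h3 : Tendsto (fun t : ℝ => x + t • M.N x) (𝓝[>] 0) (𝓝 x) :=
      (Continuous.tendsto' (by fun_prop) 0 x (by simp)).mono_left nhdsWithin_le_nhds
    obtain ⟨t, t1, t2⟩ := (h2.and (h3 (hG.mem_nhds hxG))).exists
    exact absurd t1.1 (CONV_not h (hx _ t2))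

end

/- Hint. (1) if not, for U-most k a bad x_k in S_k cap K (Ultrafilter.eventually_not), x_k -> x in K along
U (IsCompact.ultrafilter_le_nhds'), Conv.pts. (2) for eps > 0: x + t N in W', x - t N in W (side),
inW, inW' for singletons, exists_cross: S_k meets ball x eps for U-most k; xk = nearest point of
S_k. (3) Conv.meas with F (x,n) = lam (..), K = closedBall. (4) from (2). (5)-(8) inW, inW' for
singletons and side. (9) F composed with (x,n) -> (x,-n). -/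
theorem conv_of : S_CONV := fun _ _ _ hm h =>
  ⟨fun _ hK hO _ hε => CONV_unif h hK hO hε, fun _ hx => CONV_seq hm h hx,
    fun p _ hr hO => CONV_theta h p hr hO, fun _ _ hr => CONV_reg hm h hr,
    fun _ _ hx => CONV_not h hx, fun _ _ hx => CONV_not (CONV_swap h) hx,
    fun _ hG hO hx => CONV_open h hG hO hx, fun _ hG hO hx => CONV_open (CONV_swap h) hG hO hx,
    CONV_swap h⟩

end MW
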