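import Pool.Agent.P.MP_064970_gt.I.SX

open scoped Manifold ContDiff
open MeasureTheory Set Filter Topology Metric
open scoped RealInnerProductSpace ENNReal ComplexConjugate Real

noncomputable section

namespace MW

universe u

theorem COVER_chart (c : Chart) (A : E ≃ₗᵢ[ℝ] E) (h : ℝ)
    (hc : ∀ z ∈ ball (0 : ℂ) c.r, ⟪c.X z, A e3⟫ = h) :
    ∃ e : OpenPartialHomeomorph ℂ ℂ, 0 ∈ e.source ∧ ∀ z, e z = prA A (c.X z) := by
  have h0 : (0 : ℂ) ∈ ball (0 : ℂ) c.r := mem_ball_self c.r_pos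
  have hX : HasStrictFDerivAt c.X (c.DX 0) 0 :=
    (c.analyticOnNhd_X 0 h0).contDiffAt.hasStrictFDerivAt' (c.hasFDerivAt_X h0) one_ne_zero
  let P : E →L[ℝ] ℂ := prL.comp (A.symm.toContinuousLinearEquiv : E →L[ℝ] E)
  have hP : ∀ x, P x = prA A x := fun x => rfl
  have hG : HasStrictFDerivAt (fun z => prA A (c.X z)) (P.comp (c.DX 0)) 0 :=
    P.hasStrictFDerivAt.comp 0 hX
  have hn : ∀ w, ⟪c.DX 0 w, A e3⟫ = 0 := by
    intro w
    have h1 : HasFDerivAt (fun z => innerSL ℝ (A e3) (c.X z))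
        ((innerSL ℝ (A e3)).comp (c.DX 0)) 0 :=
      (innerSL ℝ (A e3)).hasFDerivAt.comp 0 (c.hasFDerivAt_X h0)
    have h2 : HasFDerivAt (fun z => innerSL ℝ (A e3) (c.X z)) (0 : ℂ →L[ℝ] ℝ) 0 := by
      refine (hasFDerivAt_const h (0 : ℂ)).congr_of_eventuallyEq ?_
      filter_upwards [isOpen_ball.mem_nhds h0] with z hz
      rw [innerSL_apply_apply, real_inner_comm]
      exact hc z hz
    have h3 := congrArg (fun L : ℂ →L[ℝ] ℝ => L w) (h1.unique h2)
    rw [real_inner_comm]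
    simpa using h3
  have hinj : Function.Injective (P.comp (c.DX 0)) := by
    refine (injective_iff_map_eq_zero _).2 fun w hw => ?_
    have h1 := apply_pt_prA A (c.DX 0 w)
    have h2 : prA A (c.DX 0 w) = 0 := hw
    have h3 : pt 0 0 = 0 := by
      ext i
      fin_cases i <;> rfl
    rw [h2, hn w, h3, map_zero] at h1
    exact c.injective_DX h0 (h1.symm.trans (map_zero _).symm)
  let L : ℂ ≃L[ℝ] ℂ :=
    (LinearEquiv.ofInjectiveEndo (P.comp (c.DX 0) : ℂ →ₗ[ℝ] ℂ) hinj).toContinuousLinearEquiv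
  have hL : (L : ℂ →L[ℝ] ℂ) = P.comp (c.DX 0) := by
    ext1 w
    rfl
  rw [← hL] at hG
  exact ⟨hG.toOpenPartialHomeomorph _, hG.mem_toOpenPartialHomeomorph_source, fun z => rfl⟩

/- Hint. A e3 = nu, g y = prA A (f y); f y = A (pt (g y) h), h = <q, nu> (apply_pt_prA). g is proper
(isProperMap_iff_isCompact_preimage: g preimage K = f preimage of a compact set). Local
homeomorphism: in a chart at y, G = prA A o X has a strict derivative at 0 with nonzero det (nu is
normal: differentiate <X z, nu> = const; Chart.abs_det_prA),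
HasStrictFDerivAt.toOpenPartialHomeomorph e; g = e o psi.symm near y (IsLocalHomeomorph.mk with
psi.symm.trans e). -/
theorem cover_of (hCOV0 : S_COV0.{u}) : S_COVER.{u} := by
  intro Ω _ _ _ f hf hch q ν hν hq
  obtain ⟨A, rfl⟩ := exists_iso_e3 hν
  have hh : ∀ p, ⟪f p, A e3⟫ = ⟪q, A e3⟫ := fun p => by
    have h := hq p
    rw [inner_sub_left] at h
    linarith
  have hfg : f = (fun y : ℂ => A (pt y ⟪q, A e3⟫)) ∘ fun p => prA A (f p) := by
    funext p
    rw [Function.comp_apply, ← hh p, apply_pt_prA]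
  have hprop : IsProperMap fun p => prA A (f p) :=
    isProperMap_of_comp_of_t2 (g := fun y : ℂ => A (pt y ⟪q, A e3⟫))
      ((continuous_prA A).comp hf.continuous) (A.continuous.comp (by fun_prop)) (hfg ▸ hf)
  have hloc : IsLocalHomeomorph fun p => prA A (f p) := by
    refine IsLocalHomeomorph.mk _ fun p => ?_
    obtain ⟨c, hc⟩ := hch p
    obtain ⟨e, he0, he⟩ := COVER_chart c.toChart A ⟪q, A e3⟫ fun z hz => by
      rw [← c.eq z hz, hh]
    have h0 : (0 : ℂ) ∈ c.ψ.source := by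
      rw [c.src]
      exact mem_ball_self c.r_pos
    refine ⟨c.ψ.symm.trans e, ⟨?_, ?_⟩, fun y hy => ?_⟩
    · rw [← hc]
      exact c.ψ.map_source h0
    · rw [← hc]
      show c.ψ.symm (c.ψ 0) ∈ e.source
      rw [c.ψ.left_inv h0]
      exact he0
    · have hy1 : y ∈ c.ψ.target := hy.1
      have h1 : c.ψ.symm y ∈ ball (0 : ℂ) c.r := c.src ▸ c.ψ.map_target hy1
      show prA A (f y) = e (c.ψ.symm y)
      rw [he, ← c.eq _ h1, c.ψ.right_inv hy1]
  intro x y hxy
  exact hCOV0 Ω _ hprop hloc (congrArg (prA A) hxy)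

end MW
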