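import Pool.Agent.P.MP_064970_gt.I.SX

open scoped Manifold ContDiff
open MeasureTheory Set Filter Topology Metric
open scoped RealInnerProductSpace ENNReal ComplexConjugate Real

noncomputable section

namespace MW

universe u

theorem DBL1_theta {Ω : Type u} [MeasurableSpace Ω] {f : Ω → E} (hf : Measurable f) (m : Measure Ω)
    (q : E) (r : ℝ) : theta (m.map f) q r = (∫ y, lam (‖f y - q‖ ^ 2 / r ^ 2) ∂m) / r ^ 2 := by
  unfold theta
  rw [integral_map hf.aemeasurable (dens_continuous_lam q r).aestronglyMeasurable]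

theorem DBL1_int {Ω : Type u} [MeasurableSpace Ω] {f : Ω → E} (hf : Measurable f) {m : Measure Ω}
    {q : E} {r : ℝ} (hr : 0 < r) (h : m (f ⁻¹' ball q r) < ⊤) :
    Integrable (fun y => lam (‖f y - q‖ ^ 2 / r ^ 2)) m := by
  have hm : Measurable fun y => lam (‖f y - q‖ ^ 2 / r ^ 2) :=
    (dens_continuous_lam q r).measurable.comp hf
  have hI : IntegrableOn (fun y => lam (‖f y - q‖ ^ 2 / r ^ 2)) (f ⁻¹' ball q r) m := by
    refine Measure.integrableOn_of_bounded (M := 4 / π) h.ne hm.aestronglyMeasurable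
      (Eventually.of_forall fun y => ?_)
    rw [Real.norm_eq_abs, abs_of_nonneg (lam_nonneg _)]
    exact lam_le (by positivity)
  refine hI.integrable_of_forall_notMem_eq_zero fun y hy => ?_
  rw [mem_preimage, mem_ball, dist_eq_norm, not_lt] at hy
  exact dens_lam_zero hr hy

theorem DBL1_small {Ω : Type u} [TopologicalSpace Ω] {f : Ω → E} (c : PChart f) {G : Set Ω}
    (hG : IsOpen G) (h0 : c.ψ 0 ∈ G) : ∃ ρ, 0 < ρ ∧ ρ < c.r ∧ c.ψ '' ball 0 ρ ⊆ G := by
  have hs : (0 : ℂ) ∈ c.ψ.source := by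
    rw [c.src]
    exact mem_ball_self c.r_pos
  obtain ⟨ε, hε, hb⟩ := Metric.mem_nhds_iff.1
    ((c.ψ.continuousAt hs).preimage_mem_nhds (hG.mem_nhds h0))
  have hr := c.r_pos
  refine ⟨min ε (c.r / 2), lt_min hε (by linarith), (min_le_right _ _).trans_lt (by linarith), ?_⟩
  rintro _ ⟨z, hz, rfl⟩
  exact hb (ball_subset_ball (min_le_left _ _) hz)

/- Hint. n from NRM, V = m.map (f, n) is Stat univ (FVG, IsProperMap.isCompact_preimage), nu = V.map fst =
m.map f, theta_le_two. Disjoint open sets around y1, y2 (T2), small rho_i with psi_i '' ball 0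
rho_i inside them; theta nu q r >= sum of the two chart integrals (PINT) >= 2 - 2 eps for small r
(LOW0), so theta = 2 at all radii (MONOV). Third inequality: <f y - q, n y> = 0 for m-a.e. y; in a
chart (PINT, jac > 0) for a.e. z in the ball, n (psi z) is parallel to cr Xu Xv (smul_eq_of_orth),
so the continuous function of the claim vanishes a.e., hence everywhere on the open ball
(Measure.eqOn_open_of_ae_eq). -/
theorem dbl1_of (hFVG : S_FVG.{u}) (hNRM : S_NRM.{u}) (hMONOV : S_MONOV) (hLOW0 : S_LOW0) (hPINT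
    : S_PINT.{u}) : S_DBL1.{u} := by
  intro Ω _ _ _ _ _ f m hp hch hm hbd y₁ y₂ hne hy c z hz
  obtain ⟨n, hnm, hn1, hn⟩ := hNRM Ω f hch
  have hf : Continuous f := hp.continuous
  have hfm : Measurable f := hf.measurable
  have hg : Measurable fun p => (f p, n p) := hfm.prodMk hnm
  have hV := hFVG Ω f n m univ hf hnm hn1 (fun p => by
    obtain ⟨c, hc⟩ := hch p
    exact ⟨c, hc, hn c, hm c⟩) fun K hK _ => hp.isCompact_preimage hK
  have hfst : (m.map fun p => (f p, n p)).map Prod.fst = m.map f :=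
    Measure.map_map measurable_fst hg
  set q := f y₁ with hq
  have hfin : ∀ r, 0 < r → m (f ⁻¹' ball q r) < ⊤ := fun r hr =>
    (hbd q r hr).trans_lt ENNReal.ofReal_lt_top
  have hup : ∀ r, 0 < r → theta (m.map f) q r ≤ 2 := fun r hr =>
    dens_theta_le_two (fun s hs => by
      rw [Measure.map_apply hfm measurableSet_ball]
      exact hbd q s hs) hr
  obtain ⟨G₁, G₂, hG₁, hG₂, hy₁, hy₂, hG⟩ := t2_separation hne
  obtain ⟨c₁, hc₁⟩ := hch y₁
  obtain ⟨c₂, hc₂⟩ := hch y₂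
  obtain ⟨ρ₁, hρ₁, hr₁, hs₁⟩ := DBL1_small c₁ hG₁ (hc₁ ▸ hy₁)
  obtain ⟨ρ₂, hρ₂, hr₂, hs₂⟩ := DBL1_small c₂ hG₂ (hc₂ ▸ hy₂)
  have hchart : ∀ (c : PChart f) (ρ r : ℝ), ρ < c.r → f (c.ψ 0) = q →
      MeasurableSet (c.ψ '' ball 0 ρ) ∧ ∫ y in c.ψ '' ball 0 ρ, lam (‖f y - q‖ ^ 2 / r ^ 2) ∂m
        = ∫ z in ball (0 : ℂ) ρ, lam (‖c.X z - c.X 0‖ ^ 2 / r ^ 2) * c.jac z := by
    intro c ρ r hρ h0
    obtain ⟨h1, -, h2⟩ := (hPINT Ω f m c (hm c)).2 (ball 0 ρ) measurableSet_ball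
      (ball_subset_ball hρ.le)
    refine ⟨h1, ((h2 _ ((dens_continuous_lam q r).measurable.comp hfm)).2).trans ?_⟩
    refine setIntegral_congr_fun measurableSet_ball fun z hz => ?_
    simp only [Function.comp]
    rw [c.eq z (ball_subset_ball hρ.le hz), ← h0, c.eq 0 (mem_ball_self c.r_pos)]
  have htwo : ∀ r, 0 < r → theta (m.map f) q r = 2 := by
    intro r hr
    refine le_antisymm (hup r hr) (le_of_forall_pos_le_add fun ε hε => ?_)
    have h1 := hLOW0 c₁.toChart ρ₁ hρ₁ hr₁ (ε / 2) (by linarith)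
    have h2 := hLOW0 c₂.toChart ρ₂ hρ₂ hr₂ (ε / 2) (by linarith)
    have h3 : ∀ᶠ s in 𝓝[>] (0 : ℝ), s ∈ Ioo (0 : ℝ) r := Ioo_mem_nhdsGT hr
    obtain ⟨s, ⟨h4, h5⟩, hs0, hsr⟩ := ((h1.and h2).and h3).exists
    have h6 := (hMONOV univ _ hV q s r hs0 hsr.le (subset_univ _)).1
    rw [hfst, DBL1_theta hfm m q s] at h6
    obtain ⟨m₁, e₁⟩ := hchart c₁ ρ₁ s hr₁ (by rw [hc₁])
    obtain ⟨m₂, e₂⟩ := hchart c₂ ρ₂ s hr₂ (by rw [hc₂, ← hy])
    have hI := DBL1_int hfm hs0 (hfin s hs0)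
    have h7 := setIntegral_union (hG.mono hs₁ hs₂) m₂ hI.integrableOn hI.integrableOn
    have h8 := setIntegral_le_integral (s := c₁.ψ '' ball 0 ρ₁ ∪ c₂.ψ '' ball 0 ρ₂) hI
      (Eventually.of_forall fun y => lam_nonneg _)
    rw [h7, e₁, e₂] at h8
    have h9 := div_le_div_of_nonneg_right h8 (sq_nonneg s)
    rw [add_div] at h9
    linarith
  have hmeas : Measurable fun y => ⟪f y - q, n y⟫ ^ 2 :=
    ((hfm.sub_const q).inner hnm).pow_const 2
  have hae : ∀ k : ℕ, ∀ᵐ y ∂m, y ∈ f ⁻¹' ball q ((k : ℝ) + 1) → ⟪f y - q, n y⟫ ^ 2 = 0 := by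
    intro k
    have hk : (0 : ℝ) < (k : ℝ) + 1 := by positivity
    have h1 := (hMONOV univ _ hV q (((k : ℝ) + 1) / 2) (2 * ((k : ℝ) + 1)) (by positivity)
      (by linarith) (subset_univ _)).2.2.1 (by linarith)
    rw [hfst, htwo _ (by positivity), htwo _ (by positivity), sub_self, mul_zero,
      mul_div_cancel_left₀ _ two_ne_zero,
      setIntegral_map (measurableSet_ball.prod MeasurableSet.univ)
        (Continuous.aestronglyMeasurable (by fun_prop)) hg.aemeasurable] at h1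
    have e : (fun p => (f p, n p)) ⁻¹' ball q ((k : ℝ) + 1) ×ˢ univ = f ⁻¹' ball q ((k : ℝ) + 1) := by
      ext y
      simp
    rw [e] at h1
    have hB : MeasurableSet (f ⁻¹' ball q ((k : ℝ) + 1)) := hfm measurableSet_ball
    have hI : IntegrableOn (fun y => ⟪f y - q, n y⟫ ^ 2) (f ⁻¹' ball q ((k : ℝ) + 1)) m := by
      refine Measure.integrableOn_of_bounded (M := ((k : ℝ) + 1) ^ 2) (hfin _ hk).ne
        hmeas.aestronglyMeasurable ?_
      filter_upwards [ae_restrict_mem hB] with y hy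
      rw [mem_preimage, mem_ball, dist_eq_norm] at hy
      have h2 := abs_real_inner_le_norm (f y - q) (n y)
      rw [hn1, mul_one] at h2
      rw [Real.norm_eq_abs, abs_pow]
      exact pow_le_pow_left₀ (abs_nonneg _) (h2.trans hy.le) 2
    have h3 := (setIntegral_eq_zero_iff_of_nonneg_ae (Eventually.of_forall fun y => sq_nonneg _)
      hI).1 (le_antisymm h1 (integral_nonneg fun y => sq_nonneg _))
    exact (ae_restrict_iff' hB).1 h3
  have hZ : m {y | ⟪f y - q, n y⟫ ≠ 0} = 0 := by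
    have h1 : ∀ᵐ y ∂m, ⟪f y - q, n y⟫ = 0 := by
      filter_upwards [ae_all_iff.2 hae] with y hy
      obtain ⟨k, hk⟩ := exists_nat_gt (dist (f y) q)
      exact pow_eq_zero_iff two_ne_zero |>.1 (hy k (by
        rw [mem_preimage, mem_ball]
        linarith))
    exact h1
  set B : Set ℂ := ball 0 c.r ∩ (fun w => ⟪c.X w - q, cr (c.Xu w) (c.Xv w)⟫) ⁻¹' {0}ᶜ with hB
  have hcont : ContinuousOn (fun w => ⟪c.X w - q, cr (c.Xu w) (c.Xv w)⟫) (ball 0 c.r) :=
    ContinuousOn.inner (𝕜 := ℝ) (c.continuousOn_X.sub continuousOn_const)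
      ((crL.continuous.comp_continuousOn c.analyticOnNhd_Xu.continuousOn).clm_apply
        c.analyticOnNhd_Xv.continuousOn)
  have hBo : IsOpen B := hcont.isOpen_inter_preimage isOpen_ball isOpen_compl_singleton
  have hsub : c.ψ '' B ⊆ {y | ⟪f y - q, n y⟫ ≠ 0} := by
    rintro _ ⟨w, hw, rfl⟩ h0
    refine hw.2 ?_
    rw [c.eq w hw.1] at h0
    have h1 := c.frame hw.1 (hn1 (c.ψ w)) (hn c w hw.1).1 (hn c w hw.1).2 (c.X w - q)
    rw [h0, zero_smul, add_zero] at h1
    show ⟪c.X w - q, cr (c.Xu w) (c.Xv w)⟫ = 0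
    rw [h1, inner_add_left, real_inner_smul_left, real_inner_smul_left, inner_cr_left,
      inner_cr_right, mul_zero, mul_zero, add_zero]
  have h1 := measure_mono_null hsub hZ
  rw [hm c B hBo.measurableSet inter_subset_left,
    lintegral_eq_zero_iff c.measurable_jac.ennreal_ofReal] at h1
  have h2 : volume B = 0 := by
    have h3 := (ae_restrict_iff' hBo.measurableSet).1 h1
    refine measure_mono_null (fun w hw => ?_) h3
    intro h4
    have h5 := h4 hw
    simp only [Pi.zero_apply, ENNReal.ofReal_eq_zero] at h5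
    exact absurd (c.jac_pos hw.1) (not_lt.2 h5)
  by_contra h0
  exact (hBo.measure_eq_zero_iff volume).1 h2 ▸ (show z ∈ B from ⟨hz, h0⟩) |> notMem_empty z

end MW
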