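import Pool.Agent.P.MP_064970_gt.I.SX

open scoped Manifold ContDiff
open MeasureTheory Set Filter Topology Metric
open scoped RealInnerProductSpace ENNReal ComplexConjugate Real

noncomputable section

namespace MW

universe u

theorem DEF_plane : volume {x : E | x 2 = 0} = 0 := by
  have h := measurePreserving_pt.measure_preimage (s := {x : E | x 2 = 0})
    (isClosed_eq (by fun_prop) continuous_const).measurableSet.nullMeasurableSet
  have e : (fun q : ℂ × ℝ => pt q.1 q.2) ⁻¹' {x : E | x 2 = 0} = univ ×ˢ {0} := by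
    ext q
    simp
  rw [← h, e, Measure.prod_prod]
  simp

theorem DEF_chart (c : Chart) : volume (c.X '' ball 0 c.r) = 0 := by
  have hs : volume {x : E | pr x ∈ ball (0 : ℂ) c.r ∧ x 2 = 0} = 0 :=
    measure_mono_null (fun x hx => hx.2) DEF_plane
  have hd : DifferentiableOn ℝ (fun x : E => c.X (prL x))
      {x : E | pr x ∈ ball (0 : ℂ) c.r ∧ x 2 = 0} := fun x hx =>
    (((c.hasFDerivAt_X hx.1).differentiableAt).comp x prL.differentiableAt).differentiableWithinAt
  refine measure_mono_null ?_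
    (addHaar_image_eq_zero_of_differentiableOn_of_addHaar_eq_zero volume hd hs)
  rintro _ ⟨z, hz, rfl⟩
  exact ⟨pt z 0, ⟨by simpa using hz, by simp⟩, by simp⟩

theorem DEF_null (M : Surf) : volume M.S = 0 := by
  rcases M.S.eq_empty_or_nonempty with h | h
  · rw [h, measure_empty]
  · obtain ⟨c, -, hc⟩ := M.exists_countable_charts h
    refine measure_mono_null hc (measure_iUnion_null fun n => ?_)
    exact measure_mono_null (image_mono (ball_subset_ball (half_le_self (c n).r_pos.le)))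
      (DEF_chart (c n))

/-- The negative multiples of the normal covector. -/
def DEF_cone (n : E) : Set (E →L[ℝ] ℝ) := {L | ∃ a : ℝ, 0 < a ∧ ∀ w : E, L w = -a * ⟪w, n⟫}

theorem DEF_convex (n : E) : Convex ℝ (DEF_cone n) := by
  rintro L ⟨a, ha, hL⟩ L' ⟨a', ha', hL'⟩ s t hs ht hst
  refine ⟨s * a + t * a', ?_, fun w => ?_⟩
  · have h := convex_Ioi (𝕜 := ℝ) (0 : ℝ) ha ha' hs ht hst
    exact h
  · simp only [add_apply, smul_apply, smul_eq_mul, hL, hL']
    ring

/-- Local defining functions. -/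
theorem DEF_local (hLOCS : S_LOCS) (M : Surf) (hO : M.O = univ) (x : E) :
    ∃ (U : Set E) (g : E → ℝ), IsOpen U ∧ x ∈ U ∧ ∀ y ∈ U, ContDiffAt ℝ 3 g y ∧
      (y ∈ M.W → 0 < g y) ∧ (y ∈ M.W' → g y < 0) ∧
      (y ∈ M.S → g y = 0 ∧ fderiv ℝ g y ∈ DEF_cone (M.N y)) := by
  rcases M.mem_cases (x := x) (hO ▸ mem_univ x) with h | h | h
  · refine ⟨M.W, fun _ => 1, M.isOpen_W, h, fun y hy => ⟨contDiffAt_const, fun _ => one_pos,
      fun h' => absurd h' (disjoint_left.1 M.disj hy),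
      fun h' => absurd h' (disjoint_left.1 M.disjS hy)⟩⟩
  · refine ⟨M.W', fun _ => -1, M.isOpen_W', h, fun y hy => ⟨contDiffAt_const,
      fun h' => absurd hy (disjoint_left.1 M.disj h'), fun _ => by norm_num,
      fun h' => absurd h' (disjoint_left.1 M.disjS' hy)⟩⟩
  · have hv : 0 < ⟪M.N x, M.N x⟫ := by
      rw [real_inner_self_eq_norm_sq, M.N_unit x h]
      norm_num
    obtain ⟨c, ε, U, om, τ, -, -, hB, hx, -, -, hs, hd⟩ := hLOCS M x h (M.N x) hv univ univ_mem
    refine ⟨U, fun y => -τ y, hB.opn, hx, fun y hy => ⟨(hB.an_τ y hy).contDiffAt.neg,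
      fun h' => neg_pos.2 ((hs y hy).2.2.1 h'), fun h' => neg_lt_zero.2 ((hs y hy).2.1.1 h'),
      fun h' => ⟨neg_eq_zero.2 ((hs y hy).1.1 h'), ?_⟩⟩⟩
    obtain ⟨h1, h2⟩ := hd y ⟨h', hy⟩
    refine ⟨⟪M.N x, M.N y⟫⁻¹, inv_pos.2 h1, fun w => ?_⟩
    rw [fderiv_fun_neg, neg_apply, h2]
    ring

theorem def_of (hLOCS : S_LOCS) : S_DEF := by
  intro M hO
  refine ⟨DEF_null M, ?_⟩
  choose U g hUo hxU hg using DEF_local hLOCS M hO
  obtain ⟨ρ, hρ⟩ := SmoothPartitionOfUnity.exists_isSubordinate 𝓘(ℝ, E) isClosed_univ U hUo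
    (fun x _ => mem_iUnion.2 ⟨x, hxU x⟩)
  have hU : ∀ i y, ρ i y ≠ 0 → y ∈ U i := fun i y h => hρ i (subset_tsupport _ h)
  refine ⟨fun y => ∑ᶠ i, ρ i y • g i y, ?_, fun x hx => ?_, fun x hx => ?_, fun x hx => ⟨?_, ?_⟩⟩
  · exact contDiff_iff_contDiffAt.2 fun x =>
      ρ.contDiffAt_finsum fun i hi => (hg i x (hρ i hi)).1
  · exact ρ.finsum_smul_mem_convex (g := g) (t := Ioi (0 : ℝ)) (mem_univ x)
      (fun i hi => (hg i x (hU i x hi)).2.1 hx) (convex_Ioi 0)
  · exact ρ.finsum_smul_mem_convex (g := g) (t := Iio (0 : ℝ)) (mem_univ x)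
      (fun i hi => (hg i x (hU i x hi)).2.2.1 hx) (convex_Iio 0)
  · exact ρ.finsum_smul_mem_convex (g := g) (t := {(0 : ℝ)}) (mem_univ x)
      (fun i hi => ((hg i x (hU i x hi)).2.2.2 hx).1) (convex_singleton 0)
  · have hI : ∀ i ∈ ρ.fintsupport x, x ∈ U i := fun i hi =>
      hρ i ((ρ.mem_fintsupport_iff x i).1 hi)
    have hev : (fun y => ∑ᶠ i, ρ i y • g i y) =ᶠ[𝓝 x]
        fun y => ∑ i ∈ ρ.fintsupport x, ρ i y • g i y := by
      filter_upwards [ρ.eventually_finsupport_subset x] with y hy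
      refine finsum_eq_sum_of_support_subset _ fun i hi => hy ?_
      rw [SmoothPartitionOfUnity.mem_finsupport]
      intro h0
      apply hi
      have h1 : ρ i y = 0 := h0
      show ρ i y • g i y = 0
      rw [h1, zero_smul]
    have hder : HasFDerivAt (fun y => ∑ i ∈ ρ.fintsupport x, ρ i y • g i y)
        (∑ i ∈ ρ.fintsupport x, ρ i x • fderiv ℝ (g i) x) x := by
      refine HasFDerivAt.fun_sum fun i hi => ?_
      have h1 : DifferentiableAt ℝ (ρ i) x :=
        ((ρ i).contMDiff.contDiff.differentiable (by simp)).differentiableAt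
      have h2 : DifferentiableAt ℝ (g i) x := (hg i x (hI i hi)).1.differentiableAt (by norm_num)
      have h3 := h1.hasFDerivAt.fun_mul h2.hasFDerivAt
      rw [((hg i x (hI i hi)).2.2.2 hx).1, zero_smul, add_zero] at h3
      exact h3
    have hmem : ∑ i ∈ ρ.fintsupport x, ρ i x • fderiv ℝ (g i) x ∈ DEF_cone (M.N x) :=
      (DEF_convex _).sum_mem (fun i _ => ρ.nonneg i x)
        (ρ.sum_finsupport' x (mem_univ x) (ρ.finsupport_subset_fintsupport x))
        fun i hi => ((hg i x (hI i hi)).2.2.2 hx).2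
    rw [hev.fderiv_eq, hder.fderiv]
    exact hmem

end MW
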