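import Pool.Agent.P.MP_064970_gt.I.SX

open scoped Manifold ContDiff
open MeasureTheory Set Filter Topology Metric
open scoped RealInnerProductSpace ENNReal ComplexConjugate Real

noncomputable section

namespace MW

universe u

/-- Coordinates of the derivative of a vector field given by holomorphic functions. -/
theorem DIVNU_coord {Y : ℂ → E} {D : ℂ →L[ℝ] E} {z : ℂ} (hY : HasFDerivAt Y D z) (i : Fin 3)
    {f : ℂ → ℂ} {f' : ℂ} (hf : HasDerivAt f f' z) (L : ℂ →L[ℝ] ℝ) (h : ∀ w, Y w i = L (f w))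
    (w : ℂ) : D w i = L (f' * w) := by
  have h1 : HasFDerivAt (fun w => Y w i) ((EuclideanSpace.proj i : E →L[ℝ] ℝ).comp D) z :=
    (EuclideanSpace.proj i : E →L[ℝ] ℝ).hasFDerivAt.comp z hY
  have h2 := L.hasFDerivAt.comp z (hf.hasFDerivAt.restrictScalars ℝ)
  have h3 : (fun w => Y w i) = L ∘ f := funext h
  rw [h3] at h1
  have h4 := congrArg (fun A : ℂ →L[ℝ] ℝ => A w) (h1.unique h2)
  simpa [mul_comm] using h4

/-- The derivative of an inner product that is locally constant. -/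
theorem DIVNU_inner {F : Type*} [NormedAddCommGroup F] [NormedSpace ℝ F] {A B : F → E}
    {A' B' : F →L[ℝ] E} {z : F} (hA : HasFDerivAt A A' z)
    (hB : HasFDerivAt B B' z) {k : ℝ} (h : ∀ᶠ w in 𝓝 z, ⟪A w, B w⟫ = k) (w : F) :
    ⟪A z, B' w⟫ + ⟪A' w, B z⟫ = 0 := by
  have h1 := hA.inner ℝ hB
  have h2 : HasFDerivAt (fun w => ⟪A w, B w⟫) (0 : F →L[ℝ] ℝ) z :=
    (hasFDerivAt_const k z).congr_of_eventuallyEq h
  have h4 := congrArg (fun A : F →L[ℝ] ℝ => A w) (h1.unique h2)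
  simpa using h4

/-- The trace in the frame of a chart. -/
theorem DIVNU_trace (c : Chart) {z : ℂ} (hz : z ∈ ball (0 : ℂ) c.r) {n : E} (hn : ‖n‖ = 1)
    (hu : ⟪n, c.Xu z⟫ = 0) (hv : ⟪n, c.Xv z⟫ = 0) (L : E →L[ℝ] E) :
    ∑ i, L (EuclideanSpace.single i 1) i =
      (⟪L (c.Xu z), c.Xu z⟫ + ⟪L (c.Xv z), c.Xv z⟫) / c.jac z + ⟪L n, n⟫ := by
  have h : ∀ i : Fin 3, L (EuclideanSpace.single i 1) i =
      c.Xu z i / c.jac z * L (c.Xu z) i + c.Xv z i / c.jac z * L (c.Xv z) i + n i * L n i := by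
    intro i
    have h1 := c.frame hz hn hu hv (EuclideanSpace.single i 1)
    simp only [EuclideanSpace.inner_single_left, conj_trivial, one_mul] at h1
    rw [h1]
    simp only [map_add, map_smul, PiLp.add_apply, PiLp.smul_apply, smul_eq_mul]
  rw [Fin.sum_univ_three, h, h, h, inner_eq, inner_eq, inner_eq]
  ring

/- Hint. Chart at x, L = fderiv nu x. <L w, nu x> = 0 (differentiate |nu|^2 = 1). h z = sum nu (X z) i *
phi_i z = 0 near 0 (Emb.map_nhds, Fits.nrm); its derivative in the directions 1 and I gives, with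
b = sum nu_i phi_i'(0): <L Xu, Xu> = -Re b and <L Xv, Xv> = Re b. dv nu x is the trace of L: in
the orthogonal frame Xu, Xv, n (Chart.frame applied to e_i) it equals (<L Xu,Xu> + <L Xv,Xv>)/jac
+ <L n, n>. -/
theorem divnu_of : S_DIVNU := by
  intro M x ν hx hν h1 h2
  obtain ⟨c, rfl, hc⟩ := M.chart x hx
  have h0 : (0 : ℂ) ∈ ball (0 : ℂ) c.r := mem_ball_self c.r_pos
  have hb : ∀ᶠ w in 𝓝 (0 : ℂ), w ∈ ball (0 : ℂ) c.r := isOpen_ball.mem_nhds h0
  rw [← hc.emb.map_nhds h0, eventually_map] at h2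
  have hu : ∀ᶠ w in 𝓝 (0 : ℂ), ⟪ν (c.X w), c.Xu w⟫ = 0 := by
    filter_upwards [hb, h2] with w hw h
    rw [h, inner_neg_left, hc.inner_Xu hw, neg_zero]
  have hv : ∀ᶠ w in 𝓝 (0 : ℂ), ⟪ν (c.X w), c.Xv w⟫ = 0 := by
    filter_upwards [hb, h2] with w hw h
    rw [h, inner_neg_left, hc.inner_Xv hw, neg_zero]
  have dν := hν.hasFDerivAt
  have dn : HasFDerivAt (fun w => ν (c.X w)) ((fderiv ℝ ν (c.X 0)).comp (c.DX 0)) 0 :=
    dν.comp 0 (c.hasFDerivAt_X h0)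
  have du : HasFDerivAt c.Xu (fderiv ℝ c.Xu 0) 0 :=
    (c.analyticOnNhd_Xu 0 h0).differentiableAt.hasFDerivAt
  have dv' : HasFDerivAt c.Xv (fderiv ℝ c.Xv 0) 0 :=
    (c.analyticOnNhd_Xv 0 h0).differentiableAt.hasFDerivAt
  have dφ : ∀ i, HasDerivAt (deriv (c.Φ i)) (deriv (deriv (c.Φ i)) 0) 0 := fun i =>
    ((c.ChartAPI_an i).deriv 0 h0).differentiableAt.hasDerivAt
  have e1 := DIVNU_inner dn du hu 1
  have e2 := DIVNU_inner dn dv' hv Complex.I
  have f1 : ∀ i, fderiv ℝ c.Xu 0 1 i = (deriv (deriv (c.Φ i)) 0).re := fun i => by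
    rw [DIVNU_coord du i (dφ i) Complex.reCLM (fun _ => rfl) 1, mul_one]
    rfl
  have f2 : ∀ i, fderiv ℝ c.Xv 0 Complex.I i = -(deriv (deriv (c.Φ i)) 0).re := fun i => by
    rw [DIVNU_coord dv' i (dφ i) (-Complex.imCLM) (fun _ => rfl) Complex.I]
    simp
  rw [inner_eq, f1, f1, f1, ContinuousLinearMap.comp_apply, c.DX_one] at e1
  rw [inner_eq, f2, f2, f2, ContinuousLinearMap.comp_apply, c.DX_I] at e2
  have e3 := DIVNU_inner dν dν (k := 1) (h1.mono fun w hw => by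
    rw [real_inner_self_eq_norm_sq, hw, one_pow]) (ν (c.X 0))
  rw [real_inner_comm] at e3
  have e4 : ⟪fderiv ℝ ν (c.X 0) (ν (c.X 0)), ν (c.X 0)⟫ = 0 := by linarith
  have e5 : ⟪fderiv ℝ ν (c.X 0) (c.Xu 0), c.Xu 0⟫ + ⟪fderiv ℝ ν (c.X 0) (c.Xv 0), c.Xv 0⟫ = 0 := by
    linarith
  unfold dv
  rw [DIVNU_trace c h0 h1.self_of_nhds hu.self_of_nhds hv.self_of_nhds, e4, e5]
  simp

end MW
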