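import Pool.Agent.P.MP_064970_gt.I.SX

open scoped Manifold ContDiff
open MeasureTheory Set Filter Topology Metric
open scoped RealInnerProductSpace ENNReal ComplexConjugate Real

noncomputable section

namespace MW

universe u

theorem DOUBLE_ne (c : Chart) (q : E) : ∃ z ∈ ball (0 : ℂ) c.r, c.X z ≠ q := by
  by_contra hn
  push Not at hn
  have h0 : (0 : ℂ) ∈ ball (0 : ℂ) c.r := mem_ball_self c.r_pos
  have h1 : c.X =ᶠ[𝓝 0] fun _ => q := by
    filter_upwards [isOpen_ball.mem_nhds h0] with z hz using hn z hz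
  have h2 : HasFDerivAt c.X (0 : ℂ →L[ℝ] E) 0 :=
    (hasFDerivAt_const q (0 : ℂ)).congr_of_eventuallyEq h1
  have h3 : c.DX 0 = 0 := (c.hasFDerivAt_X h0).unique h2
  have h4 : c.DX 0 1 = c.DX 0 0 := by rw [h3]; rfl
  exact one_ne_zero (c.injective_DX h0 h4)

theorem DOUBLE_int {Ω : Type u} [TopologicalSpace Ω] {f : Ω → E} (c : PChart f) {ν : E} {a : ℝ}
    (h : ∀ z ∈ ball (0 : ℂ) c.r, ⟪ν, c.X z⟫ = a) : c.ψ 0 ∈ interior {y | ⟪ν, f y⟫ = a} := by
  have h0 : (0 : ℂ) ∈ c.ψ.source := by rw [c.src]; exact mem_ball_self c.r_pos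
  refine interior_maximal (fun y hy => ?_) c.ψ.open_target (c.ψ.map_source h0)
  have h1 : c.ψ.symm y ∈ ball (0 : ℂ) c.r := by rw [← c.src]; exact c.ψ.map_target hy
  have h2 := c.eq _ h1
  rw [c.ψ.right_inv hy] at h2
  change ⟪ν, f y⟫ = a
  rw [h2]
  exact h _ h1

/- Hint. q = f y1. In every chart some z0 has X z0 <> q (X is not constant: DX injective), FLATC (kappa =
1) gives nu_c, IDC: <nu_c, X> is constant, and <X z - q, nu_c> = 0 (nu_c is parallel to cr Xu Xv).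
Fix nu = nu_c for one chart. Q = interior of {y | <f y - q, nu> = 0} is nonempty, open, and
closed: at y in the closure a chart c at y contains a point psi z0 of Q, IDC (second case) gives
the whole target in Q. IsClopen.eq_univ. -/
theorem double_of (hDBL1 : S_DBL1.{u}) (hFLATC : S_FLATC) (hIDC : S_IDC) : S_DOUBLE.{u} :=
  by
  intro Ω _ _ _ _ _ _ f m hf hc hm hb hinj
  simp only [Function.Injective, not_forall] at hinj
  obtain ⟨y₁, y₂, he, hne⟩ := hinj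
  obtain ⟨c, hc0⟩ := hc y₁
  have h0 : (0 : ℂ) ∈ ball (0 : ℂ) c.r := mem_ball_self c.r_pos
  have hX0 : c.X 0 = f y₁ := by rw [← c.eq 0 h0, hc0]
  obtain ⟨z0, hz0, hz0q⟩ := DOUBLE_ne c.toChart (f y₁)
  obtain ⟨ν, hν, hνo⟩ := hFLATC c.toChart 1 (f y₁) z0 hz0
    (by rw [one_smul]; exact sub_ne_zero.2 hz0q) (by
      filter_upwards [isOpen_ball.mem_nhds hz0] with z hz
      rw [one_smul]
      exact hDBL1 Ω f m hf hc hm hb y₁ y₂ hne he c z hz)
  have h1 : y₁ ∈ interior {y | ⟪ν, f y⟫ = ⟪ν, f y₁⟫} := by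
    have := DOUBLE_int c (ν := ν) (a := ⟪ν, f y₁⟫) fun z hz => by
      rw [← hX0]
      exact (hIDC c.toChart ν 0 h0 (Or.inl (by
        filter_upwards [isOpen_ball.mem_nhds h0] with w hw using hνo w hw)) z hz).2.2
    rwa [hc0] at this
  have hcl : IsClosed (interior {y | ⟪ν, f y⟫ = ⟪ν, f y₁⟫}) := by
    refine isClosed_of_closure_subset fun y hy => ?_
    obtain ⟨d, hd0⟩ := hc y
    have d0 : (0 : ℂ) ∈ d.ψ.source := by rw [d.src]; exact mem_ball_self d.r_pos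
    obtain ⟨y', hy't, hy'Q⟩ := mem_closure_iff.1 hy _ d.ψ.open_target (hd0 ▸ d.ψ.map_source d0)
    have w0 : d.ψ.symm y' ∈ d.ψ.source := d.ψ.map_target hy't
    have w1 : d.ψ.symm y' ∈ ball (0 : ℂ) d.r := d.src ▸ w0
    have w2 : ∀ᶠ z in 𝓝 (d.ψ.symm y'), ⟪ν, d.X z⟫ = ⟪ν, f y₁⟫ := by
      have a1 : ∀ᶠ z in 𝓝 (d.ψ.symm y'), d.ψ z ∈ interior {y | ⟪ν, f y⟫ = ⟪ν, f y₁⟫} :=
        (d.ψ.continuousAt w0).eventually
          (isOpen_interior.mem_nhds (by rw [d.ψ.right_inv hy't]; exact hy'Q))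
      filter_upwards [a1, isOpen_ball.mem_nhds w1] with z hz hzb
      rw [← d.eq z hzb]
      exact (interior_subset hz : d.ψ z ∈ {y | ⟪ν, f y⟫ = ⟪ν, f y₁⟫})
    have w3 := w2.self_of_nhds
    rw [← hd0]
    refine DOUBLE_int d fun z hz => ?_
    rw [← w3]
    exact (hIDC d.toChart ν _ w1 (Or.inr (w2.mono fun z hz => hz.trans w3.symm)) z hz).2.2
  have huniv := IsClopen.eq_univ ⟨hcl, isOpen_interior⟩ ⟨y₁, h1⟩
  refine ⟨f y₁, ν, hν, fun p => ?_⟩
  have h2 : p ∈ {y | ⟪ν, f y⟫ = ⟪ν, f y₁⟫} := interior_subset (huniv ▸ mem_univ p)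
  rw [real_inner_comm, inner_sub_right, sub_eq_zero]
  exact h2

end MW
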