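import Pool.Agent.P.MP_064970_gt.I.SX

open scoped Manifold ContDiff
open MeasureTheory Set Filter Topology Metric
open scoped RealInnerProductSpace ENNReal ComplexConjugate Real

noncomputable section

namespace MW

universe u

theorem emb_of (hISO : S_ISO.{u}) (hMEAS : S_MEAS.{u}) (hAREALE : S_AREALE.{u}) (hDOUBLE :
    S_DOUBLE.{u}) (hCOVER : S_COVER.{u}) (hEMB2 : S_EMB2.{u}) : S_EMB.{u} := by
  intro M _ _ _ _ _ _ f hf hinj hmin hprop harea
  borelize M
  have hc := hISO M f hf hinj hmin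
  obtain ⟨m, hm⟩ := hMEAS M f hc
  have hb : ∀ (p : E) (r : ℝ), 0 < r → m (f ⁻¹' ball p r) ≤ ENNReal.ofReal (2 * π * r ^ 2) :=
    fun p r hr => (hAREALE M f hf hc m hm _ (isOpen_ball.preimage hf.continuous)).trans
      (harea p r hr)
  have hi : Function.Injective f := by
    by_contra h
    obtain ⟨q, ν, hν, hq⟩ := hDOUBLE M f m hprop hc hm hb h
    exact h (hCOVER M f hprop hc q ν hν hq)
  obtain ⟨M', h1, h2⟩ := hEMB2 M f m hprop hc hm hb hi
  refine ⟨hi, M', h1, h2, ?_, ?_⟩
  · rw [h2]; exact (isConnected_range hf.continuous).isPreconnected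
  · rw [h2]; exact range_nonempty f

end MW
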