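import Pool.Agent.P.MP_064970_gt.I.SX

open scoped Manifold ContDiff
open MeasureTheory Set Filter Topology Metric
open scoped RealInnerProductSpace ENNReal ComplexConjugate Real

noncomputable section

namespace MW

universe u

/- Hint. f is a closed embedding (IsProperMap.isClosedMap,
IsClosedEmbedding.of_continuous_injective_isClosedMap), S = range f closed; every PChart is Emb S
(psi '' V is open, IsInducing gives f '' open = S cap U). N, W, W' from SIDES, mu = m.map f; f
preimage (X '' A) = psi '' A; Emb.measurableSet_image; nrm_iff. -/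
theorem EMB2_image {Ω : Type u} [TopologicalSpace Ω] {f : Ω → E} (c : PChart f) {A : Set ℂ}
    (hA : A ⊆ ball 0 c.r) : c.X '' A = f '' (c.ψ '' A) := by
  rw [image_image]
  exact image_congr fun z hz => (c.eq z (hA hz)).symm

theorem EMB2_emb {Ω : Type u} [TopologicalSpace Ω] {f : Ω → E} (hf : IsClosedEmbedding f)
    (c : PChart f) : c.toChart.Emb (range f) := by
  refine ⟨fun z hz w hw h => ?_, fun V hV hVr => ?_⟩
  · rw [← c.eq z hz, ← c.eq w hw] at h
    exact c.ψ.injOn (c.src ▸ hz) (c.src ▸ hw) (hf.injective h)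
  · have ho : IsOpen (c.ψ '' V) := c.ψ.isOpen_image_of_subset_source hV (c.src ▸ hVr)
    obtain ⟨U, hU, hUe⟩ := hf.isInducing.isOpen_iff.1 ho
    refine ⟨U, hU, ?_⟩
    rw [EMB2_image c hVr, ← hUe, image_preimage_eq_range_inter]

theorem emb2_of (hSIDES : S_SIDES) : S_EMB2.{u} := by
  intro Ω _ _ _ f m hp hc hm hb hi
  have hf : IsClosedEmbedding f :=
    IsClosedEmbedding.of_continuous_injective_isClosedMap hp.continuous hi hp.isClosedMap
  have hS : IsClosed (range f) := hf.isClosed_range
  have hfm : Measurable f := hp.continuous.measurable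
  have h0 : ∀ c : PChart f, c.X 0 = f (c.ψ 0) := fun c =>
    (c.eq 0 (mem_ball_self c.r_pos)).symm
  obtain ⟨N, W, W', hW, hW', hcov, hd, hdS, hdS', hNm, hNc, hNu, hside, hnrm⟩ :=
    hSIDES (range f) hS (by
      rintro _ ⟨p, rfl⟩
      obtain ⟨c, hcp⟩ := hc p
      exact ⟨c.toChart, by rw [h0 c, hcp], EMB2_emb hf c⟩)
  refine ⟨{ O := univ, S := range f, N := N, W := W, W' := W', μ := m.map f
            isOpen_O := isOpen_univ, isOpen_W := hW, isOpen_W' := hW', cover := hcov, disj := hd
            disjS := hdS, disjS' := hdS', N_meas := hNm, N_cont := hNc, N_unit := hNu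
            side := hside, chart := ?_, conc := ?_ }, ⟨rfl, fun p r hr => ?_⟩, rfl⟩
  · rintro _ ⟨p, rfl⟩
    obtain ⟨c, hcp⟩ := hc p
    have he := EMB2_emb hf c
    refine ⟨c.toChart, by rw [h0 c, hcp], he.inj, he.opn,
      fun z hz => (c.toChart.nrm_iff z _).2 (hnrm _ he z hz), fun A hA hAr => ?_⟩
    rw [Measure.map_apply hfm (he.measurableSet_image hA hAr), EMB2_image c hAr,
      preimage_image_eq _ hi, hm c A hA hAr]
  · rw [Measure.map_apply hfm hS.measurableSet.compl, preimage_compl, preimage_range, compl_univ,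
      measure_empty]
  · show (m.map f) (ball p r) ≤ _
    rw [Measure.map_apply hfm measurableSet_ball]
    exact hb p r hr

end MW
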