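import Pool.Agent.P.MP_064970_gt.I.SX

open scoped Manifold ContDiff
open MeasureTheory Set Filter Topology Metric
open scoped RealInnerProductSpace ENNReal ComplexConjugate Real

noncomputable section

namespace MW

universe u

theorem FLAT1_ev {M : Surf} {c : Chart} (hf : c.Fits M.S M.N M.μ) {P : E → Prop} :
    (∀ᶠ y in 𝓝[M.S] (c.X 0), P y) ↔ ∀ᶠ z in 𝓝 (0 : ℂ), P (c.X z) := by
  rw [← hf.emb.map_nhds (mem_ball_self c.r_pos), eventually_map]

theorem FLAT1_const {M : Surf} {c : Chart} (hf : c.Fits M.S M.N M.μ) {ν : E} (hν : ‖ν‖ = 1)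
    (h : ∀ z ∈ ball (0 : ℂ) c.r, ⟪ν, c.Xu z⟫ = 0 ∧ ⟪ν, c.Xv z⟫ = 0) :
    (M.N (c.X 0) = ν ∨ M.N (c.X 0) = -ν) ∧ ∀ᶠ y in 𝓝[M.S] (c.X 0), M.N y = M.N (c.X 0) := by
  have h0 : (0 : ℂ) ∈ ball (0 : ℂ) c.r := mem_ball_self c.r_pos
  have key : ∀ z ∈ ball (0 : ℂ) c.r, M.N (c.X z) = ν ∨ M.N (c.X z) = -ν := fun z hz =>
    c.normal_eq_or hz hν (M.N_unit _ (hf.emb.mem hz)) (h z hz).1 (h z hz).2 (hf.inner_Xu hz)
      (hf.inner_Xv hz)
  refine ⟨key 0 h0, ?_⟩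
  have h1 : ∀ᶠ y in 𝓝[M.S] (c.X 0), M.N y ∈ ball (M.N (c.X 0)) 1 :=
    M.N_cont _ (hf.emb.mem h0) (ball_mem_nhds _ one_pos)
  rw [FLAT1_ev hf] at h1 ⊢
  have h2 : ‖ν - -ν‖ = 2 := by
    rw [sub_neg_eq_add, ← two_smul ℝ ν, norm_smul, hν]
    norm_num
  filter_upwards [h1, isOpen_ball.mem_nhds h0] with z hz1 hz
  rw [mem_ball_iff_norm] at hz1
  rcases key z hz with a | a <;> rcases key 0 h0 with b | b
  · rw [a, b]
  · rw [a, b, h2] at hz1
    linarith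
  · rw [a, b, norm_sub_rev, h2] at hz1
    linarith
  · rw [a, b]

theorem FLAT1_cr {M : Surf} {c : Chart} (hf : c.Fits M.S M.N M.μ) {z : ℂ}
    (hz : z ∈ ball (0 : ℂ) c.r) {w : E} (hw : ⟪w, M.N (c.X z)⟫ = 0) :
    ⟪w, cr (c.Xu z) (c.Xv z)⟫ = 0 := by
  have h := c.frame hz (M.N_unit _ (hf.emb.mem hz)) (hf.inner_Xu hz) (hf.inner_Xv hz)
    (cr (c.Xu z) (c.Xv z))
  rw [real_inner_comm (c.Xu z), inner_cr_left, real_inner_comm (c.Xv z), inner_cr_right,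
    zero_div, zero_smul, zero_smul, zero_add, zero_add] at h
  rw [h, inner_smul_right, hw, mul_zero]

theorem FLAT1_four (hIDC : S_IDC) (hBOXE : S_BOXE) {M : Surf} {c : Chart}
    (hf : c.Fits M.S M.N M.μ) (h : ∀ᶠ y in 𝓝[M.S] (c.X 0), M.N y = M.N (c.X 0)) :
    ∀ᶠ y in 𝓝 (c.X 0), (y ∈ M.S ↔ ⟪y - c.X 0, M.N (c.X 0)⟫ = 0) := by
  have h0 : (0 : ℂ) ∈ ball (0 : ℂ) c.r := mem_ball_self c.r_pos
  have hu := M.N_unit _ (hf.emb.mem h0)
  have hnn : ⟪M.N (c.X 0), M.N (c.X 0)⟫ = (1 : ℝ) := by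
    rw [real_inner_self_eq_norm_sq, hu]
    norm_num
  rw [FLAT1_ev hf] at h
  have h1 := hIDC c (M.N (c.X 0)) 0 h0 (Or.inl (by
    filter_upwards [h, isOpen_ball.mem_nhds h0] with z hz1 hz
    rw [← hz1]
    exact ⟨hf.inner_Xu hz, hf.inner_Xv hz⟩))
  obtain ⟨ε, U, om, τ, hB, hxU, -, hS, -⟩ := hBOXE M.S c hf.emb (M.N (c.X 0)) (M.N (c.X 0))
    (hf.inner_Xu h0) (hf.inner_Xv h0) (by rw [hnn]; exact one_ne_zero) univ univ_mem
  filter_upwards [hB.opn.mem_nhds hxU] with y hy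
  obtain ⟨h2, -, h3⟩ := hB.left y hy
  have h4 := (h1 _ (hB.sub h2)).2.2
  have h5 : ⟪y - c.X 0, M.N (c.X 0)⟫ = τ y := by
    conv_lhs => rw [← h3]
    rw [inner_sub_left, inner_add_left, real_inner_smul_left, hnn, real_inner_comm, h4,
      real_inner_comm]
    ring
  rw [hS y hy, h5]

/- Hint. Chart at x, Emb.map_nhds transfers eventually-statements. (1),(2): N (X z) is parallel to cr Xu
Xv; FLATC with kappa = 1 or kappa = 0, p = -v; N (X z) = nu or -nu (normal_eq_or), continuity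
fixes the sign near 0. (4): IDC gives <N x, X z - x> = 0 on the ball; BOXE with v = N x: <y - x, N
x> = tau y on U. (3): IDC (second case) gives nu orthogonal to Xu, Xv on the ball, so N =
+-nu/|nu| is constant near x, then (4). -/
theorem flat1_of (hFLATC : S_FLATC) (hIDC : S_IDC) (hBOXE : S_BOXE) : S_FLAT1 := by
  intro M x hx
  obtain ⟨c, rfl, hf⟩ := M.chart x hx
  have h0 : (0 : ℂ) ∈ ball (0 : ℂ) c.r := mem_ball_self c.r_pos
  refine ⟨fun p hp h => ?_, fun v hv h => ?_, fun ν hν h => ?_, FLAT1_four hIDC hBOXE hf⟩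
  · rw [FLAT1_ev hf] at h
    obtain ⟨ν, hν, h1⟩ := hFLATC c 1 p 0 h0 (by rw [one_smul]; exact sub_ne_zero.2 hp) (by
      filter_upwards [h, isOpen_ball.mem_nhds h0] with z hz1 hz
      rw [one_smul]
      exact FLAT1_cr hf hz hz1)
    exact (FLAT1_const hf hν h1).2
  · rw [FLAT1_ev hf] at h
    obtain ⟨ν, hν, h1⟩ := hFLATC c 0 (-v) 0 h0 (by simpa using hv) (by
      filter_upwards [h, isOpen_ball.mem_nhds h0] with z hz1 hz
      rw [zero_smul, zero_sub, neg_neg]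
      exact FLAT1_cr hf hz hz1)
    exact (FLAT1_const hf hν h1).2
  · rw [FLAT1_ev hf] at h
    have h1 := hIDC c ν 0 h0 (Or.inr (by
      filter_upwards [h] with z hz
      rw [real_inner_comm, inner_sub_right] at hz
      linarith))
    have hn : ‖ν‖ ≠ 0 := norm_ne_zero_iff.2 hν
    obtain ⟨h2, h3⟩ := FLAT1_const hf (ν := ‖ν‖⁻¹ • ν)
      (by rw [norm_smul, norm_inv, norm_norm, inv_mul_cancel₀ hn]) fun z hz => by
        rw [real_inner_smul_left, real_inner_smul_left, (h1 z hz).1, (h1 z hz).2.1, mul_zero]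
        exact ⟨rfl, rfl⟩
    refine ⟨h3, ?_⟩
    filter_upwards [FLAT1_four hIDC hBOXE hf h3] with y hy
    rw [hy]
    rcases h2 with h2 | h2
    · rw [h2, real_inner_smul_right, mul_eq_zero, or_iff_right (inv_ne_zero hn)]
    · rw [h2, inner_neg_right, neg_eq_zero, real_inner_smul_right, mul_eq_zero,
        or_iff_right (inv_ne_zero hn)]

end MW
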