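import Pool.Agent.P.MP_064970_gt.I.SX

open scoped Manifold ContDiff
open MeasureTheory Set Filter Topology Metric
open scoped RealInnerProductSpace ENNReal ComplexConjugate Real

noncomputable section

namespace MW

universe u

theorem flat2_of (hCE : S_CE) (hPLEXT : S_PLEXT) : S_FLAT2 := by
  refine ⟨fun M hS hx => ?_, fun M hM hF p hp => ?_, fun M hM hR x hx y hy => ?_⟩
  · obtain ⟨x, hx, h⟩ := hx
    have key : ∀ y ∈ M.S, M.N y = M.N x := fun y hy =>
      (hPLEXT.1 M M.S x hS Subset.rfl hx h y hy).1.self_of_nhdsWithin hy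
    intro a ha b hb
    rw [key a ha, key b hb]
  · have h0 : ∀ z ∈ M.S, ‖M.N z - M.N p‖ ≤ 0 := fun z hz => by rw [hF z hz p hp]; simp
    ext x
    constructor
    · intro hx
      have := M.slope (K := univ) convex_univ (hM.sub _) (ν := M.N p) (ε := 0)
        (fun z hz => h0 z hz.1) ⟨hx, mem_univ _⟩ ⟨hp, mem_univ _⟩
      simpa using this
    · intro hx
      obtain ⟨t, ht, h⟩ := M.cover_disc (ρ := 2 * ‖x - p‖ + 1) (ε := 0) hp (M.N_unit p hp) le_rfl
        (by norm_num) (hM.sub _) (fun z hz => h0 z hz.1) (w := x - p) hx (by linarith)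
      have : t = 0 := by simpa using ht
      simpa [this] using h
  · obtain ⟨c, C, hc, -, hC, h⟩ := hCE
    have key : ∀ ρ : ℝ, 0 < ρ → ‖x - y‖ < c * ρ → ‖M.N x - M.N y‖ ≤ C * ‖x - y‖ / ρ := by
      intro ρ hρ h1
      have hreg : M.Reg y ρ := (hR (ρ + ‖y‖)).mono (ball_subset_ball' (by simp))
      exact h M y ρ hy hρ (hM.sub _) hreg x ⟨hx, by simpa [dist_eq_norm] using h1⟩ y
        ⟨hy, mem_ball_self (by positivity)⟩
    have ht : Tendsto (fun ρ : ℝ => C * ‖x - y‖ / ρ) atTop (𝓝 0) :=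
      tendsto_const_nhds.div_atTop tendsto_id
    have hle : ‖M.N x - M.N y‖ ≤ 0 := by
      refine ge_of_tendsto ht ?_
      filter_upwards [eventually_gt_atTop 0, eventually_gt_atTop (‖x - y‖ / c)] with ρ h1 h2
      exact key ρ h1 (by rwa [div_lt_iff₀' hc] at h2)
    exact sub_eq_zero.1 (norm_le_zero_iff.1 hle)

end MW
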