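import Pool.Agent.P.MP_064970_gt.I.SX

open scoped Manifold ContDiff
open MeasureTheory Set Filter Topology Metric
open scoped RealInnerProductSpace ENNReal ComplexConjugate Real

noncomputable section

namespace MW

universe u

/-- Coordinates of the derivative of a vector field given by holomorphic functions. -/
theorem FLATC_coord {Y : ℂ → E} {D : ℂ →L[ℝ] E} {z : ℂ} (hY : HasFDerivAt Y D z) (i : Fin 3)
    {f : ℂ → ℂ} {f' : ℂ} (hf : HasDerivAt f f' z) (L : ℂ →L[ℝ] ℝ) (h : ∀ w, Y w i = L (f w))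
    (w : ℂ) : D w i = L (f' * w) := by
  have h1 : HasFDerivAt (fun w => Y w i) ((EuclideanSpace.proj i : E →L[ℝ] ℝ).comp D) z :=
    (EuclideanSpace.proj i : E →L[ℝ] ℝ).hasFDerivAt.comp z hY
  have h2 := L.hasFDerivAt.comp z (hf.hasFDerivAt.restrictScalars ℝ)
  have h3 : (fun w => Y w i) = L ∘ f := funext h
  rw [h3] at h1
  have h4 := congrArg (fun A : ℂ →L[ℝ] ℝ => A w) (h1.unique h2)
  simpa [mul_comm] using h4

/-- The derivative of an inner product that is locally constant. -/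
theorem FLATC_inner {A B : ℂ → E} {A' B' : ℂ →L[ℝ] E} {z : ℂ} (hA : HasFDerivAt A A' z)
    (hB : HasFDerivAt B B' z) {k : ℝ} (h : ∀ᶠ w in 𝓝 z, ⟪A w, B w⟫ = k) (w : ℂ) :
    ⟪A z, B' w⟫ + ⟪A' w, B z⟫ = 0 := by
  have h1 := hA.inner ℝ hB
  have h2 : HasFDerivAt (fun w => ⟪A w, B w⟫) (0 : ℂ →L[ℝ] ℝ) z :=
    (hasFDerivAt_const k z).congr_of_eventuallyEq h
  have h4 := congrArg (fun A : ℂ →L[ℝ] ℝ => A w) (h1.unique h2)
  simpa using h4

/-- The normal has derivative zero where `κ X - p` is tangent and nonzero. -/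
theorem FLATC_deriv (c : Chart) (κ : ℝ) (p : E) {n : ℂ → E}
    (hn : AnalyticOnNhd ℝ n (ball 0 c.r))
    (hn' : ∀ z ∈ ball (0 : ℂ) c.r, ‖n z‖ = 1 ∧ ⟪n z, c.Xu z⟫ = 0 ∧ ⟪n z, c.Xv z⟫ = 0)
    {z : ℂ} (hz : z ∈ ball (0 : ℂ) c.r) (hV : κ • c.X z - p ≠ 0)
    (h : ∀ᶠ w in 𝓝 z, ⟪κ • c.X w - p, n w⟫ = 0) : fderiv ℝ n z = 0 := by
  have hb : ∀ᶠ w in 𝓝 z, w ∈ ball (0 : ℂ) c.r := isOpen_ball.mem_nhds hz
  have dn : HasFDerivAt n (fderiv ℝ n z) z := (hn z hz).differentiableAt.hasFDerivAt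
  have du : HasFDerivAt c.Xu (fderiv ℝ c.Xu z) z :=
    (c.analyticOnNhd_Xu z hz).differentiableAt.hasFDerivAt
  have dv : HasFDerivAt c.Xv (fderiv ℝ c.Xv z) z :=
    (c.analyticOnNhd_Xv z hz).differentiableAt.hasFDerivAt
  have dV : HasFDerivAt (fun w => κ • c.X w - p) (κ • c.DX z) z :=
    ((c.hasFDerivAt_X hz).const_smul κ).sub_const p
  have dφ : ∀ i, HasDerivAt (deriv (c.Φ i)) (deriv (deriv (c.Φ i)) z) z := fun i =>
    ((c.ChartAPI_an i).deriv z hz).differentiableAt.hasDerivAt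
  obtain ⟨h1, hu, hv⟩ := hn' z hz
  set b : ℂ := (n z 0 : ℝ) * deriv (deriv (c.Φ 0)) z + (n z 1 : ℝ) * deriv (deriv (c.Φ 1)) z
    + (n z 2 : ℝ) * deriv (deriv (c.Φ 2)) z with hbdef
  have e1 : ∀ w, ⟪fderiv ℝ n z w, c.Xu z⟫ = -(b * w).re := by
    intro w
    have h2 := FLATC_inner dn du (hb.mono fun w hw => (hn' w hw).2.1) w
    have h3 : ∀ i, fderiv ℝ c.Xu z w i = (deriv (deriv (c.Φ i)) z * w).re := fun i =>
      FLATC_coord du i (dφ i) Complex.reCLM (fun _ => rfl) w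
    rw [inner_eq, h3, h3, h3] at h2
    rw [hbdef]
    simp only [add_mul, mul_assoc, Complex.add_re, Complex.re_ofReal_mul]
    linarith
  have e2 : ∀ w, ⟪fderiv ℝ n z w, c.Xv z⟫ = (b * w).im := by
    intro w
    have h2 := FLATC_inner dn dv (hb.mono fun w hw => (hn' w hw).2.2) w
    have h3 : ∀ i, fderiv ℝ c.Xv z w i = -(deriv (deriv (c.Φ i)) z * w).im := fun i =>
      FLATC_coord dv i (dφ i) (-Complex.imCLM) (fun _ => rfl) w
    rw [inner_eq, h3, h3, h3] at h2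
    rw [hbdef]
    simp only [add_mul, mul_assoc, Complex.add_im, Complex.im_ofReal_mul]
    linarith
  have e3 : ∀ w, ⟪fderiv ℝ n z w, n z⟫ = 0 := by
    intro w
    have h2 := FLATC_inner dn dn (k := 1) (hb.mono fun w hw => by
      rw [real_inner_self_eq_norm_sq, (hn' w hw).1, one_pow]) w
    rw [real_inner_comm] at h2
    linarith
  have e4 : ∀ w, ⟪κ • c.X z - p, fderiv ℝ n z w⟫ = 0 := by
    intro w
    have h2 := FLATC_inner dV dn h w
    have h3 : ⟪(κ • c.DX z) w, n z⟫ = 0 := by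
      rw [smul_apply, c.DX_apply, real_inner_comm, inner_smul_right, inner_add_right,
        inner_smul_right, inner_smul_right, hu, hv]
      simp
    linarith
  have hfr := c.frame hz h1 hu hv (κ • c.X z - p)
  rw [h.self_of_nhds, zero_smul, add_zero] at hfr
  obtain ⟨α, β, hαβ⟩ : ∃ α β : ℝ, κ • c.X z - p = α • c.Xu z + β • c.Xv z := ⟨_, _, hfr⟩
  have e5 : ∀ w, -(α * (b * w).re) + β * (b * w).im = 0 := by
    intro w
    have h2 := e4 w
    rw [hαβ, real_inner_comm, inner_add_right, inner_smul_right, inner_smul_right, e1, e2] at h2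
    linarith
  have hne : α ^ 2 + β ^ 2 ≠ 0 := by
    intro h0
    have ha : α = 0 := by nlinarith [sq_nonneg α, sq_nonneg β]
    have hb' : β = 0 := by nlinarith [sq_nonneg α, sq_nonneg β]
    rw [ha, hb', zero_smul, zero_smul, add_zero] at hαβ
    exact hV hαβ
  have f1 := e5 1
  have f2 := e5 Complex.I
  rw [mul_one] at f1
  rw [Complex.mul_I_re, Complex.mul_I_im] at f2
  have hb0 : b = 0 := by
    apply Complex.ext
    · have : (α ^ 2 + β ^ 2) * b.re = 0 := by linear_combination (-α) * f1 + β * f2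
      exact (mul_eq_zero.1 this).resolve_left hne
    · have : (α ^ 2 + β ^ 2) * b.im = 0 := by linear_combination β * f1 + α * f2
      exact (mul_eq_zero.1 this).resolve_left hne
  ext1 w
  have h5 := c.frame hz h1 hu hv (fderiv ℝ n z w)
  rw [e1, e2, e3, hb0] at h5
  simpa using h5

/- Hint. n from exists_normal (analytic, unit); cr Xu Xv is a nonzero multiple of n (smul_eq_of_orth), so
<V, n> = 0 near z0, V = kappa X - p. Differentiate: <V, Dn w> = 0. Differentiate <n,Xu> = <n,Xv> =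
0, |n|^2 = 1; with b = sum n_i phi_i' : <n_u,Xu> = -Re b, <n_u,Xv> = Im b = <n_v,Xu>, <n_v,Xv> =
Re b (Xu_i = Re phi_i, Xv_i = -Im phi_i). V = al Xu + be Xv <> 0 (Chart.frame), so -al Re b + be
Im b = 0 = al Im b + be Re b, b = 0, Dn = 0 near z0 (frame), n constant near z0, IDC. -/
theorem flatc_of (hIDC : S_IDC) : S_FLATC := by
  intro c κ p z0 hz0 hV h
  obtain ⟨n, hn, hn'⟩ := c.exists_normal
  have hb : ∀ᶠ w in 𝓝 z0, w ∈ ball (0 : ℂ) c.r := isOpen_ball.mem_nhds hz0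
  have h1 : ∀ᶠ w in 𝓝 z0, ⟪κ • c.X w - p, n w⟫ = 0 := by
    filter_upwards [hb, h] with w hw h0
    have h2 := congrArg (fun y => ⟪κ • c.X w - p, y⟫)
      (smul_eq_of_orth (hn' w hw).2.1 (hn' w hw).2.2)
    simp only [inner_smul_right, h0, mul_zero] at h2
    rw [c.norm_cr hw] at h2
    exact (mul_eq_zero.1 h2).resolve_left (pow_ne_zero 2 (c.jac_pos hw).ne')
  have h2 : ∀ᶠ w in 𝓝 z0, κ • c.X w - p ≠ 0 := by
    have hc : ContinuousAt (fun w => κ • c.X w - p) z0 :=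
      (((c.hasFDerivAt_X hz0).const_smul κ).sub_const p).continuousAt
    exact hc.eventually_ne hV
  have h3 : ∀ᶠ w in 𝓝 z0, w ∈ ball (0 : ℂ) c.r ∧ fderiv ℝ n w = 0 := by
    filter_upwards [hb, h2, h1.eventually_nhds] with w hw hw2 hw1
    exact ⟨hw, FLATC_deriv c κ p hn hn' hw hw2 hw1⟩
  obtain ⟨ε, hε, h4⟩ := Metric.eventually_nhds_iff_ball.1 h3
  have h5 : ∀ w ∈ ball z0 ε, n w = n z0 := fun w hw =>
    isOpen_ball.is_const_of_fderiv_eq_zero (𝕜 := ℝ) (convex_ball z0 ε).isPreconnected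
      (fun y hy => (hn y (h4 y hy).1).differentiableAt.differentiableWithinAt)
      (fun y hy => (h4 y hy).2) hw (mem_ball_self hε)
  refine ⟨n z0, (hn' z0 hz0).1, fun z hz => ?_⟩
  have h6 := hIDC c (n z0) z0 hz0 (Or.inl ?_) z hz
  · exact ⟨h6.1, h6.2.1⟩
  · filter_upwards [ball_mem_nhds z0 hε] with w hw
    rw [← h5 w hw]
    exact (hn' w (h4 w hw).1).2

end MW
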