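import Pool.Agent.P.MP_064970_gt.I.SX

open scoped Manifold ContDiff
open MeasureTheory Set Filter Topology Metric
open scoped RealInnerProductSpace ENNReal ComplexConjugate Real

noncomputable section

namespace MW

universe u

theorem fv_of (hFVC : S_FVC) (hFVV : S_FVV) : S_FV := by
  intro M
  have hS : Stat M.O (M.μ.map fun x => (x, M.N x)) := by
    have := hFVC M M.S Subset.rfl ⟨univ, isOpen_univ, by simp⟩ ⟨∅, isOpen_empty, by simp⟩
    rwa [M.restrict_S] at this
  have hm : Measurable fun x => (x, M.N x) := measurable_id.prodMk M.N_meas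
  refine ⟨fun ζ h1 h2 h3 v => ?_, fun Y h1 h2 h3 => ?_⟩
  · have h := hS.fv ζ h1 h2 h3 v
    have hc : Continuous (fderiv ℝ ζ) := h1.continuous_fderiv one_ne_zero
    have hc' : Continuous fun q : E × E => fderiv ℝ ζ q.1 v - ⟪q.2, v⟫ * fderiv ℝ ζ q.1 q.2 := by
      fun_prop
    rwa [integral_map hm.aemeasurable hc'.aestronglyMeasurable] at h
  · obtain ⟨h4, h⟩ := hFVV _ _ hS Y h1 h2 h3
    rwa [integral_map hm.aemeasurable h4.aestronglyMeasurable] at h

end MW
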