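import Pool.Agent.P.MP_064970_gt.I.SX

open scoped Manifold ContDiff
open MeasureTheory Set Filter Topology Metric
open scoped RealInnerProductSpace ENNReal ComplexConjugate Real

noncomputable section

namespace MW

universe u

theorem FVC_chart {M : Surf} {U : Set E} (hU : IsOpen U) {p : E} (hp : p ∈ M.S ∩ U) :
    ∃ c : Chart, c.X 0 = p ∧ c.Fits M.S M.N M.μ ∧ c.Emb (M.S ∩ U) := by
  obtain ⟨c, h0, hc⟩ := M.chart p hp.1
  have h1 : ContinuousAt c.X 0 :=
    c.continuousOn_X.continuousAt (ball_mem_nhds _ c.r_pos)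
  obtain ⟨ρ, hρ, hb⟩ := Metric.mem_nhds_iff.1 (h1 (hU.mem_nhds (h0.symm ▸ hp.2)))
  have hf := hc.shrink (min ρ c.r) (lt_min hρ c.r_pos) (min_le_right _ _)
  refine ⟨c.shrink (min ρ c.r) (lt_min hρ c.r_pos) (min_le_right _ _), h0, hf, hf.inj,
    fun V hV hs => ?_⟩
  obtain ⟨G, hG, e⟩ := hf.opn V hV hs
  refine ⟨G, hG, Subset.antisymm ?_ ?_⟩
  · rintro _ ⟨z, hz, rfl⟩
    have h2 : _ ∈ M.S ∩ G := e ▸ mem_image_of_mem _ hz
    exact ⟨⟨h2.1, hb (ball_subset_ball (min_le_left _ _) (hs hz))⟩, h2.2⟩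
  · rw [e]
    exact fun x hx => ⟨hx.1.1, hx.2⟩

/- Hint. Omega = subtype S1, f = val, n = N o val, m = mu.comap val (S1 measurable). At p in S1 shrink the
chart so that X '' ball lies in U; it is Emb S1; TOP gives the PChart; m (psi '' A) = mu (X '' A)
(MeasurableEmbedding.comap_apply). Properness: S1 cap K = (S cap K) minus U' is compact
(Surf.isCompact_inter), Subtype.isCompact_iff. Finally m.map (fun p => (p, N p)) = (mu.restrict
S1).map ... by map_comap_subtype_coe and Measure.map_map. -/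
theorem fvc_of (hFVG : S_FVG.{0}) (hTOP : S_TOP) : S_FVC := by
  rintro M S₁ hS ⟨U, hU, e⟩ ⟨U', hU', e'⟩
  have hm : MeasurableSet S₁ := e ▸ M.measurableSet_S.inter hU.measurableSet
  have hN : Measurable fun x : E => (x, M.N x) := measurable_id.prodMk M.N_meas
  have key := hFVG S₁ Subtype.val (fun p => M.N p) (M.μ.comap Subtype.val) M.O
    continuous_subtype_val (M.N_meas.comp measurable_subtype_coe)
    (fun p => M.N_unit p (hS p.2)) (fun p => ?_) (fun K hK hO => ?_)
  · rw [← map_comap_subtype_coe hm, Measure.map_map hN measurable_subtype_coe]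
    exact key
  · obtain ⟨c, h0, hf, he⟩ := FVC_chart (M := M) hU (e.subset p.2)
    obtain ⟨c', rfl⟩ := hTOP S₁ c (by rwa [e])
    refine ⟨c', Subtype.ext ((c'.eq 0 (mem_ball_self c'.r_pos)).trans h0), fun z hz => ?_,
      fun A hA hs => ?_⟩
    · rw [c'.eq z hz]
      exact ⟨hf.inner_Xu hz, hf.inner_Xv hz⟩
    · rw [(MeasurableEmbedding.subtype_coe hm).comap_apply, ← hf.area A hA hs, image_image]
      congr 1
      exact image_congr fun z hz => c'.eq z (hs hz)
  · rw [Subtype.isCompact_iff, Subtype.image_preimage_coe]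
    have h1 : S₁ ∩ K = (M.S ∩ K) \ U' := by
      ext x
      constructor
      · rintro ⟨h1, h2⟩
        refine ⟨⟨hS h1, h2⟩, fun h3 => ?_⟩
        have h4 : x ∈ M.S \ S₁ := e'.superset ⟨hS h1, h3⟩
        exact h4.2 h1
      · rintro ⟨⟨h1, h2⟩, h3⟩
        refine ⟨by_contra fun h4 => h3 ?_, h2⟩
        have h5 : x ∈ M.S ∩ U' := e'.subset ⟨h1, h4⟩
        exact h5.2
    rw [h1]
    exact (M.isCompact_inter hK hO).diff hU'

end MW
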