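import Pool.Agent.P.MP_064970_gt.I.SX

open scoped Manifold ContDiff
open MeasureTheory Set Filter Topology Metric
open scoped RealInnerProductSpace ENNReal ComplexConjugate Real

noncomputable section

namespace MW

universe u

theorem FVCH_zero {G : ℂ → ℝ} (hG : ContDiff ℝ 1 G) (hc : HasCompactSupport G) (w : ℂ) :
    Integrable (fun z => fderiv ℝ G z w) ∧ ∫ z, fderiv ℝ G z w = 0 := by
  have h1 : Integrable fun z => fderiv ℝ G z w :=
    ((hG.continuous_fderiv one_ne_zero).clm_apply continuous_const).integrable_of_hasCompactSupport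
      (hc.fderiv_apply (𝕜 := ℝ) w)
  refine ⟨h1, ?_⟩
  have h2 := integral_mul_fderiv_eq_neg_fderiv_mul_of_integrable (μ := volume)
    (f := fun _ : ℂ => (1 : ℝ)) (g := G) (v := w) (by simp) (by simpa using h1)
    (by simpa using hG.continuous.integrable_of_hasCompactSupport hc)
    (fun _ _ => differentiableAt_const _) (fun x _ => hG.differentiable one_ne_zero x)
  simpa using h2

theorem FVCH_loc {U K : Set ℂ} (hU : IsOpen U) (hK : IsCompact K) (hKU : K ⊆ U) {p : ℂ → ℝ}
    (hp : ContDiffOn ℝ 1 p U) (h0 : ∀ z ∈ U, z ∉ K → p z = 0) (w : ℂ) :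
    IntegrableOn (fun z => fderiv ℝ p z w) U ∧ ∫ z in U, fderiv ℝ p z w = 0 := by
  have hz : ∀ z, z ∉ K → U.indicator p z = 0 := fun z hz => by
    by_cases h : z ∈ U
    · rw [indicator_of_mem h, h0 z h hz]
    · exact indicator_of_notMem h _
  have h1 : ∀ z ∈ U, U.indicator p =ᶠ[𝓝 z] p := fun z hz => by
    filter_upwards [hU.mem_nhds hz] with y hy using indicator_of_mem hy _
  have h2 : ∀ z, z ∉ U → U.indicator p =ᶠ[𝓝 z] fun _ => 0 := fun z hzU => by
    filter_upwards [hK.isClosed.isOpen_compl.mem_nhds fun h => hzU (hKU h)] with y hy using hz y hy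
  have hG : ContDiff ℝ 1 (U.indicator p) := by
    rw [contDiff_iff_contDiffAt]
    intro z
    by_cases h : z ∈ U
    · exact (hp.contDiffAt (hU.mem_nhds h)).congr_of_eventuallyEq (h1 z h)
    · exact contDiffAt_const.congr_of_eventuallyEq (h2 z h)
  obtain ⟨h3, h4⟩ := FVCH_zero hG (HasCompactSupport.intro hK hz) w
  have h5 : (fun z => fderiv ℝ (U.indicator p) z w) = U.indicator fun z => fderiv ℝ p z w := by
    funext z
    by_cases h : z ∈ U
    · rw [indicator_of_mem h, (h1 z h).fderiv_eq]
    · rw [indicator_of_notMem h, (h2 z h).fderiv_eq]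
      simp
  rw [h5] at h3 h4
  rw [integral_indicator hU.measurableSet] at h4
  exact ⟨(integrable_indicator_iff hU.measurableSet).1 h3, h4⟩

theorem FVCH_div (c : Chart) (v : E) {z : ℂ} (hz : z ∈ ball (0 : ℂ) c.r) :
    fderiv ℝ (fun z => ⟪v, c.Xu z⟫) z 1 + fderiv ℝ (fun z => ⟪v, c.Xv z⟫) z Complex.I = 0 := by
  let F : ℂ → ℂ := fun z => ∑ i, ((v i : ℝ) : ℂ) * deriv (c.Φ i) z
  have hF : DifferentiableAt ℂ F z := DifferentiableAt.fun_sum fun i _ =>
    ((c.ChartAPI_an i z hz).deriv.differentiableAt).const_mul _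
  have h1 : (fun z => ⟪v, c.Xu z⟫) = fun z => (F z).re := by
    funext w
    simp [F, ChartAPI_inner, Chart.Xu, Fin.sum_univ_three]
  have h2 : (fun z => ⟪v, c.Xv z⟫) = fun z => -(F z).im := by
    funext w
    simp [F, ChartAPI_inner, Chart.Xv, Fin.sum_univ_three]
    ring
  have h3 := hF.hasDerivAt.hasFDerivAt.restrictScalars ℝ
  have h4 : HasFDerivAt (fun z => (F z).re) _ z := Complex.reCLM.hasFDerivAt.comp z h3
  have h5 : HasFDerivAt (fun z => -(F z).im) _ z := (Complex.imCLM.hasFDerivAt.comp z h3).neg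
  rw [h1, h2, h4.fderiv, h5.fderiv]
  simp

/- Hint. h = <v, Xu> and k = <v, Xv> are analytic on the ball with d_1 h + d_I k = 0 (F = sum v_i phi_i is
holomorphic, h = Re F, k = -Im F). The functions G1 = indicator ball (g h), G2 = indicator ball (g
k) are C1 on C with support in K (at a point of the ball they are the product, outside K they
vanish near the point), so the integrals of fderiv G1 z 1 and fderiv G2 z I over C vanish
(integral_fderiv_eq_zero style: integral_bilinear_hasLineDerivAt_right_eq_neg_left_of_integrable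
or integral_mul_fderiv_eq_neg_fderiv_mul_of_integrable with the constant replaced by a bump equal
to 1 on K). Add and use the product rule. -/
theorem fvch_of : S_FVCH := by
  intro c g K hK hKU hg h0 v
  have hu : ContDiffOn ℝ 1 (fun z => ⟪v, c.Xu z⟫) (ball 0 c.r) :=
    contDiffOn_const.inner ℝ (c.analyticOnNhd_Xu.contDiffOn isOpen_ball.uniqueDiffOn)
  have hv : ContDiffOn ℝ 1 (fun z => ⟪v, c.Xv z⟫) (ball 0 c.r) :=
    contDiffOn_const.inner ℝ (c.analyticOnNhd_Xv.contDiffOn isOpen_ball.uniqueDiffOn)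
  obtain ⟨h1, h2⟩ := FVCH_loc isOpen_ball hK hKU (hg.mul hu)
    (fun z hz hz' => by rw [h0 z hz hz', zero_mul]) 1
  obtain ⟨h3, h4⟩ := FVCH_loc isOpen_ball hK hKU (hg.mul hv)
    (fun z hz hz' => by rw [h0 z hz hz', zero_mul]) Complex.I
  have h5 := integral_add h1 h3
  rw [h2, h4, add_zero] at h5
  rw [← h5]
  refine setIntegral_congr_fun measurableSet_ball fun z hz => ?_
  have hn := isOpen_ball.mem_nhds hz
  have dg := (hg.contDiffAt hn).differentiableAt one_ne_zero
  have du := (hu.contDiffAt hn).differentiableAt one_ne_zero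
  have dv := (hv.contDiffAt hn).differentiableAt one_ne_zero
  have h6 := FVCH_div c v hz
  rw [fderiv_fun_mul dg du, fderiv_fun_mul dg dv]
  simp only [add_apply, smul_apply, smul_eq_mul]
  linear_combination (-g z) * h6

end MW
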