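import Pool.Agent.P.MP_064970_gt.I.SX

open scoped Manifold ContDiff
open MeasureTheory Set Filter Topology Metric
open scoped RealInnerProductSpace ENNReal ComplexConjugate Real

noncomputable section

namespace MW

universe u

section Aux

variable {Ω : Type u} [TopologicalSpace Ω] {f : Ω → E}

theorem FVG_mul {g₁ g₂ : Ω → ℝ} {D₁ D₂ : Ω → E →L[ℝ] ℝ} (h₁ : LocAmb f g₁ D₁)
    (h₂ : LocAmb f g₂ D₂) :
    LocAmb f (fun y => g₁ y * g₂ y) fun y => g₁ y • D₂ y + g₂ y • D₁ y := by
  intro y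
  obtain ⟨G₁, c₁, e₁⟩ := h₁ y
  obtain ⟨G₂, c₂, e₂⟩ := h₂ y
  refine ⟨fun x => G₁ x * G₂ x, c₁.mul c₂, ?_⟩
  filter_upwards [e₁, e₂] with y' a₁ a₂
  rw [a₁.1, a₁.2, a₂.1, a₂.2, fderiv_fun_mul (c₁.differentiable one_ne_zero _)
    (c₂.differentiable one_ne_zero _)]
  exact ⟨rfl, rfl⟩

theorem FVG_one_sub {g : Ω → ℝ} {D : Ω → E →L[ℝ] ℝ} (h : LocAmb f g D) :
    LocAmb f (fun y => 1 - g y) fun y => -D y := by
  intro y
  obtain ⟨G, c, e⟩ := h y
  refine ⟨fun x => 1 - G x, contDiff_const.sub c, ?_⟩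
  filter_upwards [e] with y' a
  rw [a.1, a.2, fderiv_const_sub]
  exact ⟨rfl, rfl⟩

/-- Gluing of the local first variation formulas. -/
theorem FVG_ind [MeasurableSpace Ω] {n : Ω → E} {m : Measure Ω} {v : E} {β : Ω → Ω → ℝ}
    {B : Ω → Ω → E →L[ℝ] ℝ} {K U : Ω → Set Ω} (hβ : ∀ p, LocAmb f (β p) (B p))
    (h0 : ∀ p y, y ∉ K p → β p y = 0 ∧ B p y = 0) (hU : ∀ p, IsOpen (U p))
    (h1 : ∀ p, ∀ y ∈ U p, β p y = 1 ∧ B p y = 0)
    (hloc : ∀ p (g : Ω → ℝ) (D : Ω → E →L[ℝ] ℝ), LocAmb f g D →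
      (∀ y, y ∉ K p → g y = 0 ∧ D y = 0) →
      Integrable (fun y => D y v - ⟪n y, v⟫ * D y (n y)) m ∧
        ∫ y, (D y v - ⟪n y, v⟫ * D y (n y)) ∂m = 0) (T : Finset Ω) :
    ∀ (g : Ω → ℝ) (D : Ω → E →L[ℝ] ℝ) (C : Set Ω), LocAmb f g D → IsCompact C →
      C ⊆ ⋃ p ∈ T, U p → (∀ y, y ∉ C → g y = 0 ∧ D y = 0) →
      Integrable (fun y => D y v - ⟪n y, v⟫ * D y (n y)) m ∧
        ∫ y, (D y v - ⟪n y, v⟫ * D y (n y)) ∂m = 0 := by
  classical
  induction T using Finset.induction_on with
  | empty =>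
    intro g D C _ _ hC hz
    have e : ∀ y, D y = 0 := fun y => (hz y fun h => by simpa using hC h).2
    simp [e]
  | insert p T _ ih =>
    intro g D C hg hC hsub hz
    obtain ⟨i1, j1⟩ := hloc p _ _ (FVG_mul (hβ p) hg) fun y hy => by
      rw [(h0 p y hy).1, (h0 p y hy).2]
      simp
    obtain ⟨i2, j2⟩ := ih _ _ (C \ U p) (FVG_mul (FVG_one_sub (hβ p)) hg) (hC.diff (hU p))
      (fun y hy => by
        have := hsub hy.1
        rw [Finset.set_biUnion_insert] at this
        exact this.resolve_left hy.2)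
      (fun y hy => by
        by_cases h : y ∈ U p
        · rw [(h1 p y h).1, (h1 p y h).2]
          simp
        · have h' : y ∉ C := fun h' => hy ⟨h', h⟩
          rw [(hz y h').1, (hz y h').2]
          simp)
    have e : (fun y => D y v - ⟪n y, v⟫ * D y (n y)) = fun y =>
        ((β p y • D y + g y • B p y) v - ⟪n y, v⟫ * (β p y • D y + g y • B p y) (n y)) +
        (((1 - β p y) • D y + g y • -B p y) v
          - ⟪n y, v⟫ * ((1 - β p y) • D y + g y • -B p y) (n y)) := by
      funext y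
      simp only [add_apply, smul_apply, neg_apply, smul_eq_mul]
      ring
    rw [e]
    exact ⟨i1.add i2, by rw [integral_add i1 i2, j1, j2, add_zero]⟩

end Aux

/- Hint. fin: f preimage K is compact, covered by finitely many psi '' ball 0 (r/2), each of finite measure
(PINT with closedBall). fv: LocAmb is closed under products ((g1 g2, g1 D2 + g2 D1)) and under 1 -
g. Claim by induction on a finite set T of points (chart c_y, bump beta_y, K_y, U_y from BUMP):
for every LocAmb pair (g,D) vanishing off a compact K covered by the U_y, y in T, the integrand is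
integrable with integral 0: split (g,D) = beta (g,D) + (1 - beta)(g,D); the first is FVL (support
K_y), the second vanishes off the compact set K minus U_y. Apply to (zeta o f, fderiv zeta o f), K
= f preimage (tsupport zeta); integral_map (the integrand on E x E is continuous). -/
theorem fvg_of (hFVL : S_FVL.{u}) (hBUMP : S_BUMP.{u}) (hPINT : S_PINT.{u}) : S_FVG.{u} := by
  intro Ω _ _ _ _ f n m O hf hn hu hc hK
  have hφ : Measurable fun p => (f p, n p) := hf.measurable.prodMk hn
  choose c hc0 hcn hca using hc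
  refine ⟨?_, fun K hKc hKO => ?_, fun ζ hζ hs hO v => ?_⟩
  · refine (ae_map_iff hφ.aemeasurable ?_).2 (Eventually.of_forall hu)
    exact (isClosed_eq continuous_snd.norm continuous_const).measurableSet
  · rw [Measure.map_apply hφ (hKc.measurableSet.prod MeasurableSet.univ)]
    have e : (fun p => (f p, n p)) ⁻¹' (K ×ˢ univ) = f ⁻¹' K := by
      ext p
      simp
    rw [e]
    refine (hK K hKc hKO).measure_lt_top_of_nhdsWithin fun p _ => ?_
    have hr := (c p).r_pos
    refine ⟨(c p).ψ '' closedBall 0 ((c p).r / 2), mem_nhdsWithin_of_mem_nhds ?_,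
      (hPINT Ω f m (c p) (hca p)).1 _ (isCompact_closedBall _ _)
        (closedBall_subset_ball (half_lt_self hr))⟩
    have h := (c p).ψ.image_mem_nhds (x := 0) (by rw [(c p).src]; exact mem_ball_self hr)
      (closedBall_mem_nhds 0 (half_pos hr))
    rwa [hc0] at h
  · have hd : Continuous (fderiv ℝ ζ) := hζ.continuous_fderiv one_ne_zero
    have hF : Continuous fun q : E × E => fderiv ℝ ζ q.1 v - ⟪q.2, v⟫ * fderiv ℝ ζ q.1 q.2 :=
      ((hd.comp continuous_fst).clm_apply continuous_const).sub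
        ((continuous_snd.inner continuous_const).mul
          ((hd.comp continuous_fst).clm_apply continuous_snd))
    rw [integral_map hφ.aemeasurable hF.aestronglyMeasurable]
    choose β B K U hβ hKc hKt h0 hU hU0 h1 using fun p => hBUMP Ω f (c p) hf
    have hC := hK _ hs.isCompact hO
    obtain ⟨T, hT⟩ := hC.elim_finite_subcover U hU fun p _ => mem_iUnion.2
      ⟨p, by have := hU0 p; rwa [hc0] at this⟩
    refine (FVG_ind hβ h0 hU h1 (fun p g D hg hz => hFVL Ω f n m (c p) hf hn hu (hcn p) (hca p)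
      g D (K p) hg (hKc p) (hKt p) hz v) T (fun y => ζ (f y)) (fun y => fderiv ℝ ζ (f y)) _
      (fun _ => ⟨ζ, hζ, Eventually.of_forall fun _ => ⟨rfl, rfl⟩⟩) hC hT fun y hy => ?_).2
    exact ⟨image_eq_zero_of_notMem_tsupport hy, fderiv_of_notMem_tsupport ℝ hy⟩

end MW
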