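import Pool.Agent.P.MP_064970_gt.I.SX

open scoped Manifold ContDiff
open MeasureTheory Set Filter Topology Metric
open scoped RealInnerProductSpace ENNReal ComplexConjugate Real

noncomputable section

namespace MW

universe u

section aux

variable {Ω : Type u} [TopologicalSpace Ω] {f : Ω → E} {g : Ω → ℝ} {D : Ω → E →L[ℝ] ℝ}

theorem FVL_cont (hf : Continuous f) (h : LocAmb f g D) : Continuous D := by
  refine continuous_iff_continuousAt.2 fun y => ?_
  obtain ⟨G, hG, hy⟩ := h y
  have h1 : Continuous fun y' => fderiv ℝ G (f y') := (hG.continuous_fderiv one_ne_zero).comp hf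
  exact h1.continuousAt.congr (hy.mono fun y' h' => h'.2.symm)

theorem FVL_loc (c : PChart f) (h : LocAmb f g D) {z : ℂ} (hz : z ∈ ball (0 : ℂ) c.r) :
    ContDiffAt ℝ 1 (fun w => g (c.ψ w)) z ∧
      ∀ w, fderiv ℝ (fun w => g (c.ψ w)) z w = D (c.ψ z) (c.toChart.DX z w) := by
  obtain ⟨G, hG, hy⟩ := h (c.ψ z)
  have hzs : z ∈ c.ψ.source := c.src ▸ hz
  have hev : (fun w => g (c.ψ w)) =ᶠ[𝓝 z] fun w => G (c.toChart.X w) := by
    filter_upwards [(c.ψ.continuousAt hzs).eventually hy, isOpen_ball.mem_nhds hz] with w h1 h2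
    rw [h1.1, c.eq w h2]
  have hX : ContDiffAt ℝ 1 c.toChart.X z :=
    (c.toChart.contDiffOn_X 1).contDiffAt (isOpen_ball.mem_nhds hz)
  refine ⟨(hG.contDiffAt.comp z hX).congr_of_eventuallyEq hev, fun w => ?_⟩
  have hd : HasFDerivAt (fun w => G (c.toChart.X w))
      ((fderiv ℝ G (c.toChart.X z)).comp (c.toChart.DX z)) z :=
    ((hG.differentiable one_ne_zero) _).hasFDerivAt.comp z (c.toChart.hasFDerivAt_X hz)
  rw [hev.fderiv_eq, hd.fderiv, hy.self_of_nhds.2, c.eq z hz]
  rfl

theorem FVL_frame (c : Chart) {z : ℂ} (hz : z ∈ ball (0 : ℂ) c.r) {n : E} (hn : ‖n‖ = 1)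
    (hu : ⟪n, c.Xu z⟫ = 0) (hv : ⟪n, c.Xv z⟫ = 0) (L : E →L[ℝ] ℝ) (v : E) :
    (L v - ⟪n, v⟫ * L n) * c.jac z = L (c.Xu z) * ⟪v, c.Xu z⟫ + L (c.Xv z) * ⟪v, c.Xv z⟫ := by
  have h := congrArg L (c.frame hz hn hu hv v)
  have hJ := (c.jac_pos hz).ne'
  rw [map_add, map_add, map_smul, map_smul, map_smul, smul_eq_mul, smul_eq_mul, smul_eq_mul] at h
  rw [h, real_inner_comm v n]
  field_simp
  ring

end aux

/- Hint. D is continuous (LocAmb), so F y = D y v - <n y, v> D y (n y) is measurable (write D y (n y) = sum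
n y i * D y e_i). F = 0 off K, K = psi '' K', K' = psi.symm '' K compact in the ball; |F| is
bounded on K and m K is finite (PINT). g o psi is C1 on the ball with fderiv (g o psi) z w = D
(psi z) (DX z w) (locally G o X). By Chart.frame F (psi z) * jac z = fderiv (g o psi) z 1 * <v,Xu>
+ fderiv (g o psi) z I * <v,Xv>. PINT with A = ball and FVCH. -/
theorem fvl_of (hFVCH : S_FVCH) (hPINT : S_PINT.{u}) : S_FVL.{u} := by
  intro Ω _ _ _ _ f n m c hf hn hunit horth harea g D K hloc hK hKt hzero v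
  obtain ⟨hfin, hint⟩ := hPINT Ω f m c harea
  have hD := FVL_cont hf hloc
  set F : Ω → ℝ := fun y => D y v - ⟪n y, v⟫ * D y (n y) with hF
  have hFm : Measurable F := by
    refine Measurable.sub (hD.clm_apply continuous_const).measurable (Measurable.mul ?_ ?_)
    · exact (continuous_id.inner continuous_const).measurable.comp hn
    · exact ContinuousLinearMap.measurable_apply₂.comp (hD.measurable.prodMk hn)
  have hF0 : ∀ y, y ∉ K → F y = 0 := fun y hy => by simp [hF, (hzero y hy).2]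
  set K' : Set ℂ := c.ψ.symm '' K with hK'
  have hK'c : IsCompact K' := hK.image_of_continuousOn (c.ψ.continuousOn_symm.mono hKt)
  have hK's : K' ⊆ ball (0 : ℂ) c.r := by
    rintro _ ⟨y, hy, rfl⟩
    rw [← c.src]
    exact c.ψ.map_target (hKt hy)
  have hKK : c.ψ '' K' = K := c.ψ.image_symm_image_of_subset_target hKt
  have hmK : m K < ⊤ := hKK ▸ hfin K' hK'c hK's
  obtain ⟨C, hC⟩ := hK.exists_bound_of_continuousOn hD.continuousOn
  have hFi : Integrable F m := by
    rw [← integrableOn_iff_integrable_of_support_subset (s := K)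
      (fun y hy => by_contra fun h => hy (hF0 y h))]
    refine Measure.integrableOn_of_bounded (M := C * ‖v‖ + ‖v‖ * C) hmK.ne
      hFm.aestronglyMeasurable ?_
    refine (ae_restrict_iff' hK.isClosed.measurableSet).2 (Eventually.of_forall fun y hy => ?_)
    have h1 : ‖D y v‖ ≤ C * ‖v‖ :=
      ((D y).le_opNorm v).trans (mul_le_mul_of_nonneg_right (hC y hy) (norm_nonneg _))
    have h2 : ‖D y (n y)‖ ≤ C := by
      have := (D y).le_opNorm (n y)
      rw [hunit, mul_one] at this
      exact this.trans (hC y hy)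
    have h3 : ‖⟪n y, v⟫‖ ≤ ‖v‖ := by
      have := norm_inner_le_norm (𝕜 := ℝ) (n y) v
      rwa [hunit, one_mul] at this
    refine (norm_sub_le _ _).trans (add_le_add h1 ?_)
    rw [norm_mul]
    exact mul_le_mul h3 h2 (norm_nonneg _) (norm_nonneg _)
  refine ⟨hFi, ?_⟩
  obtain ⟨-, -, hI⟩ := hint (ball 0 c.r) measurableSet_ball Subset.rfl
  have hsub : K ⊆ c.ψ '' ball 0 c.r := hKK ▸ image_mono hK's
  rw [← setIntegral_eq_integral_of_forall_compl_eq_zero (s := c.ψ '' ball 0 c.r)
    fun y hy => hF0 y fun h => hy (hsub h), (hI F hFm).2]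
  have key := hFVCH c.toChart (fun w => g (c.ψ w)) K' hK'c hK's
    (fun z hz => (FVL_loc c hloc hz).1.contDiffWithinAt)
    (fun z hz hzK => (hzero _ fun h => hzK ⟨_, h, c.ψ.left_inv (c.src ▸ hz)⟩).1) v
  rw [← key]
  refine setIntegral_congr_fun measurableSet_ball fun z hz => ?_
  have h := (FVL_loc c hloc hz).2
  simp only [h, Chart.DX_one, Chart.DX_I]
  exact FVL_frame c.toChart hz (hunit _) (horth z hz).1 (horth z hz).2 _ v

end MW
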