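import Pool.Agent.P.MP_064970_gt.I.SX

open scoped Manifold ContDiff
open MeasureTheory Set Filter Topology Metric
open scoped RealInnerProductSpace ENNReal ComplexConjugate Real

noncomputable section

namespace MW

universe u

theorem fvv_of : S_FVV := by
  intro O V hV Z hZ hc hO
  have hZi : ∀ i : Fin 3, ContDiff ℝ 1 fun x => Z x i := fun i =>
    (EuclideanSpace.proj i : E →L[ℝ] ℝ).contDiff.comp hZ
  have hsup : ∀ i : Fin 3, tsupport (fun x => Z x i) ⊆ tsupport Z := fun i =>
    closure_mono fun x hx h => hx (by simp [h])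
  have hci : ∀ i : Fin 3, HasCompactSupport fun x => Z x i := fun i =>
    IsCompact.of_isClosed_subset hc (isClosed_tsupport _) (hsup i)
  have hD : ∀ (i : Fin 3) (x w : E), fderiv ℝ (fun x => Z x i) x w = fderiv ℝ Z x w i := by
    intro i x w
    have h := ((EuclideanSpace.proj i : E →L[ℝ] ℝ).hasFDerivAt.comp x
      (hZ.differentiable one_ne_zero x).hasFDerivAt).fderiv
    have h' : fderiv ℝ (fun x => Z x i) x
        = (EuclideanSpace.proj i : E →L[ℝ] ℝ).comp (fderiv ℝ Z x) := h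
    rw [h']; rfl
  have hint : ∀ (ζ : E → ℝ), ContDiff ℝ 1 ζ → HasCompactSupport ζ → tsupport ζ ⊆ O → ∀ v : E,
      Integrable (fun q : E × E => fderiv ℝ ζ q.1 v - ⟪q.2, v⟫ * fderiv ℝ ζ q.1 q.2) V := by
    intro ζ h1 h2 h3 v
    have hcD : Continuous (fderiv ℝ ζ) := h1.continuous_fderiv one_ne_zero
    obtain ⟨C, hC⟩ := (h2.fderiv (𝕜 := ℝ)).exists_bound_of_continuous hcD
    have hcont : Continuous fun q : E × E =>
        fderiv ℝ ζ q.1 v - ⟪q.2, v⟫ * fderiv ℝ ζ q.1 q.2 := by fun_prop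
    have hK : MeasurableSet (tsupport ζ ×ˢ (univ : Set E)) :=
      (isClosed_tsupport ζ).measurableSet.prod MeasurableSet.univ
    refine (integrableOn_iff_integrable_of_support_subset (s := tsupport ζ ×ˢ univ) ?_).1 ?_
    · intro q hq
      refine ⟨?_, mem_univ _⟩
      by_contra h
      have : fderiv ℝ ζ q.1 = 0 :=
        Function.notMem_support.1 fun h' => h (support_fderiv_subset ℝ h')
      exact hq (by simp [this])
    · refine Measure.integrableOn_of_bounded (M := C * ‖v‖ + ‖v‖ * C)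
        (hV.fin _ h2 h3).ne hcont.aestronglyMeasurable ?_
      filter_upwards [ae_restrict_of_ae hV.unit] with q hq
      have a1 : ‖fderiv ℝ ζ q.1 v‖ ≤ C * ‖v‖ :=
        ((fderiv ℝ ζ q.1).le_opNorm v).trans (mul_le_mul_of_nonneg_right (hC _) (norm_nonneg _))
      have a2 : ‖fderiv ℝ ζ q.1 q.2‖ ≤ C := by
        have := (fderiv ℝ ζ q.1).le_opNorm q.2
        rw [hq, mul_one] at this
        exact this.trans (hC _)
      have a3 : ‖⟪q.2, v⟫‖ ≤ ‖v‖ := by
        have := norm_inner_le_norm (𝕜 := ℝ) q.2 v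
        rwa [hq, one_mul] at this
      refine (norm_sub_le _ _).trans (add_le_add a1 ?_)
      rw [norm_mul]
      exact mul_le_mul a3 a2 (norm_nonneg _) (norm_nonneg _)
  have heq : (fun q : E × E => dv Z q.1 - ⟪q.2, fderiv ℝ Z q.1 q.2⟫) = fun q => ∑ i : Fin 3,
      (fderiv ℝ (fun x => Z x i) q.1 (EuclideanSpace.single i 1)
        - ⟪q.2, EuclideanSpace.single i (1 : ℝ)⟫ * fderiv ℝ (fun x => Z x i) q.1 q.2) := by
    funext q
    simp only [hD, dv, Fin.sum_univ_three, inner_eq]
    simp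
    ring
  rw [heq]
  refine ⟨integrable_finsetSum _ fun i _ => hint _ (hZi i) (hci i) ((hsup i).trans hO) _, ?_⟩
  rw [integral_finsetSum _ fun i _ => hint _ (hZi i) (hci i) ((hsup i).trans hO) _]
  exact Finset.sum_eq_zero fun i _ => hV.fv _ (hZi i) (hci i) ((hsup i).trans hO) _

end MW
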