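import Pool.Agent.P.MP_064970_gt.I.SX

open scoped Manifold ContDiff
open MeasureTheory Set Filter Topology Metric
open scoped RealInnerProductSpace ENNReal ComplexConjugate Real

noncomputable section

namespace MW

universe u

/-- The holomorphic function with real part `⟪X z, a⟫ - b`. -/
def GE_F (c : Chart) (a : E) (b : ℝ) (z : ℂ) : ℂ :=
  (a 0 : ℂ) * c.Φ 0 z + (a 1 : ℂ) * c.Φ 1 z + (a 2 : ℂ) * c.Φ 2 z - (b : ℂ)

theorem GE_re (c : Chart) (a : E) (b : ℝ) (z : ℂ) : (GE_F c a b z).re = ⟪c.X z, a⟫ - b := by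
  rw [inner_eq]
  simp only [GE_F, Chart.X, Complex.sub_re, Complex.add_re, Complex.re_ofReal_mul,
    Complex.ofReal_re]
  ring

theorem GE_deriv (c : Chart) (a : E) (b : ℝ) {z : ℂ} (hz : z ∈ ball (0 : ℂ) c.r) :
    HasDerivAt (GE_F c a b) ((a 0 : ℂ) * deriv (c.Φ 0) z + (a 1 : ℂ) * deriv (c.Φ 1) z
      + (a 2 : ℂ) * deriv (c.Φ 2) z) z := by
  have h : ∀ i, HasDerivAt (c.Φ i) (deriv (c.Φ i) z) z := fun i =>
    ((c.hol i).differentiableAt (isOpen_ball.mem_nhds hz)).hasDerivAt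
  exact ((((h 0).const_mul _).add ((h 1).const_mul _)).add ((h 2).const_mul _)).sub_const _

theorem GE_norm (c : Chart) (a : E) (b : ℝ) {z : ℂ} (hz : z ∈ ball (0 : ℂ) c.r) :
    ‖deriv (GE_F c a b) z‖ ^ 2 = ⟪a, c.Xu z⟫ ^ 2 + ⟪a, c.Xv z⟫ ^ 2 := by
  rw [(GE_deriv c a b hz).deriv, Complex.sq_norm, Complex.normSq_apply, inner_eq, inner_eq]
  simp only [Chart.Xu, Chart.Xv, Complex.add_re, Complex.add_im, Complex.re_ofReal_mul,
    Complex.im_ofReal_mul]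
  ring

theorem GE_tan (c : Chart) (a : E) (b : ℝ) {z : ℂ} (hz : z ∈ ball (0 : ℂ) c.r) {n : E}
    (hn : ‖n‖ = 1) (hu : ⟪n, c.Xu z⟫ = 0) (hv : ⟪n, c.Xv z⟫ = 0) (hj : 1 / 4 ≤ c.jac z) :
    ‖a - ⟪a, n⟫ • n‖ ≤ 2 * ‖deriv (GE_F c a b) z‖ := by
  have hJ := c.jac_pos hz
  have e : a - ⟪a, n⟫ • n = c.DX z ⟨⟪a, c.Xu z⟫ / c.jac z, ⟪a, c.Xv z⟫ / c.jac z⟩ := by
    rw [c.DX_apply, sub_eq_iff_eq_add]
    exact c.frame hz hn hu hv a
  have e2 : ‖a - ⟪a, n⟫ • n‖ ^ 2 * c.jac z = ‖deriv (GE_F c a b) z‖ ^ 2 := by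
    rw [e, c.norm_DX_sq hz, GE_norm c a b hz, Complex.sq_norm, Complex.normSq_apply]
    field_simp
  refine le_of_sq_le_sq ?_ (by positivity)
  nlinarith [sq_nonneg ‖a - ⟪a, n⟫ • n‖]

/- Hint. F z = sum a_i Phi_i z - c0 is holomorphic on ball c.r, Re F = <X z, a> - c0, |F'(0)|^2 = <a,Xu>^2
+ <a,Xv>^2 = jac 0 * |a - <a,N> N|^2 (Chart.frame), jac >= 1/4. HARM with s = c.r/2 = c0 rho/2;
the integral over ball 0 s of |Re F| is <= 4 int |Re F| jac = 4 int over X '' ball 0 s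
(Fits.integral), and X '' ball 0 s lies in ball p rho (Lipschitz, c0 <= 1/4); setIntegral_mono_set
with Bd.integrableOn. -/
theorem ge_of (hQCH : S_QCH) (hBILIP : S_BILIP) (hHARM : S_HARM) : S_GE := by
  obtain ⟨k, k₁, hk₁, hk₁k, hk4, hQ⟩ := hQCH
  obtain ⟨C, hC, hH⟩ := hHARM
  have hk : 0 < k := hk₁.trans_le hk₁k
  refine ⟨64 * C / k ^ 3, by positivity, fun M hM p ρ hp hρ hR a b => ?_⟩
  obtain ⟨c, hr, h0, hf, hL, -⟩ := hQ M p ρ hp hρ (hM.sub _) hR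
  have hB := (hBILIP c hL).1
  have hz0 : (0 : ℂ) ∈ ball (0 : ℂ) c.r := mem_ball_self c.r_pos
  have hX : c.X 0 = p := by
    ext i
    simp [Chart.X, h0 i]
  set s := k * ρ / 2 with hs
  have hs0 : 0 < s := by positivity
  have hrs : c.r = 2 * s := by rw [hr, hs]; ring
  have hsub : closedBall (0 : ℂ) s ⊆ ball 0 c.r := closedBall_subset_ball (by linarith)
  have hsub' : ball (0 : ℂ) s ⊆ ball 0 c.r := ball_subset_closedBall.trans hsub
  have h1 := hH (GE_F c a b) s hs0 (fun z hz =>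
    (GE_deriv c a b (by rwa [hrs])).differentiableAt.differentiableWithinAt)
  simp only [GE_re, hX] at h1
  have h2 := GE_tan c a b hz0 (M.N_unit p hp) (hX ▸ hf.inner_Xu hz0) (hX ▸ hf.inner_Xv hz0)
    (hB 0 hz0).1
  have hg : Continuous fun x : E => |⟪x, a⟫ - b| := by fun_prop
  have hI : IntegrableOn (fun x : E => |⟪x, a⟫ - b|) (ball p ρ) M.μ := by
    have := hM.bd.isFiniteMeasureOnCompacts
    exact (hg.continuousOn.integrableOn_compact (isCompact_closedBall p ρ)).mono_set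
      ball_subset_closedBall
  have hJ : IntegrableOn (fun z => |⟪c.X z, a⟫ - b| * c.jac z) (ball (0 : ℂ) s) :=
    ((((hg.comp_continuousOn c.continuousOn_X).mul c.continuousOn_jac).mono
      hsub).integrableOn_compact (isCompact_closedBall 0 s)).mono_set ball_subset_closedBall
  have h3 : ∫ z in ball (0 : ℂ) s, |⟪c.X z, a⟫ - b|
      ≤ 4 * ∫ z in ball (0 : ℂ) s, |⟪c.X z, a⟫ - b| * c.jac z := by
    rw [← integral_const_mul]
    refine integral_mono_of_nonneg (Eventually.of_forall fun z => abs_nonneg _) (hJ.const_mul 4) ?_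
    filter_upwards [ae_restrict_mem measurableSet_ball] with z hz
    nlinarith [(hB z (hsub' hz)).1, abs_nonneg (⟪c.X z, a⟫ - b)]
  have h4 : ∫ z in ball (0 : ℂ) s, |⟪c.X z, a⟫ - b| * c.jac z
      ≤ ∫ x in ball p ρ, |⟪x, a⟫ - b| ∂M.μ := by
    rw [← hf.integral measurableSet_ball hsub' hg.measurable]
    refine setIntegral_mono_set hI (Eventually.of_forall fun x => abs_nonneg _)
      (HasSubset.Subset.eventuallyLE ?_)
    rintro _ ⟨z, hz, rfl⟩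
    have h5 := (hL z (hsub' hz) 0 hz0).2
    rw [hX, sub_zero] at h5
    have h6 := mem_ball_zero_iff.1 hz
    rw [mem_ball_iff_norm]
    nlinarith
  set J := ∫ x in ball p ρ, |⟪x, a⟫ - b| ∂M.μ
  set D := ‖deriv (GE_F c a b) 0‖
  have h5 : |⟪p, a⟫ - b| + s * D ≤ C / s ^ 2 * (4 * J) :=
    h1.trans (mul_le_mul_of_nonneg_left (by linarith) (by positivity))
  have h6 : 1 ≤ 4 / k := by rw [le_div_iff₀ hk]; linarith
  calc |⟪p, a⟫ - b| + ρ * ‖a - ⟪a, M.N p⟫ • M.N p‖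
      ≤ 4 / k * |⟪p, a⟫ - b| + ρ * (2 * D) :=
        add_le_add (le_mul_of_one_le_left (abs_nonneg _) h6) (mul_le_mul_of_nonneg_left h2 hρ.le)
    _ = 4 / k * (|⟪p, a⟫ - b| + s * D) := by rw [hs]; field_simp; ring
    _ ≤ 4 / k * (C / s ^ 2 * (4 * J)) := mul_le_mul_of_nonneg_left h5 (by positivity)
    _ = 64 * C / k ^ 3 / ρ ^ 2 * J := by rw [hs]; field_simp; ring

end MW
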