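import Pool.Agent.P.MP_064970_gt.I.SX

open scoped Manifold ContDiff
open MeasureTheory Set Filter Topology Metric
open scoped RealInnerProductSpace ENNReal ComplexConjugate Real

noncomputable section

namespace MW

universe u

/-- Gauss–Green in an arbitrary direction. -/
theorem GG_dir (hGG3 : S_GG3) {M : Surf} (hM : M.Mem) {ζ : E → ℝ} (hζ : ContDiff ℝ 1 ζ)
    (hs : HasCompactSupport ζ) {v : E} (hv : ‖v‖ = 1) :
    ∫ x in M.W, fderiv ℝ ζ x v = ∫ x, ζ x * ⟪M.N x, v⟫ ∂M.μ := by
  obtain ⟨A, hA⟩ := exists_iso_e3 hv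
  have hsim := M.isSim A.symm one_pos 0
  set M' := M.sim A.symm 1 0 with hM'
  have hmap : ∀ x, simMap A.symm 1 0 x = A.symm x := fun x => by simp [simMap]
  have h1 := hGG3 M' (hsim.mem hM) (fun x => ζ (A x)) (hζ.comp A.contDiff)
    (hs.comp_homeomorph A.toHomeomorph)
  have hW : M'.W = A ⁻¹' M.W := by
    ext x
    rw [mem_preimage, ← hsim.W (A x), hmap, A.symm_apply_apply]
  have hD : ∀ x, fderiv ℝ (fun x => ζ (A x)) x e3 = fderiv ℝ ζ (A x) v := by
    intro x
    have h2 : HasFDerivAt (fun x => ζ (A x))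
        ((fderiv ℝ ζ (A x)).comp (A.toContinuousLinearEquiv : E →L[ℝ] E)) x :=
      ((hζ.differentiable one_ne_zero) (A x)).hasFDerivAt.comp x
        A.toContinuousLinearEquiv.hasFDerivAt
    rw [h2.fderiv, ← hA]
    rfl
  simp only [hD] at h1
  rw [hW, A.measurePreserving.setIntegral_preimage_emb A.toHomeomorph.measurableEmbedding
    (fun x => fderiv ℝ ζ x v) M.W, hsim.integral] at h1
  rw [h1, one_pow, one_mul]
  refine integral_congr_ae (Eventually.of_forall fun x => ?_)
  beta_reduce
  rw [hsim.N, hmap, A.apply_symm_apply, ← inner_e3, ← hA, ← A.inner_map_map, A.apply_symm_apply]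

/- Hint. For unit A e3: M' = M.sim A.symm 1 0, zeta' = zeta o A, GG3 for M' and the change of variables x =
A x' (A.measurePreserving, MeasurePreserving.setIntegral_preimage_emb; IsSim.integral) give int_W
fderiv zeta (A e3) = int zeta <N, A e3>. Take A e3 = single i 1 (exists_iso_e3), zeta = V_i, and
add (integrable: continuous with compact support, Bd.isFiniteMeasureOnCompacts). -/
theorem gg_of (hGG3 : S_GG3) : S_GG := by
  intro M hM V hV hs
  have hVi : ∀ i : Fin 3, ContDiff ℝ 1 fun x => V x i := fun i =>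
    (EuclideanSpace.proj i : E →L[ℝ] ℝ).contDiff.comp hV
  have hsi : ∀ i : Fin 3, HasCompactSupport fun x => V x i := fun i =>
    hs.comp_left (g := fun y : E => y i) rfl
  have hD : ∀ (i : Fin 3) (x w : E), fderiv ℝ (fun x => V x i) x w = fderiv ℝ V x w i := by
    intro i x w
    have h2 : HasFDerivAt (fun x => V x i)
        ((EuclideanSpace.proj i : E →L[ℝ] ℝ).comp (fderiv ℝ V x)) x :=
      (EuclideanSpace.proj i : E →L[ℝ] ℝ).hasFDerivAt.comp x
        ((hV.differentiable one_ne_zero) x).hasFDerivAt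
    rw [h2.fderiv]
    rfl
  have hu : ∀ i : Fin 3, ‖(EuclideanSpace.single i (1 : ℝ) : E)‖ = 1 := fun i => by simp
  have h1 : ∀ i : Fin 3, ∫ x in M.W, fderiv ℝ (fun x => V x i) x (EuclideanSpace.single i 1)
      = ∫ x, V x i * M.N x i ∂M.μ := by
    intro i
    rw [GG_dir hGG3 hM (hVi i) (hsi i) (hu i)]
    refine integral_congr_ae (Eventually.of_forall fun x => ?_)
    simp [EuclideanSpace.inner_single_right]
  have hi1 : ∀ i : Fin 3, Integrable
      (fun x => fderiv ℝ (fun x => V x i) x (EuclideanSpace.single i 1)) (volume.restrict M.W) := by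
    intro i
    refine Integrable.integrableOn (Continuous.integrable_of_hasCompactSupport ?_ ?_)
    · exact ((hVi i).continuous_fderiv one_ne_zero).clm_apply continuous_const
    · exact (hsi i).fderiv_apply ℝ _
  have hi2 : ∀ i : Fin 3, Integrable (fun x => V x i * M.N x i) M.μ := by
    intro i
    have := hM.bd.isFiniteMeasureOnCompacts
    have h2 : Integrable (fun x => V x i) M.μ :=
      (hVi i).continuous.integrable_of_hasCompactSupport (hsi i)
    have hm : Measurable fun x => M.N x i :=
      (EuclideanSpace.proj i : E →L[ℝ] ℝ).continuous.measurable.comp M.N_meas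
    refine h2.mul_bdd (c := 1) hm.aestronglyMeasurable ?_
    filter_upwards [M.ae_unit] with x hx
    rw [← hx]
    exact PiLp.norm_apply_le (M.N x) i
  calc ∫ x in M.W, dv V x
      = ∫ x in M.W, ∑ i : Fin 3, fderiv ℝ (fun x => V x i) x (EuclideanSpace.single i 1) := by
        simp only [hD, dv]
    _ = ∑ i : Fin 3, ∫ x, V x i * M.N x i ∂M.μ := by
        rw [integral_finsetSum _ fun i _ => hi1 i]
        exact Finset.sum_congr rfl fun i _ => h1 i
    _ = ∫ x, ⟪V x, M.N x⟫ ∂M.μ := by
        rw [← integral_finsetSum _ fun i _ => hi2 i]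
        refine integral_congr_ae (Eventually.of_forall fun x => ?_)
        beta_reduce
        rw [inner_eq, Fin.sum_univ_three]

end MW
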