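import Pool.Agent.P.MP_064970_gt.I.SX

open scoped Manifold ContDiff
open MeasureTheory Set Filter Topology Metric
open scoped RealInnerProductSpace ENNReal ComplexConjugate Real

noncomputable section

namespace MW

universe u

lemma GG3_der (y : ℂ) (t : ℝ) : HasDerivAt (fun s : ℝ => pt y s) e3 t := by
  have h := ((hasDerivAt_id t).smul_const e3).const_add (pt y 0)
  simp only [id, one_smul, pt_add_smul_e3, zero_add] at h
  exact h

lemma GG3_right {p : ℝ → Prop} (t : ℝ) (h : ∀ᶠ s in 𝓝[>] (0 : ℝ), p (t + s)) :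
    ∀ᶠ s in 𝓝[>] t, p s := by
  have h1 : Tendsto (fun s : ℝ => s - t) (𝓝[>] t) (𝓝[>] 0) :=
    tendsto_nhdsWithin_iff.2 ⟨((continuous_sub_right t).tendsto' t 0 (sub_self t)).mono_left
      nhdsWithin_le_nhds, eventually_nhdsWithin_of_forall fun s hs => mem_Ioi.2 (sub_pos.2 (mem_Ioi.1 hs))⟩
  simpa using h1.eventually h

lemma GG3_left {p : ℝ → Prop} (t : ℝ) (h : ∀ᶠ s in 𝓝[>] (0 : ℝ), p (t - s)) :
    ∀ᶠ s in 𝓝[<] t, p s := by
  have h1 : Tendsto (fun s : ℝ => t - s) (𝓝[<] t) (𝓝[>] 0) :=
    tendsto_nhdsWithin_iff.2 ⟨((continuous_sub_left t).tendsto' t 0 (sub_self t)).mono_left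
      nhdsWithin_le_nhds, eventually_nhdsWithin_of_forall fun s hs => mem_Ioi.2 (sub_pos.2 (mem_Iio.1 hs))⟩
  simpa using h1.eventually h

/- Hint. Left side = int of indicator W (fderiv zeta . e3) = int dy int dt (integral_eq_integral_pt). On a
regular line apply LINE with h t = zeta (pt y t), w = {t | pt y t in W}, w', T = the finite set of
AREAR, sigma = sign (N 2) (M.side with v = e3 or -e3; pt_add_smul_e3). Right side: AREAR with g =
indicator S (zeta * sign (N 2)) (measurable, bounded, vanishing for |x| >= R), g |N 2| = zeta N 2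
on S (ae_mem). -/
theorem gg3_of (hLINE : S_LINE) (hAREAR : S_AREAR) (hRLINE : S_RLINE) : S_GG3 := by
  classical
  intro M hM ζ hζ hc
  obtain ⟨R, hR⟩ : ∃ R : ℝ, ∀ x, R ≤ ‖x‖ → ζ x = 0 := by
    obtain ⟨R, hR⟩ := hc.isCompact.isBounded.exists_norm_le
    refine ⟨R + 1, fun x hx => ?_⟩
    by_contra h
    have := hR x (subset_tsupport _ h)
    linarith
  obtain ⟨C, hC⟩ := hc.exists_bound_of_continuous hζ.continuous
  set σ : E → ℝ := fun x => if 0 < M.N x 2 then 1 else -1 with hσ
  have hN2 : Measurable fun x => M.N x 2 :=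
    (by fun_prop : Continuous fun v : E => v 2).measurable.comp M.N_meas
  have hσm : Measurable σ :=
    Measurable.ite (measurableSet_lt measurable_const hN2) measurable_const measurable_const
  obtain ⟨hfin, -, harea⟩ := hAREAR M hM (fun x => σ x * ζ x) R C
    (hσm.mul hζ.continuous.measurable)
    (fun x => by
      have h1 : |σ x| = 1 := by
        simp only [hσ]
        split_ifs <;> simp
      rw [abs_mul, h1, one_mul]
      exact hC x)
    (fun x hx => by rw [hR x hx, mul_zero])
  have hr : ∀ x, ζ x * M.N x 2 = σ x * ζ x * |M.N x 2| := by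
    intro x
    simp only [hσ]
    split_ifs with h
    · rw [abs_of_pos h, one_mul]
    · rw [abs_of_nonpos (not_lt.1 h)]
      ring
  have hf : Continuous fun x => fderiv ℝ ζ x e3 :=
    (hζ.continuous_fderiv (by simp)).clm_apply continuous_const
  have hfi : Integrable fun x => fderiv ℝ ζ x e3 :=
    hf.integrable_of_hasCompactSupport (hc.fderiv_apply (𝕜 := ℝ) e3)
  simp only [hr]
  rw [harea, ← integral_indicator M.isOpen_W.measurableSet,
    integral_eq_integral_pt (hfi.indicator M.isOpen_W.measurableSet)]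
  refine integral_congr_ae ?_
  filter_upwards [hfin, hRLINE M] with y hy hreg
  have hpt : Continuous fun t : ℝ => pt y t := by fun_prop
  have hw : IsOpen {t : ℝ | pt y t ∈ M.W} := M.isOpen_W.preimage hpt
  have hw' : IsOpen {t : ℝ | pt y t ∈ M.W'} := M.isOpen_W'.preimage hpt
  have hz : ∀ t : ℝ, R ≤ |t| → ζ (pt y t) = 0 := fun t ht =>
    hR _ (ht.trans (abs_two_le (pt y t)))
  have hcd : ContDiff ℝ 1 fun t : ℝ => pt y t := by
    have : (fun t : ℝ => pt y t) = fun t : ℝ => pt y 0 + t • e3 := by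
      ext1 t
      rw [pt_add_smul_e3, zero_add]
    rw [this]
    exact contDiff_const.add (contDiff_id.smul contDiff_const)
  have key := hLINE (fun t => ζ (pt y t)) _ _ hy.toFinset (fun t => σ (pt y t)) R (hζ.comp hcd) hz
    hw hw' (M.disj.preimage fun t : ℝ => pt y t)
    (fun t ht => by
      have h1 : pt y t ∈ M.W ∪ M.W' ∪ M.S := by
        rw [← M.cover, hM.univ]
        trivial
      rcases h1 with (h1 | h1) | h1
      · exact Or.inl h1
      · exact Or.inr (Or.inl h1)
      · exact Or.inr (Or.inr (hy.mem_toFinset.2 ⟨h1, abs_le.2 ht⟩)))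
    (fun t ht => by
      have hS := (hy.mem_toFinset.1 ht).1
      rcases lt_or_gt_of_ne (hreg t hS) with h | h
      · have h1 := M.side _ hS (-e3) (by rw [inner_neg_left, e3_inner]; linarith)
        simp only [smul_neg, ← sub_eq_add_neg, sub_neg_eq_add, pt_add_smul_e3, pt_sub_smul_e3] at h1
        exact Or.inr ⟨if_neg h.not_gt,
          GG3_left (p := fun s => pt y s ∈ M.W') t (h1.mono fun s hs => hs.1),
          GG3_right (p := fun s => pt y s ∈ M.W) t (h1.mono fun s hs => hs.2)⟩
      · have h1 := M.side _ hS e3 (by rw [e3_inner]; exact h)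
        simp only [pt_add_smul_e3, pt_sub_smul_e3] at h1
        exact Or.inl ⟨if_pos h,
          GG3_left (p := fun s => pt y s ∈ M.W) t (h1.mono fun s hs => hs.2),
          GG3_right (p := fun s => pt y s ∈ M.W') t (h1.mono fun s hs => hs.1)⟩)
  have hd : ∀ t : ℝ, deriv (fun t => ζ (pt y t)) t = fderiv ℝ ζ (pt y t) e3 := fun t =>
    ((hζ.differentiable (by simp) _).hasFDerivAt.comp_hasDerivAt t (GG3_der y t)).deriv
  simp only [hd] at key
  refine Eq.trans ?_ (finsum_mem_eq_sum_of_inter_support_eq (fun t => σ (pt y t) * ζ (pt y t))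
    (s := {t : ℝ | pt y t ∈ M.S}) (t := hy.toFinset) ?_).symm
  · rw [← key, ← integral_indicator hw.measurableSet]
    rfl
  · ext t
    simp only [mem_inter_iff, mem_ofPred_eq, Finite.coe_toFinset, Function.mem_support]
    refine ⟨fun h => ⟨⟨h.1, ?_⟩, h.2⟩, fun h => ⟨h.1.1, h.2⟩⟩
    by_contra h1
    exact h.2 (by rw [hz t (not_le.1 h1).le, mul_zero])

end MW
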