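import Pool.Agent.P.MP_064970_gt.I.SX

open scoped Manifold ContDiff
open MeasureTheory Set Filter Topology Metric
open scoped RealInnerProductSpace ENNReal ComplexConjugate Real

noncomputable section

namespace MW

universe u

section glue

variable {V : Type} [NormedAddCommGroup V] {G : Type} [AddCommGroup G] {K : Set V}
  {Good : (V → G) → V → Prop}

/-- Two sections that are good on a preconnected open set differ by a constant. -/
theorem GLUE_const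
    (h3 : ∀ s s' x, x ∈ K → (∀ᶠ y in 𝓝 x, Good s y ∧ Good s' y) →
      ∃ g : G, ∀ᶠ y in 𝓝 x, s y = s' y + g)
    {T : Set V} (hT : IsOpen T) (hc : IsPreconnected T) (hK : T ⊆ K) {s s' : V → G}
    (hs : ∀ y ∈ T, Good s y) (hs' : ∀ y ∈ T, Good s' y) {x y : V} (hx : x ∈ T) (hy : y ∈ T) :
    s x - s' x = s y - s' y := by
  refine hc.induction₂ (fun x y => s x - s' x = s y - s' y) (fun z hz => ?_)
    (fun _ _ _ _ _ _ h h' => h.trans h') (fun _ _ _ _ h => h.symm) hx hy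
  obtain ⟨g, hg⟩ := h3 s s' z (hK hz)
    (Eventually.mono (hT.mem_nhds hz) fun w hw => ⟨hs w hw, hs' w hw⟩)
  have h0 := hg.self_of_nhds
  refine Eventually.filter_mono nhdsWithin_le_nhds (hg.mono fun w hw => ?_)
  rw [h0, hw, add_sub_cancel_left, add_sub_cancel_left]

/-- Gluing on two open sets with preconnected intersection. -/
theorem GLUE_two (h1 : ∀ s s' x, Good s x → s =ᶠ[𝓝 x] s' → Good s' x)
    (h3 : ∀ s s' x, x ∈ K → (∀ᶠ y in 𝓝 x, Good s y ∧ Good s' y) →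
      ∃ g : G, ∀ᶠ y in 𝓝 x, s y = s' y + g)
    (h4 : ∀ s x (g : G), Good s x → Good (fun y => s y + g) x)
    {T B : Set V} (hT : IsOpen T) (hB : IsOpen B) (hc : IsPreconnected (T ∩ B)) (hK : T ⊆ K)
    {z : V} (hz : z ∈ T ∩ B) {s σ : V → G} (hs : ∀ y ∈ T, Good s y) (hσ : ∀ y ∈ B, Good σ y) :
    ∃ s' : V → G, ∀ y ∈ T ∪ B, Good s' y := by
  classical
  refine ⟨fun y => if y ∈ T then s y else σ y + (s z - σ z), fun y hy => ?_⟩
  rcases hy with hy | hy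
  · refine h1 s _ y (hs y hy) ?_
    filter_upwards [hT.mem_nhds hy] with w hw
    rw [if_pos hw]
  · refine h1 _ _ y (h4 σ y (s z - σ z) (hσ y hy)) ?_
    filter_upwards [hB.mem_nhds hy] with w hw
    by_cases hwT : w ∈ T
    · rw [if_pos hwT, GLUE_const h3 (hT.inter hB) hc (inter_subset_left.trans hK)
        (fun y hy => hs y hy.1) (fun y hy => hσ y hy.2) hz ⟨hwT, hw⟩]
      abel
    · rw [if_neg hwT]

omit [AddCommGroup G] in
/-- A ball inside `K` with a good section. -/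
theorem GLUE_ball (hK : IsOpen K) (h2 : ∀ x ∈ K, ∃ s, ∀ᶠ y in 𝓝 x, Good s y) {x : V}
    (hx : x ∈ K) : ∃ r, 0 < r ∧ ball x r ⊆ K ∧ ∃ s, ∀ y ∈ ball x r, Good s y := by
  obtain ⟨s, hs⟩ := h2 x hx
  obtain ⟨r, hr, h⟩ := Metric.mem_nhds_iff.1 (hs.and (hK.mem_nhds hx))
  exact ⟨r, hr, fun y hy => (h hy).2, s, fun y hy => (h hy).1⟩

variable [NormedSpace ℝ V]

/-- A convex open set through two given points that carries a good section. -/
theorem GLUE_tube (hc : Convex ℝ K) (hK : IsOpen K)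
    (h1 : ∀ s s' x, Good s x → s =ᶠ[𝓝 x] s' → Good s' x)
    (h2 : ∀ x ∈ K, ∃ s, ∀ᶠ y in 𝓝 x, Good s y)
    (h3 : ∀ s s' x, x ∈ K → (∀ᶠ y in 𝓝 x, Good s y ∧ Good s' y) →
      ∃ g : G, ∀ᶠ y in 𝓝 x, s y = s' y + g)
    (h4 : ∀ s x (g : G), Good s x → Good (fun y => s y + g) x)
    {x₀ x : V} (hx₀ : x₀ ∈ K) (hx : x ∈ K) :
    ∃ T : Set V, IsOpen T ∧ Convex ℝ T ∧ T ⊆ K ∧ x₀ ∈ T ∧ x ∈ T ∧ ∃ s, ∀ y ∈ T, Good s y := by
  set γ : ℝ →ᵃ[ℝ] V := AffineMap.lineMap x₀ x with hγ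
  have hγc : Continuous γ := AffineMap.lineMap_continuous
  have hγ0 : γ 0 = x₀ := AffineMap.lineMap_apply_zero _ _
  have hγ1 : γ 1 = x := AffineMap.lineMap_apply_one _ _
  have hseg : ∀ T : Set V, Convex ℝ T → ∀ a b u : ℝ, γ a ∈ T → γ b ∈ T → u ∈ Icc a b → γ u ∈ T :=
    fun T hT a b u ha hb hu => (hT.affine_preimage γ).ordConnected.out ha hb hu
  let P : ℝ → Prop := fun t =>
    ∃ T : Set V, IsOpen T ∧ Convex ℝ T ∧ T ⊆ K ∧ x₀ ∈ T ∧ γ t ∈ T ∧ ∃ s, ∀ y ∈ T, Good s y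
  have step : ∀ (B : Set V) (σ : V → G), IsOpen B → Convex ℝ B → B ⊆ K → (∀ y ∈ B, Good σ y) →
      ∀ t t' : ℝ, 0 ≤ t' → γ t ∈ B → γ t' ∈ B → P t → P t' := by
    rintro B σ hB hBc hBK hσ t t' ht' htB htB' ⟨T, hT, hTc, hTK, h0T, htT, s, hs⟩
    obtain ⟨s', hs'⟩ := GLUE_two h1 h3 h4 hT hB (hTc.inter hBc).isPreconnected hTK
      ⟨htT, htB⟩ hs hσ
    have hsub : γ '' Icc 0 t' ⊆ T ∪ B := by
      rintro _ ⟨u, hu, rfl⟩
      rcases le_total u t with h | h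
      · exact Or.inl (hseg T hTc 0 t u (by rwa [hγ0]) htT ⟨hu.1, h⟩)
      · exact Or.inr (hseg B hBc t t' u htB htB' ⟨h, hu.2⟩)
    obtain ⟨δ, hδ, hth⟩ := (isCompact_Icc.image hγc).exists_thickening_subset_open
      (hT.union hB) hsub
    refine ⟨thickening δ (γ '' Icc 0 t'), isOpen_thickening,
      ((convex_Icc 0 t').affine_image γ).thickening δ, hth.trans (union_subset hTK hBK),
      self_subset_thickening hδ _ ⟨0, ⟨le_rfl, ht'⟩, hγ0⟩,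
      self_subset_thickening hδ _ ⟨t', ⟨ht', le_rfl⟩, rfl⟩, s', fun y hy => hs' y (hth hy)⟩
  have hP0 : P 0 := by
    obtain ⟨r, hr, hrK, s, hs⟩ := GLUE_ball hK h2 hx₀
    exact ⟨ball x₀ r, isOpen_ball, convex_ball _ _, hrK, mem_ball_self hr,
      by rw [hγ0]; exact mem_ball_self hr, s, hs⟩
  have key : P 0 ↔ P 1 := by
    refine (isPreconnected_Icc (a := (0 : ℝ)) (b := 1)).induction₂ (fun t t' => P t ↔ P t')
      (fun t ht => ?_) (fun _ _ _ _ _ _ h h' => h.trans h') (fun _ _ _ _ h => h.symm)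
      ⟨le_rfl, zero_le_one⟩ ⟨zero_le_one, le_rfl⟩
    have htK : γ t ∈ K := hseg K hc 0 1 t (by rwa [hγ0]) (by rwa [hγ1]) ht
    obtain ⟨r, hr, hrK, σ, hσ⟩ := GLUE_ball hK h2 htK
    have hev : ∀ᶠ t' in 𝓝 t, γ t' ∈ ball (γ t) r := hγc.continuousAt (ball_mem_nhds _ hr)
    filter_upwards [nhdsWithin_le_nhds hev, self_mem_nhdsWithin] with t' h h'
    exact ⟨step _ σ isOpen_ball (convex_ball _ _) hrK hσ t t' h'.1 (mem_ball_self hr) h,
      step _ σ isOpen_ball (convex_ball _ _) hrK hσ t' t ht.1 h (mem_ball_self hr)⟩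
  obtain ⟨T, hT, hTc, hTK, h0T, h1T, hs⟩ := key.1 hP0
  exact ⟨T, hT, hTc, hTK, h0T, by rwa [hγ1] at h1T, hs⟩

end glue

theorem glue_of : S_GLUE := by
  classical
  intro V _ _ G _ K Good hc hK h1 h2 h3 h4
  rcases K.eq_empty_or_nonempty with rfl | ⟨x₀, hx₀⟩
  · exact ⟨fun _ => 0, fun x hx => hx.elim⟩
  have key : ∀ x ∈ K, ∃ (T : Set V) (s : V → G), IsOpen T ∧ Convex ℝ T ∧ T ⊆ K ∧ x₀ ∈ T ∧
      x ∈ T ∧ s x₀ = 0 ∧ ∀ y ∈ T, Good s y := fun x hx => by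
    obtain ⟨T, hT, hTc, hTK, h0T, hxT, s, hs⟩ := GLUE_tube hc hK h1 h2 h3 h4 hx₀ hx
    exact ⟨T, fun y => s y + -s x₀, hT, hTc, hTK, h0T, hxT, add_neg_cancel _,
      fun y hy => h4 s y _ (hs y hy)⟩
  choose! T s hT hTc hTK h0T hxT hs0 hs using key
  refine ⟨fun y => s y y, fun x hx => h1 (s x) _ x (hs x hx x (hxT x hx)) ?_⟩
  filter_upwards [(hT x hx).mem_nhds (hxT x hx)] with y hy
  have hyK := hTK x hx hy
  have := GLUE_const h3 ((hT x hx).inter (hT y hyK)) ((hTc x hx).inter (hTc y hyK)).isPreconnected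
    (inter_subset_left.trans (hTK x hx)) (fun w hw => hs x hx w hw.1)
    (fun w hw => hs y hyK w hw.2) ⟨hy, hxT y hyK⟩ ⟨h0T x hx, h0T y hyK⟩
  rw [hs0 x hx, hs0 y hyK, sub_self] at this
  exact sub_eq_zero.1 this

end MW
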