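import Pool.Agent.P.MP_064970_gt.I.SX

open scoped Manifold ContDiff
open MeasureTheory Set Filter Topology Metric
open scoped RealInnerProductSpace ENNReal ComplexConjugate Real

noncomputable section

namespace MW

universe u

theorem GRAPH_add (p : E) (A : E ≃ₗᵢ[ℝ] E) (y : ℂ) (s t : ℝ) :
    p + A (pt y s) + t • A e3 = p + A (pt y (s + t)) := by
  rw [← pt_add_smul_e3, map_add, map_smul, add_assoc]

theorem GRAPH_slope {M : Surf} {p : E} {r : ℝ} {A : E ≃ₗᵢ[ℝ] E} (hO : ball p r ⊆ M.O)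
    (h : ∀ z ∈ M.S ∩ ball p r, ‖M.N z - A e3‖ ≤ 1 / 10) {y z : ℂ} {t s : ℝ}
    (hy : p + A (pt y t) ∈ M.S ∩ ball p r) (hz : p + A (pt z s) ∈ M.S ∩ ball p r) :
    |t - s| ≤ 1 / 9 * ‖y - z‖ := by
  have h1 := M.slope (convex_ball p r) hO h hy hz
  rw [add_sub_add_left_eq_sub, ← map_sub, ← pt_sub, LinearIsometryEquiv.inner_map_map, inner_e3,
    pt_two, LinearIsometryEquiv.norm_map] at h1
  have h2 := norm_le_pr_add (pt (y - z) (t - s))
  rw [pr_pt, pt_two] at h2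
  linarith

theorem GRAPH_analytic (p : E) (A : E ≃ₗᵢ[ℝ] E) (t : ℝ) (y₀ : ℂ) :
    AnalyticAt ℝ (fun y : ℂ => p + A (pt y t)) y₀ := by
  have h1 : AnalyticAt ℝ (fun y : ℂ => pt y t) y₀ :=
    (ptL.analyticAt (y₀, t)).comp₂ analyticAt_id analyticAt_const
  exact analyticAt_const.add
    (((A.toContinuousLinearEquiv : E →L[ℝ] E).analyticAt _).comp h1)

/- Hint. Reduce to A = refl, p = 0 with M' = M.sim A.symm 1 (-(A.symm p)) (IsSim API), or work with M' only
through S, N, O, Reg. cover_disc (eps = 1/10, nu = e3) gives a point over each y with |t| <=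
|y|/5, inside the ball; Surf.slope gives uniqueness and |u y - u z| <= |y - z|/9 (|dt| <=
sqrt(|dy|^2 + dt^2)/10). Near y0, LG at pt y0 (u y0) (N 2 >= 9/10) gives a local graph v, and u =
v near y0 by continuity of u. LG only gives ContDiffOn infinity: for analyticity use hLOCS
directly (u y = u y0 - tau (pt y (u y0)) near y0, tau analytic). norm_fderiv_le_of_lip'. -/
theorem graph_of (hLG : S_LG) (hLOCS : S_LOCS) : S_GRAPH := by
  intro M p r A hp hr hO hreg hA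
  have hN : ∀ z ∈ M.S ∩ ball p r, ‖M.N z - A e3‖ ≤ 1 / 10 := fun z hz =>
    hA ▸ hreg z hz p ⟨hp, mem_ball_self hr⟩
  have hν : ‖A e3‖ = 1 := by rw [A.norm_map, norm_e3]
  have hex : ∀ y ∈ ball (0 : ℂ) (r / 2), ∃ t : ℝ, p + A (pt y t) ∈ M.S ∩ ball p r := by
    intro y hy
    have hy' : ‖y‖ < r / 2 := mem_ball_zero_iff.1 hy
    have hw : ‖A (pt y 0)‖ = ‖y‖ := by rw [A.norm_map, norm_pt_zero]
    obtain ⟨t, h1, h2⟩ := M.cover_disc hp hν (by norm_num) (by norm_num) hO hN (w := A (pt y 0))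
      (by rw [LinearIsometryEquiv.inner_map_map, inner_e3, pt_two]) (by rwa [hw])
    rw [GRAPH_add, zero_add] at h2
    refine ⟨t, h2, ?_⟩
    have h3 := norm_le_pr_add (pt y t)
    rw [pr_pt, pt_two] at h3
    rw [hw] at h1
    rw [mem_ball, dist_eq_norm, add_sub_cancel_left, A.norm_map]
    linarith [norm_nonneg y]
  choose! u hu using hex
  have huniq : ∀ y ∈ ball (0 : ℂ) (r / 2), ∀ t : ℝ, p + A (pt y t) ∈ M.S ∩ ball p r → t = u y := by
    intro y hy t ht
    have h1 := GRAPH_slope hO hN ht (hu y hy)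
    rw [sub_self y, norm_zero, mul_zero] at h1
    exact sub_eq_zero.1 (abs_nonpos_iff.1 h1)
  refine ⟨u, (huniq 0 (mem_ball_self (half_pos hr)) 0 ?_).symm, fun y₀ hy₀ => ?_,
    fun y hy => ⟨hu y hy, ?_, huniq y hy⟩⟩
  · have h1 : pt 0 0 = 0 := ptL.map_zero
    rw [h1, map_zero, add_zero]
    exact ⟨hp, mem_ball_self hr⟩
  · have hx := hu y₀ hy₀
    have hpos : 0 < ⟪A e3, M.N (p + A (pt y₀ (u y₀)))⟫ := Surf.basic_inner_pos (hN _ hx) (by
      rw [real_inner_self_eq_norm_sq, hν]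
      norm_num)
    obtain ⟨c, ε, U, om, τ, -, -, hB, hU, hG, -, hS, -⟩ :=
      hLOCS M _ hx.1 (A e3) hpos (ball p r) (isOpen_ball.mem_nhds hx.2)
    have hP := GRAPH_analytic p A (u y₀) y₀
    have h1 : AnalyticAt ℝ (fun y : ℂ => u y₀ - τ (p + A (pt y (u y₀)))) y₀ :=
      analyticAt_const.sub (AnalyticAt.comp (f := fun y : ℂ => p + A (pt y (u y₀)))
        (hB.an_τ _ hU) hP)
    refine h1.congr ?_
    filter_upwards [hP.continuousAt.preimage_mem_nhds (hB.opn.mem_nhds hU),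
      isOpen_ball.mem_nhds hy₀] with y hy hy'
    obtain ⟨h2, -, h3⟩ := hB.left _ hy
    obtain ⟨h4, -, h5⟩ := hB.right _ h2 0 (by rw [abs_zero]; exact hB.pos)
    have h6 := ((hS _ h4).1).2 h5
    have h7 := hG h4
    rw [zero_smul, add_zero, eq_sub_of_add_eq h3, sub_eq_add_neg, ← neg_smul, GRAPH_add,
      ← sub_eq_add_neg] at h6 h7
    exact huniq y hy' _ ⟨h6, h7⟩
  · refine le_trans (norm_fderiv_le_of_lip' ℝ (C := 1 / 9) (by norm_num) ?_) (by norm_num)
    filter_upwards [isOpen_ball.mem_nhds hy] with z hz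
    exact GRAPH_slope hO hN (hu z hz) (hu y hy)

end MW
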