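import Pool.Agent.P.MP_064970_gt.I.SX

open scoped Manifold ContDiff
open MeasureTheory Set Filter Topology Metric
open scoped RealInnerProductSpace ENNReal ComplexConjugate Real

noncomputable section

namespace MW

universe u

theorem HARM_circle {F : ℂ → ℂ} {c : ℂ} {R r : ℝ} (hr : r ∈ Ioo 0 R)
    (hF : DifferentiableOn ℂ F (ball c R)) :
    ENNReal.ofReal (2 * π) * ‖(F c).re‖ₑ ≤ ∫⁻ θ in Ioo (-π) π, ‖(F (circleMap c r θ)).re‖ₑ := by
  have hsub : closedBall c r ⊆ ball c R := closedBall_subset_ball hr.2
  have h1 : Real.circleAverage F c r = F c := by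
    refine DiffContOnCl.circleAverage (DifferentiableOn.diffContOnCl (hF.mono ?_))
    rw [abs_of_pos hr.1]
    exact closure_ball_subset_closedBall.trans hsub
  have hc : Continuous fun θ => F (circleMap c r θ) :=
    hF.continuousOn.comp_continuous (continuous_circleMap c r) fun θ =>
      hsub (circleMap_mem_closedBall c hr.1.le θ)
  rw [Real.circleAverage_eq_integral_add (-π),
    intervalIntegral.integral_comp_add_right (fun θ => F (circleMap c r θ)), zero_add,
    show 2 * π + -π = π by ring,
    intervalIntegral.integral_of_le (by linarith [Real.pi_pos]), integral_Ioc_eq_integral_Ioo,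
    inv_smul_eq_iff₀ (by positivity)] at h1
  have h2 : ∫ θ in Ioo (-π) π, (F (circleMap c r θ)).re = (2 * π) * (F c).re := by
    have := Complex.reCLM.integral_comp_comm
      ((hc.integrableOn_Icc (μ := volume) (a := -π) (b := π)).mono_set Ioo_subset_Icc_self)
    simp only [Complex.reCLM_apply] at this
    rw [this, h1]
    simp
  refine le_of_eq_of_le ?_ (enorm_integral_le_lintegral_enorm _)
  rw [h2, enorm_mul, Real.enorm_eq_ofReal (r := 2 * π) (by positivity)]

theorem HARM_submean {F : ℂ → ℂ} {c : ℂ} {R : ℝ} (hR : 0 < R)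
    (hF : DifferentiableOn ℂ F (ball c R)) :
    ENNReal.ofReal (π * R ^ 2) * ‖(F c).re‖ₑ ≤ ∫⁻ a in ball c R, ‖(F a).re‖ₑ := by
  classical
  let G : ℂ → ℝ≥0∞ := (ball c R).piecewise (fun a => ‖(F a).re‖ₑ) 0
  have hG : Measurable G := ContinuousOn.measurable_piecewise
    (Complex.continuous_re.comp_continuousOn hF.continuousOn).enorm
    continuousOn_const measurableSet_ball
  have e1 : ∫⁻ a in ball c R, ‖(F a).re‖ₑ = ∫⁻ a, G (c + a) := by
    rw [lintegral_add_left_eq_self G c, ← lintegral_indicator measurableSet_ball,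
      ← piecewise_eq_indicator]
  have e2 : ∀ p : ℝ × ℝ, c + Complex.polarCoord.symm p = circleMap c p.1 p.2 := fun p => by
    rw [Complex.polarCoord_symm_apply, circleMap, Complex.exp_mul_I]
    push_cast
    rfl
  have e3 : ∫⁻ r in Ioo 0 R, ENNReal.ofReal r = ENNReal.ofReal (R ^ 2 / 2) := by
    rw [← ofReal_integral_eq_lintegral_ofReal
      ((continuous_id'.integrableOn_Icc (a := 0) (b := R)).mono_set Ioo_subset_Icc_self)
      ((ae_restrict_mem measurableSet_Ioo).mono fun r hr => hr.1.le),
      ← integral_Ioc_eq_integral_Ioo, ← intervalIntegral.integral_of_le hR.le, integral_id]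
    simp
  rw [e1, ← Complex.lintegral_comp_polarCoord_symm]
  simp only [e2, smul_eq_mul]
  refine le_trans ?_ (lintegral_mono_set (s := Ioo 0 R ×ˢ Ioo (-π) π)
    (prod_mono Ioo_subset_Ioi_self Subset.rfl))
  have hm : Measurable fun p : ℝ × ℝ => ENNReal.ofReal p.1 * G (circleMap c p.1 p.2) := by
    refine Measurable.mul (by fun_prop) (hG.comp (Continuous.measurable ?_))
    unfold circleMap
    fun_prop
  rw [Measure.volume_eq_prod, setLIntegral_prod _ hm.aemeasurable]
  calc ENNReal.ofReal (π * R ^ 2) * ‖(F c).re‖ₑ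
      = ∫⁻ r in Ioo 0 R, ENNReal.ofReal r * (ENNReal.ofReal (2 * π) * ‖(F c).re‖ₑ) := by
        rw [lintegral_mul_const _ (by fun_prop), e3, ← mul_assoc,
          ← ENNReal.ofReal_mul (by positivity)]
        congr 2
        ring
    _ ≤ _ := by
        refine setLIntegral_mono' measurableSet_Ioo fun r hr => ?_
        rw [lintegral_const_mul' _ _ ENNReal.ofReal_ne_top]
        refine mul_le_mul_right ((HARM_circle hr hF).trans_eq (lintegral_congr fun θ => ?_)) _
        refine (piecewise_eq_of_mem (ball c R) (fun a => ‖(F a).re‖ₑ) 0 ?_).symm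
        rw [mem_ball, dist_eq_norm, circleMap_sub_center, norm_circleMap_zero, abs_of_pos hr.1]
        exact hr.2

theorem HARM_pt {F : ℂ → ℂ} {s : ℝ} (hs : 0 < s) (hF : DifferentiableOn ℂ F (ball 0 (2 * s)))
    {c : ℂ} (hc : c ∈ ball (0 : ℂ) (s / 2)) :
    π * (s / 2) ^ 2 * |(F c).re| ≤ ∫ z in ball (0 : ℂ) s, |(F z).re| := by
  have hsub : ball c (s / 2) ⊆ ball (0 : ℂ) s := by
    refine ball_subset_ball' ?_
    have := mem_ball.1 hc
    linarith
  have hcl : closedBall (0 : ℂ) s ⊆ ball 0 (2 * s) := closedBall_subset_ball (by linarith)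
  have hint : IntegrableOn (fun z => (F z).re) (ball (0 : ℂ) s) :=
    ((Complex.continuous_re.comp_continuousOn (hF.continuousOn.mono hcl)).integrableOn_compact
      (isCompact_closedBall _ _)).mono_set ball_subset_closedBall
  have h1 := (HARM_submean (half_pos hs)
    (hF.mono (hsub.trans (ball_subset_closedBall.trans hcl)))).trans (lintegral_mono_set hsub)
  rw [← ofReal_integral_norm_eq_lintegral_enorm hint, ← ofReal_norm,
    ← ENNReal.ofReal_mul (by positivity),
    ENNReal.ofReal_le_ofReal_iff (integral_nonneg fun z => norm_nonneg _)] at h1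
  simpa only [Real.norm_eq_abs] using h1

theorem HARM_deriv {F : ℂ → ℂ} {R K : ℝ} (hR : 0 < R) (hF : DifferentiableOn ℂ F (ball 0 R))
    (hK : ∀ z ∈ ball (0 : ℂ) R, |(F z).re| ≤ K) : R * ‖deriv F 0‖ ≤ 8 * K := by
  have h0 : (0 : ℂ) ∈ ball (0 : ℂ) R := mem_ball_self hR
  have hK0 : 0 ≤ K := (abs_nonneg _).trans (hK 0 h0)
  have key : ∀ M : ℝ, 2 * K < M → R * ‖deriv F 0‖ ≤ 4 * M := by
    intro M hM
    have hM0 : 0 < M := by linarith
    have hd : DifferentiableOn ℂ (fun z => F z - F 0) (ball 0 R) := hF.sub_const _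
    have hb : ∀ z ∈ sphere (0 : ℂ) (R / 2), ‖F z - F 0‖ ≤ 2 * M := by
      intro z hz
      have hz' : ‖z‖ = R / 2 := mem_sphere_zero_iff_norm.1 hz
      have h1 := Complex.borelCaratheodory_zero (f := fun z => F z - F 0) (z := z) hM0 hd
        (fun w hw => by
          have h2 := abs_le.1 (hK w hw)
          have h3 := abs_le.1 (hK 0 h0)
          simp only [mem_ofPred_eq, Complex.sub_re]
          linarith [h2.2, h3.1]) hR (mem_ball_zero_iff.2 (by linarith)) (by simp)
      rw [hz'] at h1
      refine h1.trans_eq ?_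
      field_simp
      ring
    have h2 := Complex.norm_deriv_le_of_forall_mem_sphere_norm_le (half_pos hR)
      (DifferentiableOn.diffContOnCl (hd.mono (closure_ball_subset_closedBall.trans
        (closedBall_subset_ball (by linarith))))) hb
    rw [deriv_sub_const, le_div_iff₀ (half_pos hR)] at h2
    linarith
  refine le_of_forall_pos_le_add fun ε hε => ?_
  have := key (2 * K + ε / 4) (by linarith)
  linarith

/- Hint. Circle means: for 0 < t <= s, Re F 0 = average of Re F on the circle of radius t and t F'(0) =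
(1/pi) int Re F(t e^{i th}) e^{-i th} dth (Cauchy formulas for F, and the vanishing of the circle
integral of F(z) dz conjugated; or DiffContOnCl.circleAverage, Complex.circleIntegral lemmas; or
Mathlib's Poisson / Schwarz kernel lemmas if present). Multiply by t, integrate over t in [s/2,
s], polar coordinates (Complex.integral_comp_polarCoord_symm). Alternative without polar
coordinates: test against a radial C2 bump. Any universal C is fine. -/
theorem harm_of : S_HARM := by
  refine ⟨68 / π, by positivity, fun F s hs hF => ?_⟩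
  set J := ∫ z in ball (0 : ℂ) s, |(F z).re| with hJ
  have hK : ∀ z ∈ ball (0 : ℂ) (s / 2), |(F z).re| ≤ 4 / π / s ^ 2 * J := fun z hz => by
    have h1 := HARM_pt hs hF hz
    rw [← hJ] at h1
    have h2 : 4 / π / s ^ 2 * J = J / (π * (s / 2) ^ 2) := by
      field_simp
      ring
    rw [h2, le_div_iff₀ (by positivity)]
    linarith
  have h1 := HARM_deriv (half_pos hs) (hF.mono (ball_subset_ball (by linarith))) hK
  have h2 := hK 0 (mem_ball_self (half_pos hs))
  have h3 : 68 / π / s ^ 2 * J = 17 * (4 / π / s ^ 2 * J) := by ring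
  rw [h3]
  linarith

end MW
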