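import Pool.Agent.P.MP_064970_gt.I.SX

open scoped Manifold ContDiff
open MeasureTheory Set Filter Topology Metric
open scoped RealInnerProductSpace ENNReal ComplexConjugate Real

noncomputable section

namespace MW

universe u

theorem idc_of : S_IDC := by
  intro c ν z0 hz0 h
  have hu : AnalyticOnNhd ℝ (fun z => ⟪ν, c.Xu z⟫) (ball 0 c.r) := fun z hz =>
    ((innerSL ℝ ν).analyticAt _).comp (c.analyticOnNhd_Xu z hz)
  have hv : AnalyticOnNhd ℝ (fun z => ⟪ν, c.Xv z⟫) (ball 0 c.r) := fun z hz =>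
    ((innerSL ℝ ν).analyticAt _).comp (c.analyticOnNhd_Xv z hz)
  have hd : ∀ z ∈ ball (0 : ℂ) c.r,
      HasFDerivAt (fun z => ⟪ν, c.X z⟫) ((innerSL ℝ ν).comp (c.DX z)) z := fun z hz =>
    (innerSL ℝ ν).hasFDerivAt.comp z (c.hasFDerivAt_X hz)
  have h0 : ∀ᶠ z in 𝓝 z0, ⟪ν, c.Xu z⟫ = 0 ∧ ⟪ν, c.Xv z⟫ = 0 := by
    rcases h with h | h
    · exact h
    · filter_upwards [h.eventually_nhds, isOpen_ball.mem_nhds hz0] with z hz hzb
      have h1 : HasFDerivAt (fun z => ⟪ν, c.X z⟫) (0 : ℂ →L[ℝ] ℝ) z :=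
        (hasFDerivAt_const ⟪ν, c.X z0⟫ z).congr_of_eventuallyEq hz
      have h2 := (hd z hzb).unique h1
      have h3 := congrArg (fun L : ℂ →L[ℝ] ℝ => L 1) h2
      have h4 := congrArg (fun L : ℂ →L[ℝ] ℝ => L Complex.I) h2
      simp only [ContinuousLinearMap.comp_apply, innerSL_apply_apply, Chart.DX_one, Chart.DX_I,
        zero_apply] at h3 h4
      exact ⟨h3, h4⟩
  have hp : IsPreconnected (ball (0 : ℂ) c.r) := (convex_ball _ _).isPreconnected
  have e1 := hu.eqOn_zero_of_preconnected_of_eventuallyEq_zero hp hz0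
    (h0.mono fun z hz => hz.1)
  have e2 := hv.eqOn_zero_of_preconnected_of_eventuallyEq_zero hp hz0
    (h0.mono fun z hz => hz.2)
  intro z hz
  refine ⟨e1 hz, e2 hz, ?_⟩
  refine IsOpen.is_const_of_fderiv_eq_zero (𝕜 := ℝ) (f := fun z => ⟪ν, c.X z⟫) isOpen_ball hp
    (fun w hw => (hd w hw).differentiableAt.differentiableWithinAt) (fun w hw => ?_) hz hz0
  rw [(hd w hw).fderiv]
  ext1 a
  have a1 : ⟪ν, c.Xu w⟫ = 0 := e1 hw
  have a2 : ⟪ν, c.Xv w⟫ = 0 := e2 hw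
  simp [c.DX_apply, inner_add_right, inner_smul_right, a1, a2]

end MW
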