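import Pool.Agent.P.MP_064970_gt.I.SX

open scoped Manifold ContDiff
open MeasureTheory Set Filter Topology Metric
open scoped RealInnerProductSpace ENNReal ComplexConjugate Real

noncomputable section

namespace MW

universe u

/-- The identification of the complex plane with the model space. -/
def ISO_ι : ℂ ≃L[ℝ] E2 := Complex.orthonormalBasisOneI.repr.toContinuousLinearEquiv

theorem ISO_ι_one : ISO_ι 1 = EuclideanSpace.single 0 1 := by
  have h := Complex.orthonormalBasisOneI.repr_self 0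
  rw [Complex.coe_orthonormalBasisOneI] at h
  exact h

theorem ISO_ι_I : ISO_ι Complex.I = EuclideanSpace.single 1 1 := by
  have h := Complex.orthonormalBasisOneI.repr_self 1
  rw [Complex.coe_orthonormalBasisOneI] at h
  exact h

theorem ISO_dd (F : E2 → E) (w : ℂ) :
    dd w (F ∘ ISO_ι) = (fun u => fderiv ℝ F u (ISO_ι w)) ∘ ISO_ι := by
  funext z
  rw [dd, ISO_ι.comp_right_fderiv]
  rfl

theorem ISO_dd_one (F : E2 → E) : dd 1 (F ∘ ISO_ι) = d1 F 0 ∘ ISO_ι := by
  rw [ISO_dd, ISO_ι_one]
  rfl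

theorem ISO_dd_I (F : E2 → E) : dd Complex.I (F ∘ ISO_ι) = d1 F 1 ∘ ISO_ι := by
  rw [ISO_dd, ISO_ι_I]
  rfl

/- Hint. iota : C -> E2 the isometry Complex.orthonormalBasisOneI.repr (iota 1 = single 0 1, iota I =
single 1 1). Y = loc f p o iota on D = iota preimage (chartAt p).target. ContDiffOn from ContMDiff
(contMDiffOn_chart_symm, contMDiffOn_iff_contDiffOn); fderiv (loc f p) u = mfderiv f o mfderiv
chart.symm (mfderiv_comp, mfderiv_eq_fderiv), injective by (mdifferentiable_chart
p).symm.mfderiv_injective; dd 1 Y = d1 (loc) 0 o iota etc.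
(ContinuousLinearEquiv.comp_right_fderiv holds without differentiability), so MinEq. psi = g trans
iota trans chart.symm, source = ball. -/
theorem iso_of (hCONF0 : S_CONF0) : S_ISO.{u} := by
  intro M _ _ _ f hf hinj hmin p
  have hcd : ContDiffOn ℝ ∞ (loc f p) (chartAt E2 p).target :=
    (hf.comp_contMDiffOn (contMDiffOn_chart_symm (I := 𝓡 2) (n := ∞) (x := p))).contDiffOn
  have hin : ∀ u ∈ (chartAt E2 p).target, Function.Injective (fderiv ℝ (loc f p) u) := by
    intro u hu
    have hs := (mdifferentiable_chart (I := 𝓡 2) p).symm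
    have h1 := mfderiv_comp (I := 𝓡 2) (I' := 𝓡 2) (I'' := 𝓡 3) u
      (hf.mdifferentiable (by simp) ((chartAt E2 p).symm u)) (hs.mdifferentiableAt hu)
    rw [mfderiv_eq_fderiv] at h1
    rw [loc, h1]
    exact (hinj _).comp (hs.mfderiv_injective hu)
  obtain ⟨c, g, h1, h2, h3, h4⟩ := hCONF0 (loc f p ∘ ISO_ι) (ISO_ι ⁻¹' (chartAt E2 p).target)
    (ISO_ι.symm (chartAt E2 p p)) ((chartAt E2 p).open_target.preimage ISO_ι.continuous)
    (by
      rw [mem_preimage, ISO_ι.apply_symm_apply]
      exact mem_chart_target E2 p)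
    ((hcd.of_le (WithTop.coe_le_coe.2 (le_top : (2 : ℕ∞) ≤ ⊤))).comp ISO_ι.contDiff.contDiffOn (mapsTo_preimage _ _))
    (fun z hz => by
      rw [ISO_ι.comp_right_fderiv]
      exact (hin _ hz).comp ISO_ι.injective)
    (fun z hz n hn hn' => by
      simp only [ISO_dd_one, ISO_dd_I, Function.comp_apply] at hn hn' ⊢
      exact hmin p _ hz n hn hn')
  refine ⟨⟨c, g.trans (ISO_ι.toHomeomorph.toOpenPartialHomeomorph.trans (chartAt E2 p).symm),
    ?_, fun z hz => (h4 z hz).symm⟩, ?_⟩
  · rw [OpenPartialHomeomorph.trans_source, ← h1]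
    refine inter_eq_left.2 fun z hz => ?_
    rw [mem_preimage, OpenPartialHomeomorph.trans_source]
    exact ⟨mem_univ _, h2 (g.map_source hz)⟩
  · change (chartAt E2 p).symm (ISO_ι (g 0)) = p
    rw [h3, ISO_ι.apply_symm_apply]
    exact (chartAt E2 p).left_inv (mem_chart_source E2 p)

end MW
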