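import Pool.Agent.P.MP_064970_gt.I.SX

open scoped Manifold ContDiff
open MeasureTheory Set Filter Topology Metric
open scoped RealInnerProductSpace ENNReal ComplexConjugate Real

noncomputable section

namespace MW

universe u

/-- The profile. -/
def LAMB_l (x : ℝ) : ℝ := if x ≤ 1 then 4 - 6 * x + 4 * x ^ 2 - x ^ 3 else x⁻¹

/-- Minus the derivative of the profile. -/
def LAMB_m (x : ℝ) : ℝ := if x ≤ 1 then 6 - 8 * x + 3 * x ^ 2 else (x ^ 2)⁻¹

/-- The polynomial `x² m x`. -/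
def LAMB_p (x : ℝ) : ℝ := 6 * x ^ 2 - 8 * x ^ 3 + 3 * x ^ 4

theorem LAMB_l_le {x : ℝ} (h : x ≤ 1) : LAMB_l x = 4 - 6 * x + 4 * x ^ 2 - x ^ 3 := if_pos h

theorem LAMB_m_le {x : ℝ} (h : x ≤ 1) : LAMB_m x = 6 - 8 * x + 3 * x ^ 2 := if_pos h

theorem LAMB_l_ge {x : ℝ} (h : 1 ≤ x) : LAMB_l x = x⁻¹ := by
  rcases h.eq_or_lt with rfl | h1
  · rw [LAMB_l_le le_rfl]; norm_num
  · exact if_neg h1.not_ge

theorem LAMB_m_ge {x : ℝ} (h : 1 ≤ x) : LAMB_m x = (x ^ 2)⁻¹ := by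
  rcases h.eq_or_lt with rfl | h1
  · rw [LAMB_m_le le_rfl]; norm_num
  · exact if_neg h1.not_ge

theorem LAMB_deriv (x : ℝ) : HasDerivAt LAMB_l (-LAMB_m x) x := by
  have h1 : ∀ x ≤ (1 : ℝ), HasDerivWithinAt LAMB_l (-LAMB_m x) (Iic 1) x := fun x hx => by
    have h : HasDerivAt (fun x : ℝ => 4 - 6 * x + 4 * x ^ 2 - x ^ 3) (-LAMB_m x) x := by
      have h2 := (((hasDerivAt_const x (4 : ℝ)).sub ((hasDerivAt_id x).const_mul 6)).add
        ((hasDerivAt_pow 2 x).const_mul 4)).sub (hasDerivAt_pow 3 x)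
      refine h2.congr_deriv ?_
      rw [LAMB_m_le hx]
      norm_num
      ring
    exact h.hasDerivWithinAt.congr (fun y hy => LAMB_l_le hy) (LAMB_l_le hx)
  have h2 : ∀ x, (1 : ℝ) ≤ x → HasDerivWithinAt LAMB_l (-LAMB_m x) (Ici 1) x := fun x hx => by
    have h := hasDerivAt_inv (x := x) (by linarith)
    rw [← LAMB_m_ge hx] at h
    exact h.hasDerivWithinAt.congr (fun y hy => LAMB_l_ge hy) (LAMB_l_ge hx)
  rcases lt_trichotomy x 1 with h | rfl | h
  · exact (h1 x h.le).hasDerivAt (Iic_mem_nhds h)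
  · have h3 := (h1 1 le_rfl).union (h2 1 le_rfl)
    rwa [Iic_union_Ici, hasDerivWithinAt_univ] at h3
  · exact (h2 x h.le).hasDerivAt (Ici_mem_nhds h)

theorem LAMB_cont_m : Continuous LAMB_m := by
  refine continuous_if_le continuous_id continuous_const (Continuous.continuousOn (by fun_prop))
    (ContinuousOn.inv₀ (Continuous.continuousOn (by fun_prop)) fun x hx => ?_) fun x hx => ?_
  · have h : (1 : ℝ) ≤ x := hx
    positivity
  · have h : x = 1 := hx
    rw [h]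
    norm_num

theorem LAMB_lam (x : ℝ) : (LAMB_l x - x * LAMB_m x) / π = lam x := by
  unfold lam
  rcases le_total x 1 with h | h
  · rw [LAMB_l_le h, LAMB_m_le h, max_eq_left (by linarith)]
    ring
  · have h0 : x ≠ 0 := by positivity
    rw [LAMB_l_ge h, LAMB_m_ge h, max_eq_right (by linarith)]
    field_simp
    ring

theorem LAMB_m_bounds {x : ℝ} (h0 : 0 ≤ x) : 0 ≤ LAMB_m x ∧ LAMB_m x ≤ 6 := by
  rcases le_total x 1 with h | h
  · rw [LAMB_m_le h]
    constructor <;> nlinarith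
  · rw [LAMB_m_ge h]
    refine ⟨by positivity, (inv_le_one_of_one_le₀ (by nlinarith)).trans (by norm_num)⟩

theorem LAMB_one_le_m {x : ℝ} (h : x ≤ 1) : 1 ≤ LAMB_m x := by
  rw [LAMB_m_le h]
  nlinarith

theorem LAMB_p_mono : MonotoneOn LAMB_p (Ici 0) := by
  have h : ∀ x, HasDerivAt LAMB_p (12 * x * (1 - x) ^ 2) x := fun x => by
    have h2 := (((hasDerivAt_pow 2 x).const_mul 6).sub ((hasDerivAt_pow 3 x).const_mul 8)).add
      ((hasDerivAt_pow 4 x).const_mul 3)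
    refine h2.congr_deriv ?_
    norm_num
    ring
  refine monotoneOn_of_deriv_nonneg (convex_Ici 0)
    (fun x _ => (h x).continuousAt.continuousWithinAt)
    (fun x _ => (h x).differentiableAt.differentiableWithinAt) fun x hx => ?_
  have h0 : 0 ≤ x := interior_subset hx
  rw [(h x).deriv]
  positivity

theorem LAMB_k (x : ℝ) : x ^ 2 * LAMB_m x = LAMB_p (min x 1) := by
  rcases le_total x 1 with h | h
  · rw [LAMB_m_le h, min_eq_left h, LAMB_p]
    ring
  · rw [LAMB_m_ge h, min_eq_right h, mul_inv_cancel₀ (by positivity), LAMB_p]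
    norm_num

theorem LAMB_tD {a b : ℝ} (ha : 0 < a) (hb : 0 < b) (t : ℝ) :
    t ^ 2 * (LAMB_m (t / a) / a ^ 2 - LAMB_m (t / b) / b ^ 2)
      = LAMB_p (min (t / a) 1) - LAMB_p (min (t / b) 1) := by
  rw [← LAMB_k, ← LAMB_k]
  field_simp

theorem LAMB_D_nonneg {a b t : ℝ} (ha : 0 < a) (hab : a ≤ b) (ht : 0 ≤ t) :
    0 ≤ LAMB_m (t / a) / a ^ 2 - LAMB_m (t / b) / b ^ 2 := by
  have hb := ha.trans_le hab
  rcases ht.eq_or_lt with rfl | h
  · rw [zero_div, zero_div, sub_nonneg]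
    exact div_le_div_of_nonneg_left (LAMB_m_bounds le_rfl).1 (by positivity) (by nlinarith)
  · refine nonneg_of_mul_nonneg_right (a := t ^ 2) ?_ (by positivity)
    rw [LAMB_tD ha hb t, sub_nonneg]
    exact LAMB_p_mono (le_min (div_nonneg ht hb.le) zero_le_one)
      (le_min (div_nonneg ht ha.le) zero_le_one)
      (min_le_min_right _ (div_le_div_of_nonneg_left ht ha hab))

theorem LAMB_D_mid {a b t : ℝ} (ha : 0 < a) (hb : 0 < b) (h1 : a ≤ t) (h2 : t ≤ b / 4) :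
    1 / (10 * t ^ 2) ≤ (LAMB_m (t / a) / a ^ 2 - LAMB_m (t / b) / b ^ 2) / π := by
  have ht := ha.trans_le h1
  have h3 := LAMB_tD ha hb t
  have h4 : t / b ≤ 1 / 4 := by
    rw [div_le_iff₀ hb]
    linarith
  have h5 : LAMB_p (t / b) ≤ LAMB_p (1 / 4) :=
    LAMB_p_mono (div_nonneg ht.le hb.le) (by norm_num) h4
  rw [min_eq_right ((one_le_div ha).2 h1), min_eq_left (h4.trans (by norm_num))] at h3
  have h6 : LAMB_p 1 = 1 := by norm_num [LAMB_p]
  have h7 : LAMB_p (1 / 4) = 67 / 256 := by norm_num [LAMB_p]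
  have h8 := Real.pi_le_four
  rw [div_le_div_iff₀ (by positivity) Real.pi_pos]
  nlinarith

theorem LAMB_main {a b : ℝ} (ha : 0 < a) (hab : a ≤ b) : ∃ L : ℝ → ℝ, ContDiff ℝ 1 L ∧
    (∀ t, b ≤ t → L t = 0 ∧ deriv L t = 0) ∧
    (∀ t, 0 ≤ t → L t + t * deriv L t = lam (t / b) / b - lam (t / a) / a) ∧
    (∀ t, 0 ≤ t → 0 ≤ deriv L t ∧ deriv L t ≤ 2 / a ^ 2) ∧
    (16 * a ≤ b → ∀ t, 0 ≤ t → t ≤ b / 4 → 1 / (10 * b ^ 2) ≤ deriv L t) ∧
    ∀ t, a ≤ t → t ≤ b / 4 → 1 / (10 * t ^ 2) ≤ deriv L t := by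
  have hb := ha.trans_le hab
  have hd : ∀ t, HasDerivAt (fun t => (LAMB_l (t / b) / b - LAMB_l (t / a) / a) / π)
      ((LAMB_m (t / a) / a ^ 2 - LAMB_m (t / b) / b ^ 2) / π) t := fun t => by
    have h1 := ((LAMB_deriv (t / b)).comp t ((hasDerivAt_id t).div_const b)).div_const b
    have h2 := ((LAMB_deriv (t / a)).comp t ((hasDerivAt_id t).div_const a)).div_const a
    refine ((h1.sub h2).div_const π).congr_deriv ?_
    ring
  have he : deriv (fun t => (LAMB_l (t / b) / b - LAMB_l (t / a) / a) / π) =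
      fun t => (LAMB_m (t / a) / a ^ 2 - LAMB_m (t / b) / b ^ 2) / π :=
    funext fun t => (hd t).deriv
  have p3 := Real.pi_gt_three
  have p4 := Real.pi_le_four
  refine ⟨_, contDiff_one_iff_deriv.2 ⟨fun t => (hd t).differentiableAt, ?_⟩, ?_⟩
  · rw [he]
    have := LAMB_cont_m
    fun_prop
  rw [he]
  refine ⟨fun t ht => ?_, fun t _ => ?_, fun t ht => ⟨?_, ?_⟩, fun h t ht h2 => ?_,
    fun t h1 h2 => LAMB_D_mid ha hb h1 h2⟩
  · have h0 : 0 < t := hb.trans_le ht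
    have h1 : 1 ≤ t / b := (one_le_div hb).2 ht
    have h2 : 1 ≤ t / a := (one_le_div ha).2 (hab.trans ht)
    simp only [LAMB_l_ge h1, LAMB_l_ge h2, LAMB_m_ge h1, LAMB_m_ge h2]
    constructor
    · field_simp
      ring
    · field_simp
      ring
  · simp only [← LAMB_lam]
    field_simp
    ring
  · exact div_nonneg (LAMB_D_nonneg ha hab ht) Real.pi_pos.le
  · have h1 := (LAMB_m_bounds (div_nonneg ht ha.le)).2
    have h2 : 0 ≤ LAMB_m (t / b) / b ^ 2 :=
      div_nonneg (LAMB_m_bounds (div_nonneg ht hb.le)).1 (by positivity)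
    have h3 : LAMB_m (t / a) / a ^ 2 ≤ 2 / a ^ 2 * π := by
      rw [div_mul_eq_mul_div]
      exact div_le_div_of_nonneg_right (by linarith) (by positivity)
    rw [div_le_iff₀ Real.pi_pos]
    linarith
  · rcases le_total t a with h1 | h1
    · have h3 : 256 / b ^ 2 ≤ LAMB_m (t / a) / a ^ 2 := by
        have h4 := LAMB_one_le_m ((div_le_one ha).2 h1)
        have h5 : (16 * a) ^ 2 ≤ b ^ 2 := pow_le_pow_left₀ (by positivity) h 2
        rw [div_le_div_iff₀ (by positivity) (by positivity)]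
        nlinarith [mul_le_mul_of_nonneg_right h4 (sq_nonneg b)]
      have h6 : LAMB_m (t / b) / b ^ 2 ≤ 6 / b ^ 2 :=
        div_le_div_of_nonneg_right (LAMB_m_bounds (div_nonneg ht hb.le)).2 (by positivity)
      have h7 : 1 / (10 * b ^ 2) * π ≤ 256 / b ^ 2 - 6 / b ^ 2 := by
        rw [← sub_div, div_mul_eq_mul_div, div_le_div_iff₀ (by positivity) (by positivity)]
        nlinarith [sq_nonneg b]
      rw [le_div_iff₀ Real.pi_pos]
      linarith
    · refine le_trans ?_ (LAMB_D_mid ha hb h1 h2)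
      have h0 := ha.trans_le h1
      exact one_div_le_one_div_of_le (by positivity) (by nlinarith)

/- Hint. l s = (4 - 6 s + 4 s^2 - s^3)/pi for s <= 1, 1/(pi s) for s >= 1 is C1 on R with l' = -m, m s = (6
- 8 s + 3 s^2)/pi for s <= 1, 1/(pi s^2) for s >= 1 (HasDerivAt at 1 by gluing the one-sided
derivatives, HasDerivWithinAt.union; contDiff_one_iff_deriv), and l + s l' = lam. L t = l
(t/s^2)/s^2 - l (t/r^2)/r^2, L' t = m (t/r^2)/r^4 - m (t/s^2)/s^4 = (k (t/r^2) - k (t/s^2))/t^2, k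
x = x^2 m x increasing on [0,inf) (k' = 12 x (1-x)^2/pi), k = 1/pi on [1,inf), k (1/4) = 67/(256
pi); 1/pi <= m <= 6/pi on [0,1]. Three cases t <= r^2, r^2 <= t <= s^2, s^2 <= t; polynomial
inequalities (pi_gt_three, pi_le_four). -/
theorem lamb_of : S_LAMB := by
  intro r s hr hrs
  obtain ⟨L, h1, h2, h3, h4, h5, h6⟩ :=
    LAMB_main (a := r ^ 2) (b := s ^ 2) (by positivity) (pow_le_pow_left₀ hr.le hrs 2)
  rw [← pow_mul] at h4 h5
  exact ⟨L, h1, h2, h3, h4, fun h => h5 (by nlinarith), h6⟩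

end MW
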