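import Pool.Agent.P.MP_064970_gt.I.SX

open scoped Manifold ContDiff
open MeasureTheory Set Filter Topology Metric
open scoped RealInnerProductSpace ENNReal ComplexConjugate Real

noncomputable section

namespace MW

universe u

/-- The cone estimate at a nearby point of the surface. -/
theorem LIM1_cone {M : Surf} (hM : M.Mem) {x v ν p : E} {δ t : ℝ} (hν : ‖ν‖ = 1)
    (ha : 0 < ⟪v, ν⟫) (ht : 0 < t) (htδ : t * ‖v‖ < δ / 4) (hp : p ∈ M.S)
    (hpx : dist p x < t * ⟪v, ν⟫ / 8)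
    (h : ∀ y ∈ M.S ∩ ball x δ, ‖M.N y - ν‖ ≤ ⟪v, ν⟫ / (2 * ‖v‖)) :
    ball (x + t • v) (t * ⟪v, ν⟫ / 8) ⊆ M.W' ∧ ball (x - t • v) (t * ⟪v, ν⟫ / 8) ⊆ M.W := by
  set a := ⟪v, ν⟫ with hadef
  have hav : a ≤ ‖v‖ := by
    have := real_inner_le_norm v ν
    rwa [hν, mul_one] at this
  have hv : 0 < ‖v‖ := ha.trans_le hav
  set ε := a / (2 * ‖v‖) with hε
  have hε0 : 0 < ε := by positivity
  have hεv : ε * ‖v‖ = a / 2 := by rw [hε]; field_simp
  have hε1 : ε ≤ 1 / 2 := by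
    rw [hε, div_le_div_iff₀ (by positivity) (by norm_num)]
    linarith
  have hta : t * a ≤ t * ‖v‖ := mul_le_mul_of_nonneg_left hav ht.le
  have hta0 : 0 < t * a := mul_pos ht ha
  have hN : ∀ y ∈ M.S ∩ ball p (δ / 2), ‖M.N y - ν‖ ≤ ε := by
    intro y hy
    refine h y ⟨hy.1, ?_⟩
    have h1 : dist y p < δ / 2 := hy.2
    have h2 := dist_triangle y p x
    rw [mem_ball]
    linarith
  have key : ∀ (w z : E), ‖w‖ = t * ‖v‖ → z ∈ ball (x + w) (t * a / 8) →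
      z ∈ ball p (δ / 2) ∧ ε * ‖z - p‖ ≤ 5 / 8 * (t * a) ∧
        |⟪z - p, ν⟫ - ⟪w, ν⟫| < t * a / 4 := by
    intro w z hw hz
    have h1 : ‖z - (x + w)‖ < t * a / 8 := by rwa [mem_ball, dist_eq_norm] at hz
    have h2 : ‖p - x‖ < t * a / 8 := by rwa [dist_eq_norm] at hpx
    have h3 : ‖z - p - w‖ < t * a / 4 := by
      have h4 : z - p - w = (z - (x + w)) - (p - x) := by abel
      rw [h4]
      linarith [norm_sub_le (z - (x + w)) (p - x)]
    have h5 : ‖z - p‖ ≤ t * ‖v‖ + t * a / 4 := by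
      have h6 : z - p = w + (z - p - w) := by abel
      calc ‖z - p‖ = ‖w + (z - p - w)‖ := by rw [← h6]
        _ ≤ ‖w‖ + ‖z - p - w‖ := norm_add_le _ _
        _ ≤ _ := by linarith
    refine ⟨?_, ?_, ?_⟩
    · rw [mem_ball, dist_eq_norm]
      linarith
    · calc ε * ‖z - p‖ ≤ ε * (t * ‖v‖ + t * a / 4) := by gcongr
        _ = t * (ε * ‖v‖) + ε * (t * a / 4) := by ring
        _ ≤ t * (a / 2) + 1 / 2 * (t * a / 4) := by rw [hεv]; gcongr
        _ = 5 / 8 * (t * a) := by ring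
    · rw [← inner_sub_left]
      have h7 := abs_real_inner_le_norm (z - p - w) ν
      rw [hν, mul_one] at h7
      linarith
  have hn : ‖t • v‖ = t * ‖v‖ := by rw [norm_smul, Real.norm_of_nonneg ht.le]
  constructor
  · intro z hz
    obtain ⟨h1, h2, h3⟩ := key (t • v) z hn hz
    refine (M.cone_sides hp hν (by linarith) (hM.sub _) hN h1).1 ?_
    rw [real_inner_smul_left, ← hadef] at h3
    linarith [(abs_lt.1 h3).1]
  · intro z hz
    obtain ⟨h1, h2, h3⟩ := key (-(t • v)) z (by rw [norm_neg, hn])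
      (by rwa [sub_eq_add_neg] at hz)
    refine (M.cone_sides hp hν (by linarith) (hM.sub _) hN h1).2 ?_
    rw [inner_neg_left, real_inner_smul_left, ← hadef] at h3
    linarith [(abs_lt.1 h3).2]

theorem LIM1_limW {U : Filter ℕ} {Mk : ℕ → Surf} {y : E} {η : ℝ} (hη : 0 < η)
    (h : ∀ᶠ k in U, ball y η ⊆ (Mk k).W) : y ∈ limW U Mk := by
  refine ⟨⟨η, hη, h.mono fun k hk z hz => ?_⟩, η, hη, h⟩
  exact absurd hz.1 (disjoint_left.1 (Mk k).disjS (hk hz.2))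

theorem LIM1_limW' {U : Filter ℕ} {Mk : ℕ → Surf} {y : E} {η : ℝ} (hη : 0 < η)
    (h : ∀ᶠ k in U, ball y η ⊆ (Mk k).W') : y ∈ limW' U Mk := by
  refine ⟨⟨η, hη, h.mono fun k hk z hz => ?_⟩, η, hη, h⟩
  exact absurd hz.1 (disjoint_left.1 (Mk k).disjS' (hk hz.2))

/- Hint. Only the side clause is left. eps with 2 eps |v| < <v, N x> roughly, del from LIM1B, p_k -> x in
S_k; cone_sides at p_k with nu = N x, radius del/2: for small t > 0 and eta << t every z in ball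
(x + t v) eta has eps |z - p_k| < <z - p_k, N x> once |p_k - x| < eta. Membership in limO: the
ball lies in W'_k, so Reg holds trivially (or limO is open). -/
theorem lim1_of (hLIM1A : S_LIM1A) (hLIM1B : S_LIM1B) : S_LIM1 := by
  intro U Mk hmem
  obtain ⟨a1, a2, a3, a4, a5, a6, a7, a8, a9, a10, -⟩ := hLIM1A U Mk hmem
  obtain ⟨N, b1, b2, b3, b4, b5⟩ := hLIM1B U Mk hmem
  refine ⟨a1, a2, a3, a4, a5, a6, a7, a8, a9, N, b1, b2, b3, ?_, b4⟩
  intro x hx v hv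
  have hν := b3 x hx
  have hav : ⟪v, N x⟫ ≤ ‖v‖ := by
    have := real_inner_le_norm v (N x)
    rwa [hν, mul_one] at this
  have hv0 : 0 < ‖v‖ := hv.trans_le hav
  obtain ⟨δ, hδ, hk⟩ := b5 x hx (⟪v, N x⟫ / (2 * ‖v‖)) (by positivity)
  obtain ⟨pk, hp1, hp2⟩ := a10 x hx
  filter_upwards [Ioo_mem_nhdsGT (show (0 : ℝ) < δ / 4 / ‖v‖ by positivity)] with t ht
  have ht0 : 0 < t := ht.1
  have htδ : t * ‖v‖ < δ / 4 := (lt_div_iff₀ hv0).1 ht.2
  have hη : 0 < t * ⟪v, N x⟫ / 8 := by positivity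
  have hev : ∀ᶠ k in (U : Filter ℕ), ball (x + t • v) (t * ⟪v, N x⟫ / 8) ⊆ (Mk k).W' ∧
      ball (x - t • v) (t * ⟪v, N x⟫ / 8) ⊆ (Mk k).W := by
    filter_upwards [hk, hp1, (Metric.tendsto_nhds.1 hp2) _ hη] with k h1 h2 h3
    exact LIM1_cone (hmem k) hν hv ht0 htδ h2 h3 h1
  exact ⟨LIM1_limW' hη (hev.mono fun k h => h.1), LIM1_limW hη (hev.mono fun k h => h.2)⟩

end MW
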