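import Pool.Agent.P.MP_064970_gt.I.SX

open scoped Manifold ContDiff
open MeasureTheory Set Filter Topology Metric
open scoped RealInnerProductSpace ENNReal ComplexConjugate Real

noncomputable section

namespace MW

universe u

theorem LIM1A_ball {x y : E} {r : ℝ} (h : y ∈ ball x r) :
    0 < r - dist y x ∧ ball y (r - dist y x) ⊆ ball x r :=
  ⟨sub_pos.2 h, ball_subset_ball' (by linarith)⟩

theorem LIM1A_open (U : Filter ℕ) (Mk : ℕ → Surf) : IsOpen (limO U Mk) := by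
  refine Metric.isOpen_iff.2 fun x ⟨r, hr, h⟩ => ⟨r, hr, fun y hy => ?_⟩
  exact ⟨_, (LIM1A_ball hy).1, h.mono fun k hk => hk.mono (LIM1A_ball hy).2⟩

theorem LIM1A_open' (U : Filter ℕ) {O : Set E} (hO : IsOpen O) (A : ℕ → Set E) :
    IsOpen {x | x ∈ O ∧ ∃ δ, 0 < δ ∧ ∀ᶠ k in U, ball x δ ⊆ A k} := by
  refine isOpen_iff_mem_nhds.2 fun x ⟨hx, δ, hδ, h⟩ => ?_
  filter_upwards [hO.mem_nhds hx, ball_mem_nhds x hδ] with y hy hy'
  exact ⟨hy, _, (LIM1A_ball hy').1, h.mono fun k hk => (LIM1A_ball hy').2.trans hk⟩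

theorem LIM1A_compact (U : Filter ℕ) (A : ℕ → Set E) {K : Set E} (hK : IsCompact K)
    (h : ∀ x ∈ K, ∃ δ, 0 < δ ∧ ∀ᶠ k in U, ball x δ ⊆ A k) : ∀ᶠ k in U, K ⊆ A k := by
  refine hK.induction_on (p := fun T => ∀ᶠ k in U, T ⊆ A k)
    (Eventually.of_forall fun _ => empty_subset _)
    (fun _ _ hst ht => ht.mono fun _ hk => hst.trans hk)
    (fun _ _ hs ht => (hs.and ht).mono fun _ hk => union_subset hk.1 hk.2) fun x hx => ?_
  obtain ⟨δ, hδ, h⟩ := h x hx
  exact ⟨ball x δ, mem_nhdsWithin_of_mem_nhds (ball_mem_nhds x hδ), h⟩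

theorem LIM1A_disj (U : Filter ℕ) [U.NeBot] {A S : ℕ → Set E} (h : ∀ k, Disjoint (A k) (S k))
    {x : E} (h1 : ∃ δ, 0 < δ ∧ ∀ᶠ k in U, ball x δ ⊆ A k)
    (h2 : ∀ ε, 0 < ε → ∀ᶠ k in U, ∃ y ∈ S k, dist y x < ε) : False := by
  obtain ⟨δ, hδ, h1⟩ := h1
  obtain ⟨k, hk, y, hy, hyx⟩ := (h1.and (h2 δ hδ)).exists
  exact disjoint_left.1 (h k) (hk hyx) hy

/- Hint. Reg.mono; a ball inside W_k makes Reg trivial. If x in limO is not in limS then for U-most k a
ball x eps misses S_k (Ultrafilter.eventually_not), so lies in W_k or W'_k (subset_side),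
Ultrafilter.eventually_or. Compact K: IsCompact.induction_on or a finite subcover. Approximating
points: xk = a nearest point of the closed set S_k (IsClosed.exists_infDist_eq_dist) when S_k is
nonempty. -/
theorem lim1a_of : S_LIM1A := by
  intro U Mk hM
  have hO := LIM1A_open U Mk
  refine ⟨hO, LIM1A_open' U hO _, LIM1A_open' U hO _, ?_, ?_, ?_, ?_,
    fun K hK h => LIM1A_compact U _ hK fun x hx => (h hx).2,
    fun K hK h => LIM1A_compact U _ hK fun x hx => (h hx).2, fun x hx => ?_,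
    fun xk x hk hx hxO => ⟨hxO, fun ε hε => ?_⟩⟩
  · refine Subset.antisymm (fun x hx => ?_) ?_
    · by_cases hS : x ∈ limS U Mk
      · exact Or.inr hS
      have h1 : ∃ ε, 0 < ε ∧ ¬ ∀ᶠ k in (U : Filter ℕ), ∃ y ∈ (Mk k).S, dist y x < ε := by
        by_contra h
        exact hS ⟨hx, fun ε hε => by_contra fun h' => h ⟨ε, hε, h'⟩⟩
      obtain ⟨ε, hε, h1⟩ := h1
      have h2 : ∀ᶠ k in (U : Filter ℕ), ball x ε ⊆ (Mk k).W ∨ ball x ε ⊆ (Mk k).W' := by
        filter_upwards [Ultrafilter.eventually_not.2 h1] with k hk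
        exact (Mk k).subset_side (convex_ball x ε).isPreconnected ((hM k).sub _)
          (disjoint_left.2 fun y hy hyS => hk ⟨y, hyS, hy⟩)
      rcases Ultrafilter.eventually_or.1 h2 with h | h
      · exact Or.inl (Or.inl ⟨hx, ε, hε, h⟩)
      · exact Or.inl (Or.inr ⟨hx, ε, hε, h⟩)
    · rintro x ((h | h) | h) <;> exact h.1
  · refine disjoint_left.2 fun x h h' => LIM1A_disj U (fun k => (Mk k).disj) h.2 fun ε hε => ?_
    obtain ⟨δ, hδ, h2⟩ := h'.2
    exact h2.mono fun k hk => ⟨x, hk (mem_ball_self hδ), by simpa using hε⟩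
  · exact disjoint_left.2 fun x h h' => LIM1A_disj U (fun k => (Mk k).disjS) h.2 h'.2
  · exact disjoint_left.2 fun x h h' => LIM1A_disj U (fun k => (Mk k).disjS') h.2 h'.2
  · have h1 : ∀ k, ∃ y : E, ∀ z ∈ (Mk k).S, y ∈ (Mk k).S ∧ dist y x ≤ dist z x := by
      intro k
      rcases (Mk k).S.eq_empty_or_nonempty with h | h
      · exact ⟨x, fun z hz => absurd hz (h ▸ notMem_empty z)⟩
      · obtain ⟨y, hy, hd⟩ := (hM k).isClosed.exists_infDist_eq_dist h x
        refine ⟨y, fun z hz => ⟨hy, ?_⟩⟩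
        rw [dist_comm y, dist_comm z, ← hd]
        exact infDist_le_dist_of_mem hz
    choose xk hxk using h1
    refine ⟨xk, (hx.2 1 one_pos).mono fun k ⟨z, hz, _⟩ => (hxk k z hz).1,
      Metric.tendsto_nhds.2 fun ε hε => (hx.2 ε hε).mono fun k ⟨z, hz, h⟩ => ?_⟩
    exact (hxk k z hz).2.trans_lt h
  · filter_upwards [hk, Metric.tendsto_nhds.1 hx ε hε] with k h1 h2
    exact ⟨_, h1, h2⟩

end MW
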