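import Pool.Agent.P.MP_064970_gt.I.SX

open scoped Manifold ContDiff
open MeasureTheory Set Filter Topology Metric
open scoped RealInnerProductSpace ENNReal ComplexConjugate Real

noncomputable section

namespace MW

universe u

theorem LIM1B_lip (hCE : S_CE) {U : Filter ℕ} {Mk : ℕ → Surf} (hm : ∀ k, (Mk k).Mem) {x : E}
    (hx : x ∈ limS U Mk) : ∃ δ K : ℝ, 0 < δ ∧ 0 < K ∧ ∀ᶠ k in U, ∀ y ∈ (Mk k).S ∩ ball x δ,
      ∀ z ∈ (Mk k).S ∩ ball x δ, ‖(Mk k).N y - (Mk k).N z‖ ≤ K * ‖y - z‖ := by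
  obtain ⟨c, C, hc, hc1, hC, h⟩ := hCE
  obtain ⟨⟨r, hr, h1⟩, h2⟩ := hx
  have hδ : 0 < c * r / 4 := by positivity
  have h3 : c * r ≤ r := mul_le_of_le_one_left hr.le hc1
  refine ⟨c * r / 4, C / (r / 2), hδ, by positivity, ?_⟩
  filter_upwards [h1, h2 _ hδ] with k hk ⟨p, hp, hd⟩ y hy z hz
  have s1 : ball p (r / 2) ⊆ ball x r := ball_subset_ball' (by linarith)
  have s2 : ball x (c * r / 4) ⊆ ball p (c * (r / 2)) :=
    ball_subset_ball' (by rw [dist_comm]; linarith)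
  have h4 := h (Mk k) p (r / 2) hp (half_pos hr) ((hm k).sub _) (hk.mono s1) y ⟨hy.1, s2 hy.2⟩ z
    ⟨hz.1, s2 hz.2⟩
  rwa [mul_div_right_comm] at h4

theorem LIM1B_close (hCE : S_CE) {U : Filter ℕ} {Mk : ℕ → Surf} (hm : ∀ k, (Mk k).Mem) {x n : E}
    (hx : x ∈ limS U Mk) {xk : ℕ → E} (h1 : ∀ᶠ k in U, xk k ∈ (Mk k).S) (h2 : Tendsto xk U (𝓝 x))
    (h3 : Tendsto (fun k => (Mk k).N (xk k)) U (𝓝 n)) {ε : ℝ} (hε : 0 < ε) :
    ∃ δ : ℝ, 0 < δ ∧ ∀ᶠ k in U, ∀ y ∈ (Mk k).S ∩ ball x δ, ‖(Mk k).N y - n‖ ≤ ε := by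
  obtain ⟨δ, K, hδ, hK, h⟩ := LIM1B_lip hCE hm hx
  have hη : 0 < min δ (ε / (4 * K)) := lt_min hδ (by positivity)
  refine ⟨_, hη, ?_⟩
  filter_upwards [h, h1, h2 (ball_mem_nhds x hη), h3 (ball_mem_nhds n (half_pos hε))] with k hk a1
    a2 a3 y hy
  have s1 : ball x (min δ (ε / (4 * K))) ⊆ ball x δ := ball_subset_ball (min_le_left _ _)
  have s2 : ball x (min δ (ε / (4 * K))) ⊆ ball x (ε / (4 * K)) :=
    ball_subset_ball (min_le_right _ _)
  have b1 := hk y ⟨hy.1, s1 hy.2⟩ (xk k) ⟨a1, s1 a2⟩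
  have b2 : ‖y - x‖ < ε / (4 * K) := mem_ball_iff_norm.1 (s2 hy.2)
  have b3 : ‖xk k - x‖ < ε / (4 * K) := mem_ball_iff_norm.1 (s2 a2)
  have b4 : ‖(Mk k).N (xk k) - n‖ < ε / 2 := mem_ball_iff_norm.1 a3
  have b5 : ‖y - xk k‖ ≤ 2 * (ε / (4 * K)) := by
    have b6 := norm_sub_le_norm_sub_add_norm_sub y x (xk k)
    rw [norm_sub_rev x] at b6
    linarith
  have b6 := mul_le_mul_of_nonneg_left b5 hK.le
  have e : K * (2 * (ε / (4 * K))) = ε / 2 := by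
    field_simp
    ring
  have b7 := norm_sub_le_norm_sub_add_norm_sub ((Mk k).N y) ((Mk k).N (xk k)) n
  linarith

/- Hint. At x0 in limS with Reg_k x0 r: p_k -> x0 in S_k, Reg_k p_k (r/2), CE: N_k is C/r-Lipschitz on S_k
cap ball x0 (c r/4) for U-most k. N x = limit along U of N_k (xk) for chosen xk -> x (compact unit
sphere: IsCompact.ultrafilter_le_nhds', or Ultrafilter.lim), N = 0 off limS. The Lipschitz bound
gives independence of the choice, |N x - N y| <= C|x - y|/r near x0, and the uniform closeness.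
Measurable: ContinuousOn.measurable_piecewise, limS = limO minus (limW union limW') is measurable. -/
theorem lim1b_of (hCE : S_CE) (hLIM1A : S_LIM1A) : S_LIM1B := by
  classical
  intro U Mk hm
  obtain ⟨hO, hW, hW', hc, -, d1, d2, -, -, hseq, hlim⟩ := hLIM1A U Mk hm
  have hex : ∀ x, ∃ n : E, x ∈ limS U Mk → ‖n‖ = 1 ∧ ∃ xk : ℕ → E,
      (∀ᶠ k in (U : Filter ℕ), xk k ∈ (Mk k).S) ∧ Tendsto xk U (𝓝 x) ∧
        Tendsto (fun k => (Mk k).N (xk k)) U (𝓝 n) := fun x => by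
    by_cases hx : x ∈ limS U Mk
    · obtain ⟨xk, h1, h2⟩ := hseq x hx
      obtain ⟨n, hn, h3⟩ := (isCompact_sphere (0 : E) 1).ultrafilter_le_nhds'
        (U.map fun k => (Mk k).N (xk k))
        (h1.mono fun k hk => mem_sphere_zero_iff_norm.2 ((Mk k).N_unit _ hk))
      exact ⟨n, fun _ => ⟨mem_sphere_zero_iff_norm.1 hn, xk, h1, h2, h3⟩⟩
    · exact ⟨0, fun h => (hx h).elim⟩
  choose n hn using hex
  have hcl : ∀ x ∈ limS U Mk, ∀ ε : ℝ, 0 < ε → ∃ δ : ℝ, 0 < δ ∧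
      ∀ᶠ k in (U : Filter ℕ), ∀ y ∈ (Mk k).S ∩ ball x δ, ‖(Mk k).N y - n x‖ ≤ ε :=
    fun x hx ε hε => by
      obtain ⟨-, xk, h1, h2, h3⟩ := hn x hx
      exact LIM1B_close hCE hm hx h1 h2 h3 hε
  have hcont : ContinuousOn n (limS U Mk) := by
    rw [Metric.continuousOn_iff]
    intro x hx ε hε
    obtain ⟨δ, hδ, h⟩ := hcl x hx _ (half_pos hε)
    refine ⟨δ, hδ, fun y hy hd => ?_⟩
    obtain ⟨-, yk, h1, h2, h3⟩ := hn y hy
    have h4 : ‖n y - n x‖ ≤ ε / 2 := by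
      refine le_of_tendsto (h3.sub_const (n x)).norm ?_
      filter_upwards [h, h1, h2 (isOpen_ball.mem_nhds (mem_ball.2 hd))] with k a1 a2 a3
      exact a1 _ ⟨a2, a3⟩
    rw [dist_eq_norm]
    linarith
  have hS : MeasurableSet (limS U Mk) := by
    have e : limS U Mk = limO U Mk \ (limW U Mk ∪ limW' U Mk) := by
      ext x
      refine ⟨fun hx => ⟨hx.1, fun h => ?_⟩, fun hx => ?_⟩
      · exact h.elim (fun h1 => Set.disjoint_left.1 d1 h1 hx) fun h1 => Set.disjoint_left.1 d2 h1 hx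
      · have h1 := hx.1
        rw [hc] at h1
        exact h1.resolve_left hx.2
    rw [e]
    exact hO.measurableSet.diff (hW.union hW').measurableSet
  have he : ∀ x ∈ limS U Mk, (limS U Mk).piecewise n (fun _ => 0) x = n x := fun x hx =>
    piecewise_eq_of_mem _ _ _ hx
  refine ⟨(limS U Mk).piecewise n fun _ => 0, hcont.measurable_piecewise continuousOn_const hS,
    hcont.congr he, fun x hx => ?_, fun xk x h1 h2 hx => ?_, fun x hx => ?_⟩
  · rw [he x hx]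
    exact (hn x hx).1
  · have hx' := hlim xk x h1 h2 hx
    refine ⟨hx', ?_⟩
    rw [he x hx', Metric.tendsto_nhds]
    intro ε hε
    obtain ⟨δ, hδ, h⟩ := hcl x hx' _ (half_pos hε)
    filter_upwards [h, h1, h2 (ball_mem_nhds x hδ)] with k a1 a2 a3
    rw [dist_eq_norm]
    linarith [a1 _ ⟨a2, a3⟩]
  · rw [he x hx]
    exact hcl x hx

end MW
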