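import Pool.Agent.P.MP_064970_gt.I.SX

open scoped Manifold ContDiff
open MeasureTheory Set Filter Topology Metric
open scoped RealInnerProductSpace ENNReal ComplexConjugate Real

noncomputable section

namespace MW

universe u

theorem LIM2_unif (U : Ultrafilter ℕ) {K : Set ℂ} (hK : IsCompact K) {F : ℕ → ℂ → E} {f : ℂ → E}
    (hf : ContinuousOn f K)
    (h : ∀ (zk : ℕ → ℂ) (z : ℂ), (∀ k, zk k ∈ K) → z ∈ K → Tendsto zk U (𝓝 z) →
      Tendsto (fun k => F k (zk k)) U (𝓝 (f z))) : TendstoUniformlyOn F f U K := by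
  rw [Metric.tendstoUniformlyOn_iff]
  intro ε hε
  by_contra hn
  rw [← Ultrafilter.eventually_not] at hn
  obtain ⟨k0, hk0⟩ := hn.exists
  push Not at hk0
  obtain ⟨z0, hz0, -⟩ := hk0
  have hch : ∀ k, ∃ z ∈ K, (¬ ∀ x ∈ K, dist (f x) (F k x) < ε) → ε ≤ dist (f z) (F k z) := by
    intro k
    by_cases hk : ∀ x ∈ K, dist (f x) (F k x) < ε
    · exact ⟨z0, hz0, fun h' => absurd hk h'⟩
    · have hk' := hk
      push Not at hk'
      obtain ⟨z, hz, hz'⟩ := hk'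
      exact ⟨z, hz, fun _ => hz'⟩
  choose zk hzK hzk using hch
  obtain ⟨z, hz, hlim⟩ := hK.ultrafilter_le_nhds (U.map zk)
    (by rw [Ultrafilter.coe_map, le_principal_iff, mem_map]; exact univ_mem' hzK)
  have hlim' : Tendsto zk U (𝓝 z) := hlim
  have h1 := h zk z hzK hz hlim'
  have h2 : Tendsto (fun k => f (zk k)) U (𝓝 (f z)) :=
    (hf z hz).tendsto.comp (tendsto_nhdsWithin_iff.2 ⟨hlim', Eventually.of_forall hzK⟩)
  have h3 := h2.dist h1
  rw [dist_self] at h3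
  obtain ⟨k, hk1, hk2⟩ := (hn.and (h3.eventually (gt_mem_nhds hε))).exists
  exact absurd (hzk k hk1) (not_le.2 hk2)

theorem LIM2_X0 {c : Chart} {p : E} (h : ∀ i, c.Φ i 0 = (p i : ℝ)) : c.X 0 = p := by
  ext i
  simp [Chart.X, h i]

theorem LIM2_lip {c : Chart} (h : c.BiLip) {z : ℂ} (hz : z ∈ ball (0 : ℂ) c.r) :
    ‖z‖ / 2 ≤ ‖c.X z - c.X 0‖ ∧ ‖c.X z - c.X 0‖ ≤ 2 * ‖z‖ := by
  have := h z hz 0 (mem_ball_self c.r_pos)
  rwa [sub_zero] at this

theorem LIM2_cont (c : Chart) {f : ℂ → E} {ν : E} {D : Set ℂ} (hD : IsOpen D)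
    (hDr : D ⊆ ball 0 c.r)
    (h : ∀ z ∈ D, ‖f z‖ = 1 ∧ ⟪f z, c.Xu z⟫ = 0 ∧ ⟪f z, c.Xv z⟫ = 0 ∧ 0 < ⟪f z, ν⟫) :
    ContinuousOn f D := by
  have key : ∀ n : ℂ → E, ContinuousOn n D → (∀ z ∈ D, f z = n z ∨ f z = -n z) →
      ∀ z ∈ D, f z = n z → ContinuousAt f z := by
    intro n hn hfn z hz he
    have hc : ContinuousAt n z := hn.continuousAt (hD.mem_nhds hz)
    have h0 : 0 < ⟪n z, ν⟫ := he ▸ (h z hz).2.2.2
    have h1 : ∀ᶠ w in 𝓝 z, 0 < ⟪n w, ν⟫ :=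
      (hc.inner continuousAt_const).eventually (lt_mem_nhds h0)
    refine hc.congr ?_
    filter_upwards [h1, hD.mem_nhds hz] with w hw hwD
    rcases hfn w hwD with e | e
    · exact e.symm
    · have h2 := (h w hwD).2.2.2
      rw [e, inner_neg_left] at h2
      linarith
  obtain ⟨n, hn, hn'⟩ := c.exists_normal
  have hnc : ContinuousOn n D := hn.continuousOn.mono hDr
  have hfn : ∀ z ∈ D, f z = n z ∨ f z = -n z := fun z hz =>
    c.normal_eq_or (hDr hz) (hn' z (hDr hz)).1 (h z hz).1 (hn' z (hDr hz)).2.1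
      (hn' z (hDr hz)).2.2 (h z hz).2.1 (h z hz).2.2.1
  intro z hz
  rcases hfn z hz with e | e
  · exact (key n hnc hfn z hz e).continuousWithinAt
  · refine (key (fun w => -n w) hnc.neg (fun w hw => ?_) z hz e).continuousWithinAt
    rcases hfn w hw with e' | e'
    · exact Or.inr (by rw [neg_neg]; exact e')
    · exact Or.inl e'

theorem LIM2_emb (c : Chart) (hc : c.BiLip) {S : Set E} {s : ℝ} (hs : 0 < s) (hsr : s ≤ c.r)
    (hmem : ∀ z ∈ ball (0 : ℂ) c.r, c.X z ∈ S)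
    (hcov : ∀ x ∈ S, ‖x - c.X 0‖ < 2 * s → ∃ z ∈ ball (0 : ℂ) c.r, c.X z = x) :
    (c.shrink s hs hsr).Emb S := by
  have hsub : ball (0 : ℂ) s ⊆ ball 0 c.r := ball_subset_ball hsr
  constructor
  · intro z hz w hw e
    have h1 := (hc z (hsub hz) w (hsub hw)).1
    have e' : c.X z = c.X w := e
    rw [e', sub_self, norm_zero] at h1
    have h2 : ‖z - w‖ = 0 := le_antisymm (by linarith) (norm_nonneg _)
    exact sub_eq_zero.1 (norm_eq_zero.1 h2)
  · intro V hV hVs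
    have hVs' : V ⊆ ball 0 s := hVs
    refine ⟨ball (c.X 0) (2 * s) ∩
      ⋃ (z : ℂ) (t : ℝ) (_ : z ∈ V) (_ : ball z t ⊆ V), ball (c.X z) (t / 2), ?_, ?_⟩
    · exact isOpen_ball.inter (isOpen_iUnion fun _ => isOpen_iUnion fun _ =>
        isOpen_iUnion fun _ => isOpen_iUnion fun _ => isOpen_ball)
    · change c.X '' V = _
      ext x
      constructor
      · rintro ⟨z, hz, rfl⟩
        have hz' := hsub (hVs' hz)
        obtain ⟨t, ht, htV⟩ := Metric.isOpen_iff.1 hV z hz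
        refine ⟨hmem z hz', ?_, ?_⟩
        · have h1 := (LIM2_lip hc hz').2
          have h2 := mem_ball_zero_iff.1 (hVs' hz)
          rw [mem_ball, dist_eq_norm]
          linarith
        · simp only [mem_iUnion]
          exact ⟨z, t, hz, htV, mem_ball_self (by linarith)⟩
      · rintro ⟨hx, hb, hu⟩
        simp only [mem_iUnion] at hu
        obtain ⟨z, t, hz, htV, hxt⟩ := hu
        rw [mem_ball, dist_eq_norm] at hb hxt
        obtain ⟨w, hw, rfl⟩ := hcov x hx hb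
        have h1 := (hc w hw z (hsub (hVs' hz))).1
        refine ⟨w, htV ?_, rfl⟩
        rw [mem_ball, dist_eq_norm]
        linarith

/- Hint. p_k -> p in S_k, Reg_k p_k (r/2), QCH charts ck of radius rho = c0 r/2 (choose; any chart for the
other k), LIMC gives c. X z in limS for z in the ball (X_k z in S_k, |X z - p| <= 2 rho < r so X z
in limO by Reg.mono). limS cap ball p (c1 r/8)... lies in X '' closedBall: x_k = X_k z_k, |z_k| <=
2|x_k - p_k|, z_k -> z along U, uniform convergence. Shrink all charts to s small (s <= rho/4, 2 s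
< c1 r/8): Emb by the lower Lipschitz bound (for V open, U = union over z in V with ball z t in V
of ball (X z) (t/2), intersected with the ball where the covering holds); del = s/4. Normal
relation: limit of <N_k (X_k z), Xu_k z> = 0. Uniform convergence of N_k o X_k on closedBall 0 s:
otherwise for U-most k a bad z_k, z_k -> z, and N_k (X_k z_k) -> N (X z); N o X is continuous
there (it is a pointwise limit with this sequential property: or use that it is a unit normal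
close to N p; simplest: prove first with LimPts and a diagonal-free argument that N o X = s cr Xu
Xv / jac with the sign fixed by <N (X z), N p> >= 1/2 from Reg; the same formula holds for N_k o
X_k, which gives the uniform convergence directly). jac <= 4 by BILIP. -/
theorem lim2_of (hQCH : S_QCH) (hLIMC : S_LIMC) (hLIM1A : S_LIM1A) (hBILIP : S_BILIP) : S_LIM2
    :=
  by
  intro U Mk N hM hpts p hp
  obtain ⟨c₀, c₁, hc₁, hc₁₀, hc₀, hQ⟩ := hQCH
  obtain ⟨-, -, -, -, -, -, -, -, -, happ, -⟩ := hLIM1A U Mk hM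
  obtain ⟨r, hr, hreg⟩ := hp.1
  obtain ⟨pk, hpkS, hpk⟩ := happ p hp
  obtain ⟨R, hR⟩ : ∃ R, R = r / 2 := ⟨_, rfl⟩
  have hR0 : 0 < R := by linarith
  obtain ⟨ρ, hρ⟩ : ∃ ρ, ρ = c₀ * R := ⟨_, rfl⟩
  obtain ⟨σ, hσ⟩ : ∃ σ, σ = c₁ * R := ⟨_, rfl⟩
  have hσ0 : 0 < σ := by rw [hσ]; positivity
  have hσρ : σ ≤ ρ := by rw [hσ, hρ]; exact mul_le_mul_of_nonneg_right hc₁₀ hR0.le
  have hρR : ρ ≤ R / 4 := by rw [hρ]; nlinarith
  have hρ0 : 0 < ρ := by linarith
  have near : ∀ t, 0 < t → ∀ᶠ k in (U : Filter ℕ), ‖pk k - p‖ < t := fun t ht => by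
    have := Metric.tendsto_nhds.1 hpk t ht
    simpa only [dist_eq_norm] using this
  have hgood : ∀ᶠ k in (U : Filter ℕ), pk k ∈ (Mk k).S ∧ (Mk k).Reg (pk k) R := by
    filter_upwards [hpkS, hreg, near R hR0] with k h1 h2 h3
    refine ⟨h1, h2.mono (ball_subset_ball' ?_)⟩
    rw [dist_eq_norm]
    linarith
  have hQk : ∀ k, pk k ∈ (Mk k).S ∧ (Mk k).Reg (pk k) R → ∃ c : Chart, c.r = ρ ∧
      (∀ i, c.Φ i 0 = (pk k i : ℝ)) ∧ c.Fits (Mk k).S (Mk k).N (Mk k).μ ∧ c.BiLip ∧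
      (Mk k).S ∩ ball (pk k) σ ⊆ c.X '' ball 0 ρ := by
    intro k hk
    obtain ⟨c, h1, h2, h3, h4, h5⟩ := hQ (Mk k) (pk k) R hk.1 hR0
      (by rw [(hM k).univ]; exact subset_univ _) hk.2
    exact ⟨c, by rw [h1, hρ], h2, h3, h4, by rw [hσ, hρ, ← h1]; exact h5⟩
  obtain ⟨k0, hk0⟩ := hgood.exists
  obtain ⟨cd, hcd, -⟩ := hQk k0 hk0
  have hch : ∀ k, ∃ c : Chart, c.r = ρ ∧ (pk k ∈ (Mk k).S ∧ (Mk k).Reg (pk k) R →
      (∀ i, c.Φ i 0 = (pk k i : ℝ)) ∧ c.Fits (Mk k).S (Mk k).N (Mk k).μ ∧ c.BiLip ∧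
      (Mk k).S ∩ ball (pk k) σ ⊆ c.X '' ball 0 ρ) := by
    intro k
    by_cases hk : pk k ∈ (Mk k).S ∧ (Mk k).Reg (pk k) R
    · obtain ⟨c, h1, h2⟩ := hQk k hk
      exact ⟨c, h1, fun _ => h2⟩
    · exact ⟨cd, hcd, fun h => absurd h hk⟩
  choose ck hckr hck using hch
  have hev : ∀ᶠ k in (U : Filter ℕ), (ck k).X 0 = pk k ∧
      (ck k).Fits (Mk k).S (Mk k).N (Mk k).μ ∧ (ck k).BiLip ∧
      (Mk k).S ∩ ball (pk k) σ ⊆ (ck k).X '' ball 0 ρ :=
    hgood.mono fun k hk => ⟨LIM2_X0 (hck k hk).1, (hck k hk).2⟩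
  obtain ⟨c, hcr, hcL, hc0, uX, uXu, uXv, uJ⟩ := hLIMC U ck ρ p hρ0
    (hgood.mono fun k hk => ⟨hckr k, (hck k hk).2.2.1, fun i => by
      rw [(hck k hk).1 i, Complex.ofReal_im]⟩)
    (hpk.congr' (hev.mono fun k hk => hk.1.symm))
  have cX : ContinuousOn c.X (ball 0 ρ) := hcr ▸ c.continuousOn_X
  have seqX : ∀ (zk : ℕ → ℂ) (z : ℂ), (∀ᶠ k in (U : Filter ℕ), zk k ∈ ball (0 : ℂ) ρ) →
      z ∈ ball (0 : ℂ) ρ → Tendsto zk U (𝓝 z) →
      Tendsto (fun k => (ck k).X (zk k)) U (𝓝 (c.X z)) := fun zk z h1 h2 h3 =>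
    uX.tendsto_comp (cX z h2) (tendsto_nhdsWithin_iff.2 ⟨h3, h1⟩)
  have inO : ∀ z ∈ ball (0 : ℂ) ρ, c.X z ∈ limO U Mk := by
    intro z hz
    have h1 := (LIM2_lip hcL (hcr ▸ hz)).2
    have h2 := mem_ball_zero_iff.1 hz
    rw [hc0] at h1
    refine ⟨R, hR0, hreg.mono fun k hk => hk.mono (ball_subset_ball' ?_)⟩
    rw [dist_eq_norm]
    linarith
  have seqN : ∀ (zk : ℕ → ℂ) (z : ℂ), (∀ᶠ k in (U : Filter ℕ), zk k ∈ ball (0 : ℂ) ρ) →
      z ∈ ball (0 : ℂ) ρ → Tendsto zk U (𝓝 z) → c.X z ∈ limS U Mk ∧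
      Tendsto (fun k => (Mk k).N ((ck k).X (zk k))) U (𝓝 (N (c.X z))) := by
    intro zk z h1 h2 h3
    refine hpts _ _ ?_ (seqX zk z h1 h2 h3) (inO z h2)
    filter_upwards [hev, h1] with k hk hz
    exact hk.2.1.emb.mem (by rw [hckr k]; exact hz)
  have ptN : ∀ z ∈ ball (0 : ℂ) ρ, c.X z ∈ limS U Mk ∧
      Tendsto (fun k => (Mk k).N ((ck k).X z)) U (𝓝 (N (c.X z))) := fun z hz =>
    seqN (fun _ => z) z (Eventually.of_forall fun _ => hz) hz tendsto_const_nhds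
  have cov : ∀ x ∈ limS U Mk, ‖x - p‖ < σ / 8 → ∃ z ∈ ball (0 : ℂ) ρ, c.X z = x := by
    intro x hx hxp
    obtain ⟨xk, hxkS, hxk⟩ := happ x hx
    have h1 : ∀ᶠ k in (U : Filter ℕ), ‖xk k - x‖ < σ / 16 := by
      have := Metric.tendsto_nhds.1 hxk (σ / 16) (by linarith)
      simpa only [dist_eq_norm] using this
    have h2 : ∀ᶠ k in (U : Filter ℕ), ∃ z ∈ closedBall (0 : ℂ) (ρ / 2), (ck k).X z = xk k := by
      filter_upwards [hev, hxkS, h1, near (σ / 16) (by linarith)] with k hk hS a1 a2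
      have a3 : ‖xk k - pk k‖ < σ / 4 := by
        have e : xk k - pk k = (xk k - x) + (x - p) - (pk k - p) := by abel
        have b1 := norm_sub_le ((xk k - x) + (x - p)) (pk k - p)
        have b2 := norm_add_le (xk k - x) (x - p)
        rw [e]
        linarith
      obtain ⟨z, hz, hze⟩ := hk.2.2.2 ⟨hS, by rw [mem_ball, dist_eq_norm]; linarith⟩
      have a4 := (LIM2_lip hk.2.2.1 (z := z) (by rw [hckr k]; exact hz)).1
      rw [hze, hk.1] at a4
      exact ⟨z, mem_closedBall_zero_iff.2 (by linarith), hze⟩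
    have h3 : ∀ k, ∃ z ∈ closedBall (0 : ℂ) (ρ / 2),
        (∃ z ∈ closedBall (0 : ℂ) (ρ / 2), (ck k).X z = xk k) → (ck k).X z = xk k := by
      intro k
      by_cases hk : ∃ z ∈ closedBall (0 : ℂ) (ρ / 2), (ck k).X z = xk k
      · obtain ⟨z, hz, hze⟩ := hk
        exact ⟨z, hz, fun _ => hze⟩
      · exact ⟨0, mem_closedBall_self (by linarith), fun h => absurd h hk⟩
    choose zk hzK hzk using h3
    obtain ⟨z, hz, hlim⟩ := (isCompact_closedBall (0 : ℂ) (ρ / 2)).ultrafilter_le_nhds (U.map zk)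
      (by rw [Ultrafilter.coe_map, le_principal_iff, mem_map]; exact univ_mem' hzK)
    have hsub : closedBall (0 : ℂ) (ρ / 2) ⊆ ball 0 ρ := closedBall_subset_ball (by linarith)
    have h4 := seqX zk z (Eventually.of_forall fun k => hsub (hzK k)) (hsub hz) hlim
    exact ⟨z, hsub hz, tendsto_nhds_unique h4
      (hxk.congr' (h2.mono fun k hk => (hzk k hk).symm))⟩
  have hsub2 : ball (0 : ℂ) (ρ / 2) ⊆ ball 0 ρ := ball_subset_ball (by linarith)
  have hNp : Tendsto (fun k => (Mk k).N (pk k)) U (𝓝 (N p)) := (hpts pk p hpkS hpk hp.1).2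
  have unit : ∀ (xk : ℕ → E) (n : E), (∀ᶠ k in (U : Filter ℕ), xk k ∈ (Mk k).S) →
      Tendsto (fun k => (Mk k).N (xk k)) U (𝓝 n) → ‖n‖ = 1 := fun xk n h1 h2 =>
    tendsto_nhds_unique h2.norm
      (tendsto_const_nhds.congr' (h1.mono fun k hk => ((Mk k).N_unit _ hk).symm))
  have nrm : ∀ z ∈ ball (0 : ℂ) (ρ / 2), ‖N (c.X z)‖ = 1 ∧ ⟪N (c.X z), c.Xu z⟫ = 0 ∧
      ⟪N (c.X z), c.Xv z⟫ = 0 ∧ 0 < ⟪N (c.X z), N p⟫ := by
    intro z hz
    have hz' := hsub2 hz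
    have hzk : ∀ k, z ∈ ball (0 : ℂ) (ck k).r := fun k => by rw [hckr k]; exact hz'
    have h1 := (ptN z hz').2
    have hS : ∀ᶠ k in (U : Filter ℕ), (ck k).X z ∈ (Mk k).S :=
      hev.mono fun k hk => hk.2.1.emb.mem (hzk k)
    have u1 := unit _ _ hS h1
    have u2 := unit _ _ hpkS hNp
    refine ⟨u1, tendsto_nhds_unique (h1.inner (uXu.tendsto_at hz))
      (tendsto_const_nhds.congr' (hev.mono fun k hk => (hk.2.1.inner_Xu (hzk k)).symm)),
      tendsto_nhds_unique (h1.inner (uXv.tendsto_at hz))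
      (tendsto_const_nhds.congr' (hev.mono fun k hk => (hk.2.1.inner_Xv (hzk k)).symm)), ?_⟩
    have h2 : ‖N (c.X z) - N p‖ ≤ 1 / 10 := by
      refine le_of_tendsto (h1.sub hNp).norm ?_
      filter_upwards [hev, hgood, hS] with k hk hg hSk
      refine hg.2 _ ⟨hSk, ?_⟩ _ ⟨hg.1, mem_ball_self hR0⟩
      have b1 := (LIM2_lip hk.2.2.1 (hzk k)).2
      have b2 := mem_ball_zero_iff.1 hz'
      rw [hk.1] at b1
      rw [mem_ball, dist_eq_norm]
      linarith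
    have h3 := Coord_norm_sub_sq u1 u2
    nlinarith [norm_nonneg (N (c.X z) - N p)]
  have cN : ContinuousOn (fun z => N (c.X z)) (ball 0 (ρ / 2)) :=
    LIM2_cont c isOpen_ball (by rw [hcr]; exact hsub2) nrm
  obtain ⟨s, hs⟩ : ∃ s, s = σ / 16 := ⟨_, rfl⟩
  have hs0 : 0 < s := by linarith
  have hsρ : s ≤ ρ := by linarith
  have hb1 : ball (0 : ℂ) s ⊆ ball 0 ρ := ball_subset_ball hsρ
  have hb2 : closedBall (0 : ℂ) s ⊆ ball 0 (ρ / 2) := closedBall_subset_ball (by linarith)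
  have hb3 : ball (0 : ℂ) s ⊆ ball 0 (ρ / 2) := ball_subset_closedBall.trans hb2
  refine ⟨c.shrink s hs0 (hcr ▸ hsρ), fun k => (ck k).shrink s hs0 ((hckr k).symm ▸ hsρ), s / 4,
    by linarith, hc0, ?_, fun z hz => ⟨(nrm z (hb3 hz)).2.1, (nrm z (hb3 hz)).2.2.1⟩,
    fun z hz => ((hBILIP c hcL).1 z (by rw [hcr]; exact hb1 hz)).2.1, ?_, ?_,
    uX.mono hb1, uJ.mono hb3, ?_⟩
  · refine LIM2_emb c hcL hs0 _ (fun z hz => (ptN z (hcr ▸ hz)).1) fun x hx hxp => ?_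
    rw [hc0] at hxp
    rw [hcr]
    exact cov x hx (by linarith)
  · filter_upwards [hev, near (s / 4) (by linarith)] with k hk a1
    refine ⟨rfl, hk.2.1.shrink s hs0 _, ?_⟩
    rintro x ⟨hx, hxp⟩
    rw [mem_ball, dist_eq_norm] at hxp
    have a2 : ‖x - pk k‖ < s / 2 := by
      have e : x - pk k = (x - p) - (pk k - p) := by abel
      have b1 := norm_sub_le (x - p) (pk k - p)
      rw [e]
      linarith
    obtain ⟨z, hz, hze⟩ := hk.2.2.2 ⟨hx, by rw [mem_ball, dist_eq_norm]; linarith⟩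
    have a3 := (LIM2_lip hk.2.2.1 (z := z) (by rw [hckr k]; exact hz)).1
    rw [hze, hk.1] at a3
    exact ⟨z, mem_ball_zero_iff.2 (show ‖z‖ < s by linarith), hze⟩
  · rintro x ⟨hx, hxp⟩
    rw [mem_ball, dist_eq_norm] at hxp
    obtain ⟨z, hz, hze⟩ := cov x hx (by linarith)
    have a3 := (LIM2_lip hcL (z := z) (hcr ▸ hz)).1
    rw [hze, hc0] at a3
    exact ⟨z, mem_ball_zero_iff.2 (show ‖z‖ < s by linarith), hze⟩
  · refine (LIM2_unif U (isCompact_closedBall (0 : ℂ) s) (cN.mono hb2)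
      fun zk z h1 h2 h3 => ?_).mono ball_subset_closedBall
    exact (seqN zk z (Eventually.of_forall fun k => hsub2 (hb2 (h1 k))) (hsub2 (hb2 h2)) h3).2

end MW
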