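import Pool.Agent.P.MP_064970_gt.I.SX

open scoped Manifold ContDiff
open MeasureTheory Set Filter Topology Metric
open scoped RealInnerProductSpace ENNReal ComplexConjugate Real

noncomputable section

namespace MW

universe u

theorem LIMB_compact (U : Ultrafilter ℕ) (Mk : ℕ → Surf) (M : Surf)
    (hC : Conv (U : Filter ℕ) Mk M) (G : Set E) (b : ℝ≥0∞) (hG : IsOpen G)
    (hb : ∀ᶠ k in (U : Filter ℕ), (Mk k).μ G ≤ b) (K : Set E) (hK : IsCompact K)
    (hKG : K ⊆ G ∩ M.O) : M.μ K ≤ b := by
  rcases eq_or_ne b ⊤ with rfl | hbt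
  · exact le_top
  obtain ⟨L, hL, hKL, hLG⟩ := exists_compact_between hK (hG.inter M.isOpen_O) hKG
  obtain ⟨f, hf1, hf0, -, hf⟩ := exists_continuous_one_zero_of_isCompact hK
    (isOpen_interior (s := L)).isClosed_compl (disjoint_compl_right_iff_subset.2 hKL)
  have hz : ∀ x, x ∉ L → f x = 0 := fun x hx => hf0 fun h => hx (interior_subset h)
  have hT := hC.meas (fun q => f q.1) L (f.continuous.comp continuous_fst) hL
    (fun x hx => (hLG hx).2) (fun x _ hx => hz x hx)
  have hint : ∀ μ : Measure E, μ L < ⊤ → Integrable f μ := fun μ hμ => by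
    refine (integrableOn_iff_integrable_of_support_subset (s := L) fun x hx => ?_).1 ?_
    · by_contra h
      exact hx (hz x h)
    · refine Measure.integrableOn_of_bounded (M := 1) hμ.ne f.continuous.aestronglyMeasurable
        (ae_of_all _ fun x => ?_)
      rw [Real.norm_of_nonneg (hf x).1]
      exact (hf x).2
  have hle : ∫ x, f x ∂M.μ ≤ b.toReal := by
    refine le_of_tendsto hT (hb.mono fun k hk => ?_)
    rw [integral_eq_lintegral_of_nonneg_ae (ae_of_all _ fun x => (hf x).1)
      f.continuous.aestronglyMeasurable]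
    refine ENNReal.toReal_mono hbt (le_trans ?_ hk)
    rw [← lintegral_indicator_one hG.measurableSet]
    refine lintegral_mono fun x => ?_
    by_cases hx : x ∈ G
    · rw [indicator_of_mem hx]
      exact ENNReal.ofReal_le_one.2 (hf x).2
    · rw [hz x fun h => hx (hLG h).1]
      simp
  calc M.μ K = ∫⁻ x, K.indicator 1 x ∂M.μ := (lintegral_indicator_one hK.measurableSet).symm
    _ ≤ ∫⁻ x, ENNReal.ofReal (f x) ∂M.μ := by
        refine lintegral_mono fun x => ?_
        by_cases hx : x ∈ K
        · rw [indicator_of_mem hx, hf1 hx]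
          simp
        · rw [indicator_of_notMem hx]
          exact zero_le
    _ = ENNReal.ofReal (∫ x, f x ∂M.μ) :=
        (ofReal_integral_eq_lintegral_ofReal (hint _ (M.mu_lt_top hL fun x hx => (hLG hx).2))
          (ae_of_all _ fun x => (hf x).1)).symm
    _ ≤ b := (ENNReal.ofReal_le_ofReal hle).trans (ENNReal.ofReal_toReal hbt).le

theorem LIMB_open (U : Ultrafilter ℕ) (Mk : ℕ → Surf) (M : Surf)
    (hC : Conv (U : Filter ℕ) Mk M) (G : Set E) (b : ℝ≥0∞) (hG : IsOpen G)
    (hb : ∀ᶠ k in (U : Filter ℕ), (Mk k).μ G ≤ b) : M.μ G ≤ b := by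
  have h1 : M.μ G ≤ M.μ (G ∩ M.O) := by
    refine measure_mono_ae (M.ae_mem.mono fun x hx hxG => ⟨hxG, ?_⟩)
    rw [M.cover]
    exact Or.inr hx
  have hR : Measure.InnerRegularWRT M.μ IsCompact IsOpen :=
    (Measure.InnerRegularWRT.isCompact_isClosed M.μ).trans
      (Measure.InnerRegularWRT.of_pseudoMetrizableSpace M.μ)
  refine h1.trans ?_
  rw [hR.measure_eq_iSup (hG.inter M.isOpen_O)]
  exact iSup_le fun K => iSup_le fun hKG => iSup_le fun hK =>
    LIMB_compact U Mk M hC G b hG hb K hK hKG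

theorem limb_of : S_LIMB := fun U Mk M hB hC =>
  ⟨fun p r hr => LIMB_open U Mk M hC _ _ isOpen_ball (Eventually.of_forall fun k => hB k p r hr),
    fun G b hG hb => LIMB_open U Mk M hC G b hG hb⟩

end MW
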