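import Pool.Agent.P.MP_064970_gt.I.SX

open scoped Manifold ContDiff
open MeasureTheory Set Filter Topology Metric
open scoped RealInnerProductSpace ENNReal ComplexConjugate Real

noncomputable section

namespace MW

universe u

/-- Equi-Lipschitz functions converge uniformly along an ultrafilter. -/
theorem LIMC_unif (U : Ultrafilter ℕ) {F : ℕ → ℂ → ℂ} {ρ : ℝ} (hρ : 0 < ρ) {a : ℂ}
    (h0 : Tendsto (fun k => F k 0) U (𝓝 a))
    (hL : ∀ᶠ k in (U : Filter ℕ), ∀ z ∈ ball (0 : ℂ) ρ, ∀ w ∈ ball (0 : ℂ) ρ,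
      ‖F k z - F k w‖ ≤ 3 * ‖z - w‖) :
    ∃ f : ℂ → ℂ, TendstoUniformlyOn F f U (ball 0 ρ) := by
  have hpt : ∀ z ∈ ball (0 : ℂ) ρ, ∃ b : ℂ, Tendsto (fun k => F k z) U (𝓝 b) := by
    intro z hz
    have hm : ∀ᶠ k in (U : Filter ℕ), F k z ∈ closedBall a (3 * ρ + 1) := by
      filter_upwards [hL, h0 (ball_mem_nhds a one_pos)] with k h₁ h₂
      have h₃ := h₁ z hz 0 (mem_ball_self hρ)
      rw [sub_zero] at h₃
      have h₄ : ‖F k 0 - a‖ < 1 := mem_ball_iff_norm.1 h₂
      have h₅ : ‖z‖ < ρ := mem_ball_zero_iff.1 hz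
      have h₆ := norm_add_le (F k z - F k 0) (F k 0 - a)
      rw [sub_add_sub_cancel] at h₆
      rw [mem_closedBall_iff_norm]
      linarith
    obtain ⟨b, -, hb⟩ := (isCompact_closedBall a (3 * ρ + 1)).ultrafilter_le_nhds
      (U.map fun k => F k z) (le_principal_iff.2 hm)
    exact ⟨b, hb⟩
  choose! f hf using hpt
  have hfL : ∀ z ∈ ball (0 : ℂ) ρ, ∀ w ∈ ball (0 : ℂ) ρ, ‖f z - f w‖ ≤ 3 * ‖z - w‖ :=
    fun z hz w hw => le_of_tendsto ((hf z hz).sub (hf w hw)).norm (hL.mono fun k h => h z hz w hw)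
  refine ⟨f, Metric.tendstoUniformlyOn_iff.2 fun ε hε => ?_⟩
  obtain ⟨t, hts, ht, hcov⟩ := Metric.finite_approx_of_totallyBounded
    ((isCompact_closedBall (0 : ℂ) ρ).totallyBounded.subset ball_subset_closedBall) (ε / 7)
    (by positivity)
  have hfin : ∀ᶠ k in (U : Filter ℕ), ∀ y ∈ t, ‖F k y - f y‖ < ε / 7 :=
    (eventually_all_finite ht).2 fun y hy =>
      ((hf y (hts hy)).eventually (ball_mem_nhds (f y) (show 0 < ε / 7 by positivity))).mono
        fun k h => mem_ball_iff_norm.1 h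
  filter_upwards [hL, hfin] with k h₁ h₂ z hz
  obtain ⟨y, hy, hzy⟩ := mem_iUnion₂.1 (hcov hz)
  have h₃ : ‖z - y‖ < ε / 7 := mem_ball_iff_norm.1 hzy
  have h₄ := h₁ z hz y (hts hy)
  have h₅ := hfL z hz y (hts hy)
  have h₆ := h₂ y hy
  have e : f z - F k z = (f z - f y) - (F k y - f y) - (F k z - F k y) := by ring
  have h₇ := norm_sub_le ((f z - f y) - (F k y - f y)) (F k z - F k y)
  have h₈ := norm_sub_le (f z - f y) (F k y - f y)
  rw [dist_eq_norm, e]
  linarith

theorem LIMC_pi {U : Filter ℕ} {F : Fin 3 → ℕ → ℂ → ℂ} {f : Fin 3 → ℂ → ℂ} {s : Set ℂ}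
    (h : ∀ i, TendstoUniformlyOn (F i) (f i) U s) :
    TendstoUniformlyOn (fun k z i => F i k z) (fun z i => f i z) U s := by
  refine Metric.tendstoUniformlyOn_iff.2 fun ε hε => ?_
  filter_upwards [eventually_all.2 fun i => Metric.tendstoUniformlyOn_iff.1 (h i) ε hε]
    with k hk z hz
  exact (dist_pi_lt_iff hε).2 fun i => hk i z hz

theorem LIMC_re : UniformContinuous fun a : Fin 3 → ℂ => (WithLp.toLp 2 fun i => (a i).re : E) :=
  (EuclideanSpace.equiv (Fin 3) ℝ).symm.toContinuousLinearMap.uniformContinuous.comp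
    (uniformContinuous_pi.2 fun i =>
      Complex.uniformContinuous_re.comp (Pi.uniformContinuous_proj _ i))

theorem LIMC_im : UniformContinuous fun a : Fin 3 → ℂ => (WithLp.toLp 2 fun i => -(a i).im : E) :=
  (EuclideanSpace.equiv (Fin 3) ℝ).symm.toContinuousLinearMap.uniformContinuous.comp
    (uniformContinuous_pi.2 fun i =>
      (Complex.uniformContinuous_im.comp (Pi.uniformContinuous_proj _ i)).neg)

theorem LIMC_jac :
    UniformContinuousOn (fun a : Fin 3 → ℂ => (∑ i, ‖a i‖ ^ 2) / 2) (closedBall 0 3) :=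
  (isCompact_closedBall 0 3).uniformContinuousOn_of_continuous
    (Continuous.continuousOn (by fun_prop))

/- Hint. For U-most k: |phi_k,i| <= 3, so Phi_k,i is 3-Lipschitz on the ball and bounded (Phi_k,i 0 = X_k 0
i real, convergent). Phi_i z = limit along U (bounded sequence in a proper space), 3-Lipschitz.
Uniform convergence on the ball: totally bounded, finite eps-net inside the ball (or
EquicontinuousOn.tendsto_uniformOnFun_iff_pi). TendstoLocallyUniformlyOn.differentiableOn and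
.deriv (eventual differentiability suffices); on closedBall 0 (rho/2) (compact) the derivatives
converge uniformly. null and BiLip pass to the limit, ne from jac >= 1/4 in the limit. jac is a
polynomial in bounded uniformly convergent functions. -/
theorem limc_of (hBILIP : S_BILIP) : S_LIMC := by
  intro U ck ρ p hρ hk hp
  have hdiff : ∀ i, ∀ᶠ k in (U : Filter ℕ), DifferentiableOn ℂ ((ck k).Φ i) (ball 0 ρ) :=
    fun i => hk.mono fun k h => h.1 ▸ (ck k).hol i
  have hB : ∀ᶠ k in (U : Filter ℕ), ∀ z ∈ ball (0 : ℂ) ρ,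
      1 / 4 ≤ (ck k).jac z ∧ ∀ i, ‖deriv ((ck k).Φ i) z‖ ≤ 3 :=
    hk.mono fun k h z hz =>
      have h' := (hBILIP (ck k) h.2.1).1 z (h.1.symm ▸ hz)
      ⟨h'.1, h'.2.2⟩
  have hex : ∀ i, ∃ f : ℂ → ℂ, TendstoUniformlyOn (fun k => (ck k).Φ i) f U (ball 0 ρ) := by
    intro i
    refine LIMC_unif U hρ (a := (p i : ℝ)) ?_ ?_
    · have h₁ : Tendsto (fun k => (((ck k).X 0 i : ℝ) : ℂ)) U (𝓝 ((p i : ℝ) : ℂ)) :=
        (Complex.continuous_ofReal.tendsto _).comp
          (((EuclideanSpace.proj i : E →L[ℝ] ℝ).continuous.tendsto p).comp hp)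
      refine h₁.congr' (hk.mono fun k h => ?_)
      exact Complex.ext rfl (h.2.2 i).symm
    · filter_upwards [hdiff i, hB] with k h₁ h₂ z hz w hw
      exact (convex_ball (0 : ℂ) ρ).norm_image_sub_le_of_norm_deriv_le
        (fun x hx => h₁.differentiableAt (isOpen_ball.mem_nhds hx)) (fun x hx => (h₂ x hx).2 i) hw hz
  choose Φ hΦ using hex
  have hD : ∀ i, TendstoLocallyUniformlyOn (deriv ∘ fun k => (ck k).Φ i) (deriv (Φ i)) U
      (ball 0 ρ) := fun i => (hΦ i).tendstoLocallyUniformlyOn.deriv (hdiff i) isOpen_ball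
  have hDz : ∀ z ∈ ball (0 : ℂ) ρ, ∀ i,
      Tendsto (fun k => deriv ((ck k).Φ i) z) U (𝓝 (deriv (Φ i) z)) :=
    fun z hz i => (hD i).tendsto_at hz
  let c : Chart :=
    { r := ρ
      Φ := Φ
      r_pos := hρ
      hol := fun i => (hΦ i).tendstoLocallyUniformlyOn.differentiableOn (hdiff i) isOpen_ball
      null := fun z hz => by
        have h₁ : Tendsto (fun k => ∑ i, deriv ((ck k).Φ i) z ^ 2) U
            (𝓝 (∑ i, deriv (Φ i) z ^ 2)) :=
          tendsto_finsetSum _ fun i _ => (hDz z hz i).pow 2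
        refine tendsto_nhds_unique h₁ (tendsto_const_nhds.congr' (hk.mono fun k h => ?_))
        exact ((ck k).null z (h.1.symm ▸ hz)).symm
      ne := fun z hz => by
        have h₁ : Tendsto (fun k => (ck k).jac z) U (𝓝 ((∑ i, ‖deriv (Φ i) z‖ ^ 2) / 2)) :=
          (tendsto_finsetSum _ fun i _ => (hDz z hz i).norm.pow 2).div_const 2
        have h₂ := ge_of_tendsto h₁ (hB.mono fun k h => (h z hz).1)
        by_contra hc
        push Not at hc
        simp only [hc, norm_zero] at h₂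
        norm_num at h₂ }
  have hX : TendstoUniformlyOn (fun k => (ck k).X) c.X U (ball 0 ρ) :=
    LIMC_re.comp_tendstoUniformlyOn (LIMC_pi hΦ)
  have hsub : closedBall (0 : ℂ) (ρ / 2) ⊆ ball 0 ρ := closedBall_subset_ball (by linarith)
  have hsub' : ball (0 : ℂ) (ρ / 2) ⊆ ball 0 ρ := ball_subset_closedBall.trans hsub
  have hDu := LIMC_pi fun i => (((tendstoLocallyUniformlyOn_iff_forall_isCompact isOpen_ball).1
    (hD i) _ hsub (isCompact_closedBall 0 (ρ / 2))).mono ball_subset_closedBall)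
  refine ⟨c, rfl, fun z hz w hw => ?_,
    tendsto_nhds_unique (hX.tendsto_at (mem_ball_self hρ)) hp, hX,
    LIMC_re.comp_tendstoUniformlyOn hDu, LIMC_im.comp_tendstoUniformlyOn hDu, ?_⟩
  · have h₁ := ((hX.tendsto_at hz).sub (hX.tendsto_at hw)).norm
    have h₂ : ∀ᶠ k in (U : Filter ℕ), ‖z - w‖ / 2 ≤ ‖(ck k).X z - (ck k).X w‖ ∧
        ‖(ck k).X z - (ck k).X w‖ ≤ 2 * ‖z - w‖ :=
      hk.mono fun k h => h.2.1 z (h.1.symm ▸ hz) w (h.1.symm ▸ hw)
    exact ⟨ge_of_tendsto h₁ (h₂.mono fun k h => h.1), le_of_tendsto h₁ (h₂.mono fun k h => h.2)⟩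
  · refine LIMC_jac.comp_tendstoUniformlyOn_eventually (hB.mono fun k h z hz => ?_)
      (fun z hz => ?_) hDu
    · rw [mem_closedBall_zero_iff, pi_norm_le_iff_of_nonneg (by norm_num)]
      exact (h z (hsub' hz)).2
    · rw [mem_closedBall_zero_iff, pi_norm_le_iff_of_nonneg (by norm_num)]
      exact fun i => le_of_tendsto (hDz z (hsub' hz) i).norm
        (hB.mono fun k h => (h z (hsub' hz)).2 i)

end MW
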