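import Pool.Agent.P.MP_064970_gt.I.SX

open scoped Manifold ContDiff
open MeasureTheory Set Filter Topology Metric
open scoped RealInnerProductSpace ENNReal ComplexConjugate Real

noncomputable section

namespace MW

universe u

/-- Uniform convergence of bounded continuous integrands on a set of finite measure. -/
theorem LIMM_unif {l : Filter ℕ} {a b : ℕ → ℂ → ℝ} {a0 b0 : ℂ → ℝ} {A : Set ℂ}
    (hA : MeasurableSet A) (hfin : volume A < ⊤) {C D : ℝ} (hC : 0 ≤ C) (hD : 0 ≤ D)
    (ha : ∀ k z, |a k z| ≤ C) (ha0 : ∀ z, |a0 z| ≤ C) (hb0 : ∀ z ∈ A, |b0 z| ≤ D)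
    (hc : ∀ᶠ k in l, ContinuousOn (a k) A ∧ ContinuousOn (b k) A) (hca : ContinuousOn a0 A)
    (hcb : ContinuousOn b0 A) (hua : TendstoUniformlyOn a a0 l A)
    (hub : TendstoUniformlyOn b b0 l A) :
    Tendsto (fun k => ∫ z in A, a k z * b k z) l (𝓝 (∫ z in A, a0 z * b0 z)) := by
  have hi0 : IntegrableOn (fun z => a0 z * b0 z) A := by
    refine IntegrableOn.of_bound hfin ((hca.mul hcb).aestronglyMeasurable hA) (C * D) ?_
    filter_upwards [ae_restrict_mem hA] with z hz
    rw [Real.norm_eq_abs, abs_mul]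
    exact mul_le_mul (ha0 z) (hb0 z hz) (abs_nonneg _) hC
  rw [Metric.tendsto_nhds]
  intro ε hε
  have hV : 0 ≤ volume.real A := measureReal_nonneg
  set η : ℝ := min 1 (ε / ((C + D) * volume.real A + 1)) with hη
  have hpos : 0 < (C + D) * volume.real A + 1 := by positivity
  have hη0 : 0 < η := lt_min one_pos (div_pos hε hpos)
  have hη1 : η ≤ 1 := min_le_left _ _
  have hη2 : η * ((C + D) * volume.real A + 1) ≤ ε := (le_div_iff₀ hpos).1 (min_le_right _ _)
  filter_upwards [hc, Metric.tendstoUniformlyOn_iff.1 hua η hη0,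
    Metric.tendstoUniformlyOn_iff.1 hub η hη0] with k hk h1 h2
  have hik : IntegrableOn (fun z => a k z * b k z) A := by
    refine IntegrableOn.of_bound hfin ((hk.1.mul hk.2).aestronglyMeasurable hA) (C * (D + 1)) ?_
    filter_upwards [ae_restrict_mem hA] with z hz
    rw [Real.norm_eq_abs, abs_mul]
    refine mul_le_mul (ha k z) ?_ (abs_nonneg _) hC
    have h3 := h2 z hz
    rw [Real.dist_eq] at h3
    have h4 := hb0 z hz
    rw [abs_le] at h4 ⊢
    rw [abs_lt] at h3
    constructor <;> linarith [h3.1, h3.2, h4.1, h4.2]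
  rw [dist_eq_norm, ← integral_sub hik hi0]
  have hle : ∀ z ∈ A, ‖a k z * b k z - a0 z * b0 z‖ ≤ (C + D) * η := by
    intro z hz
    have h3 := h1 z hz
    have h4 := h2 z hz
    rw [Real.dist_eq, abs_sub_comm] at h3 h4
    have e : a k z * b k z - a0 z * b0 z = a k z * (b k z - b0 z) + (a k z - a0 z) * b0 z := by
      ring
    rw [Real.norm_eq_abs, e]
    refine (abs_add_le _ _).trans ?_
    rw [abs_mul, abs_mul]
    have h5 : |a k z| * |b k z - b0 z| ≤ C * η := mul_le_mul (ha k z) h4.le (abs_nonneg _) hC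
    have h6 : |a k z - a0 z| * |b0 z| ≤ η * D := mul_le_mul h3.le (hb0 z hz) (abs_nonneg _) hη0.le
    linarith
  refine (norm_setIntegral_le_of_norm_le_const hfin hle).trans_lt ?_
  nlinarith

/-- Integrability of a compactly supported test function. -/
theorem LIMM_int (M : Surf) {F : E × E → ℝ} {K : Set E} (hF : Continuous F)
    (hs : HasCompactSupport F) (hK : IsCompact K) (hO : K ⊆ M.O)
    (h0 : ∀ x n, x ∉ K → F (x, n) = 0) : Integrable (fun x => F (x, M.N x)) M.μ := by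
  obtain ⟨C, hC⟩ := hF.bounded_above_of_compact_support hs
  have hm : Measurable fun x => F (x, M.N x) :=
    hF.measurable.comp (measurable_id.prodMk M.N_meas)
  refine IntegrableOn.integrable_of_forall_notMem_eq_zero (s := K) ?_ fun x hx => h0 x _ hx
  exact IntegrableOn.of_bound (M.mu_lt_top hK hO) hm.aestronglyMeasurable C
    (Eventually.of_forall fun x => hC _)

/-- The integral of a test function supported in a chart. -/
theorem LIMM_chart (M : Surf) {F : E × E → ℝ} {K : Set E} (hF : Continuous F)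
    (h0 : ∀ x n, x ∉ K → F (x, n) = 0) {c : Chart} (hc : c.Fits M.S M.N M.μ)
    (hK : M.S ∩ K ⊆ c.X '' ball 0 c.r) :
    ∫ x, F (x, M.N x) ∂M.μ = ∫ z in ball (0 : ℂ) c.r, F (c.X z, M.N (c.X z)) * c.jac z := by
  have hm : Measurable fun x => F (x, M.N x) :=
    hF.measurable.comp (measurable_id.prodMk M.N_meas)
  rw [← hc.integral measurableSet_ball subset_rfl hm]
  symm
  refine setIntegral_eq_integral_of_ae_compl_eq_zero ?_
  filter_upwards [M.ae_mem] with x hx hn
  exact h0 x _ fun hxK => hn (hK ⟨hx, hxK⟩)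

theorem LIMM_zero (M : Surf) {F : E × E → ℝ} {K : Set E}
    (h0 : ∀ x n, x ∉ K → F (x, n) = 0) (hK : Disjoint K M.S) :
    ∫ x, F (x, M.N x) ∂M.μ = 0 := by
  refine integral_eq_zero_of_ae ?_
  filter_upwards [M.ae_mem] with x hx
  exact h0 x _ fun hxK => disjoint_left.1 hK hxK hx

theorem LIMM_cont (M : Surf) {F : E × E → ℝ} (hF : Continuous F) {c : Chart}
    (hc : c.Emb M.S) : ContinuousOn (fun z => F (c.X z, M.N (c.X z))) (ball 0 c.r) :=
  hF.comp_continuousOn (c.continuousOn_X.prodMk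
    (M.N_cont.comp c.continuousOn_X fun _ hz => hc.mem hz))

/-- The claim for test functions with support over compact subsets of `V`. -/
def LIMM_P (U : Filter ℕ) (Mk : ℕ → Surf) (M : Surf) (V : Set E) : Prop :=
  ∀ (F : E × E → ℝ) (K : Set E), Continuous F → HasCompactSupport F → IsCompact K → K ⊆ V →
    (∀ x n, x ∉ K → F (x, n) = 0) →
    Tendsto (fun k => ∫ x, F (x, (Mk k).N x) ∂(Mk k).μ) U (𝓝 (∫ x, F (x, M.N x) ∂M.μ))

theorem LIMM_union {U : Filter ℕ} {Mk : ℕ → Surf} {M : Surf} (hMk : ∀ k, (Mk k).Mem)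
    {V₁ V₂ : Set E} (h1 : IsOpen V₁) (h2 : IsOpen V₂) (hO1 : V₁ ⊆ M.O) (hO2 : V₂ ⊆ M.O)
    (hP1 : LIMM_P U Mk M V₁) (hP2 : LIMM_P U Mk M V₂) : LIMM_P U Mk M (V₁ ∪ V₂) := by
  intro F K hF hs hK hKV h0
  obtain ⟨K₁, K₂, hK₁, hK₂, hKV₁, hKV₂, hKe⟩ := hK.binary_compact_cover h1 h2 hKV
  obtain ⟨L, hL, hKL, hLV⟩ := exists_compact_between hK₁ h1 hKV₁
  obtain ⟨φ, hφ1, hφ0, -, -⟩ := exists_continuous_one_zero_of_isCompact hK₁
    (isOpen_interior (s := L)).isClosed_compl (disjoint_compl_right_iff_subset.2 hKL)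
  set F₁ : E × E → ℝ := fun q => φ q.1 * F q with hF₁
  set F₂ : E × E → ℝ := fun q => (1 - φ q.1) * F q with hF₂
  have hc1 : Continuous F₁ := (φ.continuous.comp continuous_fst).mul hF
  have hc2 : Continuous F₂ := (continuous_const.sub (φ.continuous.comp continuous_fst)).mul hF
  have hs1 : HasCompactSupport F₁ := hs.mul_left
  have hs2 : HasCompactSupport F₂ := hs.mul_left
  have hz1 : ∀ x n, x ∉ L → F₁ (x, n) = 0 := fun x n hx => by
    have : φ x = 0 := hφ0 fun h => hx (interior_subset h)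
    simp only [hF₁, this, zero_mul]
  have hz2 : ∀ x n, x ∉ K₂ → F₂ (x, n) = 0 := fun x n hx => by
    by_cases hx1 : x ∈ K₁
    · have : φ x = 1 := hφ1 hx1
      simp only [hF₂, this, sub_self, zero_mul]
    · have : F (x, n) = 0 := h0 x n (by rw [hKe]; exact fun h => h.elim hx1 hx)
      simp only [hF₂, this, mul_zero]
  have key : ∀ M' : Surf, L ⊆ M'.O → K₂ ⊆ M'.O → ∫ x, F (x, M'.N x) ∂M'.μ
      = ∫ x, F₁ (x, M'.N x) ∂M'.μ + ∫ x, F₂ (x, M'.N x) ∂M'.μ := by
    intro M' hLO hKO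
    rw [← integral_add (LIMM_int M' hc1 hs1 hL hLO hz1) (LIMM_int M' hc2 hs2 hK₂ hKO hz2)]
    refine integral_congr_ae (Eventually.of_forall fun x => ?_)
    simp only [hF₁, hF₂]
    ring
  rw [key M (hLV.trans hO1) (hKV₂.trans hO2)]
  have h3 := (hP1 F₁ L hc1 hs1 hL hLV hz1).add (hP2 F₂ K₂ hc2 hs2 hK₂ hKV₂ hz2)
  refine h3.congr fun k => ?_
  exact (key (Mk k) ((hMk k).sub _) ((hMk k).sub _)).symm

theorem LIMM_local (hLIM2 : S_LIM2) (hLIM1A : S_LIM1A) (hPARAM : S_PARAM) (U : Ultrafilter ℕ)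
    (Mk : ℕ → Surf) (M : Surf) (hMk : ∀ k, (Mk k).Mem) (hO : M.O = limO U Mk)
    (hS : M.S = limS U Mk) (hN : LimPts U Mk M.N) {x : E} (hx : x ∈ M.O) :
    ∃ V, IsOpen V ∧ x ∈ V ∧ V ⊆ M.O ∧ LIMM_P U Mk M V := by
  obtain ⟨-, hW, hW', hcov, -, hdW, hdW', hKW, hKW', -⟩ := hLIM1A U Mk hMk
  have hzero : ∀ V : Set E, Disjoint V M.S →
      (∀ K : Set E, IsCompact K → K ⊆ V → ∀ᶠ k in (U : Filter ℕ), Disjoint K (Mk k).S) →
      LIMM_P U Mk M V := by
    intro V hV hKV F K _ _ hK hKV' h0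
    rw [LIMM_zero M h0 (hV.mono_left hKV')]
    refine tendsto_const_nhds.congr' ?_
    filter_upwards [hKV K hK hKV'] with k hk
    exact (LIMM_zero (Mk k) h0 hk).symm
  have hx' := hx
  rw [hO, hcov] at hx'
  rcases hx' with (h | h) | h
  · refine ⟨limW U Mk, hW, h, ?_, hzero _ (by rw [hS]; exact hdW) fun K hK hKV => ?_⟩
    · rw [hO, hcov]; exact fun y hy => Or.inl (Or.inl hy)
    · filter_upwards [hKW K hK hKV] with k hk
      exact (Mk k).disjS.mono_left hk
  · refine ⟨limW' U Mk, hW', h, ?_, hzero _ (by rw [hS]; exact hdW') fun K hK hKV => ?_⟩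
    · rw [hO, hcov]; exact fun y hy => Or.inl (Or.inr hy)
    · filter_upwards [hKW' K hK hKV] with k hk
      exact (Mk k).disjS'.mono_left hk
  obtain ⟨c, ck, δ, hδ, -, hemb, -, hjac, hck, hsub, huX, huj, huN⟩ :=
    hLIM2 U Mk M.N hMk hN x h
  rw [← hS] at hemb hsub
  have hfit := (hPARAM M).2 c hemb
  refine ⟨ball x δ ∩ M.O, isOpen_ball.inter M.isOpen_O, ⟨mem_ball_self hδ, hx⟩,
    inter_subset_right, ?_⟩
  intro F K hF hs hK hKV h0
  have hKb : K ⊆ ball x δ := hKV.trans inter_subset_left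
  obtain ⟨C, hC⟩ := hF.bounded_above_of_compact_support hs
  have hC0 : 0 ≤ C := (norm_nonneg _).trans (hC (0, 0))
  have hu := hs.uniformContinuous_of_continuous hF
  have hup : TendstoUniformlyOn (fun k z => ((ck k).X z, (Mk k).N ((ck k).X z)))
      (fun z => (c.X z, M.N (c.X z))) U (ball 0 c.r) := by
    rw [Metric.tendstoUniformlyOn_iff] at huX huN ⊢
    intro ε hε
    filter_upwards [huX ε hε, huN ε hε] with k h1 h2 z hz
    rw [Prod.dist_eq]
    exact max_lt (h1 z hz) (h2 z hz)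
  have h1 := LIMM_unif (l := U) (a := fun k z => F ((ck k).X z, (Mk k).N ((ck k).X z)))
    (b := fun k => (ck k).jac) (a0 := fun z => F (c.X z, M.N (c.X z))) (b0 := c.jac)
    (A := ball 0 c.r) measurableSet_ball measure_ball_lt_top hC0 (show (0 : ℝ) ≤ 4 by norm_num)
    (fun k z => hC _) (fun z => hC _)
    (fun z hz => by rw [abs_of_nonneg (c.jac_nonneg z)]; exact hjac z hz)
    (by
      filter_upwards [hck] with k hk
      rw [← hk.1]
      exact ⟨LIMM_cont (Mk k) hF hk.2.1.emb, (ck k).continuousOn_jac⟩)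
    (LIMM_cont M hF hemb) c.continuousOn_jac (hu.comp_tendstoUniformlyOn hup) huj
  rw [LIMM_chart M hF h0 hfit ((inter_subset_inter_right _ hKb).trans hsub)]
  refine h1.congr' ?_
  filter_upwards [hck] with k hk
  rw [LIMM_chart (Mk k) hF h0 hk.2.1
    (by rw [hk.1]; exact (inter_subset_inter_right _ hKb).trans hk.2.2), hk.1]

/- Hint. Every x in K has an open ball B_x such that the claim holds for all continuous F' with x-support
in a compact subset of B_x: if x not in limS, B_x misses S_k for U-most k and misses limS, both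
sides are 0 (ae_mem); if x in limS, B_x = ball x del of LIM2, c Fits M by PARAM, both integrals
are integrals over ball 0 c.r of F' (X_k z, N_k (X_k z)) jac_k z (Fits.integral;
setIntegral_eq_integral_of_ae_compl_eq_zero) and the integrands converge uniformly on the ball (F'
is uniformly continuous on the compact set closedBall x R x closedBall 0 1; jac <= 4), which has
finite measure. Finite subcover and a continuous partition of unity
(PartitionOfUnity.exists_isSubordinate for the closed K, or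
exists_continuous_sum_one_of_isOpen_isCompact), F = sum rho_i F; integrability by mu_lt_top and
Bd. -/
theorem limm_of (hLIM2 : S_LIM2) (hLIM1A : S_LIM1A) (hPARAM : S_PARAM) : S_LIMM := by
  intro U Mk M hMk hO hS hN F K hF hK hKO h0
  have hall : ∃ V, IsOpen V ∧ K ⊆ V ∧ V ⊆ M.O ∧ LIMM_P U Mk M V := by
    refine hK.induction_on (p := fun s => ∃ V, IsOpen V ∧ s ⊆ V ∧ V ⊆ M.O ∧ LIMM_P U Mk M V)
      ?_ ?_ ?_ ?_
    · refine ⟨∅, isOpen_empty, subset_rfl, empty_subset _, fun G L _ _ _ hL hG => ?_⟩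
      have hL0 : L = ∅ := subset_empty_iff.1 hL
      have hz : ∀ M' : Surf, ∫ x, G (x, M'.N x) ∂M'.μ = 0 := fun M' =>
        LIMM_zero M' hG (by rw [hL0]; exact empty_disjoint _)
      simp only [hz]
      exact tendsto_const_nhds
    · rintro s t hst ⟨V, h1, h2, h3, h4⟩
      exact ⟨V, h1, hst.trans h2, h3, h4⟩
    · rintro s t ⟨V, h1, h2, h3, h4⟩ ⟨V', h1', h2', h3', h4'⟩
      exact ⟨V ∪ V', h1.union h1', union_subset_union h2 h2', union_subset h3 h3',
        LIMM_union hMk h1 h1' h3 h3' h4 h4'⟩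
    · intro x hx
      obtain ⟨V, h1, h2, h3, h4⟩ := LIMM_local hLIM2 hLIM1A hPARAM U Mk M hMk hO hS hN (hKO hx)
      exact ⟨V, mem_nhdsWithin_of_mem_nhds (h1.mem_nhds h2), V, h1, subset_rfl, h3, h4⟩
  obtain ⟨V, -, hKV, -, hP⟩ := hall
  set G : E × E → ℝ := fun q => F q * max (2 - ‖q.2‖) 0 with hG
  have hGc : Continuous G := hF.mul (by fun_prop)
  have hG0 : ∀ x n, x ∉ K → G (x, n) = 0 := fun x n hx => by
    simp only [hG, h0 x n hx, zero_mul]
  have hGs : HasCompactSupport G := by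
    refine HasCompactSupport.intro (hK.prod (isCompact_closedBall (0 : E) 2)) ?_
    rintro ⟨x, n⟩ hq
    by_cases hx : x ∈ K
    · have hn : ¬ ‖n‖ ≤ 2 := fun h => hq ⟨hx, mem_closedBall_zero_iff.2 h⟩
      have : max (2 - ‖n‖) 0 = 0 := max_eq_right (by linarith [not_le.1 hn])
      simp only [hG, this, mul_zero]
    · exact hG0 x n hx
  have key : ∀ M' : Surf, ∫ x, G (x, M'.N x) ∂M'.μ = ∫ x, F (x, M'.N x) ∂M'.μ := by
    intro M'
    refine integral_congr_ae ?_
    filter_upwards [M'.ae_unit] with x hx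
    simp only [hG, hx]
    norm_num
  have h1 := hP G K hGc hGs hK hKV hG0
  simpa only [key] using h1

end MW
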