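import Pool.Agent.P.MP_064970_gt.I.SX

open scoped Manifold ContDiff
open MeasureTheory Set Filter Topology Metric
open scoped RealInnerProductSpace ENNReal ComplexConjugate Real

noncomputable section

namespace MW

universe u

theorem LINE_congr {f g : ℝ → ℝ} {p q : ℝ} (hpq : p ≤ q) (h : EqOn f g (Ioo p q)) :
    ∫ t in p..q, f t = ∫ t in p..q, g t := by
  rw [intervalIntegral.integral_of_le hpq, intervalIntegral.integral_of_le hpq,
    integral_Ioc_eq_integral_Ioo, integral_Ioc_eq_integral_Ioo]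
  exact setIntegral_congr_fun measurableSet_Ioo h

theorem LINE_in {h : ℝ → ℝ} (hh : ContDiff ℝ 1 h) {w : Set ℝ} {p q : ℝ} (hpq : p ≤ q)
    (hw : Ioo p q ⊆ w) : ∫ t in p..q, w.indicator (deriv h) t = h q - h p := by
  rw [LINE_congr hpq (g := deriv h) fun t ht => indicator_of_mem (hw ht) _]
  exact intervalIntegral.integral_deriv_eq_sub
    (fun x _ => (hh.differentiable one_ne_zero).differentiableAt)
    ((hh.continuous_deriv le_rfl).intervalIntegrable p q)

theorem LINE_out {g : ℝ → ℝ} {w w' : Set ℝ} (hd : Disjoint w w') {p q : ℝ} (hpq : p ≤ q)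
    (hw : Ioo p q ⊆ w') : ∫ t in p..q, w.indicator g t = 0 := by
  rw [LINE_congr hpq (g := fun _ => 0) fun t ht =>
    indicator_of_notMem (fun h => disjoint_left.1 hd h (hw ht)) _]
  simp

theorem LINE_not {w w' : Set ℝ} (hd : Disjoint w w') {l : Filter ℝ} [l.NeBot]
    (h1 : ∀ᶠ s in l, s ∈ w) (h2 : ∀ᶠ s in l, s ∈ w') : False := by
  obtain ⟨s, hs1, hs2⟩ := (h1.and h2).exists
  exact disjoint_left.1 hd hs1 hs2

theorem LINE_main {h : ℝ → ℝ} (hh : ContDiff ℝ 1 h) {w w' : Set ℝ} (hw : IsOpen w)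
    (hw' : IsOpen w') (hd : Disjoint w w') (σ : ℝ → ℝ) {a : ℝ} (ha : h a = 0) (T : Finset ℝ) :
    ∀ b : ℝ, a < b → (∀ t ∈ T, t ∈ Ioo a b) → (∀ t ∈ Ioo a b, t ∈ w ∨ t ∈ w' ∨ t ∈ T) →
      (∀ t ∈ T, (σ t = 1 ∧ (∀ᶠ s in 𝓝[<] t, s ∈ w) ∧ ∀ᶠ s in 𝓝[>] t, s ∈ w') ∨
        (σ t = -1 ∧ (∀ᶠ s in 𝓝[<] t, s ∈ w') ∧ ∀ᶠ s in 𝓝[>] t, s ∈ w)) →
      ((∀ᶠ s in 𝓝[<] b, s ∈ w) ∧
          ∫ t in a..b, w.indicator (deriv h) t = h b + ∑ t ∈ T, σ t * h t) ∨
        ((∀ᶠ s in 𝓝[<] b, s ∈ w') ∧
          ∫ t in a..b, w.indicator (deriv h) t = ∑ t ∈ T, σ t * h t) := by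
  have hc := hh.continuous_deriv le_rfl
  have hi : ∀ p q : ℝ, IntervalIntegrable (w.indicator (deriv h)) volume p q := fun p q =>
    ⟨hc.integrableOn_Ioc.indicator hw.measurableSet, hc.integrableOn_Ioc.indicator hw.measurableSet⟩
  induction T using Finset.induction_on_max with
  | empty =>
    intro b hab _ hcov _
    have hsub : Ioo a b ⊆ w ∪ w' := fun t ht => by simpa using hcov t ht
    rcases isPreconnected_Ioo.subset_or_subset hw hw' hd hsub with h1 | h1
    · refine Or.inl ⟨mem_of_superset (Ioo_mem_nhdsLT hab) h1, ?_⟩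
      rw [LINE_in hh hab.le h1, ha]
      simp
    · refine Or.inr ⟨mem_of_superset (Ioo_mem_nhdsLT hab) h1, ?_⟩
      rw [LINE_out hd hab.le h1]
      simp
  | insert t T hmax ih =>
    intro b hab hT hcov hσ
    have ht := hT t (Finset.mem_insert_self t T)
    have hnot : t ∉ T := fun h => lt_irrefl _ (hmax t h)
    have ih' := ih t ht.1
      (fun s hs => ⟨(hT s (Finset.mem_insert_of_mem hs)).1, hmax s hs⟩)
      (fun s hs => by
        rcases hcov s ⟨hs.1, hs.2.trans ht.2⟩ with h1 | h1 | h1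
        · exact Or.inl h1
        · exact Or.inr (Or.inl h1)
        · rcases Finset.mem_insert.1 h1 with h2 | h2
          · exact absurd h2 hs.2.ne
          · exact Or.inr (Or.inr h2))
      fun s hs => hσ s (Finset.mem_insert_of_mem hs)
    have hsub : Ioo t b ⊆ w ∪ w' := fun s hs => by
      rcases hcov s ⟨ht.1.trans hs.1, hs.2⟩ with h1 | h1 | h1
      · exact Or.inl h1
      · exact Or.inr h1
      · rcases Finset.mem_insert.1 h1 with h2 | h2
        · exact absurd h2 hs.1.ne'
        · exact absurd (hmax s h2) (not_lt.2 hs.1.le)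
    have hor := isPreconnected_Ioo.subset_or_subset hw hw' hd hsub
    rw [Finset.sum_insert hnot, ← intervalIntegral.integral_add_adjacent_intervals (hi a t) (hi t b)]
    rcases hσ t (Finset.mem_insert_self t T) with ⟨h1, h2, h3⟩ | ⟨h1, h2, h3⟩
    · have h4 : Ioo t b ⊆ w' := hor.resolve_left fun h5 =>
        LINE_not hd (mem_of_superset (Ioo_mem_nhdsGT ht.2) h5) h3
      have h5 := (ih'.resolve_right fun h6 => LINE_not hd h2 h6.1).2
      refine Or.inr ⟨mem_of_superset (Ioo_mem_nhdsLT ht.2) h4, ?_⟩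
      rw [h5, LINE_out hd ht.2.le h4, h1]
      ring
    · have h4 : Ioo t b ⊆ w := hor.resolve_right fun h5 =>
        LINE_not hd h3 (mem_of_superset (Ioo_mem_nhdsGT ht.2) h5)
      have h5 := (ih'.resolve_left fun h6 => LINE_not hd h6.1 h2).2
      refine Or.inl ⟨mem_of_superset (Ioo_mem_nhdsLT ht.2) h4, ?_⟩
      rw [h5, LINE_in hh ht.2.le h4, h1]
      ring

/- Hint. Induction on T (Finset.induction_on_max) for the statement with free end point: for b not in T
with all of Icc (-R') b covered, int over w cap Iic b of h' = sum over T cap Iio b of sigma h +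
(if b in w then h b else 0); or sort T and use that each gap is preconnected, so inside w or
inside w' (IsPreconnected.subset_or_subset), intervalIntegral.integral_deriv_eq_sub. Another way:
H b = int over w cap Iic b of h' - indicator w h b - sum over T cap Iic b' is locally constant,
continuous. Points of T with |t| >= R contribute 0; R <= 0 means h = 0. -/
theorem line_of : S_LINE := by
  intro h w w' T σ R hh h0 hw hw' hd hcov hσ
  rcases le_or_gt R 0 with hR | hR
  · have hz : h = fun _ => 0 := funext fun t => h0 t (hR.trans (abs_nonneg t))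
    subst hz
    simp
  classical
  have hm := LINE_main hh hw hw' hd σ (a := -R) (h0 _ (by rw [abs_neg, abs_of_pos hR]))
    (T.filter fun t => t ∈ Ioo (-R) R) R (by linarith) (fun t ht => (Finset.mem_filter.1 ht).2)
    (fun t ht => by
      rcases hcov t (Ioo_subset_Icc_self ht) with h1 | h1 | h1
      · exact Or.inl h1
      · exact Or.inr (Or.inl h1)
      · exact Or.inr (Or.inr (Finset.mem_filter.2 ⟨h1, ht⟩)))
    fun t ht => hσ t (Finset.mem_filter.1 ht).1
  have hsum : ∑ t ∈ T.filter fun t => t ∈ Ioo (-R) R, σ t * h t = ∑ t ∈ T, σ t * h t := by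
    refine Finset.sum_filter_of_ne fun t _ hne => ?_
    by_contra hn
    refine hne ?_
    rw [h0 t (not_lt.1 fun hlt => hn (abs_lt.1 hlt)), mul_zero]
  have hint : ∫ t in w, deriv h t = ∫ t in (-R)..R, w.indicator (deriv h) t := by
    rw [intervalIntegral.integral_of_le (by linarith), ← integral_Icc_eq_integral_Ioc,
      ← integral_indicator hw.measurableSet]
    refine (setIntegral_eq_integral_of_forall_compl_eq_zero fun t ht => ?_).symm
    have h1 : R < |t| := by
      by_contra hle
      exact ht (abs_le.1 (not_lt.1 hle))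
    have h2 : h =ᶠ[𝓝 t] fun _ => 0 := by
      filter_upwards [(isOpen_lt continuous_const continuous_abs).mem_nhds h1] with s hs
      exact h0 s (le_of_lt hs)
    have h3 : deriv h t = 0 := by rw [h2.deriv_eq, deriv_const]
    by_cases htw : t ∈ w
    · rw [indicator_of_mem htw, h3]
    · rw [indicator_of_notMem htw]
  rw [hint, ← hsum]
  rcases hm with h1 | h1
  · rw [h1.2, h0 R (le_abs_self R), zero_add]
  · exact h1.2

end MW
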