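import Pool.Agent.P.MP_064970_gt.I.SX

open scoped Manifold ContDiff
open MeasureTheory Set Filter Topology Metric
open scoped RealInnerProductSpace ENNReal ComplexConjugate Real

noncomputable section

namespace MW

universe u

/- Hint. Chart c from M.chart; BOXE with n = N p and G intersected with O and with a neighbourhood on whose
S-points <v, N> > 0 (N_cont). The halves U+ and U- are preconnected, in O, miss S, so
Surf.subset_W' / subset_W apply with the point p + t v (M.side and Box.right at z = 0). For x in S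
cap U: x = X (om x), use m = N x (Fits.inner_Xu, inner_Xv). -/
theorem locs_of (hBOXE : S_BOXE) : S_LOCS := by
  intro M p hp v hv G hG
  obtain ⟨c, rfl, hf⟩ := M.chart p hp
  have h0 : (0 : ℂ) ∈ ball (0 : ℂ) c.r := mem_ball_self c.r_pos
  have hc : ContinuousWithinAt (fun x => ⟪v, M.N x⟫) M.S (c.X 0) :=
    continuousWithinAt_const.inner (M.N_cont _ hp)
  have hN : ∀ᶠ x in 𝓝 (c.X 0), x ∈ M.S → 0 < ⟪v, M.N x⟫ :=
    eventually_nhdsWithin_iff.1 (hc.eventually (lt_mem_nhds hv))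
  obtain ⟨ε, U, om, τ, hB, hpU, hUG, hS, hc1, hc2, hd⟩ := hBOXE M.S c ⟨hf.inj, hf.opn⟩ v
    (M.N (c.X 0)) (hf.inner_Xu h0) (hf.inner_Xv h0) hv.ne' _
    (inter_mem hG (inter_mem (M.isOpen_O.mem_nhds (M.S_subset hp)) hN))
  have hO : U ⊆ M.O := fun x hx => (hUG hx).2.1
  obtain ⟨t, ⟨ht1, ht2⟩, ht3, ht4⟩ := ((M.side _ hp v hv).and (Ioo_mem_nhdsGT hB.pos)).exists
  have hr1 := hB.right 0 (mem_ball_self hB.pos) t (by rwa [abs_of_pos ht3])
  have hr2 := hB.right 0 (mem_ball_self hB.pos) (-t) (by rwa [abs_neg, abs_of_pos ht3])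
  rw [neg_smul, ← sub_eq_add_neg] at hr2
  have hW' := M.subset_W' hc1 (fun x hx => hO hx.1)
    (disjoint_left.2 fun x hx hs => hx.2.ne' ((hS x hx.1).1 hs)) ⟨hr1.1, by rwa [hr1.2.2]⟩ ht1
  have hW := M.subset_W hc2 (fun x hx => hO hx.1)
    (disjoint_left.2 fun x hx hs => hx.2.ne ((hS x hx.1).1 hs))
    ⟨hr2.1, by rw [hr2.2.2]; linarith⟩ ht2
  refine ⟨c, ε, U, om, τ, rfl, hf, hB, hpU, fun x hx => (hUG hx).1, hO, fun x hx =>
    ⟨hS x hx, ⟨fun h => ?_, fun h => hW' ⟨hx, h⟩⟩, fun h => ?_, fun h => hW ⟨hx, h⟩⟩,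
    fun x hx => ⟨(hUG hx.2).2.2 hx.1, ?_⟩⟩
  · rcases lt_trichotomy (τ x) 0 with h1 | h1 | h1
    · exact (disjoint_left.1 M.disj (hW ⟨hx, h1⟩) h).elim
    · exact (disjoint_left.1 M.disjS' h ((hS x hx).2 h1)).elim
    · exact h1
  · rcases lt_trichotomy (τ x) 0 with h1 | h1 | h1
    · exact h1
    · exact (disjoint_left.1 M.disjS h ((hS x hx).2 h1)).elim
    · exact (disjoint_left.1 M.disj h (hW' ⟨hx, h1⟩)).elim
  · obtain ⟨h1, -, h2⟩ := hB.left x hx.2
    rw [(hS x hx.2).1 hx.1, zero_smul, add_zero] at h2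
    have h3 := (hd _ h1 (M.N (c.X (om x))) (M.N_unit _ (by rw [h2]; exact hx.1))
      (hf.inner_Xu (hB.sub h1)) (hf.inner_Xv (hB.sub h1))).2
    rwa [h2] at h3

end MW
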