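import Pool.Agent.P.MP_064970_gt.I.SX

open scoped Manifold ContDiff
open MeasureTheory Set Filter Topology Metric
open scoped RealInnerProductSpace ENNReal ComplexConjugate Real

noncomputable section

namespace MW

universe u

theorem low_of (hMONO : S_MONO) (hLOW0 : S_LOW0) : S_LOW := by
  intro M p r hp hr hO
  have hfin : M.μ (closedBall p r) < ⊤ := M.mu_lt_top (isCompact_closedBall p r) hO
  have hcont : ∀ s : ℝ, Continuous fun x : E => lam (‖x - p‖ ^ 2 / s ^ 2) := fun s =>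
    contDiff_lam.continuous.comp (by fun_prop)
  have hzero : ∀ s : ℝ, 0 < s → ∀ x : E, x ∉ ball p s → lam (‖x - p‖ ^ 2 / s ^ 2) = 0 := by
    intro s hs x hx
    rw [mem_ball, dist_eq_norm, not_lt] at hx
    refine lam_eq_zero ?_
    rw [le_div_iff₀ (by positivity), one_mul]
    exact pow_le_pow_left₀ hs.le hx 2
  have hint : ∀ s : ℝ, 0 < s → s ≤ r →
      Integrable (fun x : E => lam (‖x - p‖ ^ 2 / s ^ 2)) M.μ := by
    intro s hs hsr
    refine (integrableOn_iff_integrable_of_support_subset (s := closedBall p r) ?_).1 ?_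
    · intro x hx
      by_contra h
      exact hx (hzero s hs x fun h' => h (ball_subset_closedBall (ball_subset_ball hsr h')))
    · refine Measure.integrableOn_of_bounded (M := 4 / π) hfin.ne
        (hcont s).aestronglyMeasurable (Eventually.of_forall fun x => ?_)
      rw [Real.norm_eq_abs, abs_of_nonneg (lam_nonneg _)]
      exact lam_le (by positivity)
  have h1 : 1 ≤ M.Θ p r := by
    obtain ⟨c, hc0, hc⟩ := M.chart p hp
    have hρ : c.r / 2 < c.r := half_lt_self c.r_pos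
    refine le_of_forall_pos_le_add fun ε hε => ?_
    have hs : ∀ᶠ s in 𝓝[>] (0 : ℝ), s ∈ Ioc (0 : ℝ) r := Ioc_mem_nhdsGT hr
    obtain ⟨s, h2, hs0, hsr⟩ :=
      ((hLOW0 c (c.r / 2) (half_pos c.r_pos) hρ ε hε).and hs).exists
    have h3 := (hMONO M p s r hs0 hsr hO).1
    have h4 := hc.integral (A := ball 0 (c.r / 2)) measurableSet_ball (ball_subset_ball hρ.le)
      (hcont s).measurable
    have h5 : ∫ x in c.X '' ball 0 (c.r / 2), lam (‖x - p‖ ^ 2 / s ^ 2) ∂M.μ
        ≤ ∫ x, lam (‖x - p‖ ^ 2 / s ^ 2) ∂M.μ :=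
      setIntegral_le_integral (hint s hs0 hsr) (Eventually.of_forall fun x => lam_nonneg _)
    rw [hc0, ← h4] at h2
    have h6 : (∫ x in c.X '' ball 0 (c.r / 2), lam (‖x - p‖ ^ 2 / s ^ 2) ∂M.μ) / s ^ 2
        ≤ M.Θ p s := div_le_div_of_nonneg_right h5 (by positivity)
    linarith
  refine ⟨h1, ?_⟩
  have hb : M.μ (ball p r) < ⊤ := (measure_mono ball_subset_closedBall).trans_lt hfin
  have h2 : ∫ x, lam (‖x - p‖ ^ 2 / r ^ 2) ∂M.μ ≤ 4 / π * M.μ.real (ball p r) := by
    rw [← setIntegral_eq_integral_of_forall_compl_eq_zero (hzero r hr)]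
    refine (le_abs_self _).trans ?_
    rw [← Real.norm_eq_abs]
    refine norm_setIntegral_le_of_norm_le_const hb fun x _ => ?_
    rw [Real.norm_eq_abs, abs_of_nonneg (lam_nonneg _)]
    exact lam_le (by positivity)
  have h3 : r ^ 2 ≤ ∫ x, lam (‖x - p‖ ^ 2 / r ^ 2) ∂M.μ := by
    have : 1 ≤ (∫ x, lam (‖x - p‖ ^ 2 / r ^ 2) ∂M.μ) / r ^ 2 := h1
    rwa [le_div_iff₀ (by positivity), one_mul] at this
  have hπ := Real.pi_pos
  calc π / 4 * r ^ 2 ≤ π / 4 * (4 / π * M.μ.real (ball p r)) := by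
        gcongr; exact h3.trans h2
    _ = M.μ.real (ball p r) := by field_simp

end MW
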