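import Pool.Agent.P.MP_064970_gt.I.SX

open scoped Manifold ContDiff
open MeasureTheory Set Filter Topology Metric
open scoped RealInnerProductSpace ENNReal ComplexConjugate Real

noncomputable section

namespace MW

universe u

theorem LOW0_lip (c : Chart) {η : ℝ} (hη : 0 < η) :
    ∀ᶠ z in 𝓝 (0 : ℂ), ‖c.X z - c.X 0‖ ≤ (√(c.jac 0) + η) * ‖z‖ := by
  have h0 : (0 : ℂ) ∈ ball (0 : ℂ) c.r := mem_ball_self c.r_pos
  filter_upwards [(c.hasFDerivAt_X h0).isLittleO.def hη] with z hz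
  rw [sub_zero] at hz
  have h1 : ‖c.DX 0 z‖ = √(c.jac 0) * ‖z‖ := by
    rw [← Real.sqrt_sq (norm_nonneg (c.DX 0 z)), c.norm_DX_sq h0, Real.sqrt_mul (c.jac_nonneg 0),
      Real.sqrt_sq (norm_nonneg z)]
  have h2 := norm_le_norm_sub_add (c.X z - c.X 0) (c.DX 0 z)
  linarith

theorem LOW0_eta {J ε : ℝ} (hJ : 0 < J) (hε : 0 < ε) :
    ∃ η, 0 < η ∧ 1 - ε < (J - η) / (√J + η) ^ 2 := by
  have h1 : ContinuousAt (fun η : ℝ => (J - η) / (√J + η) ^ 2) 0 :=
    ContinuousAt.div (by fun_prop) (by fun_prop) (by rw [add_zero, Real.sq_sqrt hJ.le]; exact hJ.ne')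
  have h2 : 1 - ε < (J - 0) / (√J + 0) ^ 2 := by
    rw [sub_zero, add_zero, Real.sq_sqrt hJ.le, div_self hJ.ne']
    linarith
  have h3 : ∀ᶠ η in 𝓝[>] (0 : ℝ), 1 - ε < (J - η) / (√J + η) ^ 2 :=
    (h1.eventually (lt_mem_nhds h2)).filter_mono nhdsWithin_le_nhds
  obtain ⟨η, h4, h5⟩ := (h3.and self_mem_nhdsWithin).exists
  exact ⟨η, h5, h4⟩

theorem LOW0_zero {z : ℂ} {s : ℝ} (hs : 0 < s) (h : s ≤ ‖z‖) : lam (‖z - 0‖ ^ 2 / s ^ 2) = 0 := by
  rw [sub_zero]
  refine lam_eq_zero ?_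
  rw [le_div_iff₀ (by positivity), one_mul]
  exact pow_le_pow_left₀ hs.le h 2

/- Hint. Fix eta. For |z| < del <= rho: |X z - X 0|^2 <= a |z|^2 with a = (1+eta) jac 0 (hasFDerivAt_X,
norm_DX_sq) and jac z >= (1-eta) jac 0. For r with r/sqrt a <= del: the integrand is >= (1-eta)
jac 0 * lam (|z|^2/(r/sqrt a)^2) on ball 0 rho (lam_antitone on ball del; the right side vanishes
outside), whose integral over ball 0 rho is (1-eta) jac 0 r^2/a (integral_lam,
setIntegral_eq_integral_of_forall_compl_eq_zero). The integrand is continuous on closedBall 0 rho,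
so integrable. -/
theorem low0_of : S_LOW0 := by
  intro c ρ hρ hρr ε hε
  have h0 : (0 : ℂ) ∈ ball (0 : ℂ) c.r := mem_ball_self c.r_pos
  obtain ⟨η, hη, h1⟩ := LOW0_eta (c.jac_pos h0) hε
  have h2 : ∀ᶠ z in 𝓝 (0 : ℂ), c.jac 0 - η < c.jac z :=
    (c.continuousOn_jac.continuousAt (isOpen_ball.mem_nhds h0)).eventually
      (lt_mem_nhds (sub_lt_self _ hη))
  obtain ⟨δ, hδ, h3⟩ := Metric.eventually_nhds_iff_ball.1 ((LOW0_lip c hη).and h2)
  have hb : 0 < √(c.jac 0) + η := by positivity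
  generalize √(c.jac 0) + η = b at h1 h3 hb
  generalize c.jac 0 - η = j at h1 h3
  filter_upwards [Ioo_mem_nhdsGT (mul_pos (lt_min hδ hρ) hb)] with r hr
  have hr0 := hr.1
  have hs : 0 < r / b := div_pos hr0 hb
  have hs1 := lt_min_iff.1 ((div_lt_iff₀ hb).2 hr.2)
  have hsub : closedBall (0 : ℂ) ρ ⊆ ball 0 c.r := closedBall_subset_ball hρr
  have hi : IntegrableOn (fun z => lam (‖c.X z - c.X 0‖ ^ 2 / r ^ 2) * c.jac z) (ball 0 ρ) := by
    refine (ContinuousOn.integrableOn_compact (isCompact_closedBall 0 ρ) ?_).mono_set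
      ball_subset_closedBall
    exact (contDiff_lam.continuous.comp_continuousOn
      ((((c.continuousOn_X.mono hsub).sub continuousOn_const).norm.pow 2).div_const _)).mul
      (c.continuousOn_jac.mono hsub)
  have h4 : ∫ z in ball (0 : ℂ) ρ, lam (‖z - 0‖ ^ 2 / (r / b) ^ 2) * j = (r / b) ^ 2 * j := by
    rw [integral_mul_const, setIntegral_eq_integral_of_forall_compl_eq_zero, integral_lam 0 hs]
    intro z hz
    rw [mem_ball_zero_iff, not_lt] at hz
    exact LOW0_zero hs (hs1.2.le.trans hz)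
  have h5 : ∫ z in ball (0 : ℂ) ρ, lam (‖z - 0‖ ^ 2 / (r / b) ^ 2) * j ≤
      ∫ z in ball (0 : ℂ) ρ, lam (‖c.X z - c.X 0‖ ^ 2 / r ^ 2) * c.jac z := by
    refine integral_mono ((integrable_lam 0 hs).mul_const j).integrableOn hi fun z => ?_
    by_cases hz : z ∈ ball (0 : ℂ) δ
    · obtain ⟨h6, h7⟩ := h3 z hz
      refine (mul_le_mul_of_nonneg_left h7.le (lam_nonneg _)).trans
        (mul_le_mul_of_nonneg_right (lam_antitone ?_) (c.jac_nonneg z))
      rw [sub_zero, div_pow, div_div_eq_mul_div, ← mul_pow, mul_comm]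
      exact div_le_div_of_nonneg_right (pow_le_pow_left₀ (norm_nonneg _) h6 2) (sq_nonneg r)
    · rw [mem_ball_zero_iff, not_lt] at hz
      simp only [LOW0_zero hs (hs1.1.le.trans hz), zero_mul]
      exact mul_nonneg (lam_nonneg _) (c.jac_nonneg z)
  rw [h4] at h5
  refine h1.le.trans (le_trans (le_of_eq ?_) (div_le_div_of_nonneg_right h5 (sq_nonneg r)))
  field_simp

end MW
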