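import Pool.Agent.P.MP_064970_gt.I.SX

open scoped Manifold ContDiff
open MeasureTheory Set Filter Topology Metric
open scoped RealInnerProductSpace ENNReal ComplexConjugate Real

noncomputable section

namespace MW

universe u

section aux

variable {Ω : Type u} [TopologicalSpace Ω] [MeasurableSpace Ω] [BorelSpace Ω] {f : Ω → E}

/-- The area measure in the parameter disc. -/
def MEAS_nu (c : Chart) : Measure ℂ := volume.withDensity fun z => ENNReal.ofReal (c.jac z)

/-- The area measure of one chart. -/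
def MEAS_mc (c : PChart f) : Measure Ω :=
  ((MEAS_nu c.toChart).comap (Subtype.val : c.ψ.source → ℂ)).map (c.ψ.source.domRestrict c.ψ)

theorem MEAS_emb (c : PChart f) : MeasurableEmbedding (c.ψ.source.domRestrict c.ψ) :=
  c.ψ.isOpenEmbedding_restrict.measurableEmbedding

omit [MeasurableSpace Ω] [BorelSpace Ω] in
theorem MEAS_val (c : PChart f) : MeasurableEmbedding (Subtype.val : c.ψ.source → ℂ) :=
  MeasurableEmbedding.subtype_coe c.ψ.open_source.measurableSet

omit [MeasurableSpace Ω] [BorelSpace Ω] in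
theorem MEAS_pre (c : PChart f) (B : Set Ω) :
    (Subtype.val : c.ψ.source → ℂ) '' (c.ψ.source.domRestrict c.ψ ⁻¹' B)
      = c.ψ.source ∩ c.ψ ⁻¹' B := by
  ext z
  constructor
  · rintro ⟨w, hw, rfl⟩
    exact ⟨w.2, hw⟩
  · rintro ⟨h1, h2⟩
    exact ⟨⟨z, h1⟩, h2, rfl⟩

theorem MEAS_mc_apply (c : PChart f) (B : Set Ω) :
    MEAS_mc c B = MEAS_nu c.toChart (c.ψ.source ∩ c.ψ ⁻¹' B) := by
  rw [MEAS_mc, (MEAS_emb c).map_apply, (MEAS_val c).comap_apply, MEAS_pre]

theorem MEAS_meas_pre (c : PChart f) {B : Set Ω} (hB : MeasurableSet B) :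
    MeasurableSet (c.ψ.source ∩ c.ψ ⁻¹' B) := by
  rw [← MEAS_pre]
  exact (MEAS_val c).measurableSet_image.2 ((MEAS_emb c).measurable hB)

theorem MEAS_meas_image (c : PChart f) {A : Set ℂ} (hA : MeasurableSet A) (hs : A ⊆ c.ψ.source) :
    MeasurableSet (c.ψ '' A) := by
  have : c.ψ '' A = c.ψ.source.domRestrict c.ψ '' (Subtype.val ⁻¹' A) := by
    ext y
    constructor
    · rintro ⟨z, hz, rfl⟩
      exact ⟨⟨z, hs hz⟩, hz, rfl⟩
    · rintro ⟨w, hw, rfl⟩
      exact ⟨w, hw, rfl⟩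
  rw [this]
  exact (MEAS_emb c).measurableSet_image.2 ((MEAS_val c).measurable hA)

theorem MEAS_compat (hCOMPAT : S_COMPAT) (c c' : PChart f) {A : Set ℂ} (hA : MeasurableSet A)
    (hs : A ⊆ c.ψ.source) (ht : c.ψ '' A ⊆ c'.ψ.target) :
    MEAS_mc c' (c.ψ '' A) = MEAS_nu c.toChart A := by
  set e := c.ψ.trans c'.ψ.symm with he
  have hsrc : ∀ z, z ∈ e.source ↔ z ∈ c.ψ.source ∧ c.ψ z ∈ c'.ψ.target := fun z => by
    rw [he, OpenPartialHomeomorph.trans_source]; rfl
  have hap : ∀ z, e z = c'.ψ.symm (c.ψ z) := fun z => rfl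
  have hAe : A ⊆ e.source := fun z hz => (hsrc z).2 ⟨hs hz, ht ⟨z, hz, rfl⟩⟩
  have hball : e.source ⊆ ball (0 : ℂ) c.r := fun z hz => c.src ▸ ((hsrc z).1 hz).1
  have hmaps : MapsTo e e.source (ball (0 : ℂ) c'.r) := fun z hz => by
    rw [hap, ← c'.src]
    exact c'.ψ.map_target ((hsrc z).1 hz).2
  have hX : ∀ z ∈ e.source, c'.toChart.X (e z) = c.toChart.X z := fun z hz => by
    rw [← c'.eq _ (hmaps hz), hap, c'.ψ.right_inv ((hsrc z).1 hz).2, c.eq z (hball hz)]
  have hdiff : DifferentiableOn ℝ c.toChart.X e.source := fun z hz =>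
    (c.toChart.hasFDerivAt_X (hball hz)).differentiableAt.differentiableWithinAt
  have key := (hCOMPAT c'.toChart c.toChart.X e e.source e.open_source e.continuousOn hmaps hX
    hdiff).2.2 e.injOn A hA hAe
  have him : c'.ψ.source ∩ c'.ψ ⁻¹' (c.ψ '' A) = e '' A := by
    ext w
    constructor
    · rintro ⟨hw, z, hz, hzw⟩
      exact ⟨z, hz, by rw [hap, hzw, c'.ψ.left_inv hw]⟩
    · rintro ⟨z, hz, rfl⟩
      have h1 := ((hsrc z).1 (hAe hz)).2
      refine ⟨c'.ψ.map_target h1, z, hz, ?_⟩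
      rw [hap, c'.ψ.right_inv h1]
  have hm : MeasurableSet (e '' A) := by
    rw [← him]
    exact MEAS_meas_pre c' (MEAS_meas_image c hA hs)
  rw [MEAS_mc_apply, him, MEAS_nu, MEAS_nu, withDensity_apply _ hm, withDensity_apply _ hA, key]
  refine setLIntegral_congr_fun hA fun z hz => ?_
  simp only [c.toChart.gramC_X (hball (hAe hz))]

end aux

/- Hint. Countably many charts c_n whose targets cover (TopologicalSpace.countable_cover_nhds or
IsLindelof; treat the empty space separately), P_n = disjointed targets, m = Measure.sum of (map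
psi_n' ((volume.restrict (ball cap psi_n preimage P_n)).withDensity jac_n)), psi_n' a measurable
modification of psi_n. For a chart c and A: psi '' A is the disjoint union of psi '' A_n, A_n = A
cap psi preimage P_n; COMPAT with Y = c.X, g = psi_n.symm o psi on the open set D = source of
psi.trans psi_n.symm gives m_n (psi '' A) = int over A_n of jac (Chart.gramC_X); lintegral_iUnion. -/
theorem meas_of (hCOMPAT : S_COMPAT) : S_MEAS.{u} := by
  intro Ω _ _ _ _ f hf
  rcases isEmpty_or_nonempty Ω with hΩ | hΩ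
  · exact ⟨0, fun c => (hΩ.false (c.ψ 0)).elim⟩
  choose ch hch using hf
  have hn : ∀ p, (ch p).ψ.target ∈ 𝓝 p := fun p => by
    refine (ch p).ψ.open_target.mem_nhds ?_
    have h0 : (0 : ℂ) ∈ (ch p).ψ.source := by
      rw [(ch p).src]
      exact mem_ball_self (ch p).r_pos
    have := (ch p).ψ.map_source h0
    rwa [hch p] at this
  obtain ⟨s, hsc, hs⟩ := TopologicalSpace.countable_cover_nhds hn
  have hsne : s.Nonempty := by
    obtain ⟨p⟩ := hΩ
    have : p ∈ ⋃ x ∈ s, (ch x).ψ.target := hs ▸ mem_univ p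
    obtain ⟨x, hx, -⟩ := mem_iUnion₂.1 this
    exact ⟨x, hx⟩
  obtain ⟨q, rfl⟩ := hsc.exists_eq_range hsne
  rw [biUnion_range] at hs
  set T : ℕ → Set Ω := fun n => (ch (q n)).ψ.target with hT
  have hTm : ∀ n, MeasurableSet (T n) := fun n => (ch (q n)).ψ.open_target.measurableSet
  have hP : ∀ n, MeasurableSet (disjointed T n) := MeasurableSet.disjointed hTm
  refine ⟨Measure.sum fun n => (MEAS_mc (ch (q n))).restrict (disjointed T n), ?_⟩
  intro c A hA hAs
  have hAs' : A ⊆ c.ψ.source := c.src ▸ hAs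
  have him := MEAS_meas_image c hA hAs'
  set An : ℕ → Set ℂ := fun n => A ∩ (c.ψ.source ∩ c.ψ ⁻¹' disjointed T n) with hAn
  have hAm : ∀ n, MeasurableSet (An n) := fun n => hA.inter (MEAS_meas_pre c (hP n))
  have hsub : ∀ n, An n ⊆ c.ψ.source := fun n z hz => hz.2.1
  have hAi : ∀ n, c.ψ '' A ∩ disjointed T n = c.ψ '' An n := fun n => by
    ext y
    constructor
    · rintro ⟨⟨z, hz, rfl⟩, hy⟩
      exact ⟨z, ⟨hz, hAs' hz, hy⟩, rfl⟩
    · rintro ⟨z, hz, rfl⟩
      exact ⟨⟨z, hz.1, rfl⟩, hz.2.2⟩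
  have hU : A = ⋃ n, An n := by
    refine Subset.antisymm (fun z hz => ?_) (iUnion_subset fun n => inter_subset_left)
    have : c.ψ z ∈ ⋃ n, disjointed T n := by
      rw [iUnion_disjointed, hs]
      exact mem_univ _
    obtain ⟨n, hn⟩ := mem_iUnion.1 this
    exact mem_iUnion.2 ⟨n, hz, hAs' hz, hn⟩
  have hd : Pairwise (Function.onFun Disjoint An) := fun i j hij => by
    refine Set.disjoint_left.2 fun z hi hj => ?_
    exact Set.disjoint_left.1 (disjoint_disjointed T hij) hi.2.2 hj.2.2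
  rw [Measure.sum_apply _ him, ← withDensity_apply _ hA]
  change _ = MEAS_nu c.toChart A
  conv_rhs => rw [hU]
  rw [measure_iUnion hd hAm]
  refine tsum_congr fun n => ?_
  rw [Measure.restrict_apply him, hAi]
  refine MEAS_compat hCOMPAT c (ch (q n)) (hAm n) (hsub n) ?_
  rw [← hAi]
  exact fun y hy => disjointed_subset T n hy.2

end MW
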