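import Pool.Agent.P.MP_064970_gt.I.SX

open scoped Manifold ContDiff
open MeasureTheory Set Filter Topology Metric
open scoped RealInnerProductSpace ENNReal ComplexConjugate Real

noncomputable section

namespace MW

universe u

theorem meass_of (hMEAS : S_MEAS.{0}) (hTOP : S_TOP) : S_MEASS := by
  intro S hS hc
  obtain ⟨m, hm⟩ := hMEAS S (Subtype.val : S → E) (fun p => by
    obtain ⟨c, h0, he⟩ := hc p.1 p.2
    obtain ⟨c', hc'⟩ := hTOP S c he
    refine ⟨c', Subtype.ext ?_⟩
    have := c'.eq 0 (mem_ball_self c'.r_pos)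
    rw [this, hc', h0])
  have hemb : MeasurableEmbedding (Subtype.val : S → E) := MeasurableEmbedding.subtype_coe hS
  refine ⟨m.map Subtype.val, ?_, fun c he A hA hAr => ?_⟩
  · rw [hemb.map_apply]
    have : (Subtype.val : S → E) ⁻¹' Sᶜ = ∅ := by ext x; simp
    rw [this, measure_empty]
  · obtain ⟨c', rfl⟩ := hTOP S c he
    rw [hemb.map_apply, ← hm c' A hA hAr]
    congr 1
    ext x
    constructor
    · rintro ⟨z, hz, hx⟩
      exact ⟨z, hz, Subtype.ext ((c'.eq z (hAr hz)).trans hx)⟩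
    · rintro ⟨z, hz, rfl⟩
      exact ⟨z, hz, (c'.eq z (hAr hz)).symm⟩

end MW
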