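import Pool.Agent.P.MP_064970_gt.I.SX

open scoped Manifold ContDiff
open MeasureTheory Set Filter Topology Metric
open scoped RealInnerProductSpace ENNReal ComplexConjugate Real

noncomputable section

namespace MW

universe u

theorem MINC_lin (L : ℂ →L[ℝ] E) (x : ℂ) : L x = x.re • L 1 + x.im • L Complex.I := by
  rw [← map_smul, ← map_smul, ← map_add]
  congr 1
  apply Complex.ext <;> simp

theorem MINC_ne {L : ℂ →L[ℝ] E} (h : Function.Injective L) : cr (L 1) (L Complex.I) ≠ 0 := by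
  intro h0
  have h1 := cr_cr (L 1) (L 1) (L Complex.I)
  have h2 : cr (L 1) 0 = 0 := by apply E_ext <;> simp
  rw [h0, h2, ← map_smul, ← map_smul, ← map_sub, ← map_zero L] at h1
  have h3 := congrArg Complex.im (h h1)
  simp only [Complex.zero_im, Complex.sub_im, Complex.smul_im, Complex.one_im, Complex.I_im,
    smul_eq_mul, mul_zero, mul_one, zero_sub, zero_eq_neg, inner_self_eq_zero] at h3
  exact one_ne_zero (h (h3.trans (map_zero L).symm))

theorem MINC_alg {u v a b : E} (hm : cr u v ≠ 0) (ha : ⟪cr u v, a⟫ = 0) (hb : ⟪cr u v, b⟫ = 0)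
    (hs : ⟪a, v⟫ = ⟪b, u⟫) (h : ⟪v, v⟫ * ⟪a, u⟫ - 2 * ⟪u, v⟫ * ⟪a, v⟫ + ⟪u, u⟫ * ⟪b, v⟫ = 0) :
    cr a v = cr b u := by
  have h1 : cr (cr u v) (cr a v - cr b u) = 0 := by
    rw [← crL_apply, map_sub, crL_apply, crL_apply, cr_cr, cr_cr, ha, hb, real_inner_comm,
      inner_cr_right, real_inner_comm, inner_cr_left]
    simp
  have h2 : ⟪cr u v, cr a v - cr b u⟫ = 0 := by
    simp only [inner_eq, PiLp.sub_apply, cr_0, cr_1, cr_2] at hs h ⊢
    linear_combination h + (u 0 * v 0 + u 1 * v 1 + u 2 * v 2) * hs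
  have h3 := norm_sq_cr (cr u v) (cr a v - cr b u)
  rw [h1, h2, norm_zero] at h3
  have h4 : ‖cr u v‖ ^ 2 * ‖cr a v - cr b u‖ ^ 2 = 0 := by linarith
  rcases mul_eq_zero.1 h4 with h5 | h5
  · exact absurd (norm_eq_zero.1 (pow_eq_zero_iff two_ne_zero |>.1 h5)) hm
  · exact sub_eq_zero.1 (norm_eq_zero.1 (pow_eq_zero_iff two_ne_zero |>.1 h5))

theorem MINC_bil {A n' : ℂ →L[ℝ] E} (h : cr (n' 1) (A Complex.I) = cr (n' Complex.I) (A 1))
    (x y : ℂ) : cr (n' x) (A y) = cr (n' y) (A x) := by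
  have h0 := congrArg (fun w : E => w 0) h
  have h1 := congrArg (fun w : E => w 1) h
  have h2 := congrArg (fun w : E => w 2) h
  rw [MINC_lin n' x, MINC_lin n' y, MINC_lin A x, MINC_lin A y]
  simp only [cr_0, cr_1, cr_2] at h0 h1 h2
  apply E_ext <;> simp only [cr_0, cr_1, cr_2, PiLp.add_apply, PiLp.smul_apply, smul_eq_mul]
  · linear_combination (x.re * y.im - x.im * y.re) * h0
  · linear_combination (x.re * y.im - x.im * y.re) * h1
  · linear_combination (x.re * y.im - x.im * y.re) * h2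

/- Hint. Yu = dd 1 Y, Yv = dd I Y are C1 on D, m = cr Yu Yv <> 0 (injectivity: if cr Yu Yv = 0 then
cr_cr gives a linear relation), n = m/|m| is C1. The form om y = (crL (n y)).comp (fderiv Y y) is
differentiable with fderiv om a x y = cr (Dn x) (DY y) + cr n (D2Y x y); D2Y is symmetric
(ContDiffAt.isSymmSndFDerivAt). It suffices to show q := cr n_u Yv - cr n_v Yu = 0 (bilinearity, w
= re + im I). The vectors n_u, n_v, Yu, Yv are all orthogonal to n (differentiate |n|^2 = 1), so
cr n q = 0 (cr_cr) and q is parallel to n; and <m, q> is, by the identity <cr a b, cr c d> =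
<a,c><b,d> - <a,d><b,c>, a combination of <n_u,Yu> = -<n,Yuu>, <n_u,Yv> = -<n,Yuv> = <n_v,Yu>,
<n_v,Yv> = -<n,Yvv> equal to minus the left side of MinEq. Then
Convex.exists_forall_hasFDerivAt_of_fderiv_symmetric. -/
theorem minc_of : S_MINC := by
  intro Y D hD hc hY hinj hmin
  have hF : ∀ z ∈ D, DifferentiableAt ℝ (fderiv ℝ Y) z := fun z hz =>
    ((hY.contDiffAt (hD.mem_nhds hz)).fderiv_right (m := 1) (by norm_num)).differentiableAt
      one_ne_zero
  have hFw : ∀ z ∈ D, ∀ w : ℂ, HasFDerivAt (fun y => fderiv ℝ Y y w)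
      ((fderiv ℝ (fderiv ℝ Y) z).flip w) z := fun z hz w => by
    simpa using (hF z hz).hasFDerivAt.clm_apply (hasFDerivAt_const w z)
  let m : ℂ → E := fun y => cr (fderiv ℝ Y y 1) (fderiv ℝ Y y Complex.I)
  have hm0 : ∀ z ∈ D, m z ≠ 0 := fun z hz => MINC_ne (hinj z hz)
  have hm : ∀ z ∈ D, DifferentiableAt ℝ m z := fun z hz =>
    (crL.differentiableAt.comp z (hFw z hz 1).differentiableAt).clm_apply
      (hFw z hz Complex.I).differentiableAt
  let n : ℂ → E := fun y => ‖m y‖⁻¹ • m y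
  have hn : ∀ z ∈ D, DifferentiableAt ℝ n z := fun z hz =>
    (((hm z hz).norm ℝ (hm0 z hz)).inv (norm_ne_zero_iff.2 (hm0 z hz))).smul (hm z hz)
  have hn1 : ∀ z ∈ D, ‖n z‖ = 1 := fun z hz => norm_smul_inv_norm (hm0 z hz)
  have horth : ∀ z w : ℂ, ⟪n z, fderiv ℝ Y z w⟫ = 0 := fun z w => by
    rw [MINC_lin (fderiv ℝ Y z) w, real_inner_smul_left, inner_add_right, real_inner_smul_right,
      real_inner_smul_right, real_inner_comm, inner_cr_left, real_inner_comm, inner_cr_right]
    simp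
  have hom : ∀ z ∈ D, HasFDerivAt (fun y => (crL (n y)).comp (fderiv ℝ Y y)) _ z := fun z hz =>
    (crL.hasFDerivAt.comp z (hn z hz).hasFDerivAt).clm_comp (hF z hz).hasFDerivAt
  have hdiff : DifferentiableOn ℝ (fun y => (crL (n y)).comp (fderiv ℝ Y y)) D := fun z hz =>
    (hom z hz).differentiableAt.differentiableWithinAt
  obtain ⟨Z, hZ⟩ := hc.exists_forall_hasFDerivAt_of_fderiv_symmetric hD hdiff fun z hz x y => by
      have hsym := (hY.contDiffAt (hD.mem_nhds hz)).isSymmSndFDerivAt (by simp)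
      have h1 : ∀ x w : ℂ, ⟪fderiv ℝ n z x, fderiv ℝ Y z w⟫ =
          -⟪n z, fderiv ℝ (fderiv ℝ Y) z x w⟫ := fun x w => by
        have h2 := ((hn z hz).hasFDerivAt.inner ℝ (hFw z hz w)).fderiv
        simp only [horth, fderiv_fun_const] at h2
        have h3 := congrArg (fun L : ℂ →L[ℝ] ℝ => L x) h2
        simp only [Pi.zero_apply, zero_apply, ContinuousLinearMap.comp_apply,
          ContinuousLinearMap.prod_apply, fderivInnerCLM_apply,
          ContinuousLinearMap.flip_apply] at h3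
        linarith
      have h2 : ∀ x : ℂ, ⟪m z, fderiv ℝ n z x⟫ = 0 := fun x => by
        have h3 := ((hn z hz).hasFDerivAt.inner ℝ (hn z hz).hasFDerivAt).fderiv
        have h4 : (fun y => ⟪n y, n y⟫) =ᶠ[𝓝 z] fun _ => (1 : ℝ) := by
          filter_upwards [hD.mem_nhds hz] with y hy
          rw [real_inner_self_eq_norm_sq, hn1 y hy, one_pow]
        rw [h4.fderiv_eq, fderiv_fun_const] at h3
        have h5 := congrArg (fun L : ℂ →L[ℝ] ℝ => L x) h3
        simp only [Pi.zero_apply, zero_apply, ContinuousLinearMap.comp_apply,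
          ContinuousLinearMap.prod_apply, fderivInnerCLM_apply] at h5
        rw [real_inner_comm (n z)] at h5
        have h6 : ⟪n z, fderiv ℝ n z x⟫ = 0 := by linarith
        rw [real_inner_smul_left] at h6
        exact (mul_eq_zero.1 h6).resolve_left (inv_ne_zero (norm_ne_zero_iff.2 (hm0 z hz)))
      have h3 : ∀ w w' : ℂ, dd w' (dd w Y) z = fderiv ℝ (fderiv ℝ Y) z w' w := fun w w' =>
        congrArg (fun L : ℂ →L[ℝ] E => L w') (hFw z hz w).fderiv
      have h4 := hmin z hz (n z) (horth z 1) (horth z Complex.I)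
      rw [h3, h3, h3] at h4
      have h5 := MINC_bil (MINC_alg (hm0 z hz) (h2 1) (h2 Complex.I)
        (by rw [h1, h1, hsym 1]) (by
          rw [h1, h1, h1, hsym 1 Complex.I]
          simp only [dd] at h4
          linarith)) x y
      rw [(hom z hz).fderiv]
      simp [h5, hsym x y]
  exact ⟨n, Z, fun z hz => (hn z hz).continuousAt.continuousWithinAt,
    fun z hz => ⟨hn1 z hz, horth z, hZ z hz⟩⟩

end MW
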