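import Pool.Agent.P.MP_064970_gt.I.SX

open scoped Manifold ContDiff
open MeasureTheory Set Filter Topology Metric
open scoped RealInnerProductSpace ENNReal ComplexConjugate Real

noncomputable section

namespace MW

universe u

theorem mono_of (hMONOV : S_MONOV) (hFVC : S_FVC) : S_MONO := by
  intro M p r s hr hrs hO
  have hS : Stat M.O (M.μ.map fun x => (x, M.N x)) := by
    have := hFVC M M.S Subset.rfl ⟨univ, isOpen_univ, by simp⟩ ⟨∅, isOpen_empty, by simp⟩
    rwa [M.restrict_S] at this
  have hm : Measurable fun x => (x, M.N x) := measurable_id.prodMk M.N_meas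
  have hf : (M.μ.map fun x => (x, M.N x)).map Prod.fst = M.μ := by
    rw [Measure.map_map measurable_fst hm]; exact Measure.map_id
  have hi : ∀ (A : Set E) (g : E × E → ℝ), MeasurableSet A → Measurable g →
      ∫ q in A ×ˢ univ, g q ∂(M.μ.map fun x => (x, M.N x)) = ∫ x in A, g (x, M.N x) ∂M.μ := by
    intro A g hA hg
    rw [setIntegral_map (hA.prod MeasurableSet.univ) hg.aestronglyMeasurable hm.aemeasurable]
    congr 2
    ext x; simp
  have h := hMONOV M.O _ hS p r s hr hrs hO
  have m1 : Measurable fun q : E × E => ⟪q.1 - p, q.2⟫ ^ 2 := by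
    apply Continuous.measurable; fun_prop
  have m2 : Measurable fun q : E × E => ⟪q.1 - p, q.2⟫ ^ 2 / ‖q.1 - p‖ ^ 4 :=
    m1.div (by apply Continuous.measurable; fun_prop)
  rw [hf, hi _ _ measurableSet_ball m1, hi _ _ measurableSet_ball m1,
    hi _ _ (measurableSet_ball.diff measurableSet_ball) m2] at h
  exact h

end MW
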