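import Pool.Agent.P.MP_064970_gt.I.SX

open scoped Manifold ContDiff
open MeasureTheory Set Filter Topology Metric
open scoped RealInnerProductSpace ENNReal ComplexConjugate Real

noncomputable section

namespace MW

universe u

theorem monoc_of (hMONOV : S_MONOV) (hFVC : S_FVC) (hLOW0 : S_LOW0) : S_MONOC := by
  intro M S₁ hO hsub hU hU'
  have hS := hFVC M S₁ hsub hU hU'
  rw [hO] at hS
  obtain ⟨U, hUo, hUe⟩ := hU
  set ν := M.μ.restrict S₁ with hν
  have hS₁ : MeasurableSet S₁ := hUe ▸ M.measurableSet_S.inter hUo.measurableSet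
  have hm : Measurable fun x => (x, M.N x) := measurable_id.prodMk M.N_meas
  have hf : (ν.map fun x => (x, M.N x)).map Prod.fst = ν := by
    rw [Measure.map_map measurable_fst hm]; exact Measure.map_id
  have hfin : ∀ K : Set E, IsCompact K → ν K < ⊤ := fun K hK =>
    (Measure.restrict_apply_le _ _).trans_lt (M.mu_lt_top hK (by rw [hO]; exact subset_univ _))
  have hmono : ∀ (p : E) (r s : ℝ), 0 < r → r ≤ s → theta ν p r ≤ theta ν p s := by
    intro p r s hr hrs
    have h := (hMONOV univ _ hS p r s hr hrs (subset_univ _)).1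
    rwa [hf] at h
  have hcont : ∀ (p : E) (s : ℝ), Continuous fun x : E => lam (‖x - p‖ ^ 2 / s ^ 2) :=
    fun p s => contDiff_lam.continuous.comp (by fun_prop)
  have hint : ∀ (p : E) (s : ℝ), 0 < s →
      Integrable (fun x : E => lam (‖x - p‖ ^ 2 / s ^ 2)) ν := by
    intro p s hs
    refine (integrableOn_iff_integrable_of_support_subset (s := closedBall p s) ?_).1 ?_
    · intro x hx
      by_contra h
      rw [mem_closedBall, dist_eq_norm, not_le] at h
      refine hx (lam_eq_zero ?_)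
      rw [le_div_iff₀ (by positivity), one_mul]
      exact pow_le_pow_left₀ hs.le h.le 2
    · refine Measure.integrableOn_of_bounded (M := 4 / π)
        (hfin _ (isCompact_closedBall p s)).ne
        (hcont p s).aestronglyMeasurable (Eventually.of_forall fun x => ?_)
      rw [Real.norm_eq_abs, abs_of_nonneg (lam_nonneg _)]
      exact lam_le (by positivity)
  have hlow : ∀ p ∈ S₁, ∀ r : ℝ, 0 < r → 1 ≤ theta ν p r := by
    intro p hp r hr
    obtain ⟨c, hc0, hc⟩ := M.chart p (hsub hp)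
    have hpU : p ∈ U := (hUe ▸ hp : p ∈ M.S ∩ U).2
    have h0 : (0 : ℂ) ∈ ball (0 : ℂ) c.r := mem_ball_self c.r_pos
    have hca : ContinuousAt c.X 0 := c.continuousOn_X.continuousAt (isOpen_ball.mem_nhds h0)
    obtain ⟨δ, hδ, hδU⟩ := Metric.mem_nhds_iff.1 (hca.preimage_mem_nhds (hUo.mem_nhds (hc0 ▸ hpU)))
    set ρ := min δ (c.r / 2) with hρd
    have hρ0 : 0 < ρ := lt_min hδ (half_pos c.r_pos)
    have hρ : ρ < c.r := (min_le_right _ _).trans_lt (half_lt_self c.r_pos)
    have hin : c.X '' ball 0 ρ ⊆ S₁ := by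
      rintro _ ⟨z, hz, rfl⟩
      rw [hUe]
      exact ⟨hc.emb.mem (ball_subset_ball hρ.le hz), hδU (ball_subset_ball (min_le_left _ _) hz)⟩
    refine le_of_forall_pos_le_add fun ε hε => ?_
    have hs : ∀ᶠ s in 𝓝[>] (0 : ℝ), s ∈ Ioc (0 : ℝ) r := Ioc_mem_nhdsGT hr
    obtain ⟨s, h2, hs0, hsr⟩ := ((hLOW0 c ρ hρ0 hρ ε hε).and hs).exists
    have h3 := hmono p s r hs0 hsr
    have h4 := hc.integral (A := ball 0 ρ) measurableSet_ball (ball_subset_ball hρ.le)
      (hcont p s).measurable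
    have h5 : ∫ x in c.X '' ball 0 ρ, lam (‖x - p‖ ^ 2 / s ^ 2) ∂M.μ
        ≤ ∫ x, lam (‖x - p‖ ^ 2 / s ^ 2) ∂ν :=
      setIntegral_mono_set (hint p s hs0) (Eventually.of_forall fun x => lam_nonneg _)
        hin.eventuallyLE
    rw [hc0, ← h4] at h2
    have h6 : (∫ x in c.X '' ball 0 ρ, lam (‖x - p‖ ^ 2 / s ^ 2) ∂M.μ) / s ^ 2
        ≤ theta ν p s := div_le_div_of_nonneg_right h5 (by positivity)
    linarith
  refine ⟨hmono, hlow, fun p hp hθ x hx => ?_⟩
  set s : ℝ := 2 * (‖x - p‖ + 1) with hs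
  have hs0 : 0 < s := by positivity
  have h := (hMONOV univ _ hS p (s / 4) s (by positivity) (by linarith) (subset_univ _)).2.2.1
    (by linarith)
  have m1 : Measurable fun q : E × E => ⟪q.1 - p, q.2⟫ ^ 2 := by
    apply Continuous.measurable; fun_prop
  rw [hf, setIntegral_map (measurableSet_ball.prod MeasurableSet.univ) m1.aestronglyMeasurable
    hm.aemeasurable] at h
  have e1 : (fun x => (x, M.N x)) ⁻¹' (ball p (s / 2) ×ˢ (univ : Set E)) = ball p (s / 2) := by
    ext y; simp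
  rw [e1] at h
  have h1 := hθ s hs0
  have h2 := hlow p hp (s / 4) (by positivity)
  have h3 : ∫ y in ball p (s / 2), ⟪y - p, M.N y⟫ ^ 2 ∂ν ≤ 0 :=
    h.trans (mul_nonpos_of_nonneg_of_nonpos (by positivity) (by linarith))
  have hI : IntegrableOn (fun y => ⟪y - p, M.N y⟫ ^ 2) (ball p (s / 2)) ν := by
    refine Measure.integrableOn_of_bounded (M := (s / 2) ^ 2)
      ((measure_mono ball_subset_closedBall).trans_lt (hfin _ (isCompact_closedBall _ _))).ne
      (m1.comp hm).aestronglyMeasurable ?_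
    filter_upwards [ae_restrict_mem measurableSet_ball,
      ae_restrict_of_ae (ae_restrict_of_ae M.ae_unit)] with y hy hn
    rw [mem_ball, dist_eq_norm] at hy
    have a := abs_real_inner_le_norm (y - p) (M.N y)
    rw [hn, mul_one] at a
    rw [Real.norm_eq_abs, abs_pow]
    exact pow_le_pow_left₀ (abs_nonneg _) (a.trans hy.le) 2
  have h4 := (setIntegral_eq_zero_iff_of_nonneg_ae
    (Eventually.of_forall fun y => sq_nonneg _) hI).1
    (le_antisymm h3 (integral_nonneg fun y => sq_nonneg _))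
  have h5 : ∀ᵐ y ∂M.μ, y ∈ U ∩ ball p (s / 2) → ⟪y - p, M.N y⟫ = 0 := by
    have h6 := (ae_restrict_iff' hS₁).1 ((ae_restrict_iff' measurableSet_ball).1 h4)
    filter_upwards [h6, M.ae_mem] with y hy hyS hyU
    exact pow_eq_zero_iff two_ne_zero |>.1 (hy (hUe ▸ ⟨hyS, hyU.1⟩) hyU.2)
  refine M.eq_zero_of_ae (hUo.inter isOpen_ball) ?_ h5 x
    ⟨hsub hx, (hUe ▸ hx : x ∈ M.S ∩ U).2, ?_⟩
  · exact ContinuousOn.inner (𝕜 := ℝ) (by fun_prop) (M.N_cont.mono inter_subset_left)
  · rw [mem_ball, dist_eq_norm]; linarith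

end MW
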