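import Pool.Agent.P.MP_064970_gt.I.SX

open scoped Manifold ContDiff
open MeasureTheory Set Filter Topology Metric
open scoped RealInnerProductSpace ENNReal ComplexConjugate Real

noncomputable section

namespace MW

universe u

/-- The radial test field. -/
def MONOV_Z (L : ℝ → ℝ) (p x : E) : E := L (‖x - p‖ ^ 2) • (x - p)

theorem MONOV_contDiff {L : ℝ → ℝ} (hL : ContDiff ℝ 1 L) (p : E) : ContDiff ℝ 1 (MONOV_Z L p) := by
  have h1 : ContDiff ℝ 1 fun x : E => x - p := contDiff_id.sub contDiff_const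
  exact (hL.comp (h1.norm_sq ℝ)).smul h1

theorem MONOV_fderiv {L : ℝ → ℝ} (hL : ContDiff ℝ 1 L) (p x w : E) :
    fderiv ℝ (MONOV_Z L p) x w = L (‖x - p‖ ^ 2) • w +
      (2 * deriv L (‖x - p‖ ^ 2) * ⟪x - p, w⟫) • (x - p) := by
  have h1 : HasFDerivAt (fun x : E => x - p) (ContinuousLinearMap.id ℝ E) x :=
    (hasFDerivAt_id x).sub_const p
  have h2 := h1.norm_sq
  have h3 : HasDerivAt L (deriv L (‖x - p‖ ^ 2)) (‖x - p‖ ^ 2) :=
    (hL.differentiable one_ne_zero _).hasDerivAt
  have h4 := (h3.comp_hasFDerivAt x h2).smul h1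
  have h5 : HasFDerivAt (MONOV_Z L p) _ x := h4
  rw [h5.fderiv]
  simp only [ContinuousLinearMap.add_apply, ContinuousLinearMap.smul_apply,
    ContinuousLinearMap.id_apply, ContinuousLinearMap.smulRight_apply, Function.comp_apply,
    ContinuousLinearMap.comp_apply, innerSL_apply_apply, smul_eq_mul, nsmul_eq_mul,
    Nat.cast_ofNat]
  congr 2
  ring

theorem MONOV_dv {L : ℝ → ℝ} (hL : ContDiff ℝ 1 L) (p x : E) :
    dv (MONOV_Z L p) x = 3 * L (‖x - p‖ ^ 2) + 2 * deriv L (‖x - p‖ ^ 2) * ‖x - p‖ ^ 2 := by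
  have h := norm_sq_E (x - p)
  simp only [dv, MONOV_fderiv hL, Fin.sum_univ_three, PiLp.add_apply, PiLp.smul_apply,
    smul_eq_mul, EuclideanSpace.inner_single_right, PiLp.single_apply, if_true, conj_trivial]
  generalize deriv L (‖x - p‖ ^ 2) = D
  generalize L (‖x - p‖ ^ 2) = A
  rw [h]
  ring

theorem MONOV_point {L : ℝ → ℝ} (hL : ContDiff ℝ 1 L) (p x n : E) (hn : ‖n‖ = 1) :
    dv (MONOV_Z L p) x - ⟪n, fderiv ℝ (MONOV_Z L p) x n⟫ =
      2 * (L (‖x - p‖ ^ 2) + ‖x - p‖ ^ 2 * deriv L (‖x - p‖ ^ 2)) -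
        2 * (deriv L (‖x - p‖ ^ 2) * ⟪x - p, n⟫ ^ 2) := by
  rw [MONOV_dv hL, MONOV_fderiv hL, inner_add_right, real_inner_smul_right, real_inner_smul_right,
    real_inner_self_eq_norm_sq, hn, real_inner_comm (x - p) n]
  ring

theorem MONOV_int {O : Set E} {V : Measure (E × E)} (hV : Stat O V) {p : E} {s : ℝ}
    (hO : closedBall p s ⊆ O) {f : E × E → ℝ} (hf : Measurable f) {C : ℝ}
    (hC : ∀ q : E × E, q.1 ∈ closedBall p s → ‖q.2‖ = 1 → |f q| ≤ C)
    (h0 : ∀ q : E × E, q.1 ∉ closedBall p s → f q = 0) : Integrable f V := by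
  have hm : MeasurableSet (closedBall p s ×ˢ (univ : Set E)) :=
    measurableSet_closedBall.prod MeasurableSet.univ
  have h1 : IntegrableOn f (closedBall p s ×ˢ univ) V := by
    refine Measure.integrableOn_of_bounded (M := C)
      (hV.fin _ (isCompact_closedBall p s) hO).ne hf.aestronglyMeasurable ?_
    filter_upwards [ae_restrict_mem hm, ae_restrict_of_ae hV.unit] with q hq hn
    exact hC q hq.1 hn
  exact h1.integrable_of_forall_notMem_eq_zero fun q hq => h0 q fun h => hq ⟨h, mem_univ _⟩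

theorem MONOV_sq_le {p : E} {s : ℝ} {q : E × E} (hq : q.1 ∈ closedBall p s) (hn : ‖q.2‖ = 1) :
    ⟪q.1 - p, q.2⟫ ^ 2 ≤ s ^ 2 := by
  have h1 := abs_real_inner_le_norm (q.1 - p) q.2
  rw [hn, mul_one] at h1
  rw [← sq_abs]
  exact pow_le_pow_left₀ (abs_nonneg _) (h1.trans (mem_closedBall_iff_norm.1 hq)) 2

theorem MONOV_out {p x : E} {s : ℝ} (hs : 0 < s) (hx : x ∉ ball p s) : s ^ 2 ≤ ‖x - p‖ ^ 2 :=
  pow_le_pow_left₀ hs.le (not_lt.1 fun h => hx (mem_ball_iff_norm.2 h)) 2

theorem MONOV_int_lam {O : Set E} {V : Measure (E × E)} (hV : Stat O V) {p : E} {r s : ℝ}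
    (hr : 0 < r) (hrs : r ≤ s) (hO : closedBall p s ⊆ O) :
    Integrable (fun q : E × E => lam (‖q.1 - p‖ ^ 2 / r ^ 2)) V := by
  refine MONOV_int hV hO ((dens_continuous_lam p r).comp continuous_fst).measurable
    (C := 4 / π) (fun q _ _ => ?_) fun q hq => ?_
  · rw [abs_of_nonneg (lam_nonneg _)]
    exact lam_le (by positivity)
  · exact dens_lam_zero hr (hrs.trans (not_le.1 fun h => hq (mem_closedBall_iff_norm.2 h)).le)

theorem MONOV_theta (V : Measure (E × E)) (p : E) (r : ℝ) :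
    theta (V.map Prod.fst) p r = (∫ q : E × E, lam (‖q.1 - p‖ ^ 2 / r ^ 2) ∂V) / r ^ 2 := by
  rw [theta, integral_map measurable_fst.aemeasurable
    (dens_continuous_lam p r).aestronglyMeasurable]

/- Hint. Z x = L (|x-p|^2) (x - p), C1, tsupport in closedBall p s. fderiv Z x w = L w + 2 L' <x-p,w>
(x-p); dv Z = 3 L + 2 L' t, t = |x-p|^2; for unit n: dv Z - <n, DZ n> = 2 (L + t L') - 2 L'
<x-p,n>^2. FVV gives theta s - theta r = int L'(t) <x-p,n>^2 dV (integral_map for Prod.fst; all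
integrands are bounded on unit q.2 and vanish off closedBall p s x univ, finite by Stat.fin). The
four inequalities are pointwise bounds of L' (setIntegral / integral_indicator, integral_mono_ae). -/
theorem monov_of (hFVV : S_FVV) (hLAMB : S_LAMB) : S_MONOV := by
  intro O V hV p r s hr hrs hO
  have hs : 0 < s := hr.trans_le hrs
  obtain ⟨L, hL, hL0, hLe, hLb, hL3, hL4⟩ := hLAMB r s hr hrs
  have hsupp : Function.support (MONOV_Z L p) ⊆ closedBall p s := by
    intro x hx
    by_contra hn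
    refine hx ?_
    rw [MONOV_Z, (hL0 _ (MONOV_out hs fun h => hn (ball_subset_closedBall h))).1, zero_smul]
  have hts : tsupport (MONOV_Z L p) ⊆ closedBall p s := closure_minimal hsupp isClosed_closedBall
  have hcs : HasCompactSupport (MONOV_Z L p) :=
    (isCompact_closedBall p s).of_isClosed_subset (isClosed_tsupport _) hts
  have hfv := (hFVV O V hV _ (MONOV_contDiff hL p) hcs (hts.trans hO)).2
  set g : E × E → ℝ := fun q => deriv L (‖q.1 - p‖ ^ 2) * ⟪q.1 - p, q.2⟫ ^ 2 with hg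
  have hg0 : ∀ q, 0 ≤ g q := fun q => mul_nonneg (hLb _ (sq_nonneg _)).1 (sq_nonneg _)
  have hψc : Continuous fun q : E × E => ⟪q.1 - p, q.2⟫ ^ 2 := by fun_prop
  have hgc : Continuous g :=
    ((hL.continuous_deriv le_rfl).comp (by fun_prop)).mul hψc
  have hgi : Integrable g V := by
    refine MONOV_int hV hO hgc.measurable (C := 2 / r ^ 4 * s ^ 2) (fun q hq hn => ?_)
      fun q hq => ?_
    · rw [abs_of_nonneg (hg0 q)]
      exact mul_le_mul (hLb _ (sq_nonneg _)).2 (MONOV_sq_le hq hn) (sq_nonneg _) (by positivity)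
    · simp only [hg]
      rw [(hL0 _ (MONOV_out hs fun h => hq (ball_subset_closedBall h))).2, zero_mul]
  have i1 := (MONOV_int_lam hV hs le_rfl hO).div_const (s ^ 2)
  have i2 := (MONOV_int_lam hV hr hrs hO).div_const (r ^ 2)
  have key : theta (V.map Prod.fst) p s - theta (V.map Prod.fst) p r = ∫ q, g q ∂V := by
    have e : ∫ q, (dv (MONOV_Z L p) q.1 - ⟪q.2, fderiv ℝ (MONOV_Z L p) q.1 q.2⟫) ∂V =
        ∫ q : E × E, (2 * (lam (‖q.1 - p‖ ^ 2 / s ^ 2) / s ^ 2 -
          lam (‖q.1 - p‖ ^ 2 / r ^ 2) / r ^ 2) - 2 * g q) ∂V := by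
      refine integral_congr_ae ?_
      filter_upwards [hV.unit] with q hq
      rw [MONOV_point hL p q.1 q.2 hq, hLe _ (sq_nonneg _)]
    have i3 : Integrable (fun q : E × E => 2 * (lam (‖q.1 - p‖ ^ 2 / s ^ 2) / s ^ 2 -
        lam (‖q.1 - p‖ ^ 2 / r ^ 2) / r ^ 2)) V := (i1.sub i2).const_mul 2
    rw [e, integral_sub i3 (hgi.const_mul 2), integral_const_mul, integral_const_mul,
      integral_sub i1 i2, integral_div, integral_div] at hfv
    rw [MONOV_theta, MONOV_theta]
    linarith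
  have hmb : ∀ A : Set E, MeasurableSet A → MeasurableSet (A ×ˢ (univ : Set E)) :=
    fun A hA => hA.prod MeasurableSet.univ
  refine ⟨?_, ?_, fun h4 => ?_, ?_⟩
  · have : 0 ≤ ∫ q, g q ∂V := integral_nonneg hg0
    linarith
  · rw [key, ← integral_const_mul, ← integral_indicator (hmb _ measurableSet_ball)]
    refine integral_mono_of_nonneg (Eventually.of_forall hg0) ?_ (Eventually.of_forall fun q => ?_)
    · refine MONOV_int hV hO
        ((hψc.measurable.const_mul _).indicator (hmb _ measurableSet_ball))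
        (C := 2 / r ^ 4 * s ^ 2) (fun q hq hn => ?_) fun q hq => ?_
      · by_cases h : q ∈ ball p s ×ˢ (univ : Set E)
        · rw [indicator_of_mem h, abs_of_nonneg (by positivity)]
          exact mul_le_mul_of_nonneg_left (MONOV_sq_le hq hn) (by positivity)
        · rw [indicator_of_notMem h, abs_zero]
          positivity
      · exact indicator_of_notMem (fun h => hq (ball_subset_closedBall h.1)) _
    · by_cases h : q ∈ ball p s ×ˢ (univ : Set E)
      · rw [indicator_of_mem h]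
        exact mul_le_mul_of_nonneg_right (hLb _ (sq_nonneg _)).2 (sq_nonneg _)
      · rw [indicator_of_notMem h]
        simp only [hg]
        rw [(hL0 _ (MONOV_out hs fun h' => h ⟨h', mem_univ _⟩)).2, zero_mul]
  · rw [key, ← integral_const_mul, ← integral_indicator (hmb _ measurableSet_ball)]
    refine integral_mono_of_nonneg
      (Eventually.of_forall fun q => indicator_nonneg (fun q _ => sq_nonneg _) q)
      (hgi.const_mul _) (Eventually.of_forall fun q => ?_)
    by_cases h : q ∈ ball p (s / 2) ×ˢ (univ : Set E)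
    · rw [indicator_of_mem h]
      have h1 : ‖q.1 - p‖ ^ 2 ≤ (s / 2) ^ 2 :=
        pow_le_pow_left₀ (norm_nonneg _) (mem_ball_iff_norm.1 h.1).le 2
      have h2 := hL3 h4 _ (sq_nonneg ‖q.1 - p‖) (by linarith)
      rw [div_le_iff₀ (by positivity)] at h2
      have h3 := mul_le_mul_of_nonneg_right h2 (sq_nonneg ⟪q.1 - p, q.2⟫)
      simp only [hg]
      linarith
    · rw [indicator_of_notMem h]
      exact mul_nonneg (by positivity) (hg0 q)
  · rw [key, ← integral_const_mul,
      ← integral_indicator (hmb _ (measurableSet_ball.diff measurableSet_ball))]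
    refine integral_mono_of_nonneg
      (Eventually.of_forall fun q => indicator_nonneg (fun q _ => by positivity) q)
      (hgi.const_mul _) (Eventually.of_forall fun q => ?_)
    by_cases h : q ∈ (ball p (s / 2) \ ball p r) ×ˢ (univ : Set E)
    · rw [indicator_of_mem h]
      have h1 : ‖q.1 - p‖ ^ 2 ≤ (s / 2) ^ 2 :=
        pow_le_pow_left₀ (norm_nonneg _) (mem_ball_iff_norm.1 h.1.1).le 2
      have h0 := MONOV_out hr h.1.2
      have hp : 0 < ‖q.1 - p‖ ^ 2 := lt_of_lt_of_le (by positivity) h0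
      have h2 := hL4 _ h0 (by linarith)
      have e4 : ‖q.1 - p‖ ^ 4 = (‖q.1 - p‖ ^ 2) ^ 2 := by ring
      rw [div_le_iff₀ (by positivity)] at h2
      have h3 := mul_le_mul_of_nonneg_right h2 (sq_nonneg ⟪q.1 - p, q.2⟫)
      rw [e4, div_le_iff₀ (by positivity)]
      simp only [hg]
      linarith
    · rw [indicator_of_notMem h]
      exact mul_nonneg (by positivity) (hg0 q)

end MW
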