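import Pool.Agent.P.MP_064970_gt.I.SX

open scoped Manifold ContDiff
open MeasureTheory Set Filter Topology Metric
open scoped RealInnerProductSpace ENNReal ComplexConjugate Real

noncomputable section

namespace MW

universe u

/- Hint. Countable cover by chart targets, P_n disjointed; on P_n put n y = nu_n (psi_n.symm y) with nu_n
from Chart.exists_normal (ContinuousOn the open target). Measurability: measurable_of_restrict /
Measurable.find / liftCover, or n = piecewise through Nat.find (Measurable.find). For any chart c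
and z: psi z in P_n; COMPAT with Y = c.X, g = psi_n.symm o psi gives DX_c z = DX_n (g z) o Dg, so
nu_n (g z) is orthogonal to Xu, Xv (Chart.DX_one, DX_I, DX_apply). -/
theorem nrm_of (hCOMPAT : S_COMPAT) : S_NRM.{u} := by
  intro Ω _ _ _ _ f hch
  classical
  rcases isEmpty_or_nonempty Ω with hΩ | hΩ
  · exact ⟨fun _ => e3, measurable_const, fun _ => norm_e3, fun c z _ => (hΩ.false (c.ψ z)).elim⟩
  choose C hC using hch
  have hmem : ∀ p, (C p).ψ.target ∈ 𝓝 p := fun p => by
    refine (C p).ψ.open_target.mem_nhds ?_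
    have h := (C p).ψ.map_source (x := 0) (by rw [(C p).src]; exact mem_ball_self (C p).r_pos)
    rwa [hC p] at h
  obtain ⟨s, hs, hcov⟩ := TopologicalSpace.countable_cover_nhds hmem
  have hne : s.Nonempty := by
    obtain ⟨p⟩ := hΩ
    have hp : p ∈ ⋃ x ∈ s, (C x).ψ.target := hcov ▸ mem_univ p
    obtain ⟨x, hx, -⟩ := mem_iUnion₂.1 hp
    exact ⟨x, hx⟩
  obtain ⟨q, rfl⟩ := hs.exists_eq_range hne
  have hex : ∀ y, ∃ k, y ∈ (C (q k)).ψ.target := fun y => by
    have hp : y ∈ ⋃ x ∈ range q, (C x).ψ.target := hcov ▸ mem_univ y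
    obtain ⟨x, ⟨k, rfl⟩, hx⟩ := mem_iUnion₂.1 hp
    exact ⟨k, hx⟩
  choose ν hν hν' using fun p => (C p).toChart.exists_normal
  have hsy : ∀ p, MapsTo (C p).ψ.symm (C p).ψ.target (ball 0 (C p).r) := fun p y hy => by
    rw [← (C p).src]; exact (C p).ψ.map_target hy
  set F : ℕ → Ω → E := fun k =>
    (C (q k)).ψ.target.piecewise (fun y => ν (q k) ((C (q k)).ψ.symm y)) fun _ => e3 with hF
  have hFm : ∀ k, Measurable (F k) := fun k =>
    ContinuousOn.measurable_piecewise
      ((hν (q k)).continuousOn.comp (C (q k)).ψ.continuousOn_symm (hsy _)) continuousOn_const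
      (C (q k)).ψ.open_target.measurableSet
  have hval : ∀ y, F (Nat.find (hex y)) y =
      ν (q (Nat.find (hex y))) ((C (q (Nat.find (hex y)))).ψ.symm y) := fun y =>
    piecewise_eq_of_mem _ _ _ (Nat.find_spec (hex y))
  refine ⟨fun y => F (Nat.find (hex y)) y,
    Measurable.find (p := fun k y => y ∈ (C (q k)).ψ.target) hFm
      (fun k => (C (q k)).ψ.open_target.measurableSet) hex, fun y => ?_, fun c z hz => ?_⟩
  · simp only [hval]
    exact (hν' _ _ (hsy _ (Nat.find_spec (hex y)))).1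
  simp only [hval]
  have hk := Nat.find_spec (hex (c.ψ z))
  set p := q (Nat.find (hex (c.ψ z)))
  have hco : ContinuousOn c.ψ (ball 0 c.r) := c.src ▸ c.ψ.continuousOn
  have hD : IsOpen (ball (0 : ℂ) c.r ∩ c.ψ ⁻¹' (C p).ψ.target) :=
    hco.isOpen_inter_preimage isOpen_ball (C p).ψ.open_target
  obtain ⟨-, h2, -⟩ := hCOMPAT (C p).toChart c.X (fun w => (C p).ψ.symm (c.ψ w)) _ hD
    ((C p).ψ.continuousOn_symm.comp (hco.mono inter_subset_left) fun w hw => hw.2)
    (fun w hw => hsy p hw.2)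
    (fun w hw => by rw [← (C p).eq _ (hsy p hw.2), (C p).ψ.right_inv hw.2, c.eq w hw.1])
    fun w hw => (c.hasFDerivAt_X hw.1).differentiableAt.differentiableWithinAt
  have h3 := h2 z ⟨hz, hk⟩
  rw [(c.hasFDerivAt_X hz).fderiv] at h3
  obtain ⟨-, hu, hv⟩ := hν' p _ (hsy p hk)
  have key : ∀ w, ⟪ν p ((C p).ψ.symm (c.ψ z)), c.DX z w⟫ = 0 := fun w => by
    rw [h3, ContinuousLinearMap.comp_apply, Chart.DX_apply, inner_add_right, inner_smul_right,
      inner_smul_right, hu, hv]
    simp
  exact ⟨c.DX_one z ▸ key 1, c.DX_I z ▸ key Complex.I⟩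

end MW
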