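import Pool.Agent.P.MP_064970_gt.I.SX

open scoped Manifold ContDiff
open MeasureTheory Set Filter Topology Metric
open scoped RealInnerProductSpace ENNReal ComplexConjugate Real

noncomputable section

namespace MW

universe u

/-- A continuous map into `S` lifts through an embedded chart. -/
theorem PARAM_lift {S : Set E} {c : Chart} (hc : c.Emb S) {Y : ℂ → E} {D : Set ℂ} (hD : IsOpen D)
    (hS : MapsTo Y D S) (hY : ContinuousOn Y D) :
    ∃ (D' : Set ℂ) (g : ℂ → ℂ), IsOpen D' ∧ D' ⊆ D ∧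
      (∀ z ∈ D, Y z ∈ c.X '' ball 0 c.r → z ∈ D') ∧ ContinuousOn g D' ∧
      MapsTo g D' (ball 0 c.r) ∧ ∀ z ∈ D', c.X (g z) = Y z := by
  obtain ⟨U, hU, hUe⟩ := hc.opn _ isOpen_ball subset_rfl
  have hm : ∀ z ∈ D ∩ Y ⁻¹' U, ∃ a ∈ ball (0 : ℂ) c.r, c.X a = Y z := fun z hz => by
    have : Y z ∈ c.X '' ball 0 c.r := hUe ▸ ⟨hS hz.1, hz.2⟩
    exact this
  have h1 : MapsTo (fun z => Function.invFunOn c.X (ball 0 c.r) (Y z)) (D ∩ Y ⁻¹' U)
      (ball 0 c.r) := fun z hz => Function.invFunOn_mem (hm z hz)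
  have h2 : ∀ z ∈ D ∩ Y ⁻¹' U, c.X (Function.invFunOn c.X (ball 0 c.r) (Y z)) = Y z :=
    fun z hz => Function.invFunOn_eq (hm z hz)
  refine ⟨D ∩ Y ⁻¹' U, fun z => Function.invFunOn c.X (ball 0 c.r) (Y z),
    hY.isOpen_inter_preimage hD hU, inter_subset_left, fun z hz h => ⟨hz, ?_⟩, ?_, h1, h2⟩
  · rw [hUe] at h
    exact h.2
  · refine _root_.continuousOn_iff'.2 fun V hV => ?_
    obtain ⟨U', hU', hUe'⟩ := hc.opn (V ∩ ball 0 c.r) (hV.inter isOpen_ball) inter_subset_right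
    refine ⟨D ∩ Y ⁻¹' U', hY.isOpen_inter_preimage hD hU', ?_⟩
    ext z
    constructor
    · rintro ⟨hzV, hz⟩
      refine ⟨⟨hz.1, ?_⟩, hz⟩
      have : Y z ∈ c.X '' (V ∩ ball 0 c.r) := ⟨_, ⟨hzV, h1 hz⟩, h2 z hz⟩
      rw [hUe'] at this
      exact this.2
    · rintro ⟨hz', hz⟩
      refine ⟨?_, hz⟩
      have : Y z ∈ c.X '' (V ∩ ball 0 c.r) := hUe' ▸ ⟨hS hz.1, hz'.2⟩
      obtain ⟨a, ha, hae⟩ := this
      have e : Function.invFunOn c.X (ball 0 c.r) (Y z) = a :=
        hc.inj (h1 hz) ha.2 ((h2 z hz).trans hae.symm)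
      show Function.invFunOn c.X (ball 0 c.r) (Y z) ∈ V
      rw [e]
      exact ha.1

theorem PARAM_measurable_gramC (Y : ℂ → E) : Measurable (gramC Y) := by
  have h1 := measurable_fderiv_apply_const ℝ Y (1 : ℂ)
  have h2 := measurable_fderiv_apply_const ℝ Y Complex.I
  exact (((h1.norm.pow_const 2).mul (h2.norm.pow_const 2)).sub
    ((h1.inner h2).pow_const 2)).sqrt

theorem PARAM_normal (hCOMPAT : S_COMPAT) (M : Surf) {Y : ℂ → E} {D : Set ℂ} (hD : IsOpen D)
    (hS : MapsTo Y D M.S) (hY : DifferentiableOn ℝ Y D) {z : ℂ} (hz : z ∈ D) (w : ℂ) :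
    ⟪M.N (Y z), fderiv ℝ Y z w⟫ = 0 := by
  obtain ⟨c, hc0, hc⟩ := M.chart _ (hS hz)
  obtain ⟨D', g, hD', hsub, hin, hg, hgm, hge⟩ := PARAM_lift hc.emb hD hS hY.continuousOn
  have hz' : z ∈ D' := hin z hz ⟨0, mem_ball_self c.r_pos, hc0⟩
  obtain ⟨-, h, -⟩ := hCOMPAT c Y g D' hD' hg hgm hge (hY.mono hsub)
  rw [h z hz', ← hge z hz']
  exact hc.inner_DX (hgm hz') _

theorem PARAM_area (hCOMPAT : S_COMPAT) (M : Surf) {Y : ℂ → E} {D : Set ℂ} (hD : IsOpen D)
    (hS : MapsTo Y D M.S) (hY : DifferentiableOn ℝ Y D) (hi : InjOn Y D) {B : Set ℂ}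
    (hB : MeasurableSet B) (hBD : B ⊆ D) :
    M.μ (Y '' B) = ∫⁻ z in B, ENNReal.ofReal (gramC Y z) := by
  rcases B.eq_empty_or_nonempty with rfl | ⟨z0, hz0⟩
  · simp
  obtain ⟨c, hc, hcov⟩ := M.exists_countable_charts ⟨_, hS (hBD hz0)⟩
  choose D' g hD' hsub hin hg hgm hge using
    fun n => PARAM_lift (hc n).emb hD hS hY.continuousOn
  have hmeas : ∀ n, MeasurableSet (B ∩ disjointed D' n) := fun n =>
    hB.inter (MeasurableSet.disjointed (fun n => (hD' n).measurableSet) n)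
  have hsub' : ∀ n, B ∩ disjointed D' n ⊆ D' n := fun n =>
    inter_subset_right.trans (disjointed_subset D' n)
  have hdis : Pairwise (Function.onFun Disjoint fun n => B ∩ disjointed D' n) :=
    fun i j hij => (disjoint_disjointed D' hij).mono inter_subset_right inter_subset_right
  have hU : B = ⋃ n, B ∩ disjointed D' n := by
    rw [← inter_iUnion, iUnion_disjointed]
    refine (inter_eq_left.2 fun z hz => ?_).symm
    obtain ⟨n, hn⟩ := mem_iUnion.1 (hcov (hS (hBD hz)))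
    refine mem_iUnion.2 ⟨n, hin n z (hBD hz) (image_mono (ball_subset_ball ?_) hn)⟩
    have := (c n).r_pos
    linarith
  have hone : ∀ n, M.μ (Y '' (B ∩ disjointed D' n)) =
      ∫⁻ z in B ∩ disjointed D' n, ENNReal.ofReal (gramC Y z) := by
    intro n
    have hgi : InjOn (g n) (D' n) := fun a ha b hb e =>
      hi (hsub n ha) (hsub n hb) (by rw [← hge n a ha, ← hge n b hb, e])
    obtain ⟨-, -, h⟩ := hCOMPAT (c n) Y (g n) (D' n) (hD' n) (hg n) (hgm n) (hge n)
      (hY.mono (hsub n))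
    rw [← h hgi _ (hmeas n) (hsub' n), ← (hc n).area _
      ((hmeas n).image_of_continuousOn_injOn ((hg n).mono (hsub' n)) (hgi.mono (hsub' n)))
      (((hgm n).mono_left (hsub' n)).image_subset), image_image]
    congr 1
    exact image_congr fun a ha => (hge n a (hsub' n ha)).symm
  have hd2 : Pairwise (Function.onFun Disjoint fun n => Y '' (B ∩ disjointed D' n)) :=
    fun i j hij => (hdis hij).image hi
      (inter_subset_left.trans hBD) (inter_subset_left.trans hBD)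
  have hm2 : ∀ n, MeasurableSet (Y '' (B ∩ disjointed D' n)) := fun n =>
    (hmeas n).image_of_continuousOn_injOn
      (hY.continuousOn.mono (inter_subset_left.trans hBD)) (hi.mono (inter_subset_left.trans hBD))
  calc M.μ (Y '' B) = M.μ (⋃ n, Y '' (B ∩ disjointed D' n)) := by rw [← image_iUnion, ← hU]
    _ = ∑' n, ∫⁻ z in B ∩ disjointed D' n, ENNReal.ofReal (gramC Y z) := by
      rw [measure_iUnion hd2 hm2]
      exact tsum_congr hone
    _ = _ := by rw [← lintegral_iUnion hmeas hdis, ← hU]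

theorem PARAM_lintegral (hCOMPAT : S_COMPAT) (M : Surf) {Y : ℂ → E} {D : Set ℂ} (hD : IsOpen D)
    (hS : MapsTo Y D M.S) (hY : DifferentiableOn ℝ Y D) (hi : InjOn Y D) {A : Set ℂ}
    (hA : MeasurableSet A) (hAD : A ⊆ D) {g : E → ℝ≥0∞} (hg : Measurable g) :
    ∫⁻ x in Y '' A, g x ∂M.μ = ∫⁻ z in A, g (Y z) * ENNReal.ofReal (gramC Y z) := by
  classical
  have hm : Measurable (D.piecewise Y fun _ => 0) :=
    hY.continuousOn.measurable_piecewise continuousOn_const hD.measurableSet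
  have he : ∀ z ∈ A, D.piecewise Y (fun _ => 0) z = Y z := fun z hz =>
    piecewise_eq_of_mem _ _ _ (hAD hz)
  have hμ : M.μ.restrict (Y '' A) = ((volume.restrict A).withDensity
      fun z => ENNReal.ofReal (gramC Y z)).map (D.piecewise Y fun _ => 0) := by
    ext s hs
    rw [Measure.restrict_apply hs, Measure.map_apply hm hs, withDensity_apply _ (hm hs),
      Measure.restrict_restrict (hm hs),
      ← PARAM_area hCOMPAT M hD hS hY hi ((hm hs).inter hA) (inter_subset_right.trans hAD)]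
    congr 1
    ext x
    constructor
    · rintro ⟨hx, z, hz, rfl⟩
      exact ⟨z, ⟨by rw [mem_preimage, he z hz]; exact hx, hz⟩, rfl⟩
    · rintro ⟨z, ⟨h1, h2⟩, rfl⟩
      rw [mem_preimage, he z h2] at h1
      exact ⟨h1, z, h2, rfl⟩
  rw [hμ, lintegral_map hg hm,
    lintegral_withDensity_eq_lintegral_mul _ (PARAM_measurable_gramC Y).ennreal_ofReal
      (g := fun a => g (D.piecewise Y (fun _ => 0) a)) (hg.comp hm)]
  refine setLIntegral_congr_fun hA fun z hz => ?_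
  simp only [Pi.mul_apply, he z hz]
  rw [mul_comm]

theorem param_of (hCOMPAT : S_COMPAT) : S_PARAM := by
  intro M
  refine ⟨fun Y D hD hS hY => ⟨fun z hz w => PARAM_normal hCOMPAT M hD hS hY hz w,
    fun hi B hB hBD => ⟨hB.image_of_continuousOn_injOn (hY.continuousOn.mono hBD) (hi.mono hBD),
      PARAM_area hCOMPAT M hD hS hY hi hB hBD,
      fun g hg => PARAM_lintegral hCOMPAT M hD hS hY hi hB hBD hg⟩⟩, fun c hc => ?_⟩
  have hS : MapsTo c.X (ball 0 c.r) M.S := fun z hz => hc.mem hz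
  have hY : DifferentiableOn ℝ c.X (ball 0 c.r) := fun z hz =>
    (c.hasFDerivAt_X hz).differentiableAt.differentiableWithinAt
  refine ⟨hc.inj, hc.opn, fun z hz => (c.nrm_iff z _).2 ⟨?_, ?_⟩, fun A hA hAr => ?_⟩
  · have := PARAM_normal hCOMPAT M isOpen_ball hS hY hz 1
    rwa [(c.hasFDerivAt_X hz).fderiv, c.DX_one] at this
  · have := PARAM_normal hCOMPAT M isOpen_ball hS hY hz Complex.I
    rwa [(c.hasFDerivAt_X hz).fderiv, c.DX_I] at this
  · rw [PARAM_area hCOMPAT M isOpen_ball hS hY hc.inj hA hAr]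
    exact setLIntegral_congr_fun hA fun z hz => by simp only [c.gramC_X (hAr hz)]

end MW
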