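import Pool.Agent.P.MP_064970_gt.I.SX

open scoped Manifold ContDiff
open MeasureTheory Set Filter Topology Metric
open scoped RealInnerProductSpace ENNReal ComplexConjugate Real

noncomputable section

namespace MW

universe u

theorem PERSIST_gap {T : Set ℝ} (hT : T.Finite) :
    ∃ ε₀ : ℝ, 0 < ε₀ ∧ ∀ s ∈ T, ∀ t ∈ T, s ≠ t → 4 * ε₀ < |s - t| := by
  have h : ∀ᶠ ε in 𝓝[>] (0 : ℝ), ∀ s ∈ T, ∀ t ∈ T, s ≠ t → 4 * ε < |s - t| := by
    refine (eventually_all_finite hT).2 fun s _ => (eventually_all_finite hT).2 fun t _ => ?_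
    by_cases hst : s = t
    · exact Eventually.of_forall fun _ h => absurd hst h
    · have h1 : 0 < |s - t| / 4 := by
        have := abs_pos.2 (sub_ne_zero.2 hst)
        positivity
      filter_upwards [Ioo_mem_nhdsGT h1] with ε hε _
      linarith [hε.2]
  obtain ⟨ε, h1, h2⟩ := (h.and self_mem_nhdsWithin).exists
  exact ⟨ε, h2, h1⟩

theorem PERSIST_near (a e : E) {r : ℝ} (hr : 0 < r) :
    ∀ᶠ p in 𝓝 (a, e), ∀ s ∈ Icc (0 : ℝ) 1, ‖p.1 + s • p.2 - (a + s • e)‖ < r := by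
  filter_upwards [ball_mem_nhds (a, e) (half_pos hr)] with p hp s hs
  rw [mem_ball, Prod.dist_eq, max_lt_iff, dist_eq_norm, dist_eq_norm] at hp
  have e1 : p.1 + s • p.2 - (a + s • e) = (p.1 - a) + s • (p.2 - e) := by
    rw [smul_sub]
    abel
  have h1 : ‖s • (p.2 - e)‖ ≤ ‖p.2 - e‖ := by
    rw [norm_smul, Real.norm_of_nonneg hs.1]
    exact mul_le_of_le_one_left (norm_nonneg _) hs.2
  rw [e1]
  have h2 := norm_add_le (p.1 - a) (s • (p.2 - e))
  linarith [hp.1, hp.2]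

theorem PERSIST_side {U : Filter ℕ} {W : Set E} {Wk : ℕ → Set E} (hW : IsOpen W)
    (h : ∀ K : Set E, IsCompact K → K ⊆ W → ∀ᶠ k in U, K ⊆ Wk k) (a e : E) {J : Set ℝ}
    (hJ : IsCompact J) (hJ1 : J ⊆ Icc 0 1) (hJW : ∀ s ∈ J, a + s • e ∈ W) :
    ∀ᶠ q in U ×ˢ 𝓝 (a, e), ∀ s ∈ J, q.2.1 + s • q.2.2 ∈ Wk q.1 := by
  have hC : IsCompact ((fun s : ℝ => a + s • e) '' J) := hJ.image (by fun_prop)
  obtain ⟨δ, hδ, hsub⟩ := hC.exists_cthickening_subset_open hW (by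
    rintro _ ⟨s, hs, rfl⟩
    exact hJW s hs)
  filter_upwards [(h _ (hC.cthickening (r := δ)) hsub).prod_inl _,
    (PERSIST_near a e hδ).prod_inr U] with q h1 h2 s hs
  refine h1 (mem_cthickening_of_dist_le _ (a + s • e) δ _ ⟨s, hs, rfl⟩ ?_)
  rw [dist_eq_norm]
  exact (h2 s (hJ1 hs)).le

theorem PERSIST_cross {M : Surf} (hM : M.Mem) {a e : E} {p q : ℝ} (hpq : p ≤ q)
    (h : (a + p • e ∈ M.W ∧ a + q • e ∈ M.W') ∨ (a + p • e ∈ M.W' ∧ a + q • e ∈ M.W)) :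
    ∃ u ∈ Icc p q, a + u • e ∈ M.S := by
  by_contra hn
  have h1 := (M.basic_same (a := a) (v := e) hpq (fun t _ => by rw [hM.univ]; exact mem_univ _)
    fun t ht hS => hn ⟨t, ht, hS⟩).1
  rcases h with h | h
  · exact disjoint_left.1 M.disj (h1.1 h.1) h.2
  · exact disjoint_left.1 M.disj (h1.2 h.2) h.1

theorem PERSIST_uniq {M : Surf} (hM : M.Mem) {a e ν : E} {ε : ℝ} {s t : ℝ} (hst : s ≤ t)
    (h : ∀ u ∈ Icc s t, a + u • e ∈ M.S → ‖M.N (a + u • e) - ν‖ ≤ ε) (hε : ε * ‖e‖ < |⟪e, ν⟫|)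
    (hs : a + s • e ∈ M.S) (ht : a + t • e ∈ M.S) : s = t := by
  have h1 := M.slope (K := segment ℝ (a + s • e) (a + t • e)) (convex_segment _ _)
    (by rw [hM.univ]; exact subset_univ _) (ν := ν) (ε := ε) (by
      rintro z ⟨hz, c, d, hc, hd, hcd, rfl⟩
      have e1 : c • (a + s • e) + d • (a + t • e) = a + (c * s + d * t) • e := by
        rw [smul_add, smul_add, add_add_add_comm, ← add_smul, hcd, one_smul, smul_smul, smul_smul,
          ← add_smul]
      rw [e1] at hz ⊢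
      have hc' : c = 1 - d := by linarith
      refine h _ ⟨?_, ?_⟩ hz
      · rw [hc']
        nlinarith
      · rw [hc']
        nlinarith) ⟨ht, right_mem_segment _ _ _⟩ ⟨hs, left_mem_segment _ _ _⟩
  have e2 : a + t • e - (a + s • e) = (t - s) • e := by
    rw [sub_smul]
    abel
  rw [e2, real_inner_smul_left, abs_mul, norm_smul, Real.norm_eq_abs,
    abs_of_nonneg (sub_nonneg.2 hst)] at h1
  by_contra hne
  have h2 : 0 < t - s := sub_pos.2 (lt_of_le_of_ne hst hne)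
  nlinarith

theorem PERSIST_local (hCONV : S_CONV) (U : Ultrafilter ℕ) (Mk : ℕ → Surf) (M : Surf)
    (hMk : ∀ k, (Mk k).Mem) (hc : Conv (U : Filter ℕ) Mk M) (a e : E) {t : ℝ}
    (ht : a + t • e ∈ M.S) (hne : ⟪e, M.N (a + t • e)⟫ ≠ 0) {ε : ℝ} (hε : 0 < ε) :
    ∀ᶠ η in 𝓝[>] (0 : ℝ), ∀ᶠ q in (U : Filter ℕ) ×ˢ 𝓝 (a, e),
      (∀ s ∈ Icc (0 : ℝ) 1, |s - t| ≤ η → q.2.1 + s • q.2.2 ∈ (Mk q.1).S →
        ‖(Mk q.1).N (q.2.1 + s • q.2.2) - M.N (a + t • e)‖ < ε) ∧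
      ∀ s ∈ Icc (0 : ℝ) 1, ∀ s' ∈ Icc (0 : ℝ) 1, |s - t| ≤ η → |s' - t| ≤ η →
        q.2.1 + s • q.2.2 ∈ (Mk q.1).S → q.2.1 + s' • q.2.2 ∈ (Mk q.1).S → s = s' := by
  set ν := M.N (a + t • e) with hν
  have h0 : 0 < |⟪e, ν⟫| := abs_pos.2 hne
  have he1 : 0 < ‖e‖ + 1 := by positivity
  set ε' := min ε (|⟪e, ν⟫| / (‖e‖ + 1)) with hε'
  have hε0 : 0 < ε' := lt_min hε (div_pos h0 he1)
  have hε1 : ε' * ‖e‖ < |⟪e, ν⟫| := by
    have h1 : ε' * (‖e‖ + 1) ≤ |⟪e, ν⟫| := (le_div_iff₀ he1).1 (min_le_right _ _)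
    linarith
  have hε2 : ∀ᶠ p in 𝓝 (a, e), ε' * ‖p.2‖ < |⟪p.2, ν⟫| := by
    have c1 : Continuous fun p : E × E => ε' * ‖p.2‖ := by fun_prop
    have c2 : Continuous fun p : E × E => |⟪p.2, ν⟫| := by fun_prop
    exact (isOpen_lt c1 c2).mem_nhds hε1
  obtain ⟨r, hr, hO, hN⟩ := M.basic_ball ht (half_pos hε0)
  have hK := (hCONV U Mk M hMk hc).1 (closedBall (a + t • e) (r / 2)) (isCompact_closedBall _ _)
    ((closedBall_subset_ball (half_lt_self hr)).trans hO) (min (r / 2) (ε' / 2))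
    (lt_min (half_pos hr) (half_pos hε0))
  have hη : 0 < r / 4 / (‖e‖ + 1) := by positivity
  filter_upwards [Ioo_mem_nhdsGT hη] with η hη1
  have hr4 : 0 < r / 4 := by positivity
  filter_upwards [hK.prod_inl _, (PERSIST_near a e hr4).prod_inr _, hε2.prod_inr _]
    with q h1 h2 h3
  have key : ∀ s ∈ Icc (0 : ℝ) 1, |s - t| ≤ η → q.2.1 + s • q.2.2 ∈ (Mk q.1).S →
      ‖(Mk q.1).N (q.2.1 + s • q.2.2) - ν‖ < ε' := by
    intro s hs hst hS
    have a1 : ‖a + s • e - (a + t • e)‖ ≤ r / 4 := by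
      have e2 : a + s • e - (a + t • e) = (s - t) • e := by
        rw [sub_smul]
        abel
      rw [e2, norm_smul, Real.norm_eq_abs]
      have a2 : η * (‖e‖ + 1) < r / 4 := (lt_div_iff₀ he1).1 hη1.2
      nlinarith [norm_nonneg e, hη1.1, abs_nonneg (s - t)]
    have a3 : ‖q.2.1 + s • q.2.2 - (a + t • e)‖ ≤ r / 2 := by
      have a4 := norm_sub_le_norm_sub_add_norm_sub (q.2.1 + s • q.2.2) (a + s • e) (a + t • e)
      linarith [h2 s hs]
    obtain ⟨y, hy, b1, b2⟩ := h1 _ ⟨hS, mem_closedBall_iff_norm.2 a3⟩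
    have b3 : ‖y - (a + t • e)‖ < r := by
      have a4 := norm_sub_le_norm_sub_add_norm_sub y (q.2.1 + s • q.2.2) (a + t • e)
      rw [norm_sub_rev y (q.2.1 + s • q.2.2)] at a4
      linarith [b1.trans_le (min_le_left _ _)]
    have b4 := hN y ⟨hy, mem_ball_iff_norm.2 b3⟩
    have a4 := norm_sub_le_norm_sub_add_norm_sub ((Mk q.1).N (q.2.1 + s • q.2.2)) (M.N y) ν
    linarith [b2.trans_le (min_le_right _ _)]
  refine ⟨fun s hs hst hS => (key s hs hst hS).trans_le (min_le_left _ _), ?_⟩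
  have key2 : ∀ s ∈ Icc (0 : ℝ) 1, ∀ s' ∈ Icc (0 : ℝ) 1, s ≤ s' → |s - t| ≤ η → |s' - t| ≤ η →
      q.2.1 + s • q.2.2 ∈ (Mk q.1).S → q.2.1 + s' • q.2.2 ∈ (Mk q.1).S → s = s' := by
    intro s hs s' hs' hle h4 h5 hS hS'
    refine PERSIST_uniq (hMk q.1) hle (fun u hu huS => (key u ⟨hs.1.trans hu.1, hu.2.trans hs'.2⟩
      (abs_le.2 ⟨?_, ?_⟩) huS).le) h3 hS hS'
    · linarith [(abs_le.1 h4).1, hu.1]
    · linarith [(abs_le.1 h5).2, hu.2]
  intro s hs s' hs' h4 h5 hS hS'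
  rcases le_total s s' with hle | hle
  · exact key2 s hs s' hs' hle h4 h5 hS hS'
  · exact (key2 s' hs' s hs hle h5 h4 hS' hS).symm

/- Hint. T = crossing parameters, finite (Surf.basic_finite or par), in Ioo 0 1; eps0 = a fifth of the
least gap. Given eps, choose eta <= min eps (eps0/2) so small that [t - eta, t + eta] is in [0,1]
for t in T and on S cap closedBall (a + t e) (rad), rad = (|e|+1) 2 eta, N is within eps' of N (a
+ t e), eps' << |<e, N>|. The compact set C = {a + s e | s in [0,1], |s - t| >= eta for all t in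
T} lies in the open W union W'; a closed del-thickening of C cap W lies in W
(IsCompact.exists_cthickening_subset_open), same for W'; inW, inW'. The points a + (t - eta) e and
a + (t + eta) e are on opposite sides (par_one), so the nearby segment crosses S_k (exists_cross),
and only once in the window (one_cross with CONV (1) for K = closedBall). -/
theorem persist_of (hCONV : S_CONV) : S_PERSIST := by
  intro U Mk M hMk hc a e hO ha hae htr
  set T : Set ℝ := {t | t ∈ Icc (0 : ℝ) 1 ∧ a + t • e ∈ M.S} with hT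
  have hTf : T.Finite := M.basic_finite hO htr
  obtain ⟨ε₀, hε₀, hgap⟩ := PERSIST_gap hTf
  refine ⟨ε₀, hε₀, fun s hs t ht h1 h2 => hgap s ⟨hs, h1⟩ t ⟨ht, h2⟩, fun ε hε => ?_⟩
  have hT0 : ∀ t ∈ T, 0 < t := fun t ht => lt_of_le_of_ne ht.1.1 fun h => ha (by
    have h1 := ht.2
    rwa [← h, zero_smul, add_zero] at h1)
  have hT1 : ∀ t ∈ T, 0 < 1 - t := fun t ht => sub_pos.2 (lt_of_le_of_ne ht.1.2 fun h => hae (by
    have h1 := ht.2
    rwa [h, one_smul] at h1))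
  have hio : ∀ c : ℝ, 0 < c → ∀ᶠ η in 𝓝[>] (0 : ℝ), η ∈ Ioo 0 c := fun c h => Ioo_mem_nhdsGT h
  have hev := (eventually_all_finite hTf).2 fun t ht =>
    (PERSIST_local hCONV U Mk M hMk hc a e ht.2 (htr t ht.1 ht.2) hε).and
      ((hio _ (hT0 t ht)).and (hio _ (hT1 t ht)))
  obtain ⟨η, hη, hη1, hη2⟩ := (hev.and ((hio _ hε).and (hio _ hε₀))).exists
  have hη0 : 0 < η := hη1.1
  set J : Set ℝ := {s | s ∈ Icc (0 : ℝ) 1 ∧ ∀ t ∈ T, η ≤ |s - t|} with hJ
  have hJc : IsCompact J := by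
    have e1 : J = Icc (0 : ℝ) 1 ∩ ⋂ t ∈ T, {s | η ≤ |s - t|} := by
      ext s
      simp only [hJ, mem_inter_iff, mem_iInter₂, mem_ofPred_eq]
    rw [e1]
    exact isCompact_Icc.inter_right
      (isClosed_biInter fun t _ => isClosed_le continuous_const (by fun_prop))
  have hJS : ∀ s ∈ J, a + s • e ∈ M.W ∨ a + s • e ∈ M.W' := by
    intro s hs
    rcases M.mem_cases (hO s hs.1) with h | h | h
    · exact Or.inl h
    · exact Or.inr h
    · have h1 := hs.2 s ⟨hs.1, h⟩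
      rw [sub_self, abs_zero] at h1
      exact absurd h1 (not_le.2 hη0)
  have hl : Continuous fun s : ℝ => a + s • e := by fun_prop
  have hW := PERSIST_side M.isOpen_W hc.inW a e (hJc.diff (M.isOpen_W'.preimage hl))
    (fun s hs => hs.1.1) fun s hs => (hJS s hs.1).resolve_right hs.2
  have hW' := PERSIST_side M.isOpen_W' hc.inW' a e (hJc.diff (M.isOpen_W.preimage hl))
    (fun s hs => hs.1.1) fun s hs => (hJS s hs.1).resolve_left hs.2
  have hloc := (eventually_all_finite hTf).2 fun t ht => (hη t ht).1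
  obtain ⟨pa, hpa, pb, hpb, hall⟩ := eventually_prod_iff.1 (hW.and (hW'.and hloc))
  obtain ⟨δ, hδ, hball⟩ := Metric.eventually_nhds_iff.1 hpb
  refine ⟨δ, hδ, hpa.mono fun k hk a' e' h1 h2 => ?_⟩
  obtain ⟨kW, kW', kloc⟩ := hall hk (hball (y := (a', e')) (by
    rw [Prod.dist_eq, max_lt_iff, dist_eq_norm, dist_eq_norm]
    exact ⟨h1, h2⟩))
  have gW : ∀ s ∈ J, a + s • e ∈ M.W → a' + s • e' ∈ (Mk k).W := fun s hs h =>
    kW s ⟨hs, disjoint_left.1 M.disj h⟩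
  have gW' : ∀ s ∈ J, a + s • e ∈ M.W' → a' + s • e' ∈ (Mk k).W' := fun s hs h =>
    kW' s ⟨hs, disjoint_right.1 M.disj h⟩
  have hJ0 : (0 : ℝ) ∈ J := ⟨left_mem_Icc.2 zero_le_one, fun t ht => by
    rw [zero_sub, abs_neg]
    exact (hη t ht).2.1.2.le.trans (le_abs_self t)⟩
  have hJ1 : (1 : ℝ) ∈ J := ⟨right_mem_Icc.2 zero_le_one, fun t ht =>
    (hη t ht).2.2.2.le.trans (le_abs_self _)⟩
  have hwin : ∀ t' ∈ Icc (0 : ℝ) 1, a' + t' • e' ∈ (Mk k).S → ∃ t ∈ T, |t' - t| < η := by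
    intro t' ht' hS
    by_contra hn
    have h3 : t' ∈ J := ⟨ht', fun t ht => not_lt.1 fun h => hn ⟨t, ht, h⟩⟩
    rcases hJS t' h3 with h | h
    · exact disjoint_left.1 (Mk k).disjS (gW t' h3 h) hS
    · exact disjoint_left.1 (Mk k).disjS' (gW' t' h3 h) hS
  refine ⟨by simpa using gW 0 hJ0, by simpa using gW' 0 hJ0, by simpa using gW 1 hJ1,
    by simpa using gW' 1 hJ1, fun t ht hS => ?_, fun t' ht' hS => ?_,
    fun s' hs' t' ht' hS hS' hd => ?_⟩
  · have htT : t ∈ T := ⟨ht, hS⟩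
    have b1 := (hη t htT).2.1.2
    have b2 := (hη t htT).2.2.2
    have hI : ∀ u ∈ Icc (t - η) (t + η), u ∈ Icc (0 : ℝ) 1 := fun u hu =>
      ⟨by linarith [hu.1], by linarith [hu.2]⟩
    have hfar : ∀ u ∈ Icc (t - η) (t + η), ∀ s ∈ T, s ≠ t → η ≤ |u - s| := by
      intro u hu s hs hst
      have c1 := hgap s hs t htT hst
      have c2 := abs_sub_le s u t
      have c3 : |u - t| ≤ η := abs_le.2 ⟨by linarith [hu.1], by linarith [hu.2]⟩
      rw [abs_sub_comm s u] at c2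
      linarith [hη2.2]
    have hp : t - η ∈ Icc (t - η) (t + η) := left_mem_Icc.2 (by linarith)
    have hq : t + η ∈ Icc (t - η) (t + η) := right_mem_Icc.2 (by linarith)
    have hpJ : t - η ∈ J := ⟨hI _ hp, fun s hs => by
      by_cases hst : s = t
      · rw [hst, sub_sub_cancel_left, abs_neg, abs_of_pos hη0]
      · exact hfar _ hp s hs hst⟩
    have hqJ : t + η ∈ J := ⟨hI _ hq, fun s hs => by
      by_cases hst : s = t
      · rw [hst, add_sub_cancel_left, abs_of_pos hη0]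
      · exact hfar _ hq s hs hst⟩
    have hflip := M.basic_flip (a := a) (v := e) (p := t - η) (s := t) (q := t + η) (by linarith)
      (by linarith) (fun u hu => hO u (hI u hu)) (fun u hu hut huS => by
        have c1 := hfar u hu u ⟨hI u hu, huS⟩ hut
        rw [sub_self, abs_zero] at c1
        exact absurd c1 (not_le.2 hη0)) hS (htr t ht hS)
    obtain ⟨u, hu, huS⟩ := PERSIST_cross (hMk k) (a := a') (e := e') (p := t - η) (q := t + η)
      (by linarith) (by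
        by_cases h : a + (t - η) • e ∈ M.W
        · exact Or.inl ⟨gW _ hpJ h, gW' _ hqJ ((hJS _ hqJ).resolve_left (hflip.1 h))⟩
        · exact Or.inr ⟨gW' _ hpJ ((hJS _ hpJ).resolve_left h),
            gW _ hqJ (not_not.1 fun h' => h (hflip.2 h'))⟩)
    exact ⟨u, hI u hu, abs_lt.2 ⟨by linarith [hu.1, hη1.2], by linarith [hu.2, hη1.2]⟩, huS⟩
  · obtain ⟨t, ht, h3⟩ := hwin t' ht' hS
    exact ⟨t, ht.1, ht.2, h3.trans hη1.2, (kloc t ht).1 t' ht' h3.le hS⟩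
  · obtain ⟨s, hs, h3⟩ := hwin s' hs' hS
    obtain ⟨t, ht, h4⟩ := hwin t' ht' hS'
    have hst : s = t := by
      by_contra hne
      have c1 := hgap s hs t ht hne
      have c2 := abs_sub_le s s' t
      have c3 := abs_sub_le s' t' t
      rw [abs_sub_comm s s'] at c2
      linarith [hη2.2]
    rw [hst] at h3
    exact (kloc t ht).2 s' hs' t' ht' h3.le h4.le hS hS'

end MW
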