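import Pool.Agent.P.MP_064970_gt.I.SX

open scoped Manifold ContDiff
open MeasureTheory Set Filter Topology Metric
open scoped RealInnerProductSpace ENNReal ComplexConjugate Real

noncomputable section

namespace MW

universe u

section

variable {Ω : Type u} [TopologicalSpace Ω] [MeasurableSpace Ω] [BorelSpace Ω] {f : Ω → E}

theorem PINT_meas (c : PChart f) {A : Set ℂ} (hA : MeasurableSet A) (hAr : A ⊆ ball 0 c.r) :
    MeasurableSet (c.ψ '' A) := by
  classical
  have hm : Measurable (c.ψ.target.piecewise c.ψ.symm fun _ => (0 : ℂ)) :=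
    c.ψ.continuousOn_symm.measurable_piecewise continuousOn_const c.ψ.open_target.measurableSet
  have e : c.ψ '' A = c.ψ.target ∩ (c.ψ.target.piecewise c.ψ.symm fun _ => (0 : ℂ)) ⁻¹' A := by
    rw [c.ψ.image_eq_target_inter_inv_preimage (c.src.symm ▸ hAr)]
    ext y
    refine and_congr_right fun hy => ?_
    rw [mem_preimage, mem_preimage, piecewise_eq_of_mem _ _ _ hy]
  rw [e]
  exact c.ψ.open_target.measurableSet.inter (hm hA)

theorem PINT_map (m : Measure Ω) (c : PChart f)
    (h : ∀ A : Set ℂ, MeasurableSet A → A ⊆ ball 0 c.r →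
      m (c.ψ '' A) = ∫⁻ z in A, ENNReal.ofReal (c.jac z)) {A : Set ℂ} (hA : MeasurableSet A)
    (hAr : A ⊆ ball 0 c.r) : ∃ X' : ℂ → Ω, Measurable X' ∧ (∀ z ∈ A, X' z = c.ψ z) ∧
      m.restrict (c.ψ '' A) =
        ((volume.restrict A).withDensity fun z => ENNReal.ofReal (c.jac z)).map X' := by
  classical
  have hm : Measurable ((ball (0 : ℂ) c.r).piecewise c.ψ fun _ => c.ψ 0) :=
    (c.src ▸ c.ψ.continuousOn).measurable_piecewise continuousOn_const measurableSet_ball
  have he : ∀ z ∈ A, (ball (0 : ℂ) c.r).piecewise c.ψ (fun _ => c.ψ 0) z = c.ψ z := fun z hz =>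
    piecewise_eq_of_mem _ _ _ (hAr hz)
  refine ⟨_, hm, he, ?_⟩
  ext s hs
  rw [Measure.restrict_apply hs, Measure.map_apply hm hs, withDensity_apply _ (hm hs),
    Measure.restrict_restrict (hm hs), ← h _ ((hm hs).inter hA) (inter_subset_right.trans hAr)]
  congr 1
  ext x
  constructor
  · rintro ⟨hx, z, hz, rfl⟩
    exact ⟨z, ⟨by rw [mem_preimage, he z hz]; exact hx, hz⟩, rfl⟩
  · rintro ⟨z, ⟨h1, h2⟩, rfl⟩
    rw [mem_preimage, he z h2] at h1
    exact ⟨h1, z, h2, rfl⟩

end

/- Hint. psi '' A = target cap symm preimage of A; symm is ContinuousOn the open target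
(ContinuousOn.measurable_piecewise, or the measurable embedding of the subtype ball:
IsOpenEmbedding.measurableEmbedding). Replace psi by a measurable psi' equal to psi on the ball;
m.restrict (psi '' A) = map psi' ((volume.restrict A).withDensity (ofReal jac)) by Measure.ext;
then lintegral_map, lintegral_withDensity_eq_lintegral_mul,
integral_withDensity_eq_integral_toReal_smul, integrable_withDensity_iff_integrable_smul'. See
Chart.ChartAPI_map, Fits.lintegral, Fits.integral in B/ChartAPI.lean for the same proof in the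
embedded case. Finite on compact K: jac is bounded on K. -/
theorem pint_of : S_PINT.{u} := by
  intro Ω _ _ _ f m c h
  refine ⟨fun K hK hKr => ?_, fun A hA hAr => ?_⟩
  · rw [h K hK.measurableSet hKr]
    exact ((c.continuousOn_jac.mono hKr).integrableOn_compact hK).lintegral_lt_top
  obtain ⟨X', hm, he, hμ⟩ := PINT_map m c h hA hAr
  have hJ := c.measurable_jac.ennreal_ofReal
  have hfin : ∀ᵐ z ∂volume.restrict A, ENNReal.ofReal (c.jac z) < ⊤ :=
    Eventually.of_forall fun _ => ENNReal.ofReal_lt_top
  have hpt : ∀ g : Ω → ℝ, ∀ z ∈ A,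
      (ENNReal.ofReal (c.jac z)).toReal • g (X' z) = g (c.ψ z) * c.jac z := fun g z hz => by
    rw [he z hz, ENNReal.toReal_ofReal (c.jac_nonneg z), smul_eq_mul, mul_comm]
  refine ⟨PINT_meas c hA hAr, fun g hg => ?_, fun g hg => ⟨?_, ?_⟩⟩
  · rw [hμ, lintegral_map hg hm,
      lintegral_withDensity_eq_lintegral_mul _ hJ (g := fun a => g (X' a)) (hg.comp hm)]
    refine setLIntegral_congr_fun hA fun z hz => ?_
    simp only [Pi.mul_apply, he z hz]
    rw [mul_comm]
  · rw [IntegrableOn, hμ, integrable_map_measure hg.aestronglyMeasurable hm.aemeasurable,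
      integrable_withDensity_iff_integrable_smul' hJ hfin]
    exact integrableOn_congr_fun (fun z hz => hpt g z hz) hA
  · rw [hμ, integral_map hm.aemeasurable hg.aestronglyMeasurable,
      integral_withDensity_eq_integral_toReal_smul hJ hfin]
    exact setIntegral_congr_fun hA fun z hz => hpt g z hz

end MW
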