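import Pool.Agent.P.MP_064970_gt.I.SX

open scoped Manifold ContDiff
open MeasureTheory Set Filter Topology Metric
open scoped RealInnerProductSpace ENNReal ComplexConjugate Real

noncomputable section

namespace MW

universe u

theorem PLEXT_conn {P : Set E} (hP : IsPreconnected P) {q : E → Prop}
    (ho : ∀ y ∈ P, q y → ∀ᶠ z in 𝓝[P] y, q z) (hc : ∀ y ∈ P, (∃ᶠ z in 𝓝[P] y, q z) → q y)
    {x : E} (hx : x ∈ P) (hq : q x) : ∀ y ∈ P, q y := fun y hy => by
  refine (hP.induction₂' (fun a b => (q a ↔ q b)) (fun a ha => ?_)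
    (fun _ _ _ _ _ _ h h' => h.trans h') hx hy).1 hq
  by_cases h : q a
  · filter_upwards [ho a ha h] with z hz
    exact ⟨iff_of_true h hz, iff_of_true hz h⟩
  · filter_upwards [not_frequently.1 fun h' => h (hc a ha h')] with z hz
    exact ⟨iff_of_false h hz, iff_of_false hz h⟩

/-- Near `y` the surface lies in the plane through `x` with normal `n`. -/
def PLEXT_Q (M : Surf) (x n y : E) : Prop := ∀ᶠ z in 𝓝[M.S] y, M.N z = n ∧ ⟪z - x, n⟫ = 0

theorem PLEXT_closed (hIDC : S_IDC) {M : Surf} {x n y : E} (hy : y ∈ M.S)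
    (h : ∃ᶠ z in 𝓝[M.S] y, PLEXT_Q M x n z) : PLEXT_Q M x n y := by
  obtain ⟨c, rfl, hf⟩ := M.chart y hy
  have h0 : (0 : ℂ) ∈ ball (0 : ℂ) c.r := mem_ball_self c.r_pos
  rw [← hf.emb.map_nhds h0, frequently_map] at h
  obtain ⟨z0, hQ, hz0⟩ := (h.and_eventually (isOpen_ball.mem_nhds h0)).exists
  have hz : ⟪c.X z0 - x, n⟫ = 0 := (Eventually.self_of_nhdsWithin
    (p := fun z => M.N z = n ∧ ⟪z - x, n⟫ = 0) hQ (hf.emb.mem hz0)).2
  rw [PLEXT_Q, ← hf.emb.map_nhds hz0, eventually_map] at hQ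
  have h1 := hIDC c n z0 hz0 (Or.inl (by
    filter_upwards [hQ, isOpen_ball.mem_nhds hz0] with w hw hw'
    rw [← hw.1]
    exact ⟨hf.inner_Xu hw', hf.inner_Xv hw'⟩))
  have h2 := (hf.analyticOnNhd_N M.N_cont M.N_unit).eqOn_of_preconnected_of_eventuallyEq
    (analyticOnNhd_const (v := n)) (convex_ball 0 c.r).isPreconnected hz0 (hQ.mono fun _ h => h.1)
  rw [PLEXT_Q, ← hf.emb.map_nhds h0, eventually_map]
  filter_upwards [isOpen_ball.mem_nhds h0] with w hw
  refine ⟨h2 hw, ?_⟩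
  rw [real_inner_comm, inner_sub_right] at hz ⊢
  rw [(h1 w hw).2.2, hz]

theorem PLEXT_self (hFLAT1 : S_FLAT1) {M : Surf} {x : E} (hx : x ∈ M.S)
    (h : ∀ᶠ y in 𝓝[M.S] x, M.N y = M.N x) : PLEXT_Q M x (M.N x) x := by
  filter_upwards [h, nhdsWithin_le_nhds ((hFLAT1 M x hx).2.2.2 h), self_mem_nhdsWithin]
    with z h1 h2 h3
  exact ⟨h1, h2.1 h3⟩

theorem PLEXT_at {M : Surf} {x n y : E} (hy : y ∈ M.S) (h : PLEXT_Q M x n y) :
    M.N y = n ∧ ⟪y - x, n⟫ = 0 :=
  Eventually.self_of_nhdsWithin (p := fun z => M.N z = n ∧ ⟪z - x, n⟫ = 0) h hy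

theorem PLEXT_open {M : Surf} {x n y : E} (h : PLEXT_Q M x n y) :
    ∀ᶠ z in 𝓝[M.S] y, PLEXT_Q M x n z := eventually_eventually_nhdsWithin.2 h

/- Hint. Q = {y in S | eventually in nhdsWithin S y, N z = n0 and <z - x, n0> = 0} is open in S; it is
closed in S: at y in S in the closure take a chart at y, a point X z0 of Q in it, IDC on the whole
ball, normal_eq_or and continuity of N. x in Q by FLAT1 (4). First part: IsPreconnected P
(isPreconnected_iff_subset_of_disjoint or IsClopen on the subtype). Second part: P cap Q is open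
in P (FLAT1 (4) at y in Q: nearby points of the plane are in S, and in Q) and closed in P
(mem_S_of_closure, then Q closed in S). -/
theorem plext_of (hIDC : S_IDC) (hFLAT1 : S_FLAT1) : S_PLEXT := by
  refine ⟨fun M P x hP hS hx h y hy => ?_, fun M P x hP hO hx hxS h hpl y hy => ?_⟩
  · have := PLEXT_conn hP (q := PLEXT_Q M x (M.N x))
      (fun a _ ha => nhdsWithin_mono a hS (PLEXT_open ha))
      (fun a ha h' => PLEXT_closed hIDC (hS ha) (h'.filter_mono (nhdsWithin_mono a hS))) hx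
      (PLEXT_self hFLAT1 (hS hx) h) y hy
    exact ⟨Eventually.mono this fun _ h => h.1, (PLEXT_at (hS hy) this).2⟩
  · have := PLEXT_conn hP (q := fun a => a ∈ M.S ∧ PLEXT_Q M x (M.N x) a)
      (fun a ha ⟨haS, hQ⟩ => by
        have h1 := (PLEXT_at haS hQ).1
        have h2 := (hFLAT1 M a haS).2.2.2 (Eventually.mono hQ fun _ h => h.1.trans h1.symm)
        filter_upwards [nhdsWithin_le_nhds h2,
          nhdsWithin_le_nhds (eventually_nhdsWithin_iff.1 (PLEXT_open hQ)), self_mem_nhdsWithin]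
          with z h3 h4 h5
        have h6 : z ∈ M.S := h3.2 (by
          have e1 := hpl z h5
          have e2 := hpl a ha
          rw [inner_sub_left] at e1 e2
          rw [h1, inner_sub_left]
          linarith)
        exact ⟨h6, h4 h6⟩)
      (fun a ha h' => by
        have h1 := h'.filter_mono nhdsWithin_le_nhds
        have h2 : a ∈ M.S := M.mem_S_of_closure (hO ha)
          (mem_closure_iff_frequently.2 (h1.mono fun _ h => h.1))
        exact ⟨h2, PLEXT_closed hIDC h2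
          (frequently_nhdsWithin_iff.2 (h1.mono fun _ h => h.symm))⟩)
      hx ⟨hxS, PLEXT_self hFLAT1 hxS h⟩ y hy
    exact ⟨this.1, Eventually.mono this.2 fun _ h => h.1⟩

end MW
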