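import Pool.Agent.P.MP_064970_gt.I.SX

open scoped Manifold ContDiff
open MeasureTheory Set Filter Topology Metric
open scoped RealInnerProductSpace ENNReal ComplexConjugate Real

noncomputable section

namespace MW

universe u

theorem pp_of : S_PP := by
  intro M hM x r L hr hL hx
  have hK : IsCompact (M.S ∩ closedBall x (2 * L * r + r)) :=
    M.isCompact_inter (isCompact_closedBall _ _) (hM.sub _)
  have hu := hK.uniformContinuousOn_of_continuous (M.N_cont.mono inter_subset_left)
  obtain ⟨δ, hδ, hu⟩ := Metric.uniformContinuousOn_iff.1 hu (1 / 10) (by norm_num)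
  have hsmall : ∀ (z : E) (s : ℝ), ‖z - x‖ ≤ 2 * L * r → s ≤ r → 2 * s ≤ δ → M.Reg z s := by
    intro z s hz hs hsδ a ha b hb
    have hin : ∀ y ∈ ball z s, y ∈ closedBall x (2 * L * r + r) := fun y hy => by
      rw [mem_closedBall]
      have h1 := dist_triangle y z x
      rw [mem_ball] at hy
      rw [← dist_eq_norm] at hz
      linarith
    have hab : dist a b < δ := by
      have h1 := dist_triangle_right a b z
      have h2 := mem_ball.1 ha.2
      have h3 := mem_ball.1 hb.2
      linarith
    have := hu a ⟨ha.1, hin a ha.2⟩ b ⟨hb.1, hin b hb.2⟩ hab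
    rw [dist_eq_norm] at this
    exact this.le
  by_contra hcon
  push Not at hcon
  have step : ∀ n : ℕ, ∃ q : E, ‖q - x‖ ≤ 2 * L * r - 2 * L * (r / 2 ^ n) ∧
      ¬ M.Reg q (r / 2 ^ n) := by
    intro n
    induction n with
    | zero => exact ⟨x, by simp, by simpa using hx⟩
    | succ n ih =>
      obtain ⟨q, h1, h2⟩ := ih
      have hp : 0 < r / 2 ^ n := by positivity
      have hle : r / 2 ^ n ≤ r := div_le_self hr.le (one_le_pow₀ (by norm_num))
      have hL0 : 0 ≤ 2 * L * (r / 2 ^ n) := by positivity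
      obtain ⟨z, hz, hz'⟩ := hcon q (r / 2 ^ n) hp hle (by linarith)
        (fun h => h2 (h.mono (ball_subset_ball (by linarith))))
      have e : r / 2 ^ (n + 1) = r / 2 ^ n / 2 := by rw [pow_succ, div_div]
      refine ⟨z, ?_, by rwa [e]⟩
      rw [e]
      have h3 := norm_sub_le_norm_sub_add_norm_sub z q x
      rw [mem_ball, dist_eq_norm] at hz
      linarith
  have ht : Tendsto (fun n : ℕ => r / 2 ^ n) atTop (𝓝 0) :=
    tendsto_const_nhds.div_atTop (tendsto_pow_atTop_atTop_of_one_lt (by norm_num))
  obtain ⟨n, hn⟩ := (ht.eventually (gt_mem_nhds (half_pos hδ))).exists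
  obtain ⟨q, h1, h2⟩ := step n
  have hL0 : 0 ≤ 2 * L * (r / 2 ^ n) := by positivity
  exact h2 (hsmall q _ (by linarith) (div_le_self hr.le (one_le_pow₀ (by norm_num)))
    (by linarith))

end MW
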