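import Pool.Agent.P.MP_064970_gt.I.SX

open scoped Manifold ContDiff
open MeasureTheory Set Filter Topology Metric
open scoped RealInnerProductSpace ENNReal ComplexConjugate Real

noncomputable section

namespace MW

universe u

theorem QCH_sign (A : E ≃ₗᵢ[ℝ] E) : ∃ s : ℝ, |s| = 1 ∧
    cr (A (pt 1 0)) (A (pt Complex.I 0)) = s • A e3 := by
  have n1 : ‖A (pt 1 0)‖ = 1 := by rw [A.norm_map, norm_pt_zero, norm_one]
  have n2 : ‖A (pt Complex.I 0)‖ = 1 := by rw [A.norm_map, norm_pt_zero, Complex.norm_I]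
  have n3 : ‖A e3‖ = 1 := by rw [A.norm_map, norm_e3]
  have o12 : ⟪A (pt 1 0), A (pt Complex.I 0)⟫ = 0 := by
    rw [A.inner_map_map, inner_eq]; simp
  have o31 : ⟪A e3, A (pt 1 0)⟫ = 0 := by rw [A.inner_map_map, e3_inner]; simp
  have o32 : ⟪A e3, A (pt Complex.I 0)⟫ = 0 := by rw [A.inner_map_map, e3_inner]; simp
  have h1 := norm_sq_cr (A (pt 1 0)) (A (pt Complex.I 0))
  rw [n1, n2, o12] at h1
  have h2 : ‖cr (A (pt 1 0)) (A (pt Complex.I 0))‖ = 1 :=
    (sq_eq_sq₀ (norm_nonneg _) zero_le_one).1 (by rw [h1]; ring)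
  have h3 := smul_eq_of_orth o31 o32
  rw [h2, one_pow, one_smul] at h3
  generalize ⟪A e3, cr (A (pt 1 0)) (A (pt Complex.I 0))⟫ = s at h3
  have h4 : |s| = 1 := by
    have := congrArg norm h3
    rw [n3, norm_smul, h2, mul_one, Real.norm_eq_abs] at this
    exact this.symm
  refine ⟨s, h4, ?_⟩
  rw [h3, smul_smul, ← sq, ← sq_abs, h4, one_pow, one_smul]

/- Hint. c0 = 1/4, c1 = 1/8. A from exists_iso_e3, u from GRAPH, Y y = p + A (pt y (u y)) on ball 0
(rho/2), analytic, DY w = A (pt w (Du w)). a1 = A (pt 1 0), a2 = A (pt I 0), cr a1 a2 = s N p with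
s = 1 or -1 (smul_eq_of_orth, unit). Z from CONJ; apply CONF with n y = s N (Y y) and s Z (normal
relation from PARAM, |n - cr a1 a2| <= 1/10 by Reg). Emb: inj from BiLip; X '' V = S cap {x in
ball p rho | prA A (x - p) in g '' V} (uniqueness in GRAPH; g '' V open). Fits from the second
part of PARAM. Cover: x in S cap ball p (rho/8) has y = prA A (x - p) in ball 0 (rho/8), a subset
of g.target. -/
theorem qch_of (hGRAPH : S_GRAPH) (hCONJ : S_CONJ) (hCONF : S_CONF) (hPARAM : S_PARAM) : S_QCH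
    := by
  refine ⟨1 / 4, 1 / 8, by norm_num, by norm_num, le_rfl, fun M p ρ hp hρ hO hreg => ?_⟩
  obtain ⟨A, hA⟩ := exists_iso_e3 (M.N_unit p hp)
  obtain ⟨u, hu0, hua, hu⟩ := hGRAPH M p ρ A hp hρ hO hreg hA
  obtain ⟨s, hs, hcr⟩ := QCH_sign A
  let L : ℂ × ℝ →L[ℝ] E := (A.toContinuousLinearEquiv : E →L[ℝ] E).comp ptL
  obtain ⟨Y, hY⟩ : ∃ Y : ℂ → E, Y = fun y => p + L (y, u y) := ⟨_, rfl⟩
  have hY' : ∀ y, Y y = p + A (pt y (u y)) := fun y => by rw [hY]; rfl
  have hYa : AnalyticOnNhd ℝ Y (ball 0 (ρ / 2)) := fun y hy => by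
    rw [hY]
    exact analyticAt_const.add ((L.analyticAt _).comp (analyticAt_id.prod (hua y hy)))
  have hYd : ∀ y ∈ ball (0 : ℂ) (ρ / 2), ∀ w,
      fderiv ℝ Y y w = A (pt w (fderiv ℝ u y w)) := fun y hy w => by
    have h1 : HasFDerivAt Y (L.comp ((ContinuousLinearMap.id ℝ ℂ).prod (fderiv ℝ u y))) y := by
      rw [hY]
      exact (L.hasFDerivAt.comp y
        ((hasFDerivAt_id y).prodMk (hua y hy).differentiableAt.hasFDerivAt)).const_add p
    rw [h1.fderiv]
    rfl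
  have hYm : ∀ y ∈ ball (0 : ℂ) (ρ / 2), Y y ∈ M.S ∩ ball p ρ := fun y hy => by
    rw [hY']
    exact (hu y hy).1
  have hYS : MapsTo Y (ball 0 (ρ / 2)) M.S := fun y hy => (hYm y hy).1
  have hYp : ∀ y, prA A (Y y - p) = y := fun y => by
    rw [hY', add_sub_cancel_left, prA_apply_pt]
  have hYx : ∀ x ∈ M.S ∩ ball p ρ, prA A (x - p) ∈ ball (0 : ℂ) (ρ / 2) →
      Y (prA A (x - p)) = x := fun x hx hy => by
    have h1 : p + A (pt (prA A (x - p)) ⟪x - p, A e3⟫) = x := by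
      rw [apply_pt_prA, add_sub_cancel]
    rw [hY', ← (hu _ hy).2.2 _ (by rwa [h1]), h1]
  obtain ⟨Z, hZ⟩ := hCONJ M Y _ isOpen_ball (convex_ball _ _) hYa hYS
  have hnrm := ((hPARAM M).1 Y _ isOpen_ball hYS hYa.differentiableOn).1
  obtain ⟨c, g, hcr', hsrc, htgt, -, hbl, hΦ, hX, hcov⟩ := hCONF Y (fun y => s • Z y)
    (fun y => s • M.N (Y y)) 0 (ρ / 2) (A (pt 1 0)) (A (pt Complex.I 0)) (half_pos hρ)
    (by rw [A.norm_map, norm_pt_zero, norm_one])
    (by rw [A.norm_map, norm_pt_zero, Complex.norm_I])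
    (by rw [A.inner_map_map, inner_eq]; simp) hYa.differentiableOn
    (fun y hy => by
      rw [map_smul, ContinuousLinearMap.smul_comp]
      exact (hZ y hy).const_smul s)
    (fun y hy => by
      refine ⟨?_, ?_, fun w => ⟨?_, ?_⟩⟩
      · rw [norm_smul, Real.norm_eq_abs, hs, one_mul, M.N_unit _ (hYS hy)]
      · rw [hcr, hA, ← smul_sub, norm_smul, Real.norm_eq_abs, hs, one_mul]
        exact (hreg _ (hYm y hy) p ⟨hp, mem_ball_self hρ⟩).trans (by norm_num)
      · rw [real_inner_smul_left, hnrm y hy w, mul_zero]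
      · have h1 : pt w (fderiv ℝ u y w) - (w.re • pt 1 0 + w.im • pt Complex.I 0)
            = fderiv ℝ u y w • e3 := by
          apply E_ext <;> simp [e3]
        rw [hYd y hy, ← map_smul, ← map_smul, ← map_add, ← map_sub, A.norm_map, h1, norm_smul,
          norm_e3, mul_one]
        refine ((fderiv ℝ u y).le_opNorm w).trans ?_
        have := mul_le_mul_of_nonneg_right (hu y hy).2.1 (norm_nonneg w)
        linarith)
  rw [← hcr'] at hsrc hX
  have hg : ∀ z ∈ ball (0 : ℂ) c.r, g z ∈ ball (0 : ℂ) (ρ / 2) := fun z hz =>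
    htgt (g.map_source (hsrc ▸ hz))
  refine ⟨c, by rw [hcr']; ring, fun i => ?_, (hPARAM M).2 c ⟨fun z hz w hw h => ?_,
    fun V hV hVs => ?_⟩, hbl, fun x hx => ?_⟩
  · have h1 : pt 0 0 = 0 := by apply E_ext <;> simp
    rw [hΦ i, hY', hu0, h1, map_zero, add_zero]
  · have h1 := (hbl z hz w hw).1
    rw [h, sub_self, norm_zero] at h1
    exact sub_eq_zero.1 (norm_le_zero_iff.1 (by linarith))
  · refine ⟨ball p ρ ∩ (fun x => prA A (x - p)) ⁻¹' (g '' V), isOpen_ball.inter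
      ((g.isOpen_image_of_subset_source hV (hsrc ▸ hVs)).preimage
        ((continuous_prA A).comp (continuous_id.sub continuous_const))), ?_⟩
    refine Subset.antisymm ?_ ?_
    · rintro _ ⟨z, hz, rfl⟩
      have h1 := hYm _ (hg z (hVs hz))
      rw [hX z (hVs hz)]
      exact ⟨h1.1, h1.2, z, hz, (hYp _).symm⟩
    · rintro x ⟨hxS, hxb, z, hz, hzx⟩
      have hzx' : g z = prA A (x - p) := hzx
      refine ⟨z, hz, ?_⟩
      rw [hX z (hVs hz), hzx']
      exact hYx x ⟨hxS, hxb⟩ (hzx' ▸ hg z (hVs hz))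
  · have h1 : ‖prA A (x - p)‖ < 1 / 8 * ρ := by
      refine lt_of_le_of_lt ?_ (mem_ball_iff_norm.1 hx.2)
      exact (norm_pr_le _).trans (A.symm.norm_map _).le
    have h2 : prA A (x - p) ∈ g.target := hcov (mem_ball_zero_iff.2 (by linarith))
    have h3 : g.symm (prA A (x - p)) ∈ ball (0 : ℂ) c.r := hsrc ▸ g.map_target h2
    refine ⟨_, h3, ?_⟩
    rw [hX _ h3, g.right_inv h2]
    exact hYx x ⟨hx.1, ball_subset_ball (by linarith) hx.2⟩ (htgt h2)

end MW
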