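import Pool.Agent.P.MP_064970_gt.I.SX

open scoped Manifold ContDiff
open MeasureTheory Set Filter Topology Metric
open scoped RealInnerProductSpace ENNReal ComplexConjugate Real

noncomputable section

namespace MW

universe u

theorem rig1_of (hRIGA : S_RIGA) : S_RIG1 := by
  intro M hM h x hx y hy
  have := hRIGA M M.S hM.univ Subset.rfl ⟨univ, isOpen_univ, by simp⟩
    ⟨∅, isOpen_empty, by simp⟩ (fun p r hr => by rw [M.restrict_S]; exact h p r hr) y hy
  exact this.2 x hx

end MW
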