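import Pool.Agent.P.MP_064970_gt.I.SX

open scoped Manifold ContDiff
open MeasureTheory Set Filter Topology Metric
open scoped RealInnerProductSpace ENNReal ComplexConjugate Real

noncomputable section

namespace MW

universe u

theorem rline_of : S_RLINE := by
  intro M
  rcases M.S.eq_empty_or_nonempty with h | hne
  · exact Eventually.of_forall fun y t ht => by simp [h] at ht
  obtain ⟨c, hc, hcov⟩ := M.exists_countable_charts hne
  have key : ∀ n, volume ((fun z => pr ((c n).X z)) ''
      {z | z ∈ ball (0 : ℂ) (c n).r ∧ M.N ((c n).X z) 2 = 0}) = 0 := by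
    intro n
    refine addHaar_image_eq_zero_of_det_fderivWithin_eq_zero volume
      (f' := fun z => prL.comp ((c n).DX z)) (fun z hz => ?_) (fun z hz => ?_)
    · exact (prL.hasFDerivAt.comp z ((c n).hasFDerivAt_X hz.1)).hasFDerivWithinAt
    · have h := (c n).abs_det_prA hz.1 (LinearIsometryEquiv.refl ℝ E)
        (M.N_unit _ ((hc n).emb.mem hz.1)) ((hc n).inner_Xu hz.1) ((hc n).inner_Xv hz.1) prL
        (fun x => by rw [prA_refl]; rfl)
      have h2 : ⟪M.N ((c n).X z), (LinearIsometryEquiv.refl ℝ E) e3⟫ = 0 := by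
        rw [LinearIsometryEquiv.coe_refl, id, inner_e3]; exact hz.2
      rw [h2] at h
      simpa using h
  have h0 := measure_iUnion_null key
  refine measure_mono_null (fun y hy => ?_) h0
  simp only [mem_compl_iff, mem_ofPred_eq, not_forall, not_not] at hy
  obtain ⟨t, ht, hN⟩ := hy
  obtain ⟨n, z, hz, hX⟩ := mem_iUnion.1 (hcov ht)
  refine mem_iUnion.2 ⟨n, z, ⟨ball_subset_ball (half_le_self (c n).r_pos.le) hz, ?_⟩, ?_⟩
  · rw [hX]; exact hN
  · simp only [hX, pr_pt]

end MW
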