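import Pool.Agent.P.MP_064970_gt.I.SX

open scoped Manifold ContDiff
open MeasureTheory Set Filter Topology Metric
open scoped RealInnerProductSpace ENNReal ComplexConjugate Real

noncomputable section

namespace MW

universe u

theorem same_of (hSIDE : S_SIDE) (hUC : S_UC) : S_SAME := by
  have part1 : ∀ M M' : Surf, M.Mem → M'.Mem → M.S = M'.S → M.S.Nonempty →
      (∀ x ∈ M.S, M'.N x = M.N x) → M'.W = M.W ∧ M'.W' = M.W' := by
    intro M M' hM hM' hS hne hN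
    have key : ∀ z, z ∉ M.S → (z ∈ M'.W ↔ z ∈ M.W) ∧ (z ∈ M'.W' ↔ z ∈ M.W') := by
      intro z hz
      obtain ⟨x, hx, hd⟩ := hM.isClosed.exists_infDist_eq_dist hne z
      have hn : ∀ y ∈ M.S, ‖z - x‖ ≤ ‖z - y‖ := fun y hy => by
        rw [← dist_eq_norm, ← dist_eq_norm, ← hd]; exact infDist_le_dist_of_mem hy
      have a := hSIDE M hM z x hz hx hn
      have b := hSIDE M' hM' z x (hS ▸ hz) (hS ▸ hx) (hS ▸ hn)
      rw [hN x hx] at b
      exact ⟨b.2.trans a.2.symm, b.1.trans a.1.symm⟩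
    constructor
    · ext z
      by_cases hz : z ∈ M.S
      · exact ⟨fun h => absurd (hS ▸ hz) (Set.disjoint_left.1 M'.disjS h),
          fun h => absurd hz (Set.disjoint_left.1 M.disjS h)⟩
      · exact (key z hz).1
    · ext z
      by_cases hz : z ∈ M.S
      · exact ⟨fun h => absurd (hS ▸ hz) (Set.disjoint_left.1 M'.disjS' h),
          fun h => absurd hz (Set.disjoint_left.1 M.disjS' h)⟩
      · exact (key z hz).2
  intro M M' hM hM' hS hne
  refine ⟨part1 M M' hM hM' hS hne, fun hc => ?_⟩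
  have hpm : ∀ x ∈ M.S, M'.N x = M.N x ∨ M'.N x = -M.N x := fun x hx =>
    (hUC M M' x hx (hS ▸ hx)).2 (by rw [← hS]; exact self_mem_nhdsWithin)
  have hcont : ContinuousOn (fun x => ⟪M'.N x, M.N x⟫) M.S :=
    ContinuousOn.inner (𝕜 := ℝ) (hS ▸ M'.N_cont) M.N_cont
  have hval : ∀ x ∈ M.S, (M'.N x = M.N x ∧ ⟪M'.N x, M.N x⟫ = 1) ∨
      (M'.N x = -M.N x ∧ ⟪M'.N x, M.N x⟫ = -1) := fun x hx => by
    rcases hpm x hx with h | h
    · left; refine ⟨h, ?_⟩; rw [h, real_inner_self_eq_norm_sq, M.N_unit x hx]; norm_num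
    · right; refine ⟨h, ?_⟩
      rw [h, inner_neg_left, real_inner_self_eq_norm_sq, M.N_unit x hx]; norm_num
  have hno : ∀ x ∈ M.S, ∀ y ∈ M.S, ⟪M'.N x, M.N x⟫ = -1 → ⟪M'.N y, M.N y⟫ = 1 → False := by
    intro x hx y hy h1 h2
    obtain ⟨z, hz, h0⟩ := hc.intermediate_value hx hy hcont
      (show (0 : ℝ) ∈ Icc ⟪M'.N x, M.N x⟫ ⟪M'.N y, M.N y⟫ by rw [h1, h2]; norm_num)
    have h0' : ⟪M'.N z, M.N z⟫ = 0 := h0
    rcases hval z hz with h | h <;> rw [h.2] at h0' <;> norm_num at h0'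
  obtain ⟨x, hx⟩ := hne
  rcases hval x hx with h | h
  · left
    have hN : ∀ y ∈ M.S, M'.N y = M.N y := fun y hy =>
      ((hval y hy).resolve_right fun h' => hno y hy x hx h'.2 h.2).1
    exact ⟨hN, part1 M M' hM hM' hS ⟨x, hx⟩ hN⟩
  · right
    have hN : ∀ y ∈ M.S, M'.N y = -M.N y := fun y hy =>
      ((hval y hy).resolve_left fun h' => hno x hx y hy h.2 h'.2).1
    exact ⟨hN, part1 M.swap M' hM.swap hM' hS ⟨x, hx⟩ hN⟩

end MW
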