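import Pool.Agent.P.MP_064970_gt.I.SX

open scoped Manifold ContDiff
open MeasureTheory Set Filter Topology Metric
open scoped RealInnerProductSpace ENNReal ComplexConjugate Real

noncomputable section

namespace MW

universe u

/-- The scalar factor of the gradient of the weight. -/
def SHIFT_k (r : ℝ) (y : E) : ℝ := -(12 / π) * max (1 - ‖y‖ ^ 2 / r ^ 2) 0 ^ 2 * (2 / r ^ 2)

theorem SHIFT_continuous_k (r : ℝ) : Continuous (SHIFT_k r) := by
  unfold SHIFT_k; fun_prop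

theorem SHIFT_abs_k {r : ℝ} (hr : 0 < r) (y : E) : |SHIFT_k r y| ≤ 8 / r ^ 2 := by
  have hπ := Real.pi_gt_three
  have h0 : 0 ≤ max (1 - ‖y‖ ^ 2 / r ^ 2) 0 := le_max_right _ _
  have h1 : max (1 - ‖y‖ ^ 2 / r ^ 2) 0 ≤ 1 :=
    max_le (by have : 0 ≤ ‖y‖ ^ 2 / r ^ 2 := by positivity
               linarith) zero_le_one
  have h2 : max (1 - ‖y‖ ^ 2 / r ^ 2) 0 ^ 2 ≤ 1 := pow_le_one₀ h0 h1
  have h3 : 12 / π ≤ 4 := by rw [div_le_iff₀ (by linarith)]; linarith
  have h4 : 0 ≤ 12 / π := by positivity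
  have e : SHIFT_k r y = -(12 / π * max (1 - ‖y‖ ^ 2 / r ^ 2) 0 ^ 2 * (2 / r ^ 2)) := by
    rw [SHIFT_k]; ring
  rw [e, abs_neg, abs_of_nonneg (by positivity)]
  have h5 : 12 / π * max (1 - ‖y‖ ^ 2 / r ^ 2) 0 ^ 2 ≤ 4 := by nlinarith
  calc 12 / π * max (1 - ‖y‖ ^ 2 / r ^ 2) 0 ^ 2 * (2 / r ^ 2) ≤ 4 * (2 / r ^ 2) :=
        mul_le_mul_of_nonneg_right h5 (by positivity)
    _ = 8 / r ^ 2 := by ring

theorem SHIFT_k_zero {r : ℝ} (hr : 0 < r) {y : E} (hy : r ≤ ‖y‖) : SHIFT_k r y = 0 := by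
  have h1 : 1 ≤ ‖y‖ ^ 2 / r ^ 2 := by
    rw [le_div_iff₀ (by positivity), one_mul]
    exact pow_le_pow_left₀ hr.le hy 2
  rw [SHIFT_k, max_eq_right (by linarith)]; simp

theorem SHIFT_hasFDerivAt (r : ℝ) (y : E) :
    HasFDerivAt (fun y : E => lam (‖y‖ ^ 2 / r ^ 2)) (SHIFT_k r y • innerSL ℝ y) y := by
  have h1 : HasFDerivAt (fun y : E => ‖y‖ ^ 2 / r ^ 2) ((r ^ 2)⁻¹ • (2 • innerSL ℝ y)) y := by
    have h2 := ((hasStrictFDerivAt_norm_sq y).hasFDerivAt).const_smul (r ^ 2)⁻¹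
    refine h2.congr_of_eventuallyEq (Eventually.of_forall fun z => ?_)
    simp only [Pi.smul_apply, smul_eq_mul]
    ring
  have h3 := (hasDerivAt_lam (‖y‖ ^ 2 / r ^ 2)).comp_hasFDerivAt y h1
  refine h3.congr_fderiv ?_
  ext w
  simp only [SHIFT_k, smul_apply, smul_eq_mul, nsmul_eq_mul]
  push_cast
  ring

theorem SHIFT_fderiv (r : ℝ) (q x w : E) :
    fderiv ℝ (fun x : E => lam (‖x - q‖ ^ 2 / r ^ 2)) x w = SHIFT_k r (x - q) * ⟪x - q, w⟫ := by
  have h := (SHIFT_hasFDerivAt r (x - q)).comp x ((hasFDerivAt_id x).sub_const q)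
  have h2 : HasFDerivAt (fun x : E => lam (‖x - q‖ ^ 2 / r ^ 2)) _ x := h
  rw [h2.fderiv]
  rfl

theorem SHIFT_hasDerivAt (r : ℝ) (p v x : E) (t : ℝ) :
    HasDerivAt (fun t : ℝ => lam (‖x - (p + t • v)‖ ^ 2 / r ^ 2))
      (-(SHIFT_k r (x - (p + t • v)) * ⟪x - (p + t • v), v⟫)) t := by
  have h1 : HasDerivAt (fun t : ℝ => x - (p + t • v)) (-v) t := by
    simpa using (((hasDerivAt_id t).smul_const v).const_add p).const_sub x
  have h := (SHIFT_hasFDerivAt r (x - (p + t • v))).comp_hasDerivAt t h1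
  refine HasDerivAt.congr_deriv h ?_
  change SHIFT_k r (x - (p + t • v)) * ⟪x - (p + t • v), -v⟫ = _
  rw [inner_neg_right, mul_neg]

theorem SHIFT_abs_mul {r : ℝ} (hr : 0 < r) (y w : E) :
    |SHIFT_k r y * ⟪y, w⟫| ≤ 8 / r ^ 2 * (r * ‖w‖) := by
  rcases le_total r ‖y‖ with h | h
  · rw [SHIFT_k_zero hr h, zero_mul, abs_zero]; positivity
  · rw [abs_mul]
    refine mul_le_mul (SHIFT_abs_k hr y) ((abs_real_inner_le_norm _ _).trans ?_) (abs_nonneg _)
      (by positivity)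
    exact mul_le_mul_of_nonneg_right h (norm_nonneg _)

/-- The first variation formula for the weight. -/
theorem SHIFT_fv (hFV : S_FV) {M : Surf} (hM : M.Mem) (q v : E) {r : ℝ} (hr : 0 < r) :
    ∫ x, SHIFT_k r (x - q) * ⟪x - q, v⟫ ∂M.μ
      = ∫ x, ⟪M.N x, v⟫ * (SHIFT_k r (x - q) * ⟪x - q, M.N x⟫) ∂M.μ := by
  have hc : ContDiff ℝ 1 fun x : E => lam (‖x - q‖ ^ 2 / r ^ 2) :=
    (contDiff_lam.of_le (by norm_num)).comp
      (((contDiff_norm_sq ℝ).comp (contDiff_id.sub contDiff_const)).div_const _)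
  have hs : HasCompactSupport fun x : E => lam (‖x - q‖ ^ 2 / r ^ 2) := by
    refine HasCompactSupport.intro (isCompact_closedBall q r) fun x hx => ?_
    rw [mem_closedBall, dist_eq_norm, not_le] at hx
    refine lam_eq_zero ?_
    rw [le_div_iff₀ (by positivity), one_mul]
    exact pow_le_pow_left₀ hr.le hx.le 2
  have h := (hFV M).1 _ hc hs (hM.sub _) v
  simp only [SHIFT_fderiv] at h
  have hk : Continuous fun x : E => SHIFT_k r (x - q) :=
    (SHIFT_continuous_k r).comp (continuous_id.sub continuous_const)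
  have hz : ∀ x : E, x ∉ ball q r → SHIFT_k r (x - q) = 0 := fun x hx => by
    rw [mem_ball, dist_eq_norm, not_lt] at hx
    exact SHIFT_k_zero hr hx
  have i1 : Integrable (fun x => SHIFT_k r (x - q) * ⟪x - q, v⟫) M.μ := by
    refine hM.bd.integrable (A := ball q r) isBounded_ball
      (hk.mul (by fun_prop)).measurable (fun x _ => SHIFT_abs_mul hr _ _) fun x _ hx => ?_
    rw [hz x hx, zero_mul]
  have i2 : Integrable (fun x => ⟪M.N x, v⟫ * (SHIFT_k r (x - q) * ⟪x - q, M.N x⟫)) M.μ := by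
    refine hM.bd.integrable (A := ball q r) isBounded_ball (C := ‖v‖ * (8 / r ^ 2 * (r * 1)))
      ((M.N_meas.inner measurable_const).mul (hk.measurable.mul
        ((measurable_id.sub measurable_const).inner M.N_meas))) (fun x hx => ?_) fun x _ hx => ?_
    · rw [abs_mul]
      refine mul_le_mul ?_ ?_ (abs_nonneg _) (norm_nonneg _)
      · refine (abs_real_inner_le_norm _ _).trans ?_
        rw [M.N_unit x hx, one_mul]
      · rw [← M.N_unit x hx]; exact SHIFT_abs_mul hr _ _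
    · rw [hz x hx, zero_mul, mul_zero]
  rw [integral_sub i1 i2] at h
  exact sub_eq_zero.1 h

theorem SHIFT_deriv {M : Surf} (hM : M.Mem) (p v : E) {r : ℝ} (hr : 0 < r) (t : ℝ) :
    HasDerivAt (fun t : ℝ => ∫ x, lam (‖x - (p + t • v)‖ ^ 2 / r ^ 2) ∂M.μ)
      (∫ x, -(SHIFT_k r (x - (p + t • v)) * ⟪x - (p + t • v), v⟫) ∂M.μ) t := by
  have hk : ∀ q : E, Continuous fun x : E => SHIFT_k r (x - q) := fun q =>
    (SHIFT_continuous_k r).comp (continuous_id.sub continuous_const)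
  refine (hasDerivAt_integral_of_dominated_loc_of_deriv_le (μ := M.μ) (s := ball t 1)
    (F := fun t x => lam (‖x - (p + t • v)‖ ^ 2 / r ^ 2))
    (F' := fun t x => -(SHIFT_k r (x - (p + t • v)) * ⟪x - (p + t • v), v⟫))
    (bound := (ball (p + t • v) (r + ‖v‖)).indicator fun _ => 8 / r ^ 2 * (r * ‖v‖))
    (ball_mem_nhds t one_pos)
    (Eventually.of_forall fun s => (hM.bd.integrable_lam (p + s • v) hr).aestronglyMeasurable)
    (hM.bd.integrable_lam (p + t • v) hr) ?_ ?_ ?_ ?_).2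
  · exact (((hk _).mul (by fun_prop)).neg).aestronglyMeasurable
  · refine Eventually.of_forall fun x s hs => ?_
    by_cases hx : x ∈ ball (p + t • v) (r + ‖v‖)
    · rw [indicator_of_mem hx, norm_neg, Real.norm_eq_abs]
      exact SHIFT_abs_mul hr _ _
    · rw [indicator_of_notMem hx, SHIFT_k_zero hr, zero_mul, neg_zero, norm_zero]
      rw [mem_ball, dist_eq_norm, not_lt] at hx
      rw [mem_ball, dist_eq_norm] at hs
      have e : x - (p + t • v) = x - (p + s • v) + (s - t) • v := by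
        rw [sub_smul]; abel
      have h1 : ‖x - (p + t • v)‖ ≤ ‖x - (p + s • v)‖ + ‖s - t‖ * ‖v‖ := by
        rw [e, ← norm_smul]; exact norm_add_le _ _
      nlinarith [norm_nonneg v]
  · exact (integrable_indicator_iff measurableSet_ball).2
      (integrableOn_const (hM.bd.lt_top isBounded_ball).ne)
  · exact Eventually.of_forall fun x s _ => SHIFT_hasDerivAt r p v x s

theorem SHIFT_bound {M : Surf} (hM : M.Mem) (p v : E) {r : ℝ} (hr : 0 < r) {t : ℝ} (ht0 : 0 ≤ t)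
    (ht1 : t ≤ 1) :
    ‖∫ x, ⟪M.N x, v⟫ * (SHIFT_k r (x - (p + t • v)) * ⟪x - (p + t • v), M.N x⟫) ∂M.μ‖
      ≤ 8 / r ^ 2 * ∫ x in ball p (r + ‖v‖), |⟪M.N x, v⟫| * (|M.ψ p x| + |⟪M.N x, v⟫|) ∂M.μ := by
  have hm1 : Measurable fun x => ⟪M.N x, v⟫ := M.N_meas.inner measurable_const
  have hm2 : Measurable fun x => M.ψ p x := (measurable_id.sub measurable_const).inner M.N_meas
  have hb : ∀ x ∈ M.S, |⟪M.N x, v⟫| ≤ ‖v‖ := fun x hx => by
    refine (abs_real_inner_le_norm _ _).trans ?_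
    rw [M.N_unit x hx, one_mul]
  have hI : IntegrableOn (fun x => 8 / r ^ 2 * (|⟪M.N x, v⟫| * (|M.ψ p x| + |⟪M.N x, v⟫|)))
      (ball p (r + ‖v‖)) M.μ := by
    refine Integrable.const_mul ?_ _
    refine hM.bd.integrableOn isBounded_ball (C := ‖v‖ * (r + ‖v‖ + ‖v‖))
      (hm1.abs.mul (hm2.abs.add hm1.abs)) (fun x hx => ?_) measurableSet_ball
    rw [abs_of_nonneg (by positivity)]
    refine mul_le_mul (hb x hx.2) (add_le_add ?_ (hb x hx.2)) (by positivity) (norm_nonneg _)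
    refine (abs_real_inner_le_norm _ _).trans ?_
    rw [M.N_unit x hx.2, mul_one]
    exact (mem_ball_iff_norm.1 hx.1).le
  rw [← integral_const_mul, ← integral_indicator measurableSet_ball]
  refine norm_integral_le_of_norm_le ((integrable_indicator_iff measurableSet_ball).2 hI)
    (Eventually.of_forall fun x => ?_)
  by_cases hx : x ∈ ball p (r + ‖v‖)
  · rw [indicator_of_mem hx, Real.norm_eq_abs, abs_mul, abs_mul]
    have h1 : |⟪x - (p + t • v), M.N x⟫| ≤ |M.ψ p x| + |⟪M.N x, v⟫| := by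
      have e : ⟪x - (p + t • v), M.N x⟫ = M.ψ p x - t * ⟪M.N x, v⟫ := by
        rw [Surf.ψ, ← sub_sub, inner_sub_left _ (t • v), real_inner_smul_left,
          real_inner_comm v]
      rw [e]
      refine (abs_sub _ _).trans (add_le_add le_rfl ?_)
      rw [abs_mul, abs_of_nonneg ht0]
      exact mul_le_of_le_one_left (abs_nonneg _) ht1
    calc |⟪M.N x, v⟫| * (|SHIFT_k r (x - (p + t • v))| * |⟪x - (p + t • v), M.N x⟫|)
        ≤ |⟪M.N x, v⟫| * (8 / r ^ 2 * (|M.ψ p x| + |⟪M.N x, v⟫|)) :=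
          mul_le_mul_of_nonneg_left
            (mul_le_mul (SHIFT_abs_k hr _) h1 (abs_nonneg _) (by positivity)) (abs_nonneg _)
      _ = _ := by ring
  · rw [indicator_of_notMem hx, SHIFT_k_zero hr, zero_mul, mul_zero, norm_zero]
    rw [mem_ball, dist_eq_norm, not_lt] at hx
    have e : x - p = x - (p + t • v) + t • v := by abel
    have h1 : ‖x - p‖ ≤ ‖x - (p + t • v)‖ + t * ‖v‖ := by
      rw [e, ← abs_of_nonneg ht0, ← Real.norm_eq_abs, ← norm_smul, Real.norm_eq_abs,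
        abs_of_nonneg ht0]
      exact norm_add_le _ _
    nlinarith [norm_nonneg v]

/- Hint. g t = int lam (|x - p - t v|^2/r^2) dmu on [0,1]; hasDerivAt_integral_of_dominated_loc_of_deriv_le
(bound: constant times indicator of a ball, Bd.lt_top) gives g' t = - int D zeta_t (v) = - int
<N,v> D zeta_t (N) by FV (zeta_t is C1 by contDiff_lam, compact support). D zeta_t x w = lam'(..)
2 <x - p - t v, w>/r^2, |lam'| <= 12/pi and vanishes outside ball (p + t v) r, a subset of ball p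
(r + |v|); |<x - p - t v, N>| <= |psi| + |<N,v>|; 24/pi <= 8. Mean value inequality
(norm_image_sub_le_of_norm_deriv_le_segment_01'). -/
theorem shift_of (hFV : S_FV) : S_SHIFT := by
  intro M hM p v r hr
  have h := norm_image_sub_le_of_norm_deriv_le_segment_01'
    (f := fun t : ℝ => ∫ x, lam (‖x - (p + t • v)‖ ^ 2 / r ^ 2) ∂M.μ)
    (C := 8 / r ^ 2 * ∫ x in ball p (r + ‖v‖), |⟪M.N x, v⟫| * (|M.ψ p x| + |⟪M.N x, v⟫|) ∂M.μ)
    (fun t _ => (SHIFT_deriv hM p v hr t).hasDerivWithinAt) (fun t ht => by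
      rw [integral_neg, norm_neg, SHIFT_fv hFV hM _ v hr]
      exact SHIFT_bound hM p v hr ht.1 ht.2.le)
  simp only [one_smul, zero_smul, add_zero, Real.norm_eq_abs] at h
  rw [Surf.Θ, Surf.Θ, theta, theta, ← sub_div, abs_div, abs_of_pos (pow_pos hr 2),
    div_le_iff₀ (pow_pos hr 2)]
  refine h.trans (le_of_eq ?_)
  field_simp

end MW
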