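import Pool.Agent.P.MP_064970_gt.I.SX

open scoped Manifold ContDiff
open MeasureTheory Set Filter Topology Metric
open scoped RealInnerProductSpace ENNReal ComplexConjugate Real

noncomputable section

namespace MW

universe u

theorem side_of : S_SIDE := by
  intro M hM z x hz hx hmin
  obtain ⟨c, hc0, hc⟩ := M.chart x hx
  have h0 : (0 : ℂ) ∈ ball (0 : ℂ) c.r := mem_ball_self c.r_pos
  have hloc : IsLocalMin (fun w => ‖z - c.X w‖ ^ 2) 0 := by
    filter_upwards [isOpen_ball.mem_nhds h0] with w hw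
    rw [hc0]
    exact pow_le_pow_left₀ (norm_nonneg _) (hmin _ (hc.emb.mem hw)) 2
  have hd := hloc.hasFDerivAt_eq_zero ((c.hasFDerivAt_X h0).const_sub z).norm_sq
  have hd' : ∀ w : ℂ, ⟪z - x, c.DX 0 w⟫ = 0 := fun w => by
    have := congrArg (fun L : ℂ →L[ℝ] ℝ => L w) hd
    have h' : ⟪x, c.DX 0 w⟫ - ⟪z, c.DX 0 w⟫ = 0 := by simpa [hc0] using this
    rw [inner_sub_left]; linarith
  have hu : ⟪z - x, c.Xu 0⟫ = 0 := by rw [← c.DX_one]; exact hd' 1
  have hv : ⟪z - x, c.Xv 0⟫ = 0 := by rw [← c.DX_I]; exact hd' _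
  have hfr := c.frame h0 (M.N_unit x hx) (hc0 ▸ hc.inner_Xu h0) (hc0 ▸ hc.inner_Xv h0) (z - x)
  have hzx : z - x ≠ 0 := fun h => hz (by rw [sub_eq_zero.1 h]; exact hx)
  have hne : ⟪z - x, M.N x⟫ ≠ 0 := fun h => hzx (by rw [hfr, hu, hv, h]; simp)
  have hK : IsPreconnected ((fun t : ℝ => x + t • (z - x)) '' Ioc 0 1) :=
    isPreconnected_Ioc.image _ (by fun_prop)
  have hKS : Disjoint ((fun t : ℝ => x + t • (z - x)) '' Ioc 0 1) M.S := by
    rw [Set.disjoint_left]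
    rintro _ ⟨t, ht, rfl⟩ h
    have h1 := hmin _ h
    have h2 : z - (x + t • (z - x)) = (1 - t) • (z - x) := by
      rw [sub_smul, one_smul]; abel
    rw [h2, norm_smul, Real.norm_eq_abs, abs_of_nonneg (by linarith [ht.2])] at h1
    have h3 : 0 < ‖z - x‖ := norm_pos_iff.2 hzx
    nlinarith [ht.1]
  have hzK : z ∈ (fun t : ℝ => x + t • (z - x)) '' Ioc 0 1 := ⟨1, by simp, by simp⟩
  have hsm : ∀ᶠ t in 𝓝[>] (0 : ℝ), t ∈ Ioc (0 : ℝ) 1 := Ioc_mem_nhdsGT one_pos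
  have hpos : 0 < ⟪z - x, M.N x⟫ → z ∈ M.W' := fun h => by
    obtain ⟨t, h1, h2⟩ := ((M.side x hx _ h).and hsm).exists
    exact M.subset_W' hK (hM.sub _) hKS ⟨t, h2, rfl⟩ h1.1 hzK
  have hneg : ⟪z - x, M.N x⟫ < 0 → z ∈ M.W := fun h => by
    obtain ⟨t, h1, h2⟩ := ((M.side x hx (-(z - x))
      (by rw [inner_neg_left]; linarith)).and hsm).exists
    refine M.subset_W hK (hM.sub _) hKS ⟨t, h2, rfl⟩ ?_ hzK
    simpa [smul_neg, sub_neg_eq_add, -neg_sub] using h1.2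
  refine ⟨⟨fun h => ?_, hpos⟩, ⟨fun h => ?_, hneg⟩⟩
  · rcases lt_or_gt_of_ne hne with h' | h'
    · exact absurd h (Set.disjoint_left.1 M.disj (hneg h'))
    · exact h'
  · rcases lt_or_gt_of_ne hne with h' | h'
    · exact h'
    · exact absurd (hpos h') (Set.disjoint_left.1 M.disj h)

end MW
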