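import Pool.Agent.P.MP_064970_gt.I.SX

open scoped Manifold ContDiff
open MeasureTheory Set Filter Topology Metric
open scoped RealInnerProductSpace ENNReal ComplexConjugate Real

noncomputable section

namespace MW

universe u

/-- A two-sided neighbourhood of a point of the surface. -/
theorem SIDEFN_box (hBOXE : S_BOXE) {S : Set E} (hS : ∀ p ∈ S, ∃ c : Chart, c.X 0 = p ∧ c.Emb S)
    {p : E} (hp : p ∈ S) {G : Set E} (hG : G ∈ 𝓝 p) :
    ∃ (U : Set E) (τ : E → ℝ), IsOpen U ∧ p ∈ U ∧ U ⊆ G ∧ ContinuousOn τ U ∧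
      (∀ x ∈ U, x ∈ S ↔ τ x = 0) ∧ IsPreconnected {x | x ∈ U ∧ 0 < τ x} ∧
      IsPreconnected {x | x ∈ U ∧ τ x < 0} ∧
      ∀ y ∈ U, τ y = 0 → (∃ᶠ z in 𝓝 y, z ∈ U ∧ 0 < τ z) ∧ ∃ᶠ z in 𝓝 y, z ∈ U ∧ τ z < 0 := by
  obtain ⟨c, hc0, hc⟩ := hS p hp
  obtain ⟨n, -, hn⟩ := c.exists_normal
  obtain ⟨h1, h2, h3⟩ := hn 0 (mem_ball_self c.r_pos)
  obtain ⟨ε, U, om, τ, hB, hU, hUG, hτ, hp1, hp2, -⟩ := hBOXE S c hc (n 0) (n 0) h2 h3
    (by rw [real_inner_self_eq_norm_sq, h1]; norm_num) G (hc0 ▸ hG)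
  refine ⟨U, τ, hB.opn, hc0 ▸ hU, hUG, hB.an_τ.continuousOn, hτ, hp1, hp2, fun y hy hy0 => ?_⟩
  obtain ⟨h4, -, h5⟩ := hB.left y hy
  rw [hy0, zero_smul, add_zero] at h5
  have ht : Tendsto (fun t : ℝ => c.X (om y) + t • n 0) (𝓝 0) (𝓝 y) := by
    have h6 : Continuous fun t : ℝ => c.X (om y) + t • n 0 := by fun_prop
    exact h6.tendsto' 0 y (by rw [zero_smul, add_zero, h5])
  have hε : ∀ᶠ t : ℝ in 𝓝 0, |t| < ε :=
    (continuous_abs.tendsto' 0 0 abs_zero).eventually (gt_mem_nhds hB.pos)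
  constructor
  · refine (ht.mono_left (nhdsWithin_le_nhds (s := Ioi 0))).frequently (Eventually.frequently ?_)
    filter_upwards [hε.filter_mono nhdsWithin_le_nhds, self_mem_nhdsWithin] with t h6 h7
    obtain ⟨h8, -, h9⟩ := hB.right _ h4 t h6
    exact ⟨h8, by rw [h9]; exact h7⟩
  · refine (ht.mono_left (nhdsWithin_le_nhds (s := Iio 0))).frequently (Eventually.frequently ?_)
    filter_upwards [hε.filter_mono nhdsWithin_le_nhds, self_mem_nhdsWithin] with t h6 h7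
    obtain ⟨h8, -, h9⟩ := hB.right _ h4 t h6
    exact ⟨h8, by rw [h9]; exact h7⟩

/-- Good sections: locally constant off `S`; on `S` both values are taken nearby and the value is
the limit along a chosen ultrafilter. -/
def SIDEFN_Good (S : Set E) (F : E → Ultrafilter E) (s : E → ZMod 2) (x : E) : Prop :=
  (x ∉ S → ∀ᶠ y in 𝓝 x, s y = s x) ∧
    (x ∈ S → (∀ᶠ y in (F x : Filter E), s y = s x) ∧ ∀ g, ∃ᶠ y in 𝓝 x, y ∉ S ∧ s y = g)

theorem SIDEFN_const {S P : Set E} {F : E → Ultrafilter E} {s : E → ZMod 2}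
    (hP : IsPreconnected P) (hS : ∀ x ∈ P, x ∉ S) (hg : ∀ x ∈ P, SIDEFN_Good S F s x) :
    ∃ a, ∀ x ∈ P, s x = a := by
  rcases P.eq_empty_or_nonempty with rfl | ⟨x₀, hx₀⟩
  · exact ⟨0, fun _ h => h.elim⟩
  · refine ⟨s x₀, fun x hx => hP.constant (fun y hy => ?_) hx hx₀⟩
    exact (EventuallyEq.continuousAt ((hg y hy).1 (hS y hy))).continuousWithinAt

/-- A good section jumps across the surface. -/
theorem SIDEFN_jump {S U : Set E} {τ : E → ℝ} {F : E → Ultrafilter E} {s : E → ZMod 2} {p : E}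
    (hp : p ∈ S) (hU : U ∈ 𝓝 p) (hτ : ∀ x ∈ U, x ∈ S ↔ τ x = 0)
    (h1 : IsPreconnected {x | x ∈ U ∧ 0 < τ x}) (h2 : IsPreconnected {x | x ∈ U ∧ τ x < 0})
    (hg : ∀ x ∈ U, SIDEFN_Good S F s x) :
    ∃ a, (∀ x ∈ U, 0 < τ x → s x = a) ∧ ∀ x ∈ U, τ x < 0 → s x = a + 1 := by
  obtain ⟨a, ha⟩ := SIDEFN_const h1 (fun x hx h => hx.2.ne' ((hτ x hx.1).1 h))
    fun x hx => hg x hx.1
  obtain ⟨b, hb⟩ := SIDEFN_const h2 (fun x hx h => hx.2.ne ((hτ x hx.1).1 h))
    fun x hx => hg x hx.1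
  refine ⟨a, fun x hx h => ha x ⟨hx, h⟩, fun x hx h => (hb x ⟨hx, h⟩).trans ?_⟩
  obtain ⟨y, ⟨hyS, hy⟩, hyU⟩ :=
    ((((hg p (mem_of_mem_nhds hU)).2 hp).2 (a + 1)).and_eventually hU).exists
  rcases lt_trichotomy (τ y) 0 with h | h | h
  · exact (hb y ⟨hyU, h⟩).symm.trans hy
  · exact absurd ((hτ y hyU).2 h) hyS
  · rw [ha y ⟨hyU, h⟩] at hy
    exact absurd hy (by generalize a = a; revert a; decide)

theorem sidefn_of (hGLUE : S_GLUE) (hBOXE : S_BOXE) : S_SIDEFN := by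
  classical
  intro S hcl hS
  have hF : ∀ x ∈ S, ∃ F : Ultrafilter E, (F : Filter E) ≤ 𝓝[Sᶜ] x := by
    intro x hx
    obtain ⟨U, τ, -, hxU, -, -, hτ, -, -, hfr⟩ := SIDEFN_box hBOXE hS hx univ_mem
    have h1 : ∃ᶠ z in 𝓝 x, z ∈ Sᶜ :=
      (hfr x hxU ((hτ x hxU).1 hx)).1.mono fun z hz h => hz.2.ne' ((hτ z hz.1).1 h)
    have h2 : (𝓝[Sᶜ] x).NeBot := frequently_mem_iff_neBot.1 h1
    exact ⟨Ultrafilter.of (𝓝[Sᶜ] x), Ultrafilter.of_le _⟩
  choose! F hF using hF
  have hF1 : ∀ x ∈ S, (F x : Filter E) ≤ 𝓝 x := fun x hx => (hF x hx).trans nhdsWithin_le_nhds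
  have hF2 : ∀ x ∈ S, ∀ᶠ y in (F x : Filter E), y ∉ S := fun x hx =>
    hF x hx self_mem_nhdsWithin
  obtain ⟨s, hs⟩ := hGLUE E (ZMod 2) univ (SIDEFN_Good S F) convex_univ isOpen_univ
    (by
      intro s s' x hg he
      have h0 : s x = s' x := he.eq_of_nhds
      refine ⟨fun hx => ?_, fun hx => ⟨?_, fun g => ?_⟩⟩
      · filter_upwards [hg.1 hx, he] with y h1 h2
        rw [← h2, h1, h0]
      · filter_upwards [(hg.2 hx).1, he.filter_mono (hF1 x hx)] with y h1 h2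
        rw [← h2, h1, h0]
      · exact (((hg.2 hx).2 g).and_eventually he).mono fun y hy => ⟨hy.1.1, hy.2 ▸ hy.1.2⟩)
    (by
      intro x _
      by_cases hx : x ∈ S
      · obtain ⟨U, τ, hU, hxU, -, hc, hτ, -, -, hfr⟩ := SIDEFN_box hBOXE hS hx univ_mem
        set s : E → ZMod 2 := fun y =>
          if 0 < τ y ∨ (y ∈ S ∧ ∀ᶠ z in (F y : Filter E), 0 < τ z) then 1 else 0 with hsd
        have hpos : ∀ y, 0 < τ y → s y = 1 := fun y h => if_pos (Or.inl h)
        have hneg : ∀ y ∈ U, τ y < 0 → s y = 0 := fun y hy h => if_neg (by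
          rintro (h1 | h1)
          · linarith
          · exact h.ne ((hτ y hy).1 h1.1))
        refine ⟨s, (hU.eventually_mem hxU).mono fun y hy => ⟨fun hyS => ?_, fun hyS => ?_⟩⟩
        · have hcy : ContinuousAt τ y := hc.continuousAt (hU.mem_nhds hy)
          rcases lt_trichotomy (τ y) 0 with h | h | h
          · filter_upwards [hcy.eventually_lt continuousAt_const h, hU.mem_nhds hy] with z h1 h2
            rw [hneg z h2 h1, hneg y hy h]
          · exact absurd ((hτ y hy).2 h) hyS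
          · filter_upwards [continuousAt_const.eventually_lt hcy h] with z h1
            rw [hpos z h1, hpos y h]
        · have hy0 := (hτ y hy).1 hyS
          refine ⟨?_, fun g => ?_⟩
          · by_cases h : ∀ᶠ z in (F y : Filter E), 0 < τ z
            · have h1 : s y = 1 := if_pos (Or.inr ⟨hyS, h⟩)
              exact h.mono fun z hz => (hpos z hz).trans h1.symm
            · have h1 : s y = 0 := if_neg (by
                rintro (h1 | h1)
                · exact h1.ne' hy0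
                · exact h h1.2)
              filter_upwards [Ultrafilter.eventually_not.2 h, hF2 y hyS,
                hF1 y hyS (hU.mem_nhds hy)] with z h2 h3 h4
              rw [h1]
              exact hneg z h4 (lt_of_le_of_ne (not_lt.1 h2) fun h5 => h3 ((hτ z h4).2 h5))
          · have hg : g = 0 ∨ g = 1 := by revert g; decide
            rcases hg with rfl | rfl
            · exact (hfr y hy hy0).2.mono fun z hz =>
                ⟨fun h => hz.2.ne ((hτ z hz.1).1 h), hneg z hz.1 hz.2⟩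
            · exact (hfr y hy hy0).1.mono fun z hz =>
                ⟨fun h => hz.2.ne' ((hτ z hz.1).1 h), hpos z hz.2⟩
      · refine ⟨fun _ => 0, (hcl.isOpen_compl.eventually_mem hx).mono fun y hy => ?_⟩
        exact ⟨fun _ => Eventually.of_forall fun _ => rfl, fun h => absurd h hy⟩)
    (by
      intro s s' x _ hg
      by_cases hx : x ∈ S
      · obtain ⟨U, τ, hU, hxU, hUG, -, hτ, h1, h2, -⟩ := SIDEFN_box hBOXE hS hx hg
        obtain ⟨a, ha1, ha2⟩ := SIDEFN_jump hx (hU.mem_nhds hxU) hτ h1 h2 fun y hy => (hUG hy).1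
        obtain ⟨b, hb1, hb2⟩ := SIDEFN_jump hx (hU.mem_nhds hxU) hτ h1 h2 fun y hy => (hUG hy).2
        have hoff : ∀ y ∈ U, y ∉ S → s y = s' y + (a - b) := by
          intro y hy hyS
          rcases lt_trichotomy (τ y) 0 with h | h | h
          · rw [ha2 y hy h, hb2 y hy h]; ring
          · exact absurd ((hτ y hy).2 h) hyS
          · rw [ha1 y hy h, hb1 y hy h]; ring
        refine ⟨a - b, (hU.eventually_mem hxU).mono fun y hy => ?_⟩
        by_cases hyS : y ∈ S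
        · obtain ⟨z, h3, h4, h5, h6⟩ := (((hUG hy).1.2 hyS).1.and (((hUG hy).2.2 hyS).1.and
            ((hF2 y hyS).and (hF1 y hyS (hU.mem_nhds hy))))).exists
          rw [← h3, ← h4]
          exact hoff z h6 h5
        · exact hoff y hy hyS
      · have h0 := hg.self_of_nhds
        refine ⟨s x - s' x, ?_⟩
        filter_upwards [h0.1.1 hx, h0.2.1 hx] with y h1 h2
        rw [h1, h2]; ring)
    (by
      intro s x g hg
      refine ⟨fun hx => (hg.1 hx).mono fun y hy => ?_,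
        fun hx => ⟨(hg.2 hx).1.mono fun y hy => ?_, fun g' => ?_⟩⟩
      · simp only [hy]
      · simp only [hy]
      · exact ((hg.2 hx).2 (g' - g)).mono fun y hy => ⟨hy.1, by simp only [hy.2]; ring⟩)
  have hopen : ∀ g, IsOpen {x | x ∉ S ∧ s x = g} := fun g =>
    isOpen_iff_mem_nhds.2 fun x hx => by
      filter_upwards [hcl.isOpen_compl.mem_nhds hx.1, (hs x trivial).1 hx.1] with y h1 h2
      exact ⟨h1, h2.trans hx.2⟩
  refine ⟨{x | x ∉ S ∧ s x = 0}, {x | x ∉ S ∧ s x = 1}, hopen 0, hopen 1, ?_, ?_, ?_, ?_,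
    fun p hp => ⟨mem_closure_iff_frequently.2 (((hs p trivial).2 hp).2 0),
      mem_closure_iff_frequently.2 (((hs p trivial).2 hp).2 1)⟩⟩
  · refine (eq_univ_of_forall fun x => ?_).symm
    by_cases hx : x ∈ S
    · exact Or.inr hx
    · have hg : ∀ g : ZMod 2, g = 0 ∨ g = 1 := by decide
      exact Or.inl ((hg (s x)).imp (fun h => ⟨hx, h⟩) fun h => ⟨hx, h⟩)
  · exact disjoint_left.2 fun x h1 h2 => absurd (h1.2.symm.trans h2.2) (by decide)
  · exact disjoint_left.2 fun x h1 h2 => h1.1 h2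
  · exact disjoint_left.2 fun x h1 h2 => h1.1 h2

end MW
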