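import Pool.Agent.P.MP_064970_gt.I.SX

open scoped Manifold ContDiff
open MeasureTheory Set Filter Topology Metric
open scoped RealInnerProductSpace ENNReal ComplexConjugate Real

noncomputable section

namespace MW

universe u

/-- `m` is a unit vector that points from `W` to `W'` at `x`. -/
def SIDEN_Pt (W W' : Set E) (x m : E) : Prop :=
  ‖m‖ = 1 ∧ ∀ u : E, 0 < ⟪u, m⟫ → ∀ᶠ t in 𝓝[>] (0 : ℝ), x + t • u ∈ W' ∧ x - t • u ∈ W

theorem SIDEN_unique {W W' : Set E} (hd : Disjoint W W') {x m m' : E} (h : SIDEN_Pt W W' x m)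
    (h' : SIDEN_Pt W W' x m') : m = m' := by
  by_contra hne
  have h0 : 0 < ‖m - m'‖ ^ 2 := pow_pos (norm_pos_iff.2 (sub_ne_zero.2 hne)) 2
  rw [Coord_norm_sub_sq h.1 h'.1] at h0
  have h1 : 0 < ⟪m - m', m⟫ := by
    rw [inner_sub_left, real_inner_self_eq_norm_sq, h.1, real_inner_comm]
    linarith
  have h2 : 0 < ⟪-(m - m'), m'⟫ := by
    rw [neg_sub, inner_sub_left, real_inner_self_eq_norm_sq, h'.1]
    linarith
  obtain ⟨t, ht, ht'⟩ := ((h.2 _ h1).and (h'.2 _ h2)).exists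
  have h3 := ht'.2
  rw [smul_neg, sub_neg_eq_add] at h3
  exact disjoint_left.1 hd h3 ht.1

theorem SIDEN_pos {U : Set E} (hU : IsOpen U) {τ : E → ℝ} {x : E} (hx : x ∈ U) (h0 : τ x = 0)
    {L : E →L[ℝ] ℝ} (hL : HasFDerivAt τ L x) {u : E} (hu : 0 < L u) :
    ∀ᶠ t in 𝓝[>] (0 : ℝ), x + t • u ∈ U ∧ 0 < τ (x + t • u) := by
  have h1 : HasDerivAt (fun t : ℝ => x + t • u) u 0 := by
    simpa using ((hasDerivAt_id (0 : ℝ)).smul_const u).const_add x
  have hL' : HasFDerivAt τ L (x + (0 : ℝ) • u) := by simpa using hL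
  have h2 : HasDerivAt (fun t : ℝ => τ (x + t • u)) (L u) 0 := hL'.comp_hasDerivAt 0 h1
  have h3 := h2.tendsto_slope_zero_right.eventually (lt_mem_nhds hu)
  have h4 : ∀ᶠ t in 𝓝 (0 : ℝ), x + t • u ∈ U :=
    h1.continuousAt.eventually (hU.mem_nhds (by simpa using hx))
  filter_upwards [h3, nhdsWithin_le_nhds h4, self_mem_nhdsWithin] with t ht ht' ht0
  refine ⟨ht', ?_⟩
  simp only [zero_add, zero_smul, add_zero, h0, sub_zero, smul_eq_mul] at ht
  exact (mul_pos_iff_of_pos_left (inv_pos.2 ht0)).1 ht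

/-- A local defining function with the right signs. -/
structure SIDEN_Loc (S W W' U : Set E) (τ : E → ℝ) : Prop where
  opn : IsOpen U
  an : AnalyticOnNhd ℝ τ U
  zero : ∀ x ∈ U, x ∈ S → τ x = 0
  pos : ∀ x ∈ U, 0 < τ x → x ∈ W'
  neg : ∀ x ∈ U, τ x < 0 → x ∈ W
  ne : ∀ x ∈ U, x ∈ S → fderiv ℝ τ x ≠ 0

theorem SIDEN_loc (hBOXE : S_BOXE) {S W W' : Set E}
    (hc : ∀ p ∈ S, ∃ c : Chart, c.X 0 = p ∧ c.Emb S) (hW : IsOpen W) (hW' : IsOpen W')
    (hcov : univ = W ∪ W' ∪ S) (hd : Disjoint W W') (hS : Disjoint W S) (hS' : Disjoint W' S)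
    (hcl : ∀ p ∈ S, p ∈ closure W ∧ p ∈ closure W') {p : E} (hp : p ∈ S) :
    ∃ (U : Set E) (τ : E → ℝ), p ∈ U ∧ SIDEN_Loc S W W' U τ := by
  obtain ⟨c, hc0, hE⟩ := hc p hp
  obtain ⟨n, -, hn⟩ := c.exists_normal
  obtain ⟨n1, n2, n3⟩ := hn 0 (mem_ball_self c.r_pos)
  obtain ⟨ε, U, om, τ, hB, hpU, -, hz, hA, hA', hD⟩ := hBOXE S c hE (n 0) (n 0) n2 n3
    (by rw [real_inner_self_eq_norm_sq, n1]; norm_num) univ univ_mem
  rw [hc0] at hpU
  have hne : ∀ x ∈ U, x ∈ S → fderiv ℝ τ x ≠ 0 := by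
    intro x hx hxS h0
    obtain ⟨l1, -, l3⟩ := hB.left x hx
    rw [(hz x hx).1 hxS, zero_smul, add_zero] at l3
    obtain ⟨m1, m2, m3⟩ := hn (om x) (hB.sub l1)
    obtain ⟨d1, d2⟩ := hD (om x) l1 _ m1 m2 m3
    have := d2 (n 0)
    rw [l3, h0, div_self d1] at this
    simp at this
  have hsub : ∀ x ∈ U, τ x ≠ 0 → x ∈ W ∪ W' := by
    intro x hx h0
    have : x ∈ W ∪ W' ∪ S := hcov ▸ mem_univ x
    exact this.resolve_right fun h => h0 ((hz x hx).1 h)
  have h1 := hA.subset_or_subset hW hW' hd fun x hx => hsub x hx.1 hx.2.ne'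
  have h2 := hA'.subset_or_subset hW hW' hd fun x hx => hsub x hx.1 hx.2.ne
  have key : ∀ {A B : Set E}, Disjoint A B → Disjoint B S → p ∈ closure B →
      {x | x ∈ U ∧ 0 < τ x} ⊆ A → {x | x ∈ U ∧ τ x < 0} ⊆ A → False := by
    intro A B hAB hBS hpB a1 a2
    obtain ⟨x, hx, hxB⟩ := mem_closure_iff.1 hpB U hB.opn hpU
    rcases lt_trichotomy (τ x) 0 with h | h | h
    · exact disjoint_left.1 hAB (a2 ⟨hx, h⟩) hxB
    · exact disjoint_left.1 hBS hxB ((hz x hx).2 h)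
    · exact disjoint_left.1 hAB (a1 ⟨hx, h⟩) hxB
  rcases h1 with h1 | h1 <;> rcases h2 with h2 | h2
  · exact (key hd hS' (hcl p hp).2 h1 h2).elim
  · refine ⟨U, fun x => -τ x, hpU, hB.opn, hB.an_τ.neg, fun x hx hxS => ?_,
      fun x hx h => h2 ⟨hx, neg_pos.1 h⟩, fun x hx h => h1 ⟨hx, neg_lt_zero.1 h⟩,
      fun x hx hxS => ?_⟩
    · rw [(hz x hx).1 hxS, neg_zero]
    · rw [fderiv_fun_neg]
      exact neg_ne_zero.2 (hne x hx hxS)
  · exact ⟨U, τ, hpU, hB.opn, hB.an_τ, fun x hx => (hz x hx).1, fun x hx h => h1 ⟨hx, h⟩,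
      fun x hx h => h2 ⟨hx, h⟩, hne⟩
  · exact (key hd.symm hS (hcl p hp).1 h1 h2).elim

/-- The normalised gradient. -/
def SIDEN_m (τ : E → ℝ) (x : E) : E :=
  ‖fderiv ℝ τ x‖⁻¹ • (InnerProductSpace.toDual ℝ E).symm (fderiv ℝ τ x)

theorem SIDEN_inner (τ : E → ℝ) (x u : E) :
    ⟪u, SIDEN_m τ x⟫ = ‖fderiv ℝ τ x‖⁻¹ * fderiv ℝ τ x u := by
  rw [SIDEN_m, inner_smul_right, real_inner_comm, InnerProductSpace.toDual_symm_apply]

theorem SIDEN_Loc.pt {S W W' U : Set E} {τ : E → ℝ} (h : SIDEN_Loc S W W' U τ) {x : E}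
    (hx : x ∈ U) (hxS : x ∈ S) : SIDEN_Pt W W' x (SIDEN_m τ x) := by
  have h0 : 0 < ‖fderiv ℝ τ x‖ := norm_pos_iff.2 (h.ne x hx hxS)
  have hL := (h.an x hx).differentiableAt.hasFDerivAt
  refine ⟨?_, fun u hu => ?_⟩
  · rw [SIDEN_m, norm_smul, LinearIsometryEquiv.norm_map, norm_inv, norm_norm,
      inv_mul_cancel₀ h0.ne']
  · rw [SIDEN_inner] at hu
    have hu' : 0 < fderiv ℝ τ x u := (mul_pos_iff_of_pos_left (inv_pos.2 h0)).1 hu
    have h1 := SIDEN_pos h.opn hx (h.zero x hx hxS) hL hu'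
    have h2 := SIDEN_pos (τ := fun y => -τ y) (u := -u) h.opn hx
      (by rw [h.zero x hx hxS, neg_zero]) hL.neg (by simpa using hu')
    filter_upwards [h1, h2] with t t1 t2
    rw [smul_neg, ← sub_eq_add_neg] at t2
    exact ⟨h.pos _ t1.1 t1.2, h.neg _ t2.1 (neg_pos.1 t2.2)⟩

theorem SIDEN_Loc.cont {S W W' U : Set E} {τ : E → ℝ} (h : SIDEN_Loc S W W' U τ) {x : E}
    (hx : x ∈ U) (hxS : x ∈ S) : ContinuousAt (SIDEN_m τ) x := by
  have h1 : ContinuousAt (fderiv ℝ τ) x := (h.an x hx).fderiv.continuousAt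
  exact (h1.norm.inv₀ (norm_ne_zero_iff.2 (h.ne x hx hxS))).smul
    ((InnerProductSpace.toDual ℝ E).symm.continuous.continuousAt.comp h1)

theorem SIDEN_Loc.tan {S W W' U : Set E} {τ : E → ℝ} (h : SIDEN_Loc S W W' U τ) {c : Chart}
    (hc : c.Emb S) {z : ℂ} (hz : z ∈ ball (0 : ℂ) c.r) (hx : c.X z ∈ U) (w : ℂ) :
    ⟪SIDEN_m τ (c.X z), c.DX z w⟫ = 0 := by
  have hX := c.hasFDerivAt_X hz
  have h1 := (h.an _ hx).differentiableAt.hasFDerivAt.comp z hX
  have h2 : (τ ∘ c.X) =ᶠ[𝓝 z] fun _ => 0 := by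
    filter_upwards [hX.continuousAt.eventually (h.opn.mem_nhds hx), isOpen_ball.mem_nhds hz]
      with y hy hy'
    exact h.zero _ hy (hc.mem hy')
  have h3 := h1.unique ((hasFDerivAt_const (0 : ℝ) z).congr_of_eventuallyEq h2)
  have h4 : fderiv ℝ τ (c.X z) (c.DX z w) = 0 := by
    simpa using congrArg (fun L : ℂ →L[ℝ] ℝ => L w) h3
  rw [real_inner_comm, SIDEN_inner, h4, mul_zero]

/- Hint. At p in S with chart c_p, unit normal n0, box (BOXE, v = n0): the halves are preconnected and miss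
S, so each is inside W or W'; p in both closures forces opposite sides. N p = n0 if the half tau >
0 is in W', else -n0; N = 0 off S. Key lemma: if a box at p has {tau > 0} in W', {tau < 0} in W
(replace v by -v otherwise), x = X z in S cap U, m unit normal at z with <v, m> > 0, then for
every u with <u, m> > 0: x + t u in W', x - t u in W for small t (derivative of tau). A unit
vector orthogonal to the tangent plane with this property is unique, so N x = m, which is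
continuous in x (m = +- exists_normal (om x), sign by <v, m> > 0). Tangent planes of two Emb
charts agree: tau o X' = 0 near z'. Measurable: S is closed, ContinuousOn.measurable_piecewise. -/
theorem siden_of (hBOXE : S_BOXE) : S_SIDEN := by
  classical
  intro S W W' hc hW hW' hcov hd hS hS' hcl
  have hloc := fun p (hp : p ∈ S) => SIDEN_loc hBOXE hc hW hW' hcov hd hS hS' hcl hp
  have hex : ∀ x, ∃ m, x ∈ S → SIDEN_Pt W W' x m := by
    intro x
    by_cases hx : x ∈ S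
    · obtain ⟨U, τ, hU, h⟩ := hloc x hx
      exact ⟨_, fun _ => h.pt hU hx⟩
    · exact ⟨0, fun h => absurd h hx⟩
  choose N₀ hN₀ using hex
  have heq : ∀ {U : Set E} {τ : E → ℝ}, SIDEN_Loc S W W' U τ → ∀ x ∈ U, x ∈ S →
      N₀ x = SIDEN_m τ x := fun h x hx hxS => SIDEN_unique hd (hN₀ x hxS) (h.pt hx hxS)
  have hcont : ContinuousOn N₀ S := by
    intro p hp
    obtain ⟨U, τ, hU, h⟩ := hloc p hp
    refine (h.cont hU hp).continuousWithinAt.congr_of_eventuallyEq ?_ (heq h p hU hp)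
    filter_upwards [inter_mem_nhdsWithin S (h.opn.mem_nhds hU)] with x hx
    exact heq h x hx.2 hx.1
  have hSm : MeasurableSet S := by
    have e : S = (W ∪ W')ᶜ := by
      ext x
      constructor
      · rintro hx (h | h)
        · exact disjoint_left.1 hS h hx
        · exact disjoint_left.1 hS' h hx
      · intro hx
        have : x ∈ W ∪ W' ∪ S := hcov ▸ mem_univ x
        exact this.resolve_left hx
    rw [e]
    exact (hW.union hW').measurableSet.compl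
  have hN : ∀ x ∈ S, S.piecewise N₀ (fun _ => 0) x = N₀ x := fun x hx =>
    piecewise_eq_of_mem _ _ _ hx
  refine ⟨S.piecewise N₀ fun _ => 0, hcont.measurable_piecewise continuousOn_const hSm,
    hcont.congr hN, fun x hx => ?_, fun x hx => ?_, fun c hE z hz => ?_⟩
  · rw [hN x hx]
    exact (hN₀ x hx).1
  · rw [hN x hx]
    exact (hN₀ x hx).2
  · have hx := hE.mem hz
    obtain ⟨U, τ, hU, h⟩ := hloc _ hx
    rw [hN _ hx, heq h _ hU hx, ← c.DX_one, ← c.DX_I]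
    exact ⟨h.tan hE hz hU _, h.tan hE hz hU _⟩

end MW
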