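import Pool.Agent.P.MP_064970_gt.I.SX

open scoped Manifold ContDiff
open MeasureTheory Set Filter Topology Metric
open scoped RealInnerProductSpace ENNReal ComplexConjugate Real

noncomputable section

namespace MW

universe u

theorem sides_of (hSIDEFN : S_SIDEFN) (hSIDEN : S_SIDEN) : S_SIDES := by
  intro S hS hc
  obtain ⟨W, W', h1, h2, h3, h4, h5, h6, h7⟩ := hSIDEFN S hS hc
  obtain ⟨N, n1, n2, n3, n4, n5⟩ := hSIDEN S W W' hc h1 h2 h3 h4 h5 h6 h7
  exact ⟨N, W, W', h1, h2, h3, h4, h5, h6, n1, n2, n3, n4, n5⟩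

end MW
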