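import Pool.Agent.P.MP_064970_gt.I.SX

open scoped Manifold ContDiff
open MeasureTheory Set Filter Topology Metric
open scoped RealInnerProductSpace ENNReal ComplexConjugate Real

noncomputable section

namespace MW

universe u

/- Hint. psi z = if z in ball then <X z, Emb.mem> else <X 0, _>, source = ball, target = val preimage of X
'' ball (open by Emb.opn), inverse y = Function.invFunOn X ball y. Continuity of the inverse on
the target from Emb.opn (preimage of an open V is the relatively open X '' (V cap ball)); or use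
OpenPartialHomeomorph.ofContinuousOpen / ofContinuousOpenRestrict on the PartialEquiv
InjOn.toPartialEquiv. -/
theorem top_of : S_TOP := by
  classical
  intro S c h
  have h0 : (0 : ℂ) ∈ ball (0 : ℂ) c.r := mem_ball_self c.r_pos
  let f : ℂ → S := fun z => if hz : z ∈ ball (0 : ℂ) c.r then ⟨c.X z, h.mem hz⟩
    else ⟨c.X 0, h.mem h0⟩
  have hf : ∀ z ∈ ball (0 : ℂ) c.r, (f z : E) = c.X z := fun z hz => by
    simp only [f, dif_pos hz]
  have hinj : InjOn f (ball 0 c.r) := fun z hz w hw hzw =>
    h.inj hz hw (by rw [← hf z hz, ← hf w hw, hzw])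
  have hc : ContinuousOn f (ball 0 c.r) :=
    Topology.IsInducing.subtypeVal.continuousOn_iff.2 (c.continuousOn_X.congr hf)
  have ho : IsOpenMap ((ball (0 : ℂ) c.r).domRestrict f) := fun V hV => by
    have hs : Subtype.val '' V ⊆ ball (0 : ℂ) c.r := Subtype.coe_image_subset _ _
    obtain ⟨U, hU, hUV⟩ := h.opn _ (isOpen_ball.isOpenMap_subtype_val V hV) hs
    have h1 : (ball (0 : ℂ) c.r).domRestrict f '' V = Subtype.val ⁻¹' U := by
      ext y
      constructor
      · rintro ⟨z, hz, rfl⟩
        have h2 : c.X z ∈ S ∩ U := hUV ▸ mem_image_of_mem _ (mem_image_of_mem _ hz)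
        change (f z : E) ∈ U
        rw [hf z z.2]
        exact h2.2
      · intro hy
        have h2 : (y : E) ∈ c.X '' (Subtype.val '' V) := hUV ▸ ⟨y.2, hy⟩
        obtain ⟨_, ⟨z, hz, rfl⟩, hzy⟩ := h2
        exact ⟨z, hz, Subtype.ext ((hf z z.2).trans hzy)⟩
    rw [h1]
    exact hU.preimage continuous_subtype_val
  exact ⟨⟨c, OpenPartialHomeomorph.ofContinuousOpenRestrict (hinj.toPartialEquiv f _) hc ho
    isOpen_ball, rfl, hf⟩, rfl⟩

end MW
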