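import Pool.Agent.P.MP_064970_gt.I.SX

open scoped Manifold ContDiff
open MeasureTheory Set Filter Topology Metric
open scoped RealInnerProductSpace ENNReal ComplexConjugate Real

noncomputable section

namespace MW

universe u

/-- Comparison of densities at two centres. -/
theorem TWO_cmp (ν : Measure E) (p q : E) {R κ : ℝ} (hR : 0 < R) (hκ : 0 < κ) (hκ1 : κ ≤ 1)
    (hd : ‖p - q‖ / R ≤ κ ^ 2 / 5)
    (hI : Integrable (fun x => lam (‖x - p‖ ^ 2 / ((1 + κ) * R) ^ 2)) ν) :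
    theta ν q R ≤ (1 + κ) ^ 3 * theta ν p ((1 + κ) * R) := by
  have h1 : ∀ x : E, lam (‖x - q‖ ^ 2 / R ^ 2)
      ≤ (1 + κ) * lam (‖x - p‖ ^ 2 / ((1 + κ) * R) ^ 2) := by
    intro x
    have hab : ‖x - p‖ / R ≤ ‖x - q‖ / R + ‖p - q‖ / R := by
      rw [← add_div]
      refine div_le_div_of_nonneg_right ?_ hR.le
      have h := norm_sub_le (x - q) (p - q)
      rwa [sub_sub_sub_cancel_right] at h
    have h := lam_cmp (a := ‖x - q‖ / R) (b := ‖x - p‖ / R) (d := ‖p - q‖ / R) (by positivity)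
      (by positivity) hκ hκ1 (by positivity) hd hab
    have e1 : (‖x - q‖ / R) ^ 2 = ‖x - q‖ ^ 2 / R ^ 2 := div_pow _ _ _
    have e2 : (‖x - p‖ / R) ^ 2 / (1 + κ) ^ 2 = ‖x - p‖ ^ 2 / ((1 + κ) * R) ^ 2 := by
      field_simp
    rwa [e1, e2] at h
  have h2 : ∫ x, lam (‖x - q‖ ^ 2 / R ^ 2) ∂ν
      ≤ (1 + κ) * ∫ x, lam (‖x - p‖ ^ 2 / ((1 + κ) * R) ^ 2) ∂ν := by
    rw [← integral_const_mul]
    exact integral_mono_of_nonneg (Eventually.of_forall fun x => lam_nonneg _) (hI.const_mul _)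
      (Eventually.of_forall h1)
  have e3 : (1 + κ) ^ 3 * theta ν p ((1 + κ) * R)
      = ((1 + κ) * ∫ x, lam (‖x - p‖ ^ 2 / ((1 + κ) * R) ^ 2) ∂ν) / R ^ 2 := by
    unfold theta
    field_simp
  rw [e3]
  unfold theta
  exact div_le_div_of_nonneg_right h2 (by positivity)

/-- The densities of two disjoint parts add up to at most two. -/
theorem TWO_add {M : Surf} (hM : M.Bd) {S₁ S₂ : Set E} (h₂ : MeasurableSet S₂)
    (hd : Disjoint S₁ S₂) (p : E) {r : ℝ} (hr : 0 < r) :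
    theta (M.μ.restrict S₁) p r + theta (M.μ.restrict S₂) p r ≤ 2 := by
  have hI := hM.integrable_lam p hr
  have h1 := setIntegral_union hd h₂ (hI.integrableOn (s := S₁)) (hI.integrableOn (s := S₂))
  have h2 := setIntegral_le_integral (s := S₁ ∪ S₂) hI
    (Eventually.of_forall fun x => lam_nonneg _)
  have h3 := hM.Θ_le_two p hr
  unfold Surf.Θ theta at h3
  unfold theta
  rw [← add_div, ← h1]
  exact (div_le_div_of_nonneg_right h2 (by positivity)).trans h3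

/-- A clopen part whose complement is nonempty has density at most one. -/
theorem TWO_le_one (hMONOC : S_MONOC) {M : Surf} (hM : M.Mem) {u v : Set E} (hu : IsOpen u)
    (hv : IsOpen v) (h1 : M.S \ (M.S ∩ u) = M.S ∩ v) (h2 : M.S \ (M.S ∩ v) = M.S ∩ u) {q : E}
    (hq : q ∈ M.S ∩ v) (p : E) (r : ℝ) (hr : 0 < r) : theta (M.μ.restrict (M.S ∩ u)) p r ≤ 1 := by
  have m1 := (hMONOC M (M.S ∩ u) hM.univ inter_subset_left ⟨u, hu, rfl⟩ ⟨v, hv, h1⟩).1
  have m2 := (hMONOC M (M.S ∩ v) hM.univ inter_subset_left ⟨v, hv, rfl⟩ ⟨u, hu, h2⟩).2.1 q hq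
  have hd : Disjoint (M.S ∩ u) (M.S ∩ v) := by
    rw [← h1]
    exact disjoint_sdiff_right
  have hm : MeasurableSet (M.S ∩ v) := hM.isClosed.measurableSet.inter hv.measurableSet
  have key : ∀ κ : ℝ, 0 < κ → κ ≤ 1 →
      theta (M.μ.restrict (M.S ∩ u)) p r ≤ 2 - ((1 + κ) ^ 3)⁻¹ := by
    intro κ hκ hκ1
    set R : ℝ := r + 5 * ‖p - q‖ / κ ^ 2 with hR
    have hn : 0 ≤ 5 * ‖p - q‖ / κ ^ 2 := by positivity
    have hrR : r ≤ R := by linarith
    have hR0 : 0 < R := hr.trans_le hrR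
    have hR1 : 0 < (1 + κ) * R := by positivity
    have hdR : ‖p - q‖ / R ≤ κ ^ 2 / 5 := by
      rw [div_le_iff₀ hR0]
      have e : κ ^ 2 / 5 * R = κ ^ 2 / 5 * r + ‖p - q‖ := by
        rw [hR]
        field_simp
      rw [e]
      have : 0 ≤ κ ^ 2 / 5 * r := by positivity
      linarith
    have a1 := TWO_cmp (M.μ.restrict (M.S ∩ v)) p q hR0 hκ hκ1 hdR
      (hM.bd.integrable_lam p hR1).integrableOn
    have a2 := m2 R hR0
    have a3 := TWO_add hM.bd hm hd p hR1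
    have a4 := m1 p r ((1 + κ) * R) hr (by nlinarith)
    have hk : 0 < (1 + κ) ^ 3 := by positivity
    have a5 : ((1 + κ) ^ 3)⁻¹ ≤ theta (M.μ.restrict (M.S ∩ v)) p ((1 + κ) * R) := by
      rw [inv_le_iff_one_le_mul₀' hk]
      linarith
    linarith
  have hc : ContinuousAt (fun κ : ℝ => 2 - ((1 + κ) ^ 3)⁻¹) 0 :=
    continuousAt_const.sub (ContinuousAt.inv₀ (by fun_prop) (by norm_num))
  have ht : Tendsto (fun κ : ℝ => 2 - ((1 + κ) ^ 3)⁻¹) (𝓝[>] 0) (𝓝 1) := by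
    have h := hc.tendsto.mono_left (nhdsWithin_le_nhds (s := Ioi (0 : ℝ)))
    norm_num at h ⊢
    exact h
  refine ge_of_tendsto ht ?_
  filter_upwards [Ioc_mem_nhdsGT (zero_lt_one' ℝ)] with κ hκ
  exact key κ hκ.1 hκ.2

/-- Disjoint planes are parallel. -/
theorem TWO_par {p q n m : E} (hn : ‖n‖ = 1) (hm : ‖m‖ = 1)
    (hd : ∀ x : E, ⟪x - p, n⟫ = 0 → ⟪x - q, m⟫ = 0 → False) : m = n ∨ m = -n := by
  have hnn : ⟪n, n⟫ = 1 := by rw [real_inner_self_eq_norm_sq, hn]; norm_num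
  have hmm : ⟪m, m⟫ = 1 := by rw [real_inner_self_eq_norm_sq, hm]; norm_num
  have hc : 1 - ⟪m, n⟫ ^ 2 = 0 := by
    by_contra hc
    refine hd (p + (-⟪p - q, m⟫ / (1 - ⟪m, n⟫ ^ 2)) • (m - ⟪m, n⟫ • n)) ?_ ?_
    · rw [add_sub_cancel_left, real_inner_smul_left, inner_sub_left m, real_inner_smul_left, hnn]
      ring
    · rw [add_sub_right_comm, inner_add_left, real_inner_smul_left, inner_sub_left m,
        real_inner_smul_left, hmm, real_inner_comm m n]
      field_simp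
      ring
  have h2 : (⟪m, n⟫ - 1) * (⟪m, n⟫ + 1) = 0 := by linear_combination -hc
  rcases mul_eq_zero.1 h2 with h | h
  · left
    have e := Coord_norm_sub_sq hm hn
    have : ‖m - n‖ ^ 2 = 0 := by rw [e]; linarith
    exact sub_eq_zero.1 (norm_eq_zero.1 (pow_eq_zero_iff two_ne_zero |>.1 this))
  · right
    have e := Coord_norm_sub_sq hm (show ‖-n‖ = 1 by rw [norm_neg, hn])
    rw [inner_neg_right] at e
    have : ‖m - -n‖ ^ 2 = 0 := by rw [e]; linarith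
    exact sub_eq_zero.1 (norm_eq_zero.1 (pow_eq_zero_iff two_ne_zero |>.1 this))

/- Hint. Not preconnected: closed sets give S = S1 union S2 disjoint, nonempty, both relatively open
(isPreconnected_iff_subset_of_disjoint_closed or the open version). nu_i = mu.restrict S_i, theta
nu1 + theta nu2 = Theta <= 2 (restrict_union, integral_add_measure). For q in S2: 1 <= theta nu2 q
R <= (1+k)^3 theta nu2 p ((1+k) R) when |p - q|/R <= k^2/5 (lam_cmp), so theta nu1 p r <= 2 -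
(1+k)^-3 for every k: theta nu1 <= 1; symmetric. RIGA: two disjoint planes; disjoint planes have
normals equal up to sign (else solve two linear equations in the span of the normals). Order a < b
by the sign of nu. -/
theorem two_of (hRIGA : S_RIGA) (hMONOC : S_MONOC) : S_TWO := by
  intro M hM hne
  unfold IsPreconnected at hne
  push Not at hne
  obtain ⟨u, v, hu, hv, hcov, ⟨p, hp⟩, ⟨q, hq⟩, hemp⟩ := hne
  have hno : ∀ x, x ∈ M.S → x ∈ u → x ∈ v → False := fun x h1 h2 h3 => by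
    have : x ∈ M.S ∩ (u ∩ v) := ⟨h1, h2, h3⟩
    rw [hemp] at this
    exact this
  have h1 : M.S \ (M.S ∩ u) = M.S ∩ v := by
    ext x
    constructor
    · rintro ⟨hx, hx'⟩
      exact ⟨hx, (hcov hx).resolve_left fun h => hx' ⟨hx, h⟩⟩
    · rintro ⟨hx, hx'⟩
      exact ⟨hx, fun h => hno x hx h.2 hx'⟩
  have h2 : M.S \ (M.S ∩ v) = M.S ∩ u := by
    ext x
    constructor
    · rintro ⟨hx, hx'⟩
      exact ⟨hx, (hcov hx).resolve_right fun h => hx' ⟨hx, h⟩⟩
    · rintro ⟨hx, hx'⟩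
      exact ⟨hx, fun h => hno x hx hx' h.2⟩
  obtain ⟨e1, n1⟩ := hRIGA M (M.S ∩ u) hM.univ inter_subset_left ⟨u, hu, rfl⟩ ⟨v, hv, h1⟩
    (TWO_le_one hMONOC hM hu hv h1 h2 hq) p hp
  obtain ⟨e2, n2⟩ := hRIGA M (M.S ∩ v) hM.univ inter_subset_left ⟨v, hv, rfl⟩ ⟨u, hu, h2⟩
    (TWO_le_one hMONOC hM hv hu h2 h1 hp) q hq
  have hun : M.S = M.S ∩ u ∪ M.S ∩ v := by
    rw [← inter_union_distrib_left, inter_eq_left.2 hcov]
  have hpar : M.N q = M.N p ∨ M.N q = -M.N p := by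
    refine TWO_par (p := p) (q := q) (M.N_unit p hp.1) (M.N_unit q hq.1) fun x hx hx' => ?_
    have a1 : x ∈ M.S ∩ u := by rw [e1]; exact hx
    have a2 : x ∈ M.S ∩ v := by rw [e2]; exact hx'
    exact hno x a1.1 a1.2 a2.2
  have f1 : M.S ∩ u = {x | ⟪x, M.N p⟫ = ⟪p, M.N p⟫} := by
    rw [e1]
    ext x
    simp only [mem_ofPred_eq, inner_sub_left, sub_eq_zero]
  have f2 : M.S ∩ v = {x | ⟪x, M.N p⟫ = ⟪q, M.N p⟫} := by
    rw [e2]
    ext x
    rcases hpar with h | h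
    · simp only [mem_ofPred_eq, h, inner_sub_left, sub_eq_zero]
    · simp only [mem_ofPred_eq, h, inner_neg_right, neg_eq_zero, inner_sub_left, sub_eq_zero]
  have hab : ⟪p, M.N p⟫ ≠ ⟪q, M.N p⟫ := fun h => by
    have a2 : p ∈ M.S ∩ v := by rw [f2]; exact h
    exact hno p hp.1 hp.2 a2.2
  have hN : ∀ x ∈ M.S, M.N x = M.N p ∨ M.N x = -M.N p := by
    intro x hx
    rcases hcov hx with h | h
    · exact Or.inl (n1 x ⟨hx, h⟩)
    · rw [n2 x ⟨hx, h⟩]
      exact hpar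
  rw [f1, f2] at hun
  rcases lt_or_gt_of_ne hab with h | h
  · exact ⟨M.N p, _, _, M.N_unit p hp.1, h, hun, hN⟩
  · exact ⟨M.N p, _, _, M.N_unit p hp.1, h, by rw [union_comm]; exact hun, hN⟩

end MW
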