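import Pool.Agent.P.MP_064970_gt.I.SX

open scoped Manifold ContDiff
open MeasureTheory Set Filter Topology Metric
open scoped RealInnerProductSpace ENNReal ComplexConjugate Real

noncomputable section

namespace MW

universe u

/- Hint. LOCS for M2 at q (tau, U), chart c of M1 at q; tau o X is analytic on a small ball (X z in U), and
vanishes near some z1 of that ball (frequently gives x = X z1 in the relatively open image;
Emb.map_nhds), so on the ball (AnalyticOnNhd.eqOn_zero_of_preconnected_of_eventuallyEq_zero).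
Second part: tau o X = 0 near 0, chain rule gives N2 q orthogonal to Xu 0, Xv 0; normal_eq_or. -/
theorem uc_of (hLOCS : S_LOCS) : S_UC := by
  intro M₁ M₂ q h₁ h₂
  have hn : ⟪M₂.N q, M₂.N q⟫ = 1 := by rw [real_inner_self_eq_norm_sq, M₂.N_unit q h₂, one_pow]
  obtain ⟨c₂, ε, U, om, τ, -, -, hB, hqU, -, -, hτ, hd⟩ :=
    hLOCS M₂ q h₂ (M₂.N q) (by rw [hn]; exact one_pos) univ univ_mem
  obtain ⟨c, hc, hf⟩ := M₁.chart q h₁
  have h0 : (0 : ℂ) ∈ ball (0 : ℂ) c.r := mem_ball_self c.r_pos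
  have hm := hf.emb.map_nhds h0
  rw [hc] at hm
  have hU : ∀ᶠ z in 𝓝 (0 : ℂ), z ∈ ball (0 : ℂ) c.r ∧ c.X z ∈ U := by
    refine Eventually.and (isOpen_ball.mem_nhds h0) ?_
    exact (c.continuousOn_X.continuousAt (isOpen_ball.mem_nhds h0)).eventually
      (hB.opn.mem_nhds (hc ▸ hqU))
  refine ⟨fun h => ?_, fun h => ?_⟩
  · obtain ⟨ρ, hρ, hb⟩ := Metric.eventually_nhds_iff_ball.1 hU
    have han : AnalyticOnNhd ℝ (fun z => τ (c.X z)) (ball 0 ρ) := fun z hz =>
      (hB.an_τ _ (hb z hz).2).comp (c.analyticOnNhd_X z (hb z hz).1)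
    rw [← hm, frequently_map] at h
    obtain ⟨z₁, hz₁, hz₁ρ⟩ := (h.and_eventually (ball_mem_nhds (0 : ℂ) hρ)).exists
    rw [← hf.emb.map_nhds (hb z₁ hz₁ρ).1, eventually_map] at hz₁
    have hz : (fun z => τ (c.X z)) =ᶠ[𝓝 z₁] 0 := by
      filter_upwards [hz₁, isOpen_ball.mem_nhds hz₁ρ] with z a1 a2
      exact (hτ _ (hb z a2).2).1.1 a1
    have he := han.eqOn_zero_of_preconnected_of_eventuallyEq_zero
      (convex_ball (0 : ℂ) ρ).isPreconnected hz₁ρ hz
    rw [← hm, eventually_map]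
    filter_upwards [ball_mem_nhds (0 : ℂ) hρ] with z a1
    exact (hτ _ (hb z a1).2).1.2 (he a1)
  · rw [← hm, eventually_map] at h
    have hz : (fun z => τ (c.X z)) =ᶠ[𝓝 0] fun _ => 0 := by
      filter_upwards [h, hU] with z a1 a2
      exact (hτ _ a2.2).1.1 a1
    have a1 : HasFDerivAt τ (fderiv ℝ τ q) (c.X 0) := by
      rw [hc]
      exact (hB.an_τ q hqU).differentiableAt.hasFDerivAt
    have a2 := (a1.comp 0 (c.hasFDerivAt_X h0)).unique
      ((hasFDerivAt_const (0 : ℝ) (0 : ℂ)).congr_of_eventuallyEq hz)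
    have a3 : ∀ w : ℂ, ⟪M₂.N q, c.DX 0 w⟫ = 0 := fun w => by
      have a4 := congrArg (fun L : ℂ →L[ℝ] ℝ => L w) a2
      simp only [ContinuousLinearMap.comp_apply, zero_apply] at a4
      rwa [(hd q ⟨h₂, hqU⟩).2, hn, div_one, real_inner_comm] at a4
    have a5 := a3 1
    have a6 := a3 Complex.I
    simp only [c.DX_apply, Complex.one_re, Complex.one_im, Complex.I_re, Complex.I_im, one_smul,
      zero_smul, add_zero, zero_add] at a5 a6
    exact c.normal_eq_or h0 (M₁.N_unit q h₁) (M₂.N_unit q h₂) (hc ▸ hf.inner_Xu h0)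
      (hc ▸ hf.inner_Xv h0) a5 a6

end MW
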