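import Pool.Agent.P.MP_064970_gt.I.SX

open scoped Manifold ContDiff
open MeasureTheory Set Filter Topology Metric
open scoped RealInnerProductSpace ENNReal ComplexConjugate Real

noncomputable section

namespace MW

universe u

theorem UCG_one (hUC : S_UC) (M M' : Surf) (x : E) (hx : x ∈ M.S)
    (h : ∀ᶠ y in 𝓝[M.S] x, y ∈ M'.S) : ∀ᶠ y in 𝓝 x, (y ∈ M.S ↔ y ∈ M'.S) := by
  have hx' : x ∈ M'.S := h.self_of_nhdsWithin hx
  have hN := (hUC M M' x hx hx').2 h
  have hν := M.N_unit x hx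
  obtain ⟨r₁, hr₁, hO₁, h₁⟩ := M.basic_ball hx (show (0 : ℝ) < 1 / 4 by norm_num)
  obtain ⟨r₂, hr₂, hO₂, h₂⟩ := M'.basic_ball hx' (show (0 : ℝ) < 1 / 4 by norm_num)
  obtain ⟨r₃, hr₃, h₃⟩ := Metric.mem_nhdsWithin_iff.1 h
  set ρ := min r₁ (min r₂ r₃) with hρ
  have hρ0 : 0 < ρ := lt_min hr₁ (lt_min hr₂ hr₃)
  have e₁ : ρ ≤ r₁ := min_le_left _ _
  have e₂ : ρ ≤ r₂ := (min_le_right _ _).trans (min_le_left _ _)
  have e₃ : ρ ≤ r₃ := (min_le_right _ _).trans (min_le_right _ _)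
  filter_upwards [ball_mem_nhds x (show 0 < ρ / 8 by positivity)] with y hy
  refine ⟨fun hyS => h₃ ⟨ball_subset_ball (by linarith) hy, hyS⟩, fun hyS => ?_⟩
  rw [mem_ball_iff_norm] at hy
  set ν := M.N x with hνd
  set s := ⟪y - x, ν⟫ with hs
  have hνν : ⟪ν, ν⟫ = 1 := by rw [real_inner_self_eq_norm_sq, hν]; norm_num
  have hs1 : |s| ≤ ‖y - x‖ := by
    have := abs_real_inner_le_norm (y - x) ν
    rwa [hν, mul_one] at this
  have hw : ‖y - x - s • ν‖ ≤ 2 * ‖y - x‖ := by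
    have := norm_sub_le (y - x) (s • ν)
    rw [norm_smul, hν, mul_one, Real.norm_eq_abs] at this
    linarith
  obtain ⟨t, ht, hz⟩ := M.cover_disc (w := y - x - s • ν) hx hν (by norm_num) (by norm_num) hO₁ h₁
    (by rw [inner_sub_left, real_inner_smul_left, hνν, mul_one, sub_self]) (by linarith)
  set z := x + (y - x - s • ν) + t • ν with hzd
  have hzx : ‖z - x‖ < ρ := by
    have e : z - x = (y - x - s • ν) + t • ν := by rw [hzd]; abel
    have := norm_add_le (y - x - s • ν) (t • ν)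
    rw [norm_smul, hν, mul_one, Real.norm_eq_abs] at this
    rw [e]
    linarith
  have hz' : z ∈ M'.S := h₃ ⟨mem_ball_iff_norm.2 (by linarith), hz⟩
  have hsl := M'.slope (convex_ball x r₂) hO₂ h₂ (x := y) (y := z)
    ⟨hyS, mem_ball_iff_norm.2 (by linarith)⟩ ⟨hz', mem_ball_iff_norm.2 (by linarith)⟩
  have e : y - z = (s - t) • ν := by rw [hzd, sub_smul]; abel
  have e' : |⟪y - z, M'.N x⟫| = |s - t| := by
    rcases hN with h | h
    · rw [e, h, real_inner_smul_left, hνν, mul_one]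
    · rw [e, h, inner_neg_right, real_inner_smul_left, hνν, mul_one, abs_neg]
  rw [e', e, norm_smul, hν, mul_one, Real.norm_eq_abs] at hsl
  have h0 : s - t = 0 := abs_eq_zero.1 (by linarith [abs_nonneg (s - t)])
  rw [h0, zero_smul, sub_eq_zero] at e
  rwa [e]

theorem UCG_two (hUC : S_UC) (M M' : Surf) (x : E) (hO : M'.O = univ) (hc : IsPreconnected M.S)
    (hx : x ∈ M.S) (h : ∀ᶠ y in 𝓝[M.S] x, y ∈ M'.S) : M.S ⊆ M'.S := by
  intro y hy
  have key := hc.induction₂'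
    (fun a b => (∀ᶠ z in 𝓝[M.S] a, z ∈ M'.S) → ∀ᶠ z in 𝓝[M.S] b, z ∈ M'.S)
    (fun a ha => ?_) (fun a b c _ _ _ hab hbc h => hbc (hab h)) hx hy h
  · exact key.self_of_nhdsWithin hy
  · by_cases hP : ∀ᶠ z in 𝓝[M.S] a, z ∈ M'.S
    · exact (eventually_eventually_nhdsWithin.2 hP).mono fun b hb => ⟨fun _ => hb, fun _ => hP⟩
    · have h1 : ¬ ∃ᶠ b in 𝓝[M.S] a, ∀ᶠ z in 𝓝[M.S] b, z ∈ M'.S := by
        intro hfr
        have h2 : ∃ᶠ b in 𝓝[M.S] a, b ∈ M'.S :=
          (hfr.and_eventually self_mem_nhdsWithin).mono fun b hb => hb.1.self_of_nhdsWithin hb.2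
        have h3 : a ∈ M'.S := M'.mem_S_of_closure (hO ▸ mem_univ a)
          (mem_closure_iff_frequently.2 (h2.filter_mono nhdsWithin_le_nhds))
        exact hP ((hUC M M' a ha h3).1 hfr)
      exact (not_frequently.1 h1).mono fun b hb => ⟨fun h => absurd h hP, fun h => absurd h hb⟩

theorem UCG_four (hPARAM : S_PARAM) (M M' : Surf) (G : Set E) (hG : IsOpen G)
    (he : M.S ∩ G = M'.S ∩ G) : M.μ.restrict G = M'.μ.restrict G := by
  have hloc : ∀ p ∈ M.S ∩ G, ∃ O : Set E, O ∈ 𝓝[M.S ∩ G] p ∧ O ⊆ M.S ∩ G ∧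
      M.μ.restrict O = M'.μ.restrict O := by
    intro p hp
    obtain ⟨c, hc0, hc⟩ := M.chart p hp.1
    have h0 : (0 : ℂ) ∈ ball (0 : ℂ) c.r := mem_ball_self c.r_pos
    have h1 : c.X ⁻¹' G ∈ 𝓝 (0 : ℂ) :=
      c.continuousOn_X.continuousAt (isOpen_ball.mem_nhds h0) (hG.mem_nhds (hc0 ▸ hp.2))
    obtain ⟨ε, hε, h2⟩ := Metric.mem_nhds_iff.1 h1
    have hρ : 0 < min ε c.r := lt_min hε c.r_pos
    have hf := hc.shrink (min ε c.r) hρ (min_le_right _ _)
    set c' := c.shrink (min ε c.r) hρ (min_le_right _ _) with hc'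
    have h3 : ∀ z ∈ ball (0 : ℂ) c'.r, c'.X z ∈ G := fun z hz =>
      h2 (ball_subset_ball (min_le_left _ _) hz)
    have hemb : c'.Emb M'.S := by
      refine ⟨hf.inj, fun V hV hVr => ?_⟩
      obtain ⟨U, hU, e⟩ := hf.opn V hV hVr
      refine ⟨G ∩ U, hG.inter hU, ?_⟩
      rw [← inter_assoc, ← he, inter_right_comm, ← e]
      refine (inter_eq_left.2 ?_).symm
      rintro _ ⟨z, hz, rfl⟩
      exact h3 z (hVr hz)
    have hf' := (hPARAM M').2 c' hemb
    refine ⟨c'.X '' ball 0 c'.r, ?_, ?_, ?_⟩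
    · obtain ⟨U, hU, e⟩ := hf.opn _ isOpen_ball subset_rfl
      have h4 : p ∈ M.S ∩ U := by
        rw [← e, ← hc0]
        exact ⟨0, mem_ball_self c'.r_pos, rfl⟩
      rw [e]
      exact mem_nhdsWithin.2 ⟨U, hU, h4.2, fun y hy => ⟨hy.2.1, hy.1⟩⟩
    · rintro _ ⟨z, hz, rfl⟩
      exact ⟨hf.emb.mem hz, h3 z hz⟩
    · ext B hB
      rw [← lintegral_indicator_one hB, ← lintegral_indicator_one hB,
        hf.lintegral measurableSet_ball subset_rfl (measurable_one.indicator hB),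
        hf'.lintegral measurableSet_ball subset_rfl (measurable_one.indicator hB)]
  choose! O hO1 hO2 hO3 using hloc
  obtain ⟨t, hts, htc, hcov⟩ := TopologicalSpace.countable_cover_nhdsWithin hO1
  have e : M.S ∩ G = ⋃ z ∈ t, O z :=
    Subset.antisymm hcov (iUnion₂_subset fun z hz => hO2 z (hts hz))
  have h1 : M.μ.restrict (M.S ∩ G) = M'.μ.restrict (M.S ∩ G) := by
    rw [e]
    exact (Measure.restrict_biUnion_congr htc).2 fun z hz => hO3 z (hts hz)
  have h2 : ∀ N : Surf, N.μ.restrict G = N.μ.restrict (N.S ∩ G) := fun N => by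
    rw [inter_comm, ← Measure.restrict_restrict hG.measurableSet, N.restrict_S]
  rw [h2 M, h2 M', ← he, h1]

theorem ucg_of (hUC : S_UC) (hLG : S_LG) (hPARAM : S_PARAM) : S_UCG := by
  have _ := hLG
  refine ⟨UCG_one hUC, UCG_two hUC, fun M M' x hO hO' hc hc' hx h => ?_, UCG_four hPARAM⟩
  refine Subset.antisymm (UCG_two hUC M M' x hO' hc hx h)
    (UCG_two hUC M' M x hO hc' (h.self_of_nhdsWithin hx) ?_)
  filter_upwards [(UCG_one hUC M M' x hx h).filter_mono nhdsWithin_le_nhds, self_mem_nhdsWithin]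
    with y h1 h2
  exact h1.2 h2

end MW
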