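import Pool.Agent.P.MP_064970_gt.I.SX

open scoped Manifold ContDiff
open MeasureTheory Set Filter Topology Metric
open scoped RealInnerProductSpace ENNReal ComplexConjugate Real

noncomputable section

namespace MW

universe u

/- Hint. If S cap ball is empty, Theta = 0. Else q in S cap ball, nu = N q = A e3, <N x, nu> >= 199/200 on
G = S cap ball p rho; each line in direction nu meets G at most once (Surf.slope with eps = 1/10),
lam (|x-p|^2/rho^2) <= lam (|prA x - prA p|^2/rho^2) (norm_prA_sub_le, lam_antitone). Third part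
of AREA with n = 1 and integral_lam. -/
theorem UP_inner {a ν : E} (hν : ‖ν‖ = 1) (h : ‖a - ν‖ ≤ 1 / 10) : 4 / 5 ≤ |⟪a, ν⟫| := by
  have h1 := (abs_le.1 (abs_real_inner_le_norm (a - ν) ν)).1
  rw [inner_sub_left, real_inner_self_eq_norm_sq, hν] at h1
  exact le_trans (by linarith) (le_abs_self _)

theorem UP_norm (A : E ≃ₗᵢ[ℝ] E) {x y : E} (h : prA A x = prA A y) :
    ‖x - y‖ = |⟪x - y, A e3⟫| := by
  have h1 : x - y = A (pt 0 ⟪x - y, A e3⟫) := by
    conv_lhs => rw [← apply_pt_prA A x, ← apply_pt_prA A y, ← map_sub, ← pt_sub, h, sub_self,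
      ← inner_sub_left]
  have h2 : ‖x - y‖ ^ 2 = |⟪x - y, A e3⟫| ^ 2 := by
    conv_lhs => rw [h1, LinearIsometryEquiv.norm_map, norm_pt_sq]
    rw [norm_zero, sq_abs]
    ring
  exact (pow_left_inj₀ (norm_nonneg _) (abs_nonneg _) two_ne_zero).1 h2

theorem up_of (hAREA : S_AREA) : S_UP := by
  intro M hM p ρ hρ hreg
  by_contra hcon
  obtain ⟨q, hq, hqp⟩ := M.exists_mem_of_Θ_pos hρ (lt_trans (by norm_num) (not_le.1 hcon))
  refine hcon ?_
  obtain ⟨A, hA⟩ := exists_iso_e3 (M.N_unit q hq)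
  have hN : ∀ z ∈ M.S ∩ ball p ρ, ‖M.N z - A e3‖ ≤ 1 / 10 := fun z hz => by
    rw [hA]
    exact hreg z hz q ⟨hq, hqp⟩
  have hν : ‖A e3‖ = 1 := by rw [hA, M.N_unit q hq]
  have hG : MeasurableSet (M.S ∩ ball p ρ) := M.measurableSet_S.inter measurableSet_ball
  have hc : Continuous fun y : ℂ => lam (‖y - prA A p‖ ^ 2 / ρ ^ 2) :=
    contDiff_lam.continuous.comp (by fun_prop)
  have h1 := (((hAREA M A).2.2 _ hG inter_subset_left).2
    (fun y => ENNReal.ofReal (lam (‖y - prA A p‖ ^ 2 / ρ ^ 2)))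
    hc.measurable.ennreal_ofReal).2 1 fun y => by
      rw [Nat.cast_one, encard_le_one_iff]
      rintro a b ⟨ha, ha'⟩ ⟨hb, hb'⟩
      have k1 := M.slope (convex_ball p ρ) (hM.sub _) hN ha hb
      rw [← UP_norm A (ha'.trans hb'.symm)] at k1
      exact sub_eq_zero.1 (norm_le_zero_iff.1 (by linarith))
  rw [Nat.cast_one, one_mul] at h1
  have h2 := h1.trans (setLIntegral_le_lintegral _ _)
  rw [← ofReal_integral_eq_lintegral_ofReal (integrable_lam _ hρ)
    (Eventually.of_forall fun _ => lam_nonneg _), integral_lam _ hρ] at h2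
  have h3 : ∫⁻ x, ENNReal.ofReal (lam (‖x - p‖ ^ 2 / ρ ^ 2)) ∂M.μ ≤
      ENNReal.ofReal (5 / 4 * ρ ^ 2) := by
    rw [ENNReal.ofReal_mul (by norm_num)]
    refine le_trans ?_ (mul_le_mul_right h2 _)
    rw [← lintegral_const_mul' _ _ ENNReal.ofReal_ne_top, ← lintegral_indicator hG]
    refine lintegral_mono_ae (M.ae_mem.mono fun x hx => ?_)
    by_cases hb : x ∈ ball p ρ
    · rw [indicator_of_mem (mem_inter hx hb), ← ENNReal.ofReal_mul (lam_nonneg _),
        ← ENNReal.ofReal_mul (by norm_num)]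
      refine ENNReal.ofReal_le_ofReal ?_
      have k1 := UP_inner hν (hN x ⟨hx, hb⟩)
      have k2 : lam (‖x - p‖ ^ 2 / ρ ^ 2) ≤ lam (‖prA A x - prA A p‖ ^ 2 / ρ ^ 2) :=
        lam_antitone (div_le_div_of_nonneg_right
          (pow_le_pow_left₀ (norm_nonneg _) (norm_prA_sub_le A x p) 2) (sq_nonneg ρ))
      nlinarith [lam_nonneg (‖prA A x - prA A p‖ ^ 2 / ρ ^ 2)]
    · have k1 : ρ ≤ ‖x - p‖ := by simpa [dist_eq_norm] using hb
      rw [lam_eq_zero, ENNReal.ofReal_zero]
      · exact zero_le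
      · rw [le_div_iff₀ (by positivity)]
        nlinarith
  rw [← ofReal_integral_eq_lintegral_ofReal (hM.bd.integrable_lam p hρ)
    (Eventually.of_forall fun _ => lam_nonneg _),
    ENNReal.ofReal_le_ofReal_iff (by positivity)] at h3
  exact (div_le_iff₀ (by positivity)).2 h3

end MW
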