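import Pool.Agent.P.MP_064970_gt.I.BOX
import Pool.Agent.P.MP_064970_gt.I.BOXE
import Pool.Agent.P.MP_064970_gt.I.LOCS
import Pool.Agent.P.MP_064970_gt.I.COMPAT
import Pool.Agent.P.MP_064970_gt.I.TOP
import Pool.Agent.P.MP_064970_gt.I.PINT
import Pool.Agent.P.MP_064970_gt.I.MEAS
import Pool.Agent.P.MP_064970_gt.I.MEASS
import Pool.Agent.P.MP_064970_gt.I.NRM
import Pool.Agent.P.MP_064970_gt.I.PARAM
import Pool.Agent.P.MP_064970_gt.I.FVCH
import Pool.Agent.P.MP_064970_gt.I.FVL
import Pool.Agent.P.MP_064970_gt.I.BUMP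
import Pool.Agent.P.MP_064970_gt.I.FVG
import Pool.Agent.P.MP_064970_gt.I.FVC
import Pool.Agent.P.MP_064970_gt.I.FVV
import Pool.Agent.P.MP_064970_gt.I.FV
import Pool.Agent.P.MP_064970_gt.I.LAMB
import Pool.Agent.P.MP_064970_gt.I.MONOV
import Pool.Agent.P.MP_064970_gt.I.MONO
import Pool.Agent.P.MP_064970_gt.I.LOW0
import Pool.Agent.P.MP_064970_gt.I.LOW
import Pool.Agent.P.MP_064970_gt.I.MONOC
import Pool.Agent.P.MP_064970_gt.I.SHIFT
import Pool.Agent.P.MP_064970_gt.I.GLUE
import Pool.Agent.P.MP_064970_gt.I.LG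
import Pool.Agent.P.MP_064970_gt.I.GRAPH
import Pool.Agent.P.MP_064970_gt.I.CONJ
import Pool.Agent.P.MP_064970_gt.I.CONF
import Pool.Agent.P.MP_064970_gt.I.QCH
import Pool.Agent.P.MP_064970_gt.I.BILIP
import Pool.Agent.P.MP_064970_gt.I.CE
import Pool.Agent.P.MP_064970_gt.I.HARM
import Pool.Agent.P.MP_064970_gt.I.GE
import Pool.Agent.P.MP_064970_gt.I.RLINE
import Pool.Agent.P.MP_064970_gt.I.AREA00
import Pool.Agent.P.MP_064970_gt.I.AREA0
import Pool.Agent.P.MP_064970_gt.I.AREA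
import Pool.Agent.P.MP_064970_gt.I.AREAR
import Pool.Agent.P.MP_064970_gt.I.UP
import Pool.Agent.P.MP_064970_gt.I.LINE
import Pool.Agent.P.MP_064970_gt.I.GG3
import Pool.Agent.P.MP_064970_gt.I.GG
import Pool.Agent.P.MP_064970_gt.I.LIM1A
import Pool.Agent.P.MP_064970_gt.I.LIM1B
import Pool.Agent.P.MP_064970_gt.I.LIM1
import Pool.Agent.P.MP_064970_gt.I.LIMC
import Pool.Agent.P.MP_064970_gt.I.LIM2
import Pool.Agent.P.MP_064970_gt.I.LIMM
import Pool.Agent.P.MP_064970_gt.I.LIMB
import Pool.Agent.P.MP_064970_gt.I.LIM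
import Pool.Agent.P.MP_064970_gt.I.CONV
import Pool.Agent.P.MP_064970_gt.I.CONST
import Pool.Agent.P.MP_064970_gt.I.PERSIST
import Pool.Agent.P.MP_064970_gt.I.PP
import Pool.Agent.P.MP_064970_gt.I.IDC
import Pool.Agent.P.MP_064970_gt.I.FLATC
import Pool.Agent.P.MP_064970_gt.I.FLAT1
import Pool.Agent.P.MP_064970_gt.I.PLEXT
import Pool.Agent.P.MP_064970_gt.I.FLAT2
import Pool.Agent.P.MP_064970_gt.I.UC
import Pool.Agent.P.MP_064970_gt.I.SIDE
import Pool.Agent.P.MP_064970_gt.I.RIGA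
import Pool.Agent.P.MP_064970_gt.I.RIG1
import Pool.Agent.P.MP_064970_gt.I.TWO
import Pool.Agent.P.MP_064970_gt.I.SIDEFN
import Pool.Agent.P.MP_064970_gt.I.SIDEN
import Pool.Agent.P.MP_064970_gt.I.SIDES
import Pool.Agent.P.MP_064970_gt.I.MINC
import Pool.Agent.P.MP_064970_gt.I.CONF0
import Pool.Agent.P.MP_064970_gt.I.ISO
import Pool.Agent.P.MP_064970_gt.I.AREALE
import Pool.Agent.P.MP_064970_gt.I.DBL1
import Pool.Agent.P.MP_064970_gt.I.DOUBLE
import Pool.Agent.P.MP_064970_gt.I.COV0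
import Pool.Agent.P.MP_064970_gt.I.COVER
import Pool.Agent.P.MP_064970_gt.I.EMB2
import Pool.Agent.P.MP_064970_gt.I.EMB
import Pool.Agent.P.MP_064970_gt.I.DEF
import Pool.Agent.P.MP_064970_gt.I.DIVNU
import Pool.Agent.P.MP_064970_gt.I.UCG
import Pool.Agent.P.MP_064970_gt.I.SAME

/-! Section 1 of the paper: all statements proved. -/

namespace MW

universe u

theorem i_box : S_BOX := box_of
theorem i_boxe : S_BOXE := boxe_of i_box
theorem i_locs : S_LOCS := locs_of i_boxe
theorem i_compat : S_COMPAT := compat_of i_box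
theorem i_top : S_TOP := top_of
theorem i_pint : S_PINT.{u} := pint_of
theorem i_meas : S_MEAS.{u} := meas_of i_compat
theorem i_meass : S_MEASS := meass_of i_meas i_top
theorem i_nrm : S_NRM.{u} := nrm_of i_compat
theorem i_param : S_PARAM := param_of i_compat
theorem i_fvch : S_FVCH := fvch_of
theorem i_fvl : S_FVL.{u} := fvl_of i_fvch i_pint
theorem i_bump : S_BUMP.{u} := bump_of
theorem i_fvg : S_FVG.{u} := fvg_of i_fvl i_bump i_pint
theorem i_fvc : S_FVC := fvc_of i_fvg i_top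
theorem i_fvv : S_FVV := fvv_of
theorem i_fv : S_FV := fv_of i_fvc i_fvv
theorem i_lamb : S_LAMB := lamb_of
theorem i_monov : S_MONOV := monov_of i_fvv i_lamb
theorem i_mono : S_MONO := mono_of i_monov i_fvc
theorem i_low0 : S_LOW0 := low0_of
theorem i_low : S_LOW := low_of i_mono i_low0
theorem i_monoc : S_MONOC := monoc_of i_monov i_fvc i_low0
theorem i_shift : S_SHIFT := shift_of i_fv
theorem i_glue : S_GLUE := glue_of
theorem i_lg : S_LG := lg_of i_locs
theorem i_graph : S_GRAPH := graph_of i_lg i_locs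
theorem i_conj : S_CONJ := conj_of i_locs
theorem i_conf : S_CONF := conf_of
theorem i_qch : S_QCH := qch_of i_graph i_conj i_conf i_param
theorem i_bilip : S_BILIP := bilip_of
theorem i_ce : S_CE := ce_of i_qch i_bilip
theorem i_harm : S_HARM := harm_of
theorem i_ge : S_GE := ge_of i_qch i_bilip i_harm
theorem i_rline : S_RLINE := rline_of
theorem i_area00 : S_AREA00 := area00_of
theorem i_area0 : S_AREA0 := area0_of i_rline i_area00
theorem i_area : S_AREA := area_of i_area0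
theorem i_arear : S_AREAR := arear_of i_area0
theorem i_up : S_UP := up_of i_area
theorem i_line : S_LINE := line_of
theorem i_gg3 : S_GG3 := gg3_of i_line i_arear i_rline
theorem i_gg : S_GG := gg_of i_gg3
theorem i_lim1a : S_LIM1A := lim1a_of
theorem i_lim1b : S_LIM1B := lim1b_of i_ce i_lim1a
theorem i_lim1 : S_LIM1 := lim1_of i_lim1a i_lim1b
theorem i_limc : S_LIMC := limc_of i_bilip
theorem i_lim2 : S_LIM2 := lim2_of i_qch i_limc i_lim1a i_bilip
theorem i_limm : S_LIMM := limm_of i_lim2 i_lim1a i_param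
theorem i_limb : S_LIMB := limb_of
theorem i_lim : S_LIM := lim_of i_lim1 i_lim2 i_meass i_limm i_limb
theorem i_conv : S_CONV := conv_of
theorem i_const : S_CONST := const_of
theorem i_persist : S_PERSIST := persist_of i_conv
theorem i_pp : S_PP := pp_of
theorem i_idc : S_IDC := idc_of
theorem i_flatc : S_FLATC := flatc_of i_idc
theorem i_flat1 : S_FLAT1 := flat1_of i_flatc i_idc i_boxe
theorem i_plext : S_PLEXT := plext_of i_idc i_flat1
theorem i_flat2 : S_FLAT2 := flat2_of i_ce i_plext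
theorem i_uc : S_UC := uc_of i_locs
theorem i_side : S_SIDE := side_of
theorem i_riga : S_RIGA := riga_of i_monoc i_flat1 i_plext
theorem i_rig1 : S_RIG1 := rig1_of i_riga
theorem i_two : S_TWO := two_of i_riga i_monoc
theorem i_sidefn : S_SIDEFN := sidefn_of i_glue i_boxe
theorem i_siden : S_SIDEN := siden_of i_boxe
theorem i_sides : S_SIDES := sides_of i_sidefn i_siden
theorem i_minc : S_MINC := minc_of
theorem i_conf0 : S_CONF0 := conf0_of i_minc i_conf
theorem i_iso : S_ISO.{u} := iso_of i_conf0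
theorem i_areale : S_AREALE.{u} := areale_of i_compat
theorem i_dbl1 : S_DBL1.{u} := dbl1_of i_fvg i_nrm i_monov i_low0 i_pint
theorem i_double : S_DOUBLE.{u} := double_of i_dbl1 i_flatc i_idc
theorem i_cov0 : S_COV0.{u} := cov0_of
theorem i_cover : S_COVER.{u} := cover_of i_cov0
theorem i_emb2 : S_EMB2.{u} := emb2_of i_sides
theorem i_emb : S_EMB.{u} := emb_of i_iso i_meas i_areale i_double i_cover i_emb2
theorem i_def : S_DEF := def_of i_locs
theorem i_divnu : S_DIVNU := divnu_of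
theorem i_ucg : S_UCG := ucg_of i_uc i_lg i_param
theorem i_same : S_SAME := same_of i_side i_uc

end MW
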