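import Pool.Agent.P.MP_064970_gt.I.SX

open scoped Manifold ContDiff
open MeasureTheory Set Filter Topology Metric
open scoped RealInnerProductSpace ENNReal ComplexConjugate Real

noncomputable section

namespace MW

universe u

open Classical in
theorem AREA_sum {S G : Set E} (hG : G ⊆ S) (A : E ≃ₗᵢ[ℝ] E) (f : ℂ → ℝ≥0∞) (y : ℂ) :
    (∑' t : ℝ, if A (pt y t) ∈ S then G.indicator (fun x => f (prA A x)) (A (pt y t)) else 0)
      = ({t : ℝ | A (pt y t) ∈ G}.encard : ℝ≥0∞) * f y := by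
  rw [← ENNReal.tsum_set_const, tsum_subtype {t : ℝ | A (pt y t) ∈ G} fun _ => f y]
  refine tsum_congr fun t => ?_
  by_cases h : A (pt y t) ∈ G
  · rw [if_pos (hG h), indicator_of_mem h, prA_apply_pt,
      indicator_of_mem (show t ∈ {t : ℝ | A (pt y t) ∈ G} from h)]
  · rw [indicator_of_notMem h, ite_self,
      indicator_of_notMem (show t ∉ {t : ℝ | A (pt y t) ∈ G} from h)]

theorem AREA_mem (G : Set E) (A : E ≃ₗᵢ[ℝ] E) (y : ℂ) :
    y ∈ prA A '' G ↔ {t : ℝ | A (pt y t) ∈ G}.Nonempty := by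
  constructor
  · rintro ⟨x, hx, rfl⟩
    exact ⟨⟪x, A e3⟫, by simpa only [mem_ofPred_eq, apply_pt_prA] using hx⟩
  · rintro ⟨t, ht⟩
    exact ⟨_, ht, prA_apply_pt A y t⟩

theorem AREA_card (G : Set E) (A : E ≃ₗᵢ[ℝ] E) (y : ℂ) :
    {t : ℝ | A (pt y t) ∈ G}.encard ≤ (G ∩ prA A ⁻¹' {y}).encard := by
  refine Set.encard_le_encard_of_injOn (f := fun t : ℝ => A (pt y t))
    (fun t ht => ⟨ht, prA_apply_pt A y t⟩) fun s _ t _ h => ?_
  have h1 := congrArg (fun x : E => x 2) (A.injective h)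
  simpa using h1

/- Hint. M' = M.sim A.symm 1 0: x in M'.S iff A x in M.S, M'.N x = A.symm (N (A x)), IsSim.lintegral; apply
AREA0 to M' and g o A. Third part: with g = indicator G (f o prA A) the fibre sum is f y * (number
of t with A (pt y t) in G) (prA_apply_pt, apply_pt_prA; ENNReal.tsum_mul_left, tsum of an
indicator = encard: ENNReal.tsum_set_one or by cases), the count is AEMeasurable, nonzero exactly
on prA A '' G (so this set is null measurable), >= 1 there and <= n. -/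
theorem area_of (hAREA0 : S_AREA0) : S_AREA := by
  classical
  intro M A
  have h := M.isSim A.symm one_pos 0
  set M' := M.sim A.symm 1 0
  have hm : ∀ x, simMap A.symm 1 0 x = A.symm x := fun x => by simp [simMap]
  have hS : ∀ x, x ∈ M'.S ↔ A x ∈ M.S := fun x => by
    rw [← h.S (A x), hm, A.symm_apply_apply]
  have hN : ∀ x, M'.N x 2 = ⟪M.N (A x), A e3⟫ := fun x => by
    have h1 := h.N (A x)
    rw [hm, A.symm_apply_apply] at h1
    rw [h1, ← inner_e3, ← A.inner_map_map, A.apply_symm_apply]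
  obtain ⟨h1, h2⟩ := hAREA0 M'
  have P1 : ∀ g : E → ℝ≥0∞, Measurable g →
      AEMeasurable (fun y : ℂ => ∑' t : ℝ, if A (pt y t) ∈ M.S then g (A (pt y t)) else 0) ∧
      ∫⁻ x, g x * ENNReal.ofReal |⟪M.N x, A e3⟫| ∂M.μ
        = ∫⁻ y : ℂ, ∑' t : ℝ, if A (pt y t) ∈ M.S then g (A (pt y t)) else 0 := by
    intro g hg
    obtain ⟨h3, h4⟩ := h1 (fun x => g (A x)) (hg.comp A.continuous.measurable)
    simp only [hS] at h3 h4
    refine ⟨h3, ?_⟩
    rw [← h4, h.lintegral]
    simp only [hN, hm, A.apply_symm_apply, one_pow, ENNReal.ofReal_one, one_mul]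
  refine ⟨P1, ?_, fun G hG hGS => ?_⟩
  · filter_upwards [h2] with y hy t ht
    rw [← hN]
    exact hy t ((hS _).2 ht)
  have key : ∀ f : ℂ → ℝ≥0∞, Measurable f →
      AEMeasurable (fun y : ℂ => ({t : ℝ | A (pt y t) ∈ G}.encard : ℝ≥0∞) * f y) ∧
      ∫⁻ x in G, f (prA A x) * ENNReal.ofReal |⟪M.N x, A e3⟫| ∂M.μ
        = ∫⁻ y : ℂ, ({t : ℝ | A (pt y t) ∈ G}.encard : ℝ≥0∞) * f y := by
    intro f hf
    obtain ⟨h3, h4⟩ := P1 (G.indicator fun x => f (prA A x))
      ((hf.comp (continuous_prA A).measurable).indicator hG)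
    simp only [AREA_sum hGS] at h3 h4
    refine ⟨h3, ?_⟩
    rw [← h4, ← lintegral_indicator hG]
    refine lintegral_congr fun x => ?_
    by_cases hx : x ∈ G
    · rw [indicator_of_mem hx, indicator_of_mem hx]
    · rw [indicator_of_notMem hx, indicator_of_notMem hx, zero_mul]
  have hnull : NullMeasurableSet (prA A '' G) := by
    have h3 := (key (fun _ => 1) measurable_const).1
    have h4 := nullMeasurableSet_lt (aemeasurable_const (b := (0 : ℝ≥0∞))) h3
    convert h4 using 1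
    ext y
    rw [AREA_mem, mem_ofPred_eq, mul_one, ← encard_pos]
    rw [← ENat.toENNReal_lt, ENat.toENNReal_zero]
  refine ⟨hnull, fun f hf => ⟨?_, fun n hn => ?_⟩⟩
  · rw [(key f hf).2, ← lintegral_indicator₀ hnull]
    refine lintegral_mono fun y => ?_
    by_cases hy : y ∈ prA A '' G
    · rw [indicator_of_mem hy]
      have h3 : (1 : ℕ∞) ≤ {t : ℝ | A (pt y t) ∈ G}.encard :=
        one_le_encard_iff_nonempty.2 ((AREA_mem G A y).1 hy)
      have h4 : (1 : ℝ≥0∞) ≤ ({t : ℝ | A (pt y t) ∈ G}.encard : ℝ≥0∞) := by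
        exact_mod_cast ENat.toENNReal_le.2 h3
      exact le_mul_of_one_le_left' h4
    · rw [indicator_of_notMem hy]
      exact zero_le
  · rw [(key f hf).2, ← lintegral_indicator₀ hnull,
      ← lintegral_const_mul' _ _ (ENNReal.natCast_ne_top n)]
    refine lintegral_mono fun y => ?_
    by_cases hy : y ∈ prA A '' G
    · rw [indicator_of_mem hy]
      have h4 : ({t : ℝ | A (pt y t) ∈ G}.encard : ℝ≥0∞) ≤ n := by
        exact_mod_cast ENat.toENNReal_le.2 ((AREA_card G A y).trans (hn y))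
      exact mul_le_mul_left h4 _
    · have h3 : {t : ℝ | A (pt y t) ∈ G} = ∅ :=
        not_nonempty_iff_eq_empty.1 fun h5 => hy ((AREA_mem G A y).2 h5)
      simp [h3]

end MW
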