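import Pool.Agent.P.MP_064970_gt.I.SX

open scoped Manifold ContDiff
open MeasureTheory Set Filter Topology Metric
open scoped RealInnerProductSpace ENNReal ComplexConjugate Real

noncomputable section

namespace MW

universe u

theorem BOX_equiv (c : Chart) {z0 : ℂ} (hz : z0 ∈ ball (0 : ℂ) c.r) {v n : E}
    (hu : ⟪n, c.Xu z0⟫ = 0) (hv : ⟪n, c.Xv z0⟫ = 0) (hvn : ⟪v, n⟫ ≠ 0) :
    ∃ L : (ℂ × ℝ) ≃L[ℝ] E, (L : (ℂ × ℝ) →L[ℝ] E) =
      (c.DX z0).comp (ContinuousLinearMap.fst ℝ ℂ ℝ) +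
        (ContinuousLinearMap.snd ℝ ℂ ℝ).smulRight v := by
  set A : (ℂ × ℝ) →L[ℝ] E := (c.DX z0).comp (ContinuousLinearMap.fst ℝ ℂ ℝ) +
        (ContinuousLinearMap.snd ℝ ℂ ℝ).smulRight v with hA
  have hinj : Function.Injective A := by
    rw [injective_iff_map_eq_zero]
    rintro ⟨w, s⟩ h
    have h' : c.DX z0 w + s • v = 0 := by simpa [hA] using h
    have h1 : ⟪c.DX z0 w + s • v, n⟫ = 0 := by rw [h', inner_zero_left]
    have hu' : ⟪c.Xu z0, n⟫ = 0 := by rw [real_inner_comm]; exact hu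
    have hv' : ⟪c.Xv z0, n⟫ = 0 := by rw [real_inner_comm]; exact hv
    rw [c.DX_apply, inner_add_left, inner_add_left, real_inner_smul_left, real_inner_smul_left,
      real_inner_smul_left, hu', hv'] at h1
    have hs : s = 0 := by
      have : s * ⟪v, n⟫ = 0 := by linarith
      exact (mul_eq_zero.1 this).resolve_right hvn
    subst hs
    have hw : w = 0 := by
      apply c.injective_DX hz
      simpa using h'
    simp [hw]
  have hrank : Module.finrank ℝ (ℂ × ℝ) = Module.finrank ℝ E := by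
    simp [Module.finrank_prod]
  refine ⟨(LinearMap.linearEquivOfInjective (A : (ℂ × ℝ) →ₗ[ℝ] E) hinj
    hrank).toContinuousLinearEquiv, ?_⟩
  ext <;> rfl

theorem box_of : S_BOX := by
  intro c z0 hz v n hu hv hvn G hG
  obtain ⟨L, hL⟩ := BOX_equiv c hz hu hv hvn
  let Ψ : ℂ × ℝ → E := fun p => c.X p.1 + p.2 • v
  have han : AnalyticAt ℝ Ψ (z0, 0) := by
    have h1 : AnalyticAt ℝ (fun p : ℂ × ℝ => c.X p.1) (z0, 0) :=
      AnalyticAt.comp (f := Prod.fst) (x := ((z0, (0 : ℝ)) : ℂ × ℝ)) (c.analyticOnNhd_X z0 hz)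
        analyticAt_fst
    have h2 : AnalyticAt ℝ (fun p : ℂ × ℝ => p.2 • v) (z0, 0) :=
      analyticAt_snd.smul analyticAt_const
    exact h1.add h2
  have hd : HasFDerivAt Ψ (L : (ℂ × ℝ) →L[ℝ] E) (z0, 0) := by
    rw [hL]
    exact (HasFDerivAt.comp (f := Prod.fst) ((z0, (0 : ℝ)) : ℂ × ℝ) (c.hasFDerivAt_X hz)
      hasFDerivAt_fst).add (hasFDerivAt_snd.smul_const v)
  have hc : ContDiffAt ℝ ω Ψ (z0, 0) := han.contDiffAt
  let P := hc.toOpenPartialHomeomorph Ψ hd (by simp)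
  have hP : ∀ p, P p = Ψ p := fun _ => rfl
  have hsrc : ((z0, (0 : ℝ)) : ℂ × ℝ) ∈ P.source := hc.mem_toOpenPartialHomeomorph_source hd _
  have hsym : AnalyticAt ℝ P.symm (Ψ (z0, 0)) :=
    (hc.to_localInverse hd (by simp)).analyticAt
  have hΨ0 : Ψ (z0, 0) = c.X z0 := by simp [Ψ]
  have hT : Tendsto Ψ (𝓝 (z0, 0)) (𝓝 (Ψ (z0, 0))) := han.continuousAt
  have h1 : ∀ᶠ p in 𝓝 ((z0, (0 : ℝ)) : ℂ × ℝ),
      p ∈ P.source ∧ Ψ p ∈ G ∧ AnalyticAt ℝ P.symm (Ψ p) ∧ p.1 ∈ ball (0 : ℂ) c.r := by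
    refine (P.open_source.eventually_mem hsrc).and ((hT.eventually ?_).and
      ((hT.eventually hsym.eventually_analyticAt).and ?_))
    · rw [hΨ0]; exact hG
    · exact continuous_fst.continuousAt.eventually (isOpen_ball.eventually_mem hz)
  obtain ⟨δ, hδ, hb⟩ := Metric.eventually_nhds_iff_ball.1 h1
  filter_upwards [Ioo_mem_nhdsGT hδ] with ε hε
  have hB : ∀ p ∈ ball z0 ε ×ˢ ball (0 : ℝ) ε,
      p ∈ P.source ∧ Ψ p ∈ G ∧ AnalyticAt ℝ P.symm (Ψ p) ∧ p.1 ∈ ball (0 : ℂ) c.r := by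
    intro p hp
    apply hb
    rw [ball_prod_same] at hp
    exact ball_subset_ball hε.2.le hp
  have hinv : ∀ p ∈ ball z0 ε ×ˢ ball (0 : ℝ) ε, P.symm (Ψ p) = p := fun p hp =>
    P.left_inv (hB p hp).1
  refine ⟨P '' (ball z0 ε ×ˢ ball (0 : ℝ) ε), fun x => (P.symm x).1, fun x => (P.symm x).2,
    ⟨hε.1, ?_, ?_, ?_, ?_, ?_, ?_⟩, ?_⟩
  · intro z hz'
    exact (hB (z, 0) ⟨hz', mem_ball_self hε.1⟩).2.2.2
  · exact P.isOpen_image_of_subset_source (isOpen_ball.prod isOpen_ball) fun p hp => (hB p hp).1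
  · rintro _ ⟨p, hp, rfl⟩
    exact analyticAt_fst.comp (hB p hp).2.2.1
  · rintro _ ⟨p, hp, rfl⟩
    exact analyticAt_snd.comp (hB p hp).2.2.1
  · rintro _ ⟨p, hp, rfl⟩
    rw [hP, hinv p hp]
    exact ⟨hp.1, by simpa using hp.2, rfl⟩
  · intro z hz' t ht
    have hp : ((z, t) : ℂ × ℝ) ∈ ball z0 ε ×ˢ ball (0 : ℝ) ε := ⟨hz', by simpa using ht⟩
    have h := hinv _ hp
    refine ⟨⟨(z, t), hp, rfl⟩, ?_, ?_⟩
    · exact congrArg Prod.fst h
    · exact congrArg Prod.snd h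
  · rintro _ ⟨p, hp, rfl⟩
    exact (hB p hp).2.1

end MW
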