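import Pool.Agent.P.MP_064970_gt.I.SX

open scoped Manifold ContDiff
open MeasureTheory Set Filter Topology Metric
open scoped RealInnerProductSpace ENNReal ComplexConjugate Real

noncomputable section

namespace MW

universe u

theorem BUMP_sphere (c : Chart) : ∃ ρ δ : ℝ, 0 < ρ ∧ ρ < c.r ∧ 0 < δ ∧
    ∀ z ∈ sphere (0 : ℂ) ρ, c.X z ∉ closedBall (c.X 0) δ := by
  have h0 : (0 : ℂ) ∈ ball (0 : ℂ) c.r := mem_ball_self c.r_pos
  obtain ⟨C, -, hC⟩ := (c.DX 0 : ℂ →ₗ[ℝ] E).exists_antilipschitzWith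
    (LinearMap.ker_eq_bot.2 (c.injective_DX h0))
  have h1 : ∀ᶠ z in 𝓝[≠] (0 : ℂ), c.X z ≠ c.X 0 := (c.hasFDerivAt_X h0).eventually_ne ⟨C, hC⟩
  rw [eventually_nhdsWithin_iff] at h1
  obtain ⟨ε, hε, h2⟩ := Metric.eventually_nhds_iff_ball.1 h1
  have hr := c.r_pos
  have hρ : 0 < min ε c.r / 2 := by positivity
  have hρ1 : min ε c.r / 2 < ε := by have := min_le_left ε c.r; linarith
  have hρ2 : min ε c.r / 2 < c.r := by have := min_le_right ε c.r; linarith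
  have hT : IsCompact (c.X '' sphere 0 (min ε c.r / 2)) :=
    (isCompact_sphere _ _).image_of_continuousOn
      (c.continuousOn_X.mono (sphere_subset_ball hρ2))
  have hn : c.X 0 ∉ c.X '' sphere 0 (min ε c.r / 2) := by
    rintro ⟨z, hz, e⟩
    refine h2 z (sphere_subset_ball hρ1 hz) (fun hz0 => ?_) e
    rw [mem_singleton_iff.1 hz0, mem_sphere, dist_self] at hz
    exact hρ.ne hz
  obtain ⟨δ, hδ, h3⟩ := Metric.nhds_basis_closedBall.mem_iff.1 (hT.isClosed.isOpen_compl.mem_nhds hn)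
  exact ⟨_, δ, hρ, hρ2, hδ, fun z hz h => h3 h ⟨z, hz, rfl⟩⟩

theorem bump_of : S_BUMP.{u} := by
  intro Ω _ _ f c hf
  classical
  obtain ⟨ρ, δ, hρ, hρr, hδ, hs⟩ := BUMP_sphere c.toChart
  have hcb : closedBall (0 : ℂ) ρ ⊆ ball 0 c.r := closedBall_subset_ball hρr
  have hsrc : closedBall (0 : ℂ) ρ ⊆ c.ψ.source := c.src ▸ hcb
  let b : ContDiffBump (c.toChart.X 0) := ⟨δ / 2, δ, by linarith, by linarith⟩
  have hV : IsOpen (c.ψ '' ball 0 ρ) :=
    c.ψ.isOpen_image_of_subset_source isOpen_ball (ball_subset_closedBall.trans hsrc)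
  have hK : IsCompact (c.ψ '' closedBall 0 ρ ∩ f ⁻¹' closedBall (c.toChart.X 0) δ) :=
    ((isCompact_closedBall _ _).image_of_continuousOn (c.ψ.continuousOn.mono hsrc)).inter_right
      (isClosed_closedBall.preimage hf)
  have hKV : c.ψ '' closedBall 0 ρ ∩ f ⁻¹' closedBall (c.toChart.X 0) δ ⊆ c.ψ '' ball 0 ρ := by
    rintro _ ⟨⟨z, hz, rfl⟩, h⟩
    refine ⟨z, ?_, rfl⟩
    by_contra hn
    rw [mem_preimage, c.eq z (hcb hz)] at h
    exact hs z (le_antisymm hz (not_lt.1 hn)) h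
  have hoff : ∀ y, y ∉ c.ψ '' closedBall 0 ρ ∩ f ⁻¹' closedBall (c.toChart.X 0) δ →
      (c.ψ '' ball 0 ρ).indicator (fun y => b (f y)) y = 0 ∧
      (c.ψ '' ball 0 ρ).indicator (fun y => fderiv ℝ b (f y)) y = 0 := by
    intro y hy
    by_cases hyV : y ∈ c.ψ '' ball 0 ρ
    · have h1 : f y ∉ tsupport b := by
        rw [b.tsupport_eq]
        exact fun h => hy ⟨image_mono ball_subset_closedBall hyV, h⟩
      rw [indicator_of_mem hyV, indicator_of_mem hyV]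
      exact ⟨image_eq_zero_of_notMem_tsupport h1, fderiv_of_notMem_tsupport ℝ h1⟩
    · exact ⟨indicator_of_notMem hyV _, indicator_of_notMem hyV _⟩
  refine ⟨(c.ψ '' ball 0 ρ).indicator fun y => b (f y),
    (c.ψ '' ball 0 ρ).indicator fun y => fderiv ℝ b (f y),
    c.ψ '' closedBall 0 ρ ∩ f ⁻¹' closedBall (c.toChart.X 0) δ,
    c.ψ '' ball 0 ρ ∩ f ⁻¹' ball (c.toChart.X 0) (δ / 2), fun y => ?_, hK, ?_, hoff,
    hV.inter (isOpen_ball.preimage hf), ⟨⟨0, mem_ball_self hρ, rfl⟩, ?_⟩, fun y hy => ?_⟩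
  · by_cases hyV : y ∈ c.ψ '' ball 0 ρ
    · refine ⟨b, b.contDiff, ?_⟩
      filter_upwards [hV.mem_nhds hyV] with y' hy'
      exact ⟨indicator_of_mem hy' _, indicator_of_mem hy' _⟩
    · refine ⟨fun _ => 0, contDiff_const, ?_⟩
      filter_upwards [hK.isClosed.isOpen_compl.mem_nhds fun h => hyV (hKV h)] with y' hy'
      refine ⟨(hoff y' hy').1, ?_⟩
      rw [(hoff y' hy').2, fderiv_fun_const, Pi.zero_apply]
  · rintro _ ⟨⟨z, hz, rfl⟩, -⟩
    exact c.ψ.map_source (hsrc hz)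
  · rw [mem_preimage, c.eq 0 (mem_ball_self c.r_pos)]
    exact mem_ball_self (by linarith)
  · rw [indicator_of_mem hy.1, indicator_of_mem hy.1]
    have h1 : (b : E → ℝ) =ᶠ[𝓝 (f y)] 1 := b.eventuallyEq_one_of_mem_ball hy.2
    refine ⟨h1.eq_of_nhds, ?_⟩
    rw [h1.fderiv_eq]
    exact congrFun (fderiv_const (1 : ℝ)) _

end MW
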