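import Pool.Agent.P.MP_064970_gt.I.SX

open scoped Manifold ContDiff
open MeasureTheory Set Filter Topology Metric
open scoped RealInnerProductSpace ENNReal ComplexConjugate Real

noncomputable section

namespace MW

universe u

/- Hint. Fibres are compact and discrete, so finite; IsClosedMap.isCoveringMapOn_of_isLocalHomeomorphOn
with s = univ, isCoveringMap_iff_isCoveringMapOn_univ.
IsCoveringMap.existsUnique_continuousMap_lifts for the identity of C gives a section s with s (g
y0) = y0. {y | s (g y) = y} is closed (T2) and open (local injectivity; or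
IsCoveringMap.eq_of_comp_eq for the two lifts id and s o g of g), so everything. -/
theorem cov0_of : S_COV0.{u} := by
  intro Ω _ _ _ g hp hl
  have hfin : ∀ x ∈ (univ : Set ℂ), (g ⁻¹' {x}).Finite := fun x _ =>
    (hp.isCompact_preimage isCompact_singleton).finite
      ((hl.isLocalHomeomorphOn (s := g ⁻¹' {x})).isDiscrete_of_image
        (subsingleton_singleton.anti (image_preimage_subset g {x})).isDiscrete)
  have hcov : IsCoveringMap g := isCoveringMap_iff_isCoveringMapOn_univ.2
    (hp.isClosedMap.isCoveringMapOn_of_isLocalHomeomorphOn hfin hl.isLocalHomeomorphOn)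
  intro a b hab
  obtain ⟨s, ⟨h1, h2⟩, -⟩ :=
    hcov.existsUnique_continuousMap_lifts (ContinuousMap.id ℂ) (g a) a rfl
  have h3 : (s ∘ g : Ω → Ω) = id :=
    hcov.eq_of_comp_eq (s.continuous.comp hp.continuous) continuous_id
      (funext fun y => congrFun h2 (g y)) a h1
  calc a = s (g a) := h1.symm
    _ = s (g b) := by rw [hab]
    _ = b := congrFun h3 b

end MW
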