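import Pool.Agent.P.MP_064970_gt.I.SX

open scoped Manifold ContDiff
open MeasureTheory Set Filter Topology Metric
open scoped RealInnerProductSpace ENNReal ComplexConjugate Real

noncomputable section

namespace MW

universe u

theorem LG_shift {c : Chart} {z0 : ℂ} {v : E} {ε : ℝ} {U : Set E} {om : E → ℂ} {τ : E → ℝ}
    (hb : Box c z0 v ε U om τ) {z : E} (hz : z ∈ U) {s : ℝ} (hs : |τ z + s| < ε) :
    z + s • v ∈ U ∧ τ (z + s • v) = τ z + s := by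
  obtain ⟨h1, -, h3⟩ := hb.left z hz
  have h4 := hb.right _ h1 _ hs
  rw [add_smul, ← add_assoc, h3] at h4
  exact ⟨h4.1, h4.2.2⟩

theorem LG_pt (t : ℝ) (y : ℂ) :
    HasFDerivAt (fun y : ℂ => pt y t) (ptL.comp (ContinuousLinearMap.inl ℝ ℂ ℝ)) y :=
  ptL.hasFDerivAt.comp y (hasFDerivAt_prodMk_left y t)

theorem LG_pos (hLOCS : S_LOCS) (M : Surf) (x : E) (hx : x ∈ M.S) (hN : 0 < M.N x 2) :
    ∃ (ρ δ : ℝ) (u : ℂ → ℝ), 0 < ρ ∧ 0 < δ ∧ ContDiffOn ℝ ∞ u (ball (pr x) ρ) ∧ u (pr x) = x 2 ∧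
    (∀ y ∈ ball (pr x) ρ, |u y - x 2| < δ ∧ M.N (pt y (u y)) 2 ≠ 0 ∧
      (∀ w, fderiv ℝ u y w = -⟪pr (M.N (pt y (u y))), w⟫ / M.N (pt y (u y)) 2) ∧
      ∀ t, |t - x 2| < δ → (pt y t ∈ M.S ↔ t = u y)) := by
  obtain ⟨c, ε, U, om, τ, -, -, hb, hxU, -, -, hS, hd⟩ := hLOCS M x hx e3
    (by rwa [e3_inner]) univ univ_mem
  have hε := hb.pos
  have h0 : τ x = 0 := (hS x hxU).1.1 hx
  have hP : ContinuousAt (fun y : ℂ => pt y (x 2)) (pr x) := (LG_pt _ _).continuousAt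
  have h1 : ∀ᶠ y in 𝓝 (pr x), pt y (x 2) ∈ U :=
    hP.eventually (hb.opn.mem_nhds (by simpa only [pt_pr] using hxU))
  have h2 : ∀ᶠ y in 𝓝 (pr x), |τ (pt y (x 2))| < ε / 4 := by
    have h3 : ContinuousAt (fun y : ℂ => |τ (pt y (x 2))|) (pr x) :=
      (ContinuousAt.comp (f := fun y : ℂ => pt y (x 2))
        (by rw [pt_pr]; exact (hb.an_τ x hxU).continuousAt) hP).abs
    refine h3.eventually (gt_mem_nhds ?_)
    simp only [pt_pr, h0, abs_zero]
    positivity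
  obtain ⟨ρ, hρ, h3⟩ := Metric.eventually_nhds_iff_ball.1 (h1.and h2)
  have h4 : ∀ y ∈ ball (pr x) ρ, ∀ t, |t - x 2| < ε / 2 →
      pt y t ∈ U ∧ τ (pt y t) = t - (x 2 - τ (pt y (x 2))) := fun y hy t ht => by
    have h5 := LG_shift hb (h3 y hy).1 (s := t - x 2)
      ((abs_add_le _ _).trans_lt (by linarith [(h3 y hy).2]))
    rw [pt_add_smul_e3, add_sub_cancel] at h5
    exact ⟨h5.1, by rw [h5.2]; ring⟩
  refine ⟨ρ, ε / 2, fun y => x 2 - τ (pt y (x 2)), hρ, by positivity, fun y hy => ?_,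
    by simp only [pt_pr, h0, sub_zero], fun y hy => ?_⟩
  · have h5 : ContDiff ℝ ∞ fun y : ℂ => pt y (x 2) :=
      ptL.contDiff.comp (contDiff_id.prodMk contDiff_const)
    exact (contDiffAt_const.sub (ContDiffAt.comp (f := fun y : ℂ => pt y (x 2)) y
      (hb.an_τ _ (h3 y hy).1).contDiffAt h5.contDiffAt)).contDiffWithinAt
  · have h5 : |x 2 - τ (pt y (x 2)) - x 2| < ε / 2 := by
      rw [sub_sub_cancel_left, abs_neg]
      linarith [(h3 y hy).2]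
    obtain ⟨h6, h7⟩ := h4 y hy _ h5
    rw [sub_self] at h7
    obtain ⟨h8, h9⟩ := hd _ ⟨(hS _ h6).1.2 h7, h6⟩
    rw [e3_inner] at h8 h9
    refine ⟨h5, h8.ne', fun w => ?_, fun t ht => ?_⟩
    · have e1 : (fun y' => x 2 - τ (pt y' (x 2))) =ᶠ[𝓝 y] fun y' =>
          (x 2 - τ (pt y (x 2))) - τ (pt y' (x 2 - τ (pt y (x 2)))) := by
        filter_upwards [isOpen_ball.mem_nhds hy] with y' hy'
        rw [(h4 y' hy' _ h5).2]
        ring
      have e2 := (HasFDerivAt.comp (f := fun y' : ℂ => pt y' (x 2 - τ (pt y (x 2)))) y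
        (hb.an_τ _ h6).differentiableAt.hasFDerivAt (LG_pt _ y)).const_sub
        (x 2 - τ (pt y (x 2)))
      rw [(e2.congr_of_eventuallyEq e1).fderiv, neg_div]
      change -(fderiv ℝ τ _ (pt w 0)) = _
      rw [h9, real_inner_comm, inner_pt, mul_zero, add_zero]
    · rw [(hS _ (h4 y hy t ht).1).1, (h4 y hy t ht).2, sub_eq_zero]

/- Hint. WLOG N x 2 > 0 (swap). LOCS with v = e3: tau (z + s e3) = tau z + s whenever z in U and |tau z +
s| < eps (Box.left, Box.right). Put u y = x 2 - tau (pt y (x 2)); for y near pr x, |tau (pt y (x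
2))| < eps/4, del = eps/2; tau (pt y t) = t - u y for |t - x 2| < del. Derivative: differentiate
tau (pt y (u y)) = 0 and use the formula for fderiv tau (inner_pt). Analytic implies ContDiffOn. -/
theorem lg_of (hLOCS : S_LOCS) : S_LG := by
  intro M x hx hN
  rcases lt_or_gt_of_ne hN with h | h
  · obtain ⟨ρ, δ, u, h1, h2, h3, h4, h5⟩ := LG_pos hLOCS M.swap x hx (neg_pos.2 h)
    refine ⟨ρ, δ, u, h1, h2, h3, h4, fun y hy => ?_⟩
    obtain ⟨h6, h7, h8, h9⟩ := h5 y hy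
    refine ⟨h6, neg_ne_zero.1 h7, fun w => ?_, h9⟩
    rw [h8 w]
    change -⟪pr (-M.N (pt y (u y))), w⟫ / -M.N (pt y (u y)) 2 = _
    rw [pr_neg, inner_neg_left, neg_div_neg_eq]
  · exact LG_pos hLOCS M x hx h

end MW
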