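import Pool.Agent.P.MP_064970_gt.I.SX

open scoped Manifold ContDiff
open MeasureTheory Set Filter Topology Metric
open scoped RealInnerProductSpace ENNReal ComplexConjugate Real

noncomputable section

namespace MW

universe u

/- Hint. Assemble the Surf: O, S, W, W', N from LIM1, charts from LIM2 (Emb, nrm_iff), mu from MEASS (limS
measurable); Conv from LIM1 and LIMM; Bd from LIMB. -/
theorem lim_of (hLIM1 : S_LIM1) (hLIM2 : S_LIM2) (hMEASS : S_MEASS) (hLIMM : S_LIMM) (hLIMB :
    S_LIMB) : S_LIM := by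
  intro U Mk hMk
  obtain ⟨hO, hW, hW', hcov, hd, hdS, hdS', hKW, hKW', N, hNm, hNc, hNu, hside, hpts⟩ :=
    hLIM1 U Mk hMk
  have hch := hLIM2 U Mk N hMk hpts
  have hS : limS U Mk = limO U Mk \ (limW U Mk ∪ limW' U Mk) := by
    ext x
    constructor
    · intro hx
      refine ⟨hx.1, ?_⟩
      rintro (h | h)
      · exact disjoint_left.1 hdS h hx
      · exact disjoint_left.1 hdS' h hx
    · rintro ⟨h1, h2⟩
      rw [hcov] at h1
      exact h1.resolve_left h2
  have hSm : MeasurableSet (limS U Mk) := by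
    rw [hS]
    exact hO.measurableSet.diff (hW.union hW').measurableSet
  obtain ⟨μ, hμ0, hμ⟩ := hMEASS (limS U Mk) hSm fun p hp => by
    obtain ⟨c, -, -, -, h0, he, -⟩ := hch p hp
    exact ⟨c, h0, he⟩
  let M : Surf :=
    { O := limO U Mk
      S := limS U Mk
      N := N
      W := limW U Mk
      W' := limW' U Mk
      μ := μ
      isOpen_O := hO
      isOpen_W := hW
      isOpen_W' := hW'
      cover := hcov
      disj := hd
      disjS := hdS
      disjS' := hdS'
      N_meas := hNm
      N_cont := hNc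
      N_unit := hNu
      side := hside
      chart := fun p hp => by
        obtain ⟨c, -, -, -, h0, he, hn, -⟩ := hch p hp
        exact ⟨c, h0, he.inj, he.opn, fun z hz => (c.nrm_iff z _).2 (hn z hz), hμ c he⟩
      conc := hμ0 }
  have hconv : Conv (U : Filter ℕ) Mk M := ⟨hpts, hKW, hKW', hLIMM U Mk M hMk rfl rfl hpts⟩
  exact ⟨M, rfl, (hLIMB U Mk M (fun k => (hMk k).bd) hconv).1, hconv⟩

end MW
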