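import Pool.Agent.P.MP_064970_gt.I.SX

open scoped Manifold ContDiff
open MeasureTheory Set Filter Topology Metric
open scoped RealInnerProductSpace ENNReal ComplexConjugate Real

noncomputable section

namespace MW

universe u

theorem riga_of (hMONOC : S_MONOC) (hFLAT1 : S_FLAT1) (hPLEXT : S_PLEXT) : S_RIGA := by
  intro M S₁ hO hsub hU hU' hθ p hp
  obtain ⟨-, -, h3⟩ := hMONOC M S₁ hO hsub hU hU'
  obtain ⟨U, hUo, hUe⟩ := hU
  obtain ⟨U', hUo', hUe'⟩ := hU'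
  have hpl : ∀ x ∈ S₁, ⟪x - p, M.N p⟫ = 0 := fun x hx => by
    have := h3 x hx (hθ x) p hp
    rw [← neg_sub, inner_neg_left, this, neg_zero]
  have hne : M.N p ≠ 0 := fun h => by simpa [h] using M.N_unit p (hsub hp)
  have hev : ∀ᶠ y in 𝓝[M.S] p, ⟪y - p, M.N p⟫ = 0 := by
    have hpU : p ∈ U := (hUe ▸ hp : p ∈ M.S ∩ U).2
    filter_upwards [self_mem_nhdsWithin, mem_nhdsWithin_of_mem_nhds (hUo.mem_nhds hpU)]
      with y h1 h2
    exact hpl y (hUe ▸ ⟨h1, h2⟩)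
  have hflat := ((hFLAT1 M p (hsub hp)).2.2.1 (M.N p) hne hev).1
  set P : Set E := {x | ⟪x - p, M.N p⟫ = 0} with hP
  have hconv : Convex ℝ P := by
    intro x hx y hy a b _ _ hab
    have hx' : ⟪x - p, M.N p⟫ = 0 := hx
    have hy' : ⟪y - p, M.N p⟫ = 0 := hy
    have : a • x + b • y - p = a • (x - p) + b • (y - p) := by
      rw [smul_sub, smul_sub]
      have : p = a • p + b • p := by rw [← add_smul, hab, one_smul]
      conv_lhs => rw [this]
      abel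
    show ⟪a • x + b • y - p, M.N p⟫ = 0
    rw [this, inner_add_left, inner_smul_left, inner_smul_left, hx', hy']; simp
  have hpP : p ∈ P := by simp [hP]
  have hext := hPLEXT.2 M P p hconv.isPreconnected (by rw [hO]; exact subset_univ _) hpP
    (hsub hp) hflat (fun y hy => hy)
  have hPS : P ⊆ S₁ := by
    intro y hy
    by_contra hy1
    have hcov : P ⊆ U ∪ U' := fun x hx => by
      by_cases h : x ∈ S₁
      · exact Or.inl (hUe ▸ h : x ∈ M.S ∩ U).2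
      · exact Or.inr (hUe' ▸ (⟨(hext x hx).1, h⟩ : x ∈ M.S \ S₁) : x ∈ M.S ∩ U').2
    obtain ⟨z, hz, hz1, hz2⟩ := hconv.isPreconnected U U' hUo hUo' hcov
      ⟨p, hpP, (hUe ▸ hp : p ∈ M.S ∩ U).2⟩
      ⟨y, hy, (hUe' ▸ (⟨(hext y hy).1, hy1⟩ : y ∈ M.S \ S₁) : y ∈ M.S ∩ U').2⟩
    have a1 : z ∈ S₁ := hUe ▸ ⟨(hext z hz).1, hz1⟩
    have a2 : z ∈ M.S \ S₁ := hUe' ▸ ⟨(hext z hz).1, hz2⟩
    exact a2.2 a1
  refine ⟨Subset.antisymm hpl hPS, fun x hx => ?_⟩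
  exact (hext x (hpl x hx)).2.self_of_nhdsWithin (hsub hx)

end MW
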