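import Pool.Agent.P.MP_064970_gt.SI

/-! Infrastructure (section 1 of the paper): cross product, auxiliary notions and the
intermediate statements. -/

open scoped Manifold ContDiff
open MeasureTheory Set Filter Topology Metric
open scoped RealInnerProductSpace ENNReal ComplexConjugate Real

noncomputable section

namespace MW

universe u

/-- The cross product. -/
def cr (a b : E) : E :=
  WithLp.toLp 2 ![a 1 * b 2 - a 2 * b 1, a 2 * b 0 - a 0 * b 2, a 0 * b 1 - a 1 * b 0]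

@[simp] lemma cr_0 (a b : E) : cr a b 0 = a 1 * b 2 - a 2 * b 1 := rfl
@[simp] lemma cr_1 (a b : E) : cr a b 1 = a 2 * b 0 - a 0 * b 2 := rfl
@[simp] lemma cr_2 (a b : E) : cr a b 2 = a 0 * b 1 - a 1 * b 0 := rfl

lemma E_ext {a b : E} (h0 : a 0 = b 0) (h1 : a 1 = b 1) (h2 : a 2 = b 2) : a = b := by
  ext i; fin_cases i <;> assumption

lemma norm_sq_E (x : E) : ‖x‖ ^ 2 = x 0 ^ 2 + x 1 ^ 2 + x 2 ^ 2 := by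
  rw [← real_inner_self_eq_norm_sq, inner_eq]; ring

/-- The cross product as a continuous bilinear map. -/
def crL : E →L[ℝ] E →L[ℝ] E :=
  LinearMap.toContinuousLinearMap
    { toFun := fun a => LinearMap.toContinuousLinearMap
        { toFun := fun b => cr a b
          map_add' := fun x y => by apply E_ext <;> simp <;> ring
          map_smul' := fun c x => by apply E_ext <;> simp <;> ring }
      map_add' := fun x y => by ext1 b; apply E_ext <;> simp <;> ring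
      map_smul' := fun c x => by ext1 b; apply E_ext <;> simp <;> ring }

@[simp] lemma crL_apply (a b : E) : crL a b = cr a b := rfl

lemma inner_cr_left (a b : E) : ⟪a, cr a b⟫ = 0 := by rw [inner_eq]; simp; ring
lemma inner_cr_right (a b : E) : ⟪b, cr a b⟫ = 0 := by rw [inner_eq]; simp; ring
lemma inner_cr_perm (a b c : E) : ⟪a, cr b c⟫ = ⟪b, cr c a⟫ := by
  rw [inner_eq, inner_eq]; simp; ring
lemma cr_anti (a b : E) : cr a b = -cr b a := by apply E_ext <;> simp <;> ring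

lemma norm_sq_cr (a b : E) : ‖cr a b‖ ^ 2 = ‖a‖ ^ 2 * ‖b‖ ^ 2 - ⟪a, b⟫ ^ 2 := by
  rw [norm_sq_E, norm_sq_E, norm_sq_E, inner_eq]; simp; ring

lemma norm_cr_le (a b : E) : ‖cr a b‖ ≤ ‖a‖ * ‖b‖ := by
  refine (abs_le_of_sq_le_sq' ?_ (by positivity)).2
  rw [norm_sq_cr, mul_pow]; nlinarith [sq_nonneg ⟪a, b⟫]

lemma cr_cr (a b c : E) : cr a (cr b c) = ⟪a, c⟫ • b - ⟪a, b⟫ • c := by
  apply E_ext <;> simp [inner_eq] <;> ring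

lemma cr_cr' (a b c : E) : cr (cr a b) c = ⟪a, c⟫ • b - ⟪b, c⟫ • a := by
  apply E_ext <;> simp [inner_eq] <;> ring

/-- A vector orthogonal to `a` and `b` is parallel to their cross product. -/
lemma smul_eq_of_orth {n a b : E} (ha : ⟪n, a⟫ = 0) (hb : ⟪n, b⟫ = 0) :
    (‖cr a b‖ ^ 2) • n = ⟪n, cr a b⟫ • cr a b := by
  rw [inner_eq] at ha hb
  rw [norm_sq_E, inner_eq]
  apply E_ext <;> simp only [PiLp.smul_apply, smul_eq_mul, cr_0, cr_1, cr_2]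
  · linear_combination (b 1 * (a 0 * b 1 - a 1 * b 0) - b 2 * (a 2 * b 0 - a 0 * b 2)) * ha
      - (a 1 * (a 0 * b 1 - a 1 * b 0) - a 2 * (a 2 * b 0 - a 0 * b 2)) * hb
  · linear_combination (b 2 * (a 1 * b 2 - a 2 * b 1) - b 0 * (a 0 * b 1 - a 1 * b 0)) * ha
      - (a 2 * (a 1 * b 2 - a 2 * b 1) - a 0 * (a 0 * b 1 - a 1 * b 0)) * hb
  · linear_combination (b 0 * (a 2 * b 0 - a 0 * b 2) - b 1 * (a 1 * b 2 - a 2 * b 1)) * ha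
      - (a 0 * (a 2 * b 0 - a 0 * b 2) - a 1 * (a 1 * b 2 - a 2 * b 1)) * hb

/-- Area element of a parametrisation by a complex variable. -/
def gramC (Y : ℂ → E) (z : ℂ) : ℝ :=
  √(‖fderiv ℝ Y z 1‖ ^ 2 * ‖fderiv ℝ Y z Complex.I‖ ^ 2
    - ⟪fderiv ℝ Y z 1, fderiv ℝ Y z Complex.I⟫ ^ 2)

lemma gramC_eq (Y : ℂ → E) (z : ℂ) :
    gramC Y z = ‖cr (fderiv ℝ Y z 1) (fderiv ℝ Y z Complex.I)‖ := by
  rw [gramC, ← norm_sq_cr, Real.sqrt_sq (norm_nonneg _)]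

lemma Chart.DX_one (c : Chart) (z : ℂ) : c.DX z 1 = c.Xu z := by rw [c.DX_apply]; simp
lemma Chart.DX_I (c : Chart) (z : ℂ) : c.DX z Complex.I = c.Xv z := by rw [c.DX_apply]; simp

lemma Chart.norm_cr (c : Chart) {z : ℂ} (hz : z ∈ ball (0 : ℂ) c.r) :
    ‖cr (c.Xu z) (c.Xv z)‖ = c.jac z := by
  have h := norm_sq_cr (c.Xu z) (c.Xv z)
  rw [c.norm_Xu_sq hz, c.norm_Xv_sq hz, c.inner_Xu_Xv hz] at h
  exact (pow_left_inj₀ (norm_nonneg _) (c.jac_nonneg z) two_ne_zero).1 (by rw [h]; ring)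

lemma Chart.gramC_X (c : Chart) {z : ℂ} (hz : z ∈ ball (0 : ℂ) c.r) : gramC c.X z = c.jac z := by
  rw [gramC_eq, (c.hasFDerivAt_X hz).fderiv, c.DX_one, c.DX_I, c.norm_cr hz]

/-- A product neighbourhood `U = {X z + t v}` with analytic coordinates `(ω, τ)`. -/
structure Box (c : Chart) (z0 : ℂ) (v : E) (ε : ℝ) (U : Set E) (om : E → ℂ) (τ : E → ℝ) :
    Prop where
  pos : 0 < ε
  sub : ball z0 ε ⊆ ball 0 c.r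
  opn : IsOpen U
  an_om : AnalyticOnNhd ℝ om U
  an_τ : AnalyticOnNhd ℝ τ U
  left : ∀ x ∈ U, om x ∈ ball z0 ε ∧ |τ x| < ε ∧ c.X (om x) + τ x • v = x
  right : ∀ z ∈ ball z0 ε, ∀ t : ℝ, |t| < ε →
    c.X z + t • v ∈ U ∧ om (c.X z + t • v) = z ∧ τ (c.X z + t • v) = t

/-- Two-sided Lipschitz bound of a chart. -/
def Chart.BiLip (c : Chart) : Prop :=
  ∀ z ∈ ball (0 : ℂ) c.r, ∀ w ∈ ball (0 : ℂ) c.r,
    ‖z - w‖ / 2 ≤ ‖c.X z - c.X w‖ ∧ ‖c.X z - c.X w‖ ≤ 2 * ‖z - w‖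

/-- `g` is locally the restriction of a `C¹` function of space, with derivative `D`. -/
def LocAmb {Ω : Type u} [TopologicalSpace Ω] (f : Ω → E) (g : Ω → ℝ) (D : Ω → E →L[ℝ] ℝ) : Prop :=
  ∀ y, ∃ G : E → ℝ, ContDiff ℝ 1 G ∧ ∀ᶠ y' in 𝓝 y, g y' = G (f y') ∧ D y' = fderiv ℝ G (f y')

/-- Directional derivative. -/
def dd (w : ℂ) (Y : ℂ → E) (z : ℂ) : E := fderiv ℝ Y z w

/-- The minimal surface equation for a parametrisation by a complex variable. -/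
def MinEq (Y : ℂ → E) (z : ℂ) : Prop :=
  ∀ n : E, ⟪n, dd 1 Y z⟫ = 0 → ⟪n, dd Complex.I Y z⟫ = 0 →
    ⟪dd Complex.I Y z, dd Complex.I Y z⟫ * ⟪n, dd 1 (dd 1 Y) z⟫
      - 2 * ⟪dd 1 Y z, dd Complex.I Y z⟫ * ⟪n, dd Complex.I (dd 1 Y) z⟫
      + ⟪dd 1 Y z, dd 1 Y z⟫ * ⟪n, dd Complex.I (dd Complex.I Y) z⟫ = 0

/-- Convergence of points and normals to the limit set. -/
def LimPts (U : Filter ℕ) (Mk : ℕ → Surf) (N : E → E) : Prop :=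
  ∀ (xk : ℕ → E) (x : E), (∀ᶠ k in U, xk k ∈ (Mk k).S) → Tendsto xk U (𝓝 x) →
    x ∈ limO U Mk → x ∈ limS U Mk ∧ Tendsto (fun k => (Mk k).N (xk k)) U (𝓝 (N x))

/-! ### Local structure -/

/-- Product neighbourhoods in a transversal direction. -/
def S_BOX : Prop := ∀ (c : Chart) (z0 : ℂ), z0 ∈ ball (0 : ℂ) c.r → ∀ v n : E,
  ⟪n, c.Xu z0⟫ = 0 → ⟪n, c.Xv z0⟫ = 0 → ⟪v, n⟫ ≠ 0 → ∀ G ∈ 𝓝 (c.X z0),
    ∀ᶠ ε in 𝓝[>] (0 : ℝ), ∃ (U : Set E) (om : E → ℂ) (τ : E → ℝ), Box c z0 v ε U om τ ∧ U ⊆ G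

/-- Product neighbourhoods of the centre of an embedded chart. -/
def S_BOXE : Prop := ∀ (S : Set E) (c : Chart), c.Emb S → ∀ v n : E, ⟪n, c.Xu 0⟫ = 0 →
  ⟪n, c.Xv 0⟫ = 0 → ⟪v, n⟫ ≠ 0 → ∀ G ∈ 𝓝 (c.X 0),
  ∃ (ε : ℝ) (U : Set E) (om : E → ℂ) (τ : E → ℝ), Box c 0 v ε U om τ ∧ c.X 0 ∈ U ∧ U ⊆ G ∧
    (∀ x ∈ U, x ∈ S ↔ τ x = 0) ∧ IsPreconnected {x | x ∈ U ∧ 0 < τ x} ∧
    IsPreconnected {x | x ∈ U ∧ τ x < 0} ∧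
    ∀ z ∈ ball (0 : ℂ) ε, ∀ m : E, ‖m‖ = 1 → ⟪m, c.Xu z⟫ = 0 → ⟪m, c.Xv z⟫ = 0 →
      ⟪v, m⟫ ≠ 0 ∧ ∀ w : E, fderiv ℝ τ (c.X z) w = ⟪w, m⟫ / ⟪v, m⟫

/-- Product neighbourhoods of a point of a surface, with the sides. -/
def S_LOCS : Prop := ∀ (M : Surf) (p : E), p ∈ M.S → ∀ v : E, 0 < ⟪v, M.N p⟫ → ∀ G ∈ 𝓝 p,
  ∃ (c : Chart) (ε : ℝ) (U : Set E) (om : E → ℂ) (τ : E → ℝ), c.X 0 = p ∧
    c.Fits M.S M.N M.μ ∧ Box c 0 v ε U om τ ∧ p ∈ U ∧ U ⊆ G ∧ U ⊆ M.O ∧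
    (∀ x ∈ U, (x ∈ M.S ↔ τ x = 0) ∧ (x ∈ M.W' ↔ 0 < τ x) ∧ (x ∈ M.W ↔ τ x < 0)) ∧
    ∀ x ∈ M.S ∩ U, 0 < ⟪v, M.N x⟫ ∧ ∀ w : E, fderiv ℝ τ x w = ⟪w, M.N x⟫ / ⟪v, M.N x⟫

/-- Change of parameters in one chart. -/
def S_COMPAT : Prop := ∀ (c : Chart) (Y : ℂ → E) (g : ℂ → ℂ) (D : Set ℂ), IsOpen D →
  ContinuousOn g D → MapsTo g D (ball 0 c.r) → (∀ z ∈ D, c.X (g z) = Y z) →
  DifferentiableOn ℝ Y D →
    DifferentiableOn ℝ g D ∧ (∀ z ∈ D, fderiv ℝ Y z = (c.DX (g z)).comp (fderiv ℝ g z)) ∧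
    (InjOn g D → ∀ B : Set ℂ, MeasurableSet B → B ⊆ D →
      ∫⁻ z in g '' B, ENNReal.ofReal (c.jac z) = ∫⁻ z in B, ENNReal.ofReal (gramC Y z))

/-- An embedded chart is a chart of the subtype. -/
def S_TOP : Prop := ∀ (S : Set E) (c : Chart), c.Emb S →
  ∃ c' : PChart (Subtype.val : S → E), c'.toChart = c

/-- Integration in an abstract chart. -/
def S_PINT : Prop := ∀ (Ω : Type u) [TopologicalSpace Ω] [MeasurableSpace Ω] [BorelSpace Ω]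
  (f : Ω → E) (m : Measure Ω) (c : PChart f),
  (∀ A : Set ℂ, MeasurableSet A → A ⊆ ball 0 c.r →
    m (c.ψ '' A) = ∫⁻ z in A, ENNReal.ofReal (c.jac z)) →
  (∀ K : Set ℂ, IsCompact K → K ⊆ ball 0 c.r → m (c.ψ '' K) < ⊤) ∧
  ∀ A : Set ℂ, MeasurableSet A → A ⊆ ball 0 c.r → MeasurableSet (c.ψ '' A) ∧
    (∀ g : Ω → ℝ≥0∞, Measurable g →
      ∫⁻ y in c.ψ '' A, g y ∂m = ∫⁻ z in A, g (c.ψ z) * ENNReal.ofReal (c.jac z)) ∧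
    ∀ g : Ω → ℝ, Measurable g →
      (IntegrableOn g (c.ψ '' A) m ↔ IntegrableOn (fun z => g (c.ψ z) * c.jac z) A) ∧
      ∫ y in c.ψ '' A, g y ∂m = ∫ z in A, g (c.ψ z) * c.jac z

/-- Arbitrary parametrisations of pieces of a surface; every embedded chart fits. -/
def S_PARAM : Prop := ∀ M : Surf,
  (∀ (Y : ℂ → E) (D : Set ℂ), IsOpen D → MapsTo Y D M.S → DifferentiableOn ℝ Y D →
    (∀ z ∈ D, ∀ w : ℂ, ⟪M.N (Y z), fderiv ℝ Y z w⟫ = 0) ∧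
    (InjOn Y D → ∀ B : Set ℂ, MeasurableSet B → B ⊆ D → MeasurableSet (Y '' B) ∧
      M.μ (Y '' B) = ∫⁻ z in B, ENNReal.ofReal (gramC Y z) ∧
      ∀ g : E → ℝ≥0∞, Measurable g →
        ∫⁻ x in Y '' B, g x ∂M.μ = ∫⁻ z in B, g (Y z) * ENNReal.ofReal (gramC Y z))) ∧
  ∀ c : Chart, c.Emb M.S → c.Fits M.S M.N M.μ

/-! ### First variation and monotonicity -/

/-- First variation in one chart. -/
def S_FVCH : Prop := ∀ (c : Chart) (g : ℂ → ℝ) (K : Set ℂ), IsCompact K → K ⊆ ball 0 c.r →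
  ContDiffOn ℝ 1 g (ball 0 c.r) → (∀ z ∈ ball (0 : ℂ) c.r, z ∉ K → g z = 0) → ∀ v : E,
    ∫ z in ball (0 : ℂ) c.r,
      (fderiv ℝ g z 1 * ⟪v, c.Xu z⟫ + fderiv ℝ g z Complex.I * ⟪v, c.Xv z⟫) = 0

/-- First variation for a function supported in one abstract chart. -/
def S_FVL : Prop := ∀ (Ω : Type u) [TopologicalSpace Ω] [T2Space Ω] [MeasurableSpace Ω]
  [BorelSpace Ω] (f n : Ω → E) (m : Measure Ω) (c : PChart f), Continuous f → Measurable n →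
  (∀ p, ‖n p‖ = 1) →
  (∀ z ∈ ball (0 : ℂ) c.r, ⟪n (c.ψ z), c.Xu z⟫ = 0 ∧ ⟪n (c.ψ z), c.Xv z⟫ = 0) →
  (∀ A : Set ℂ, MeasurableSet A → A ⊆ ball 0 c.r →
    m (c.ψ '' A) = ∫⁻ z in A, ENNReal.ofReal (c.jac z)) →
  ∀ (g : Ω → ℝ) (D : Ω → E →L[ℝ] ℝ) (K : Set Ω), LocAmb f g D → IsCompact K → K ⊆ c.ψ.target →
    (∀ y, y ∉ K → g y = 0 ∧ D y = 0) → ∀ v : E,
      Integrable (fun y => D y v - ⟪n y, v⟫ * D y (n y)) m ∧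
      ∫ y, (D y v - ⟪n y, v⟫ * D y (n y)) ∂m = 0

/-- Bump functions on an abstract surface. -/
def S_BUMP : Prop := ∀ (Ω : Type u) [TopologicalSpace Ω] [T2Space Ω] (f : Ω → E) (c : PChart f),
  Continuous f → ∃ (β : Ω → ℝ) (D : Ω → E →L[ℝ] ℝ) (K U : Set Ω), LocAmb f β D ∧ IsCompact K ∧
    K ⊆ c.ψ.target ∧ (∀ y, y ∉ K → β y = 0 ∧ D y = 0) ∧ IsOpen U ∧ c.ψ 0 ∈ U ∧
    ∀ y ∈ U, β y = 1 ∧ D y = 0

/-- First variation of a stationary pair for vector fields. -/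
def S_FVV : Prop := ∀ (O : Set E) (V : Measure (E × E)), Stat O V → ∀ Z : E → E, ContDiff ℝ 1 Z →
  HasCompactSupport Z → tsupport Z ⊆ O →
    Integrable (fun q : E × E => dv Z q.1 - ⟪q.2, fderiv ℝ Z q.1 q.2⟫) V ∧
    ∫ q, (dv Z q.1 - ⟪q.2, fderiv ℝ Z q.1 q.2⟫) ∂V = 0

/-- The radial profile of the test field of the monotonicity formula. -/
def S_LAMB : Prop := ∀ r s : ℝ, 0 < r → r ≤ s → ∃ L : ℝ → ℝ, ContDiff ℝ 1 L ∧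
  (∀ t, s ^ 2 ≤ t → L t = 0 ∧ deriv L t = 0) ∧
  (∀ t, 0 ≤ t → L t + t * deriv L t = lam (t / s ^ 2) / s ^ 2 - lam (t / r ^ 2) / r ^ 2) ∧
  (∀ t, 0 ≤ t → 0 ≤ deriv L t ∧ deriv L t ≤ 2 / r ^ 4) ∧
  (4 * r ≤ s → ∀ t, 0 ≤ t → t ≤ s ^ 2 / 4 → 1 / (10 * s ^ 4) ≤ deriv L t) ∧
  ∀ t, r ^ 2 ≤ t → t ≤ s ^ 2 / 4 → 1 / (10 * t ^ 2) ≤ deriv L t

/-- Monotonicity and lower density for a relatively clopen part of a surface. -/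
def S_MONOC : Prop := ∀ (M : Surf) (S₁ : Set E), M.O = univ → S₁ ⊆ M.S →
  (∃ U, IsOpen U ∧ S₁ = M.S ∩ U) → (∃ U, IsOpen U ∧ M.S \ S₁ = M.S ∩ U) →
  (∀ (p : E) (r s : ℝ), 0 < r → r ≤ s →
    theta (M.μ.restrict S₁) p r ≤ theta (M.μ.restrict S₁) p s) ∧
  (∀ p ∈ S₁, ∀ r : ℝ, 0 < r → 1 ≤ theta (M.μ.restrict S₁) p r) ∧
  ∀ p ∈ S₁, (∀ r : ℝ, 0 < r → theta (M.μ.restrict S₁) p r ≤ 1) → ∀ x ∈ S₁, ⟪x - p, M.N x⟫ = 0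

/-! ### Graphs and quantitative charts -/

/-- The surface is a graph over its tangent plane in a ball where `Reg` holds. -/
def S_GRAPH : Prop := ∀ (M : Surf) (p : E) (r : ℝ) (A : E ≃ₗᵢ[ℝ] E), p ∈ M.S → 0 < r →
  ball p r ⊆ M.O → M.Reg p r → A e3 = M.N p →
  ∃ u : ℂ → ℝ, u 0 = 0 ∧ AnalyticOnNhd ℝ u (ball 0 (r / 2)) ∧
    ∀ y ∈ ball (0 : ℂ) (r / 2), p + A (pt y (u y)) ∈ M.S ∩ ball p r ∧ ‖fderiv ℝ u y‖ ≤ 1 / 8 ∧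
      ∀ t : ℝ, p + A (pt y t) ∈ M.S ∩ ball p r → t = u y

/-- The conjugate map of a parametrised piece of a surface over a convex set. -/
def S_CONJ : Prop := ∀ (M : Surf) (Y : ℂ → E) (D : Set ℂ), IsOpen D → Convex ℝ D →
  AnalyticOnNhd ℝ Y D → MapsTo Y D M.S →
  ∃ Z : ℂ → E, ∀ y ∈ D, HasFDerivAt Z ((crL (M.N (Y y))).comp (fderiv ℝ Y y)) y

/-- Conformal parameters from the conjugate map, quantitative form. -/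
def S_CONF : Prop := ∀ (Y Z n : ℂ → E) (y0 : ℂ) (ρ : ℝ) (a1 a2 : E), 0 < ρ → ‖a1‖ = 1 → ‖a2‖ = 1 →
  ⟪a1, a2⟫ = 0 → DifferentiableOn ℝ Y (ball y0 ρ) →
  (∀ y ∈ ball y0 ρ, HasFDerivAt Z ((crL (n y)).comp (fderiv ℝ Y y)) y) →
  (∀ y ∈ ball y0 ρ, ‖n y‖ = 1 ∧ ‖n y - cr a1 a2‖ ≤ 1 / 8 ∧ ∀ w : ℂ, ⟪n y, fderiv ℝ Y y w⟫ = 0 ∧
    ‖fderiv ℝ Y y w - (w.re • a1 + w.im • a2)‖ ≤ ‖w‖ / 8) →
  ∃ (c : Chart) (g : OpenPartialHomeomorph ℂ ℂ), c.r = ρ / 2 ∧ g.source = ball 0 (ρ / 2) ∧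
    g.target ⊆ ball y0 ρ ∧ g 0 = y0 ∧ c.BiLip ∧ (∀ i, c.Φ i 0 = (Y y0 i : ℝ)) ∧
    (∀ z ∈ ball (0 : ℂ) (ρ / 2), c.X z = Y (g z)) ∧ ball y0 (ρ / 4) ⊆ g.target

/-- Derivative bounds for bi-Lipschitz charts. -/
def S_BILIP : Prop := ∀ c : Chart, c.BiLip →
  (∀ z ∈ ball (0 : ℂ) c.r, 1 / 4 ≤ c.jac z ∧ c.jac z ≤ 4 ∧ ∀ i, ‖deriv (c.Φ i) z‖ ≤ 3) ∧
  ∀ z ∈ ball (0 : ℂ) (c.r / 2), ∀ w ∈ ball (0 : ℂ) (c.r / 2),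
    ‖c.Xu z - c.Xu w‖ ≤ 100 * ‖z - w‖ / c.r ∧ ‖c.Xv z - c.Xv w‖ ≤ 100 * ‖z - w‖ / c.r

/-- Interior estimate for the real part of a holomorphic function. -/
def S_HARM : Prop := ∃ C : ℝ, 0 < C ∧ ∀ (F : ℂ → ℂ) (s : ℝ), 0 < s →
  DifferentiableOn ℂ F (ball 0 (2 * s)) →
    |(F 0).re| + s * ‖deriv F 0‖ ≤ C / s ^ 2 * ∫ z in ball (0 : ℂ) s, |(F z).re|

/-! ### Area formula and Gauss–Green -/

/-- Almost every vertical line is regular. -/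
def S_RLINE : Prop := ∀ M : Surf, ∀ᵐ y : ℂ, ∀ t : ℝ, pt y t ∈ M.S → M.N (pt y t) 2 ≠ 0

open Classical in
/-- The area formula, summing over the transversal points only. -/
def S_AREA00 : Prop := ∀ (M : Surf) (g : E → ℝ≥0∞), Measurable g →
  (Measurable fun y : ℂ =>
    ∑' t : ℝ, if pt y t ∈ M.S ∧ M.N (pt y t) 2 ≠ 0 then g (pt y t) else 0) ∧
  ∫⁻ x, g x * ENNReal.ofReal |M.N x 2| ∂M.μ =
    ∫⁻ y : ℂ, ∑' t : ℝ, if pt y t ∈ M.S ∧ M.N (pt y t) 2 ≠ 0 then g (pt y t) else 0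

/-- The fundamental theorem of calculus on a line cut by finitely many points. -/
def S_LINE : Prop := ∀ (h : ℝ → ℝ) (w w' : Set ℝ) (T : Finset ℝ) (σ : ℝ → ℝ) (R : ℝ),
  ContDiff ℝ 1 h → (∀ t, R ≤ |t| → h t = 0) → IsOpen w → IsOpen w' → Disjoint w w' →
  (∀ t ∈ Icc (-R) R, t ∈ w ∨ t ∈ w' ∨ t ∈ T) →
  (∀ t ∈ T, (σ t = 1 ∧ (∀ᶠ s in 𝓝[<] t, s ∈ w) ∧ ∀ᶠ s in 𝓝[>] t, s ∈ w') ∨
    (σ t = -1 ∧ (∀ᶠ s in 𝓝[<] t, s ∈ w') ∧ ∀ᶠ s in 𝓝[>] t, s ∈ w)) →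
  ∫ t in w, deriv h t = ∑ t ∈ T, σ t * h t

/-- Gauss–Green in the vertical direction. -/
def S_GG3 : Prop := ∀ M : Surf, M.Mem → ∀ ζ : E → ℝ, ContDiff ℝ 1 ζ → HasCompactSupport ζ →
  ∫ x in M.W, fderiv ℝ ζ x e3 = ∫ x, ζ x * M.N x 2 ∂M.μ

/-! ### Limits -/

/-- The limit sets. -/
def S_LIM1A : Prop := ∀ (U : Ultrafilter ℕ) (Mk : ℕ → Surf), (∀ k, (Mk k).Mem) →
  IsOpen (limO U Mk) ∧ IsOpen (limW U Mk) ∧ IsOpen (limW' U Mk) ∧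
  limO U Mk = limW U Mk ∪ limW' U Mk ∪ limS U Mk ∧ Disjoint (limW U Mk) (limW' U Mk) ∧
  Disjoint (limW U Mk) (limS U Mk) ∧ Disjoint (limW' U Mk) (limS U Mk) ∧
  (∀ K : Set E, IsCompact K → K ⊆ limW U Mk → ∀ᶠ k in (U : Filter ℕ), K ⊆ (Mk k).W) ∧
  (∀ K : Set E, IsCompact K → K ⊆ limW' U Mk → ∀ᶠ k in (U : Filter ℕ), K ⊆ (Mk k).W') ∧
  (∀ x ∈ limS U Mk, ∃ xk : ℕ → E, (∀ᶠ k in (U : Filter ℕ), xk k ∈ (Mk k).S) ∧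
    Tendsto xk U (𝓝 x)) ∧
  ∀ (xk : ℕ → E) (x : E), (∀ᶠ k in (U : Filter ℕ), xk k ∈ (Mk k).S) → Tendsto xk U (𝓝 x) →
    x ∈ limO U Mk → x ∈ limS U Mk

/-- The limit normal. -/
def S_LIM1B : Prop := ∀ (U : Ultrafilter ℕ) (Mk : ℕ → Surf), (∀ k, (Mk k).Mem) →
  ∃ N : E → E, Measurable N ∧ ContinuousOn N (limS U Mk) ∧ (∀ x ∈ limS U Mk, ‖N x‖ = 1) ∧
    LimPts U Mk N ∧ ∀ x ∈ limS U Mk, ∀ ε : ℝ, 0 < ε → ∃ δ : ℝ, 0 < δ ∧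
      ∀ᶠ k in (U : Filter ℕ), ∀ y ∈ (Mk k).S ∩ ball x δ, ‖(Mk k).N y - N x‖ ≤ ε

/-- Ultrafilter limit of bi-Lipschitz charts. -/
def S_LIMC : Prop := ∀ (U : Ultrafilter ℕ) (ck : ℕ → Chart) (ρ : ℝ) (p : E), 0 < ρ →
  (∀ᶠ k in (U : Filter ℕ), (ck k).r = ρ ∧ (ck k).BiLip ∧ ∀ i, ((ck k).Φ i 0).im = 0) →
  Tendsto (fun k => (ck k).X 0) U (𝓝 p) →
  ∃ c : Chart, c.r = ρ ∧ c.BiLip ∧ c.X 0 = p ∧
    TendstoUniformlyOn (fun k => (ck k).X) c.X U (ball 0 ρ) ∧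
    TendstoUniformlyOn (fun k => (ck k).Xu) c.Xu U (ball 0 (ρ / 2)) ∧
    TendstoUniformlyOn (fun k => (ck k).Xv) c.Xv U (ball 0 (ρ / 2)) ∧
    TendstoUniformlyOn (fun k => (ck k).jac) c.jac U (ball 0 (ρ / 2))

/-- Convergence of the measures. -/
def S_LIMM : Prop := ∀ (U : Ultrafilter ℕ) (Mk : ℕ → Surf) (M : Surf), (∀ k, (Mk k).Mem) →
  M.O = limO U Mk → M.S = limS U Mk → LimPts U Mk M.N →
  ∀ (F : E × E → ℝ) (K : Set E), Continuous F → IsCompact K → K ⊆ M.O →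
    (∀ x n, x ∉ K → F (x, n) = 0) →
    Tendsto (fun k => ∫ x, F (x, (Mk k).N x) ∂(Mk k).μ) U (𝓝 (∫ x, F (x, M.N x) ∂M.μ))

/-- Semicontinuity of the mass of open sets. -/
def S_LIMB : Prop := ∀ (U : Ultrafilter ℕ) (Mk : ℕ → Surf) (M : Surf), (∀ k, (Mk k).Bd) →
  Conv (U : Filter ℕ) Mk M → M.Bd ∧
    ∀ (G : Set E) (b : ℝ≥0∞), IsOpen G → (∀ᶠ k in (U : Filter ℕ), (Mk k).μ G ≤ b) → M.μ G ≤ b

/-! ### Analytic facts -/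

/-- Identity theorem for a constant normal. -/
def S_IDC : Prop := ∀ (c : Chart) (ν : E) (z0 : ℂ), z0 ∈ ball (0 : ℂ) c.r →
  ((∀ᶠ z in 𝓝 z0, ⟪ν, c.Xu z⟫ = 0 ∧ ⟪ν, c.Xv z⟫ = 0) ∨ ∀ᶠ z in 𝓝 z0, ⟪ν, c.X z⟫ = ⟪ν, c.X z0⟫) →
  ∀ z ∈ ball (0 : ℂ) c.r, ⟪ν, c.Xu z⟫ = 0 ∧ ⟪ν, c.Xv z⟫ = 0 ∧ ⟪ν, c.X z⟫ = ⟪ν, c.X z0⟫

/-- If `κ X - p` is tangent and nonzero near a point, the chart is planar. -/
def S_FLATC : Prop := ∀ (c : Chart) (κ : ℝ) (p : E) (z0 : ℂ), z0 ∈ ball (0 : ℂ) c.r →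
  κ • c.X z0 - p ≠ 0 → (∀ᶠ z in 𝓝 z0, ⟪κ • c.X z - p, cr (c.Xu z) (c.Xv z)⟫ = 0) →
  ∃ ν : E, ‖ν‖ = 1 ∧ ∀ z ∈ ball (0 : ℂ) c.r, ⟪ν, c.Xu z⟫ = 0 ∧ ⟪ν, c.Xv z⟫ = 0

/-- Propagation of flatness along connected sets. -/
def S_PLEXT : Prop :=
  (∀ (M : Surf) (P : Set E) (x : E), IsPreconnected P → P ⊆ M.S → x ∈ P →
    (∀ᶠ y in 𝓝[M.S] x, M.N y = M.N x) →
    ∀ y ∈ P, (∀ᶠ z in 𝓝[M.S] y, M.N z = M.N x) ∧ ⟪y - x, M.N x⟫ = 0) ∧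
  ∀ (M : Surf) (P : Set E) (x : E), IsPreconnected P → P ⊆ M.O → x ∈ P → x ∈ M.S →
    (∀ᶠ y in 𝓝[M.S] x, M.N y = M.N x) → (∀ y ∈ P, ⟪y - x, M.N x⟫ = 0) →
    ∀ y ∈ P, y ∈ M.S ∧ ∀ᶠ z in 𝓝[M.S] y, M.N z = M.N x

/-- RIG1 for a relatively clopen part. -/
def S_RIGA : Prop := ∀ (M : Surf) (S₁ : Set E), M.O = univ → S₁ ⊆ M.S →
  (∃ U, IsOpen U ∧ S₁ = M.S ∩ U) → (∃ U, IsOpen U ∧ M.S \ S₁ = M.S ∩ U) →
  (∀ (p : E) (r : ℝ), 0 < r → theta (M.μ.restrict S₁) p r ≤ 1) → ∀ p ∈ S₁,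
    S₁ = {x | ⟪x - p, M.N p⟫ = 0} ∧ ∀ x ∈ S₁, M.N x = M.N p

/-! ### From the immersion to a member -/

/-- The two sides of a closed surface. -/
def S_SIDEFN : Prop := ∀ S : Set E, IsClosed S → (∀ p ∈ S, ∃ c : Chart, c.X 0 = p ∧ c.Emb S) →
  ∃ W W' : Set E, IsOpen W ∧ IsOpen W' ∧ univ = W ∪ W' ∪ S ∧ Disjoint W W' ∧ Disjoint W S ∧
    Disjoint W' S ∧ ∀ p ∈ S, p ∈ closure W ∧ p ∈ closure W'

/-- The normal that points from one side to the other. -/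
def S_SIDEN : Prop := ∀ S W W' : Set E, (∀ p ∈ S, ∃ c : Chart, c.X 0 = p ∧ c.Emb S) → IsOpen W →
  IsOpen W' → univ = W ∪ W' ∪ S → Disjoint W W' → Disjoint W S → Disjoint W' S →
  (∀ p ∈ S, p ∈ closure W ∧ p ∈ closure W') →
  ∃ N : E → E, Measurable N ∧ ContinuousOn N S ∧ (∀ x ∈ S, ‖N x‖ = 1) ∧
    (∀ x ∈ S, ∀ v : E, 0 < ⟪v, N x⟫ → ∀ᶠ t in 𝓝[>] (0 : ℝ), x + t • v ∈ W' ∧ x - t • v ∈ W) ∧
    ∀ c : Chart, c.Emb S → ∀ z ∈ ball (0 : ℂ) c.r,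
      ⟪N (c.X z), c.Xu z⟫ = 0 ∧ ⟪N (c.X z), c.Xv z⟫ = 0

/-- The conjugate map of a minimal immersion of a convex set. -/
def S_MINC : Prop := ∀ (Y : ℂ → E) (D : Set ℂ), IsOpen D → Convex ℝ D → ContDiffOn ℝ 2 Y D →
  (∀ z ∈ D, Function.Injective (fderiv ℝ Y z)) → (∀ z ∈ D, MinEq Y z) →
  ∃ n Z : ℂ → E, ContinuousOn n D ∧ ∀ z ∈ D, ‖n z‖ = 1 ∧ (∀ w : ℂ, ⟪n z, fderiv ℝ Y z w⟫ = 0) ∧
    HasFDerivAt Z ((crL (n z)).comp (fderiv ℝ Y z)) z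

/-- Conformal parameters, qualitative form. -/
def S_CONF0 : Prop := ∀ (Y : ℂ → E) (D : Set ℂ) (y0 : ℂ), IsOpen D → y0 ∈ D → ContDiffOn ℝ 2 Y D →
  (∀ z ∈ D, Function.Injective (fderiv ℝ Y z)) → (∀ z ∈ D, MinEq Y z) →
  ∃ (c : Chart) (g : OpenPartialHomeomorph ℂ ℂ), g.source = ball 0 c.r ∧ g.target ⊆ D ∧
    g 0 = y0 ∧ ∀ z ∈ ball (0 : ℂ) c.r, c.X z = Y (g z)

/-- At a double point the support function vanishes. -/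
def S_DBL1 : Prop := ∀ (Ω : Type u) [TopologicalSpace Ω] [T2Space Ω]
  [SecondCountableTopology Ω] [MeasurableSpace Ω] [BorelSpace Ω] (f : Ω → E)
  (m : Measure Ω), IsProperMap f → (∀ p, ∃ c : PChart f, c.ψ 0 = p) →
  (∀ (c : PChart f) (A : Set ℂ), MeasurableSet A → A ⊆ ball 0 c.r →
    m (c.ψ '' A) = ∫⁻ z in A, ENNReal.ofReal (c.jac z)) →
  (∀ (p : E) (r : ℝ), 0 < r → m (f ⁻¹' ball p r) ≤ ENNReal.ofReal (2 * π * r ^ 2)) →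
  ∀ y₁ y₂ : Ω, y₁ ≠ y₂ → f y₁ = f y₂ → ∀ c : PChart f, ∀ z ∈ ball (0 : ℂ) c.r,
    ⟪c.X z - f y₁, cr (c.Xu z) (c.Xv z)⟫ = 0

/-- A proper local homeomorphism from a connected space to the plane is injective. -/
def S_COV0 : Prop := ∀ (Ω : Type u) [TopologicalSpace Ω] [T2Space Ω] [ConnectedSpace Ω]
  (g : Ω → ℂ), IsProperMap g → IsLocalHomeomorph g → Function.Injective g

/-- An injective proper conformal surface with the area bound is a member. -/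
def S_EMB2 : Prop := ∀ (Ω : Type u) [TopologicalSpace Ω] [MeasurableSpace Ω] [BorelSpace Ω]
  (f : Ω → E) (m : Measure Ω), IsProperMap f → (∀ p, ∃ c : PChart f, c.ψ 0 = p) →
  (∀ (c : PChart f) (A : Set ℂ), MeasurableSet A → A ⊆ ball 0 c.r →
    m (c.ψ '' A) = ∫⁻ z in A, ENNReal.ofReal (c.jac z)) →
  (∀ (p : E) (r : ℝ), 0 < r → m (f ⁻¹' ball p r) ≤ ENNReal.ofReal (2 * π * r ^ 2)) →
  Function.Injective f → ∃ M' : Surf, M'.Mem ∧ M'.S = range f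

/-! ### Extras for sections 2 to 6 -/

/-- A global smooth defining function; the surface is a Lebesgue null set. -/
def S_DEF : Prop := ∀ M : Surf, M.O = univ → volume M.S = 0 ∧ ∃ d : E → ℝ, ContDiff ℝ 3 d ∧
  (∀ x ∈ M.W, 0 < d x) ∧ (∀ x ∈ M.W', d x < 0) ∧
  ∀ x ∈ M.S, d x = 0 ∧ ∃ a : ℝ, 0 < a ∧ ∀ w : E, fderiv ℝ d x w = -a * ⟪w, M.N x⟫

/-- A unit field that extends the normal is divergence free on the surface. -/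
def S_DIVNU : Prop := ∀ (M : Surf) (x : E) (ν : E → E), x ∈ M.S → DifferentiableAt ℝ ν x →
  (∀ᶠ y in 𝓝 x, ‖ν y‖ = 1) → (∀ᶠ y in 𝓝[M.S] x, ν y = -M.N y) → dv ν x = 0

/-- Maximum principle for the Gauss map. -/
def S_GMAX : Prop := ∀ (M : Surf) (x : E), x ∈ M.S → M.N x 2 = 0 →
  (∀ᶠ y in 𝓝[M.S] x, 0 ≤ M.N y 2) → ∀ᶠ y in 𝓝[M.S] x, M.N y = M.N x

/-- A piece of one surface inside another one is open in it; global unique continuation; the set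
determines the measure. -/
def S_UCG : Prop :=
  (∀ (M M' : Surf) (x : E), x ∈ M.S → (∀ᶠ y in 𝓝[M.S] x, y ∈ M'.S) →
    ∀ᶠ y in 𝓝 x, (y ∈ M.S ↔ y ∈ M'.S)) ∧
  (∀ (M M' : Surf) (x : E), M'.O = univ → IsPreconnected M.S → x ∈ M.S →
    (∀ᶠ y in 𝓝[M.S] x, y ∈ M'.S) → M.S ⊆ M'.S) ∧
  (∀ (M M' : Surf) (x : E), M.O = univ → M'.O = univ → IsPreconnected M.S → IsPreconnected M'.S →
    x ∈ M.S → (∀ᶠ y in 𝓝[M.S] x, y ∈ M'.S) → M.S = M'.S) ∧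
  ∀ (M M' : Surf) (G : Set E), IsOpen G → M.S ∩ G = M'.S ∩ G → M.μ.restrict G = M'.μ.restrict G

/-- A connected member is determined by its set up to the swap. -/
def S_SAME : Prop := ∀ M M' : Surf, M.Mem → M'.Mem → M.S = M'.S → M.S.Nonempty →
  ((∀ x ∈ M.S, M'.N x = M.N x) → M'.W = M.W ∧ M'.W' = M.W') ∧
  (IsPreconnected M.S → ((∀ x ∈ M.S, M'.N x = M.N x) ∧ M'.W = M.W ∧ M'.W' = M.W') ∨
    ((∀ x ∈ M.S, M'.N x = -M.N x) ∧ M'.W = M.W' ∧ M'.W' = M.W))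

end MW
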